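import Pool.Agent.H333R2.St.DA11

/-! Facts about the anchor `𝔸_11`. -/

namespace Pool.Agent.H333R2.St

open Pool.Agent.H333R2.St.FC

private lemma hypA {V : Type} {G : SimpleGraph V} : (false = true → ¬ ∃ g, Anch G 8 g) := by simp

theorem a11 : Stmt_A11 := by
  intro V G hT hS f hf
  have he : EmbA G 11 DA11.adj f := emb_of_anch DA11.hadj hf
  have ty : ∀ {b : Bool} {m : ℕ} (_ : m < 11) {v : V}, Ty G 11 f b m v ↔ HTy G 11 f (msk 11 b m) v :=
    fun hm => ty_msk msk11 hf hm
  have cls : ∀ v, TyU G 11 f v ∨ ∃ b : Bool, ∃ m < 11, Ty G 11 f b m v := by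
    intro v
    obtain ⟨T, hT', hv⟩ := ver1_sound hT hS hypA he DA11.h1 v
    rcases DA11.htys T hT' with rfl | ⟨b, m, hm, rfl⟩
    · exact Or.inl (tyU_zero.2 hv)
    · exact Or.inr ⟨b, m, hm, (ty hm).2 hv⟩
  refine ⟨cls, ?_, ?_⟩
  · intro v w hv hvw
    rcases cls w with h | ⟨b, m, hm, hw⟩
    · exact h
    · exfalso
      obtain ⟨i, hi, hi'⟩ := DA11.htys0 b m hm
      have h1 := DA11.hU i hi
      rw [hi'] at h1
      have := (ver4b_sound hT hS hypA he h1 (tyU_zero.1 hv) ((ty hm).1 hw)).1 hvw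
      simp at this
  · intro b b' m hm m' hm' hMb v w hv hw
    -- index of the second type
    set k : ℕ := (if b' then 0 else 11) + m' with hk
    have hk22 : k < 22 := by rw [hk]; split_ifs <;> omega
    have hk1 : k % 11 = m' := by rw [hk]; split_ifs <;> omega
    have hk2 : DA11.bo (k / 11) = b' := by
      rw [hk]; unfold DA11.bo
      cases b'
      · have : (11 + m') / 11 = 1 := by omega
        simp [this]
      · simp only [if_true, Nat.zero_add, Nat.div_eq_of_lt hm', beq_self_eq_true]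
    have hMbB : DA11.MbB b b' ((m' + 11 - m) % 11) ≠ true := by
      intro h
      apply hMb
      unfold DA11.MbB at h
      unfold Mb
      revert h
      cases b <;> cases b' <;> simp <;> omega
    have fin : ∀ {ct : Ct}, (DA11.MbB b (DA11.bo (k / 11)) ((k % 11 + 11 - m) % 11) = true ∨
        ver4b 11 DA11.adj false (msk 11 b m) (msk 11 (DA11.bo (k / 11)) (k % 11))
          (((k % 11 + 11 - m) % 11) % 3 == 1) ct = true) → (G.Adj v w ↔ (m' + 11 - m) % 11 % 3 = 1) := by
      intro ct h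
      rw [hk1, hk2] at h
      rcases h with h | h
      · exact absurd h hMbB
      · rw [ver4b_sound hT hS hypA he h ((ty hm).1 hv) ((ty hm').1 hw)]
        simp
    cases b
    · interval_cases m
      · exact fin (DA11.hP_11 k hk22)
      · exact fin (DA11.hP_12 k hk22)
      · exact fin (DA11.hP_13 k hk22)
      · exact fin (DA11.hP_14 k hk22)
      · exact fin (DA11.hP_15 k hk22)
      · exact fin (DA11.hP_16 k hk22)
      · exact fin (DA11.hP_17 k hk22)
      · exact fin (DA11.hP_18 k hk22)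
      · exact fin (DA11.hP_19 k hk22)
      · exact fin (DA11.hP_20 k hk22)
      · exact fin (DA11.hP_21 k hk22)
    · interval_cases m
      · exact fin (DA11.hP_0 k hk22)
      · exact fin (DA11.hP_1 k hk22)
      · exact fin (DA11.hP_2 k hk22)
      · exact fin (DA11.hP_3 k hk22)
      · exact fin (DA11.hP_4 k hk22)
      · exact fin (DA11.hP_5 k hk22)
      · exact fin (DA11.hP_6 k hk22)
      · exact fin (DA11.hP_7 k hk22)
      · exact fin (DA11.hP_8 k hk22)
      · exact fin (DA11.hP_9 k hk22)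
      · exact fin (DA11.hP_10 k hk22)

theorem n11 : Stmt_N11 := by
  intro V G hT hS f hf hrule t1 t2 t3 x1 x2 y1 y2 s1 s2
  have he : EmbA G 11 DA11.adj f := emb_of_anch DA11.hadj hf
  have ty : ∀ {b : Bool} {m : ℕ} (_ : m < 11) {v : V}, Ty G 11 f b m v ↔ HTy G 11 f (msk 11 b m) v :=
    fun hm => ty_msk msk11 hf hm
  have hR : Rul G 11 f DA11.rules := by
    intro r hr z p q hz hp hq
    rw [DA11.hrules, List.mem_map] at hr
    obtain ⟨m, hm, rfl⟩ := hr
    have hm' : 4 ≤ m ∧ m ≤ 6 := by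
      simp only [List.mem_cons, List.not_mem_nil, or_false] at hm
      omega
    exact hrule m hm'.1 hm'.2 p q z ((ty (by omega)).2 hp) ((ty (by omega)).2 hq) ((ty (by omega)).2 hz)
  constructor
  · intro b b' ht hx hy
    have a1 := (ty (by norm_num)).1 (ht t1 (by simp))
    have a2 := (ty (by norm_num)).1 (ht t2 (by simp))
    have a3 := (ty (by norm_num)).1 (ht t3 (by simp))
    have b1 := (ty (by split_ifs <;> norm_num)).1 (hx x1 (by simp))
    have b2 := (ty (by split_ifs <;> norm_num)).1 (hx x2 (by simp))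
    have c1 := (ty (by norm_num)).1 (hy y1 (by simp))
    have c2 := (ty (by norm_num)).1 (hy y2 (by simp))
    cases b <;> cases b'
    · exact ver3b_sound hT hS he hR DA11.h3_100 a1 a2 a3 b1 b2 c1 c2 s1 s2
    · exact ver3b_sound hT hS he hR DA11.h3_101 a1 a2 a3 b1 b2 c1 c2 s1 s2
    · exact ver3b_sound hT hS he hR DA11.h3_110 a1 a2 a3 b1 b2 c1 c2 s1 s2
    · exact ver3b_sound hT hS he hR DA11.h3_111 a1 a2 a3 b1 b2 c1 c2 s1 s2
  · intro b b' ht hx hy
    have a1 := (ty (by norm_num)).1 (ht t1 (by simp))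
    have a2 := (ty (by norm_num)).1 (ht t2 (by simp))
    have a3 := (ty (by norm_num)).1 (ht t3 (by simp))
    have b1 := (ty (by split_ifs <;> norm_num)).1 (hx x1 (by simp))
    have b2 := (ty (by split_ifs <;> norm_num)).1 (hx x2 (by simp))
    have c1 := (ty (by norm_num)).1 (hy y1 (by simp))
    have c2 := (ty (by norm_num)).1 (hy y2 (by simp))
    cases b <;> cases b'
    · exact ver3b_sound hT hS he hR DA11.h3_000 a1 a2 a3 b1 b2 c1 c2 s1 s2
    · exact ver3b_sound hT hS he hR DA11.h3_001 a1 a2 a3 b1 b2 c1 c2 s1 s2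
    · exact ver3b_sound hT hS he hR DA11.h3_010 a1 a2 a3 b1 b2 c1 c2 s1 s2
    · exact ver3b_sound hT hS he hR DA11.h3_011 a1 a2 a3 b1 b2 c1 c2 s1 s2

end Pool.Agent.H333R2.St
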