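import Pool.Agent.H333R2.St.Defs

/-!
# Decoupling labels (task E1, helper439)
-/

namespace Pool.Agent.H333R2.St

open Finset Classical

theorem bondy : Stmt_Bondy := by
  intro V ι G τ b t1 t2 t3 h12 h13 h23
  unfold SameRow at h12 h13 h23
  push Not at h12 h13 h23
  obtain ⟨x, hx, hx'⟩ := h12
  obtain ⟨y, hy, hy'⟩ := h13
  obtain ⟨z, hz, hz'⟩ := h23
  by_cases hc : G.Adj t1 x ↔ G.Adj t3 x
  · refine ⟨x, y, hx, hy, ?_⟩
    unfold Sep
    tauto
  · refine ⟨x, z, hx, hz, ?_⟩
    unfold Sep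
    tauto

namespace ADT

/-- two representatives -/
theorem reps {V ι : Type} [Nonempty V] (G : SimpleGraph V) (τ : V → ι) (a b b' : ι)
    (h : NoThree G τ a b b') : ∃ p : Bool → V, ∀ t, τ t = a →
      (∃ s, SameRow G τ b t (p s)) ∨ ∃ s, SameRow G τ b' t (p s) := by
  by_cases h1 : ∃ p q, τ p = a ∧ τ q = a ∧ ¬ SameRow G τ b p q ∧ ¬ SameRow G τ b' p q
  · obtain ⟨p, q, hp, hq, hb, hb'⟩ := h1
    refine ⟨fun s => if s then p else q, fun t ht => ?_⟩
    by_contra hcon
    push Not at hcon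
    obtain ⟨hc1, hc2⟩ := hcon
    refine h t p q ht hp hq ?_ ?_ hb ?_ ?_ hb'
    · simpa using hc1 true
    · simpa using hc1 false
    · simpa using hc2 true
    · simpa using hc2 false
  · push Not at h1
    by_cases h2 : ∃ p, τ p = a
    · obtain ⟨p, hp⟩ := h2
      refine ⟨fun _ => p, fun t ht => ?_⟩
      by_cases h3 : SameRow G τ b t p
      · exact Or.inl ⟨true, h3⟩
      · exact Or.inr ⟨true, h1 t p ht hp h3⟩
    · refine ⟨fun _ => Classical.arbitrary V, fun t ht => ?_⟩
      exact absurd ⟨t, ht⟩ h2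

/-- indices of the representatives -/
abbrev Idx (D : ℕ) : Type := Fin (D + 1) × Fin (D + 1) × Bool

/-- labels -/
abbrev Lab (D : ℕ) : Type := (Fin (D + 1) → Option (Idx D)) × (Fin (D + 1) → Idx D → Bool)

theorem main (D : ℕ) {V ι κ : Type} [Nonempty V] (G : SimpleGraph V) (τ : V → ι)
    (knd : ι → ι → Option κ) (N : ι → Finset ι)
    (hs : ∀ a b, knd a b = knd b a) (hN : ∀ a, (N a).card ≤ D)
    (hkN : ∀ a b, knd a b ≠ none → b ∈ N a)
    (hthree : ∀ a b b', knd a b ≠ none → knd a b' ≠ none → knd a b ≠ knd a b' →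
      NoThree G τ a b b') :
    ∃ (lab : V → Lab D) (cl : V → Option κ),
    (∀ v k, cl v = some k → ∃ b, knd (τ v) b = some k) ∧
    ∀ v w v' w', τ v = τ v' → τ w = τ w' → lab v = lab v' → lab w = lab w' →
      cl v = cl v' → cl w = cl w' → knd (τ v) (τ w) ≠ none →
      ¬ (cl v = knd (τ v) (τ w) ∧ cl w = knd (τ v) (τ w)) → (G.Adj v w ↔ G.Adj v' w') := by
  haveI : Nonempty ι := ⟨τ (Classical.arbitrary V)⟩
  -- enumeration of the sets `N a`
  have he : ∀ a, ∃ e : ι → Fin (D + 1), Set.InjOn e (N a : Set ι) := by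
    intro a
    have h1 : Fintype.card (N a) ≤ Fintype.card (Fin (D + 1)) := by
      rw [Fintype.card_coe, Fintype.card_fin]
      exact le_trans (hN a) (Nat.le_succ D)
    obtain ⟨g⟩ := Function.Embedding.nonempty_of_card_le h1
    refine ⟨fun b => if hb : b ∈ N a then g ⟨b, hb⟩ else 0, ?_⟩
    intro b hb c hc hbc
    have hb' : b ∈ N a := hb
    have hc' : c ∈ N a := hc
    simp only [dif_pos hb', dif_pos hc'] at hbc
    exact congrArg Subtype.val (g.injective hbc)
  choose e he using he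
  let inv : ι → Fin (D + 1) → ι := fun a i => Function.invFunOn (e a) (N a : Set ι) i
  have hinv : ∀ a b, b ∈ N a → inv a (e a b) = b := by
    intro a b hb
    exact (he a).leftInvOn_invFunOn hb
  -- representatives
  have hrp : ∀ a b b', ∃ p : Bool → V, (knd a b ≠ none → knd a b' ≠ none →
      knd a b ≠ knd a b' → ∀ t, τ t = a →
      (∃ s, SameRow G τ b t (p s)) ∨ ∃ s, SameRow G τ b' t (p s)) := by
    intro a b b'
    by_cases h : knd a b ≠ none ∧ knd a b' ≠ none ∧ knd a b ≠ knd a b'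
    · obtain ⟨p, hp⟩ := reps G τ a b b' (hthree a b b' h.1 h.2.1 h.2.2)
      exact ⟨p, fun _ _ _ => hp⟩
    · exact ⟨fun _ => Classical.arbitrary V, fun h1 h2 h3 => absurd ⟨h1, h2, h3⟩ h⟩
  choose rp hrp using hrp
  let R : ι → Idx D → V := fun a r => rp a (inv a r.1) (inv a r.2.1) r.2.2
  let tame : V → ι → Prop := fun t b => ∃ r, SameRow G τ b t (R (τ t) r)
  have htame : ∀ t b b', knd (τ t) b ≠ none → knd (τ t) b' ≠ none →
      knd (τ t) b ≠ knd (τ t) b' → tame t b ∨ tame t b' := by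
    intro t b b' h1 h2 h3
    have hb := hkN _ _ h1
    have hb' := hkN _ _ h2
    rcases hrp (τ t) b b' h1 h2 h3 t rfl with ⟨s, hs1⟩ | ⟨s, hs1⟩
    · left
      refine ⟨(e (τ t) b, e (τ t) b', s), ?_⟩
      simp only [R]
      rw [hinv _ _ hb, hinv _ _ hb']
      exact hs1
    · right
      refine ⟨(e (τ t) b, e (τ t) b', s), ?_⟩
      simp only [R]
      rw [hinv _ _ hb, hinv _ _ hb']
      exact hs1
  let cl : V → Option κ := fun t =>
    if h : ∃ b, knd (τ t) b ≠ none ∧ ¬ tame t b then knd (τ t) (Classical.choose h) else none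
  have hclA : ∀ v k, cl v = some k → ∃ b, knd (τ v) b = some k := by
    intro v k hk
    simp only [cl] at hk
    split_ifs at hk with h
    exact ⟨_, hk⟩
  have hclB : ∀ t b, knd (τ t) b ≠ none → cl t ≠ knd (τ t) b → tame t b := by
    intro t b hb hne
    by_contra hcon
    have h : ∃ b, knd (τ t) b ≠ none ∧ ¬ tame t b := ⟨b, hb, hcon⟩
    have hsp := Classical.choose_spec h
    have hcl : cl t = knd (τ t) (Classical.choose h) := dif_pos h
    rw [hcl] at hne
    rcases htame t _ b hsp.1 hb hne with h1 | h1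
    · exact hsp.2 h1
    · exact hcon h1
  let lab : V → Lab D := fun t =>
    (fun i => if h : ∃ r, SameRow G τ (inv (τ t) i) t (R (τ t) r) then some (Classical.choose h)
      else none,
     fun i r => decide (G.Adj t (R (inv (τ t) i) r)))
  have hlab1 : ∀ t i r, (lab t).1 i = some r → SameRow G τ (inv (τ t) i) t (R (τ t) r) := by
    intro t i r h
    simp only [lab] at h
    split_ifs at h with h1
    · have h2 := Classical.choose_spec h1
      have h3 : Classical.choose h1 = r := Option.some.inj h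
      rw [h3] at h2
      exact h2
  have hlab2 : ∀ t i, (∃ r, SameRow G τ (inv (τ t) i) t (R (τ t) r)) → ∃ r,
      (lab t).1 i = some r := by
    intro t i h
    exact ⟨Classical.choose h, dif_pos h⟩
  have key : ∀ v w v' w', τ v = τ v' → τ w = τ w' → lab v = lab v' → lab w = lab w' →
      knd (τ v) (τ w) ≠ none → cl v ≠ knd (τ v) (τ w) → (G.Adj v w ↔ G.Adj v' w') := by
    intro v w v' w' hv hw hlv hlw hk hcl
    have h1 := hclB v (τ w) hk hcl
    have hwN := hkN _ _ hk
    have hvN : τ v ∈ N (τ w) := hkN _ _ (by rw [← hs]; exact hk)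
    obtain ⟨r, hr⟩ := hlab2 v (e (τ v) (τ w)) (by rw [hinv _ _ hwN]; exact h1)
    have h2 := hlab1 v _ r hr
    have hr' : (lab v').1 (e (τ v) (τ w)) = some r := by rw [← hlv]; exact hr
    have h3 := hlab1 v' _ r hr'
    rw [← hv] at h3
    rw [hinv _ _ hwN] at h2 h3
    have h4 : G.Adj w (R (τ v) r) ↔ G.Adj w' (R (τ v) r) := by
      have h5 : (lab w).2 (e (τ w) (τ v)) r = (lab w').2 (e (τ w) (τ v)) r := by rw [hlw]
      simp only [lab] at h5
      rw [← hw, hinv _ _ hvN] at h5
      exact decide_eq_decide.1 h5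
    rw [h2 w rfl, h3 w' hw.symm, G.adj_comm (R (τ v) r) w, G.adj_comm (R (τ v) r) w', h4]
  refine ⟨lab, cl, hclA, ?_⟩
  intro v w v' w' hv hw hlv hlw hcv hcw hk hn
  by_cases h : cl v = knd (τ v) (τ w)
  · have h1 : cl w ≠ knd (τ w) (τ v) := by
      intro h2
      exact hn ⟨h, by rw [h2, hs]⟩
    have h3 := key w v w' v' hw hv hlw hlv (by rw [← hs]; exact hk) h1
    rw [G.adj_comm v w, G.adj_comm v' w']
    exact h3
  · exact key v w v' w' hv hw hlv hlw hk h

end ADT

theorem adt : Stmt_ADT := by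
  intro D
  refine ⟨Fintype.card (ADT.Lab D), ?_⟩
  intro V ι κ _ G τ knd N hs hN hkN hthree
  by_cases hV : Nonempty V
  · obtain ⟨lab, cl, h1, h2⟩ := ADT.main D G τ knd N hs hN hkN hthree
    refine ⟨fun v => Fintype.equivFin (ADT.Lab D) (lab v), cl, h1, ?_⟩
    intro v w v' w' hv hw hlv hlw
    exact h2 v w v' w' hv hw ((Fintype.equivFin _).injective hlv)
      ((Fintype.equivFin _).injective hlw)
  · have hE : IsEmpty V := not_nonempty_iff.1 hV
    exact ⟨fun v => hE.elim v, fun v => hE.elim v, fun v => hE.elim v, fun v => hE.elim v⟩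

end Pool.Agent.H333R2.St
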