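import Pool.Agent.H333R2.St.FC4

/-! Embeddings of the anchors `(c)_1`, `(c)_2`. -/

namespace Pool.Agent.H333R2.St.FC

open Pool.Agent.H333R2.St

lemma tyT {V : Type} {G : SimpleGraph V} {f : ℕ → V} (hf : Anch G 5 f) {v : V}
    (h : Ty G 5 f true 0 v) : ¬ G.Adj v (f 0) ∧ G.Adj v (f 1) ∧ ¬ G.Adj v (f 2) ∧
      ¬ G.Adj v (f 3) ∧ G.Adj v (f 4) := by
  have hh := (ty_msk msk5 hf (by norm_num)).1 h
  have e : msk 5 true 0 = 18 := by decide
  rw [e] at hh
  refine ⟨?_, ?_, ?_, ?_, ?_⟩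
  · intro h'; have := (hh 0 (by norm_num)).1 h'; revert this; decide
  · exact (hh 1 (by norm_num)).2 (by decide)
  · intro h'; have := (hh 2 (by norm_num)).1 h'; revert this; decide
  · intro h'; have := (hh 3 (by norm_num)).1 h'; revert this; decide
  · exact (hh 4 (by norm_num)).2 (by decide)

lemma tyX {V : Type} {G : SimpleGraph V} {f : ℕ → V} (hf : Anch G 5 f) {v : V}
    (h : Ty G 5 f true 1 v) : G.Adj v (f 0) ∧ ¬ G.Adj v (f 1) ∧ G.Adj v (f 2) ∧
      ¬ G.Adj v (f 3) ∧ ¬ G.Adj v (f 4) := by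
  have hh := (ty_msk msk5 hf (by norm_num)).1 h
  have e : msk 5 true 1 = 5 := by decide
  rw [e] at hh
  refine ⟨?_, ?_, ?_, ?_, ?_⟩
  · exact (hh 0 (by norm_num)).2 (by decide)
  · intro h'; have := (hh 1 (by norm_num)).1 h'; revert this; decide
  · exact (hh 2 (by norm_num)).2 (by decide)
  · intro h'; have := (hh 3 (by norm_num)).1 h'; revert this; decide
  · intro h'; have := (hh 4 (by norm_num)).1 h'; revert this; decide

lemma tyUU {V : Type} {G : SimpleGraph V} {f : ℕ → V} {v : V}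
    (h : TyU G 5 f v) : ¬ G.Adj v (f 0) ∧ ¬ G.Adj v (f 1) ∧ ¬ G.Adj v (f 2) ∧
      ¬ G.Adj v (f 3) ∧ ¬ G.Adj v (f 4) :=
  ⟨h 0 (by norm_num), h 1 (by norm_num), h 2 (by norm_num), h 3 (by norm_num), h 4 (by norm_num)⟩

/-- the vertices of the anchor `(c)_1` -/
def e1 {V : Type} (f t x u : ℕ → V) : ℕ → V := fun i =>
  if i < 5 then f i else if (i - 5) % 3 = 0 then t ((i - 5) / 3) else if (i - 5) % 3 = 1 then x ((i - 5) / 3)
  else u ((i - 5) / 3)

lemma emb1 {V : Type} {G : SimpleGraph V} (hT : TF G) {f t x u : ℕ → V} (hf : CFam G f 1 t x u)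
    (hUI : ∀ a b, TyU G 5 f a → TyU G 5 f b → ¬ G.Adj a b) :
    EmbA G 8 [82, 37, 74, 20, 41, 146, 133, 96] (e1 f t x u) := by
  have T : ∀ i, i < 1 → ¬ G.Adj (t i) (f 0) ∧ G.Adj (t i) (f 1) ∧ ¬ G.Adj (t i) (f 2) ∧
      ¬ G.Adj (t i) (f 3) ∧ G.Adj (t i) (f 4) := fun i hi => tyT hf.1 (hf.2.1 i hi).1
  have X : ∀ i, i < 1 → G.Adj (x i) (f 0) ∧ ¬ G.Adj (x i) (f 1) ∧ G.Adj (x i) (f 2) ∧
      ¬ G.Adj (x i) (f 3) ∧ ¬ G.Adj (x i) (f 4) := fun i hi => tyX hf.1 (hf.2.1 i hi).2.1
  have U : ∀ i, i < 1 → ¬ G.Adj (u i) (f 0) ∧ ¬ G.Adj (u i) (f 1) ∧ ¬ G.Adj (u i) (f 2) ∧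
      ¬ G.Adj (u i) (f 3) ∧ ¬ G.Adj (u i) (f 4) := fun i hi => tyUU (hf.2.1 i hi).2.2.1
  intro i j hij hj
  interval_cases j <;> interval_cases i
  · exact (hf.1 0 1 (by norm_num) (by norm_num)).trans (by decide)
  · exact (hf.1 0 2 (by norm_num) (by norm_num)).trans (by decide)
  · exact (hf.1 1 2 (by norm_num) (by norm_num)).trans (by decide)
  · exact (hf.1 0 3 (by norm_num) (by norm_num)).trans (by decide)
  · exact (hf.1 1 3 (by norm_num) (by norm_num)).trans (by decide)
  · exact (hf.1 2 3 (by norm_num) (by norm_num)).trans (by decide)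
  · exact (hf.1 0 4 (by norm_num) (by norm_num)).trans (by decide)
  · exact (hf.1 1 4 (by norm_num) (by norm_num)).trans (by decide)
  · exact (hf.1 2 4 (by norm_num) (by norm_num)).trans (by decide)
  · exact (hf.1 3 4 (by norm_num) (by norm_num)).trans (by decide)
  · exact iff_of_false (fun h => (T 0 (by norm_num)).1 h.symm) (by decide)
  · exact iff_of_true ((T 0 (by norm_num)).2.1).symm (by decide)
  · exact iff_of_false (fun h => (T 0 (by norm_num)).2.2.1 h.symm) (by decide)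
  · exact iff_of_false (fun h => (T 0 (by norm_num)).2.2.2.1 h.symm) (by decide)
  · exact iff_of_true ((T 0 (by norm_num)).2.2.2.2).symm (by decide)
  · exact iff_of_true ((X 0 (by norm_num)).1).symm (by decide)
  · exact iff_of_false (fun h => (X 0 (by norm_num)).2.1 h.symm) (by decide)
  · exact iff_of_true ((X 0 (by norm_num)).2.2.1).symm (by decide)
  · exact iff_of_false (fun h => (X 0 (by norm_num)).2.2.2.1 h.symm) (by decide)
  · exact iff_of_false (fun h => (X 0 (by norm_num)).2.2.2.2 h.symm) (by decide)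
  · exact iff_of_false (fun h => hT _ _ _ (hf.2.1 0 (by norm_num)).2.2.2.1 h (hf.2.1 0 (by norm_num)).2.2.2.2) (by decide)
  · exact iff_of_false (fun h => (U 0 (by norm_num)).1 h.symm) (by decide)
  · exact iff_of_false (fun h => (U 0 (by norm_num)).2.1 h.symm) (by decide)
  · exact iff_of_false (fun h => (U 0 (by norm_num)).2.2.1 h.symm) (by decide)
  · exact iff_of_false (fun h => (U 0 (by norm_num)).2.2.2.1 h.symm) (by decide)
  · exact iff_of_false (fun h => (U 0 (by norm_num)).2.2.2.2 h.symm) (by decide)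
  · exact iff_of_true (hf.2.1 0 (by norm_num)).2.2.2.1.symm (by decide)
  · exact iff_of_true (hf.2.1 0 (by norm_num)).2.2.2.2.symm (by decide)

/-- the vertices of the anchor `(c)_2` -/
def e2 {V : Type} (f t x u : ℕ → V) : ℕ → V := fun i =>
  if i < 5 then f i else if (i - 5) % 3 = 0 then t ((i - 5) / 3) else if (i - 5) % 3 = 1 then x ((i - 5) / 3)
  else u ((i - 5) / 3)

lemma emb2 {V : Type} {G : SimpleGraph V} (hT : TF G) {f t x u : ℕ → V} (hf : CFam G f 2 t x u)
    (hUI : ∀ a b, TyU G 5 f a → TyU G 5 f b → ¬ G.Adj a b) :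
    EmbA G 11 [594, 293, 586, 20, 297, 658, 389, 96, 1106, 1061, 768] (e2 f t x u) := by
  have T : ∀ i, i < 2 → ¬ G.Adj (t i) (f 0) ∧ G.Adj (t i) (f 1) ∧ ¬ G.Adj (t i) (f 2) ∧
      ¬ G.Adj (t i) (f 3) ∧ G.Adj (t i) (f 4) := fun i hi => tyT hf.1 (hf.2.1 i hi).1
  have X : ∀ i, i < 2 → G.Adj (x i) (f 0) ∧ ¬ G.Adj (x i) (f 1) ∧ G.Adj (x i) (f 2) ∧
      ¬ G.Adj (x i) (f 3) ∧ ¬ G.Adj (x i) (f 4) := fun i hi => tyX hf.1 (hf.2.1 i hi).2.1
  have U : ∀ i, i < 2 → ¬ G.Adj (u i) (f 0) ∧ ¬ G.Adj (u i) (f 1) ∧ ¬ G.Adj (u i) (f 2) ∧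
      ¬ G.Adj (u i) (f 3) ∧ ¬ G.Adj (u i) (f 4) := fun i hi => tyUU (hf.2.1 i hi).2.2.1
  intro i j hij hj
  interval_cases j <;> interval_cases i
  · exact (hf.1 0 1 (by norm_num) (by norm_num)).trans (by decide)
  · exact (hf.1 0 2 (by norm_num) (by norm_num)).trans (by decide)
  · exact (hf.1 1 2 (by norm_num) (by norm_num)).trans (by decide)
  · exact (hf.1 0 3 (by norm_num) (by norm_num)).trans (by decide)
  · exact (hf.1 1 3 (by norm_num) (by norm_num)).trans (by decide)
  · exact (hf.1 2 3 (by norm_num) (by norm_num)).trans (by decide)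
  · exact (hf.1 0 4 (by norm_num) (by norm_num)).trans (by decide)
  · exact (hf.1 1 4 (by norm_num) (by norm_num)).trans (by decide)
  · exact (hf.1 2 4 (by norm_num) (by norm_num)).trans (by decide)
  · exact (hf.1 3 4 (by norm_num) (by norm_num)).trans (by decide)
  · exact iff_of_false (fun h => (T 0 (by norm_num)).1 h.symm) (by decide)
  · exact iff_of_true ((T 0 (by norm_num)).2.1).symm (by decide)
  · exact iff_of_false (fun h => (T 0 (by norm_num)).2.2.1 h.symm) (by decide)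
  · exact iff_of_false (fun h => (T 0 (by norm_num)).2.2.2.1 h.symm) (by decide)
  · exact iff_of_true ((T 0 (by norm_num)).2.2.2.2).symm (by decide)
  · exact iff_of_true ((X 0 (by norm_num)).1).symm (by decide)
  · exact iff_of_false (fun h => (X 0 (by norm_num)).2.1 h.symm) (by decide)
  · exact iff_of_true ((X 0 (by norm_num)).2.2.1).symm (by decide)
  · exact iff_of_false (fun h => (X 0 (by norm_num)).2.2.2.1 h.symm) (by decide)
  · exact iff_of_false (fun h => (X 0 (by norm_num)).2.2.2.2 h.symm) (by decide)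
  · exact iff_of_false (fun h => hT _ _ _ (hf.2.1 0 (by norm_num)).2.2.2.1 h (hf.2.1 0 (by norm_num)).2.2.2.2) (by decide)
  · exact iff_of_false (fun h => (U 0 (by norm_num)).1 h.symm) (by decide)
  · exact iff_of_false (fun h => (U 0 (by norm_num)).2.1 h.symm) (by decide)
  · exact iff_of_false (fun h => (U 0 (by norm_num)).2.2.1 h.symm) (by decide)
  · exact iff_of_false (fun h => (U 0 (by norm_num)).2.2.2.1 h.symm) (by decide)
  · exact iff_of_false (fun h => (U 0 (by norm_num)).2.2.2.2 h.symm) (by decide)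
  · exact iff_of_true (hf.2.1 0 (by norm_num)).2.2.2.1.symm (by decide)
  · exact iff_of_true (hf.2.1 0 (by norm_num)).2.2.2.2.symm (by decide)
  · exact iff_of_false (fun h => (T 1 (by norm_num)).1 h.symm) (by decide)
  · exact iff_of_true ((T 1 (by norm_num)).2.1).symm (by decide)
  · exact iff_of_false (fun h => (T 1 (by norm_num)).2.2.1 h.symm) (by decide)
  · exact iff_of_false (fun h => (T 1 (by norm_num)).2.2.2.1 h.symm) (by decide)
  · exact iff_of_true ((T 1 (by norm_num)).2.2.2.2).symm (by decide)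
  · exact iff_of_false (fun h => hT _ _ _ (T 0 (by norm_num)).2.1.symm h (T 1 (by norm_num)).2.1.symm) (by decide)
  · exact iff_of_true (hf.2.2 1 (by norm_num) 0 (by norm_num) (by norm_num)).1.symm (by decide)
  · exact iff_of_false ((hf.2.2 0 (by norm_num) 1 (by norm_num) (by norm_num)).2.1) (by decide)
  · exact iff_of_true ((X 1 (by norm_num)).1).symm (by decide)
  · exact iff_of_false (fun h => (X 1 (by norm_num)).2.1 h.symm) (by decide)
  · exact iff_of_true ((X 1 (by norm_num)).2.2.1).symm (by decide)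
  · exact iff_of_false (fun h => (X 1 (by norm_num)).2.2.2.1 h.symm) (by decide)
  · exact iff_of_false (fun h => (X 1 (by norm_num)).2.2.2.2 h.symm) (by decide)
  · exact iff_of_true (hf.2.2 0 (by norm_num) 1 (by norm_num) (by norm_num)).1 (by decide)
  · exact iff_of_false (fun h => hT _ _ _ (X 0 (by norm_num)).1.symm h (X 1 (by norm_num)).1.symm) (by decide)
  · exact iff_of_false ((hf.2.2 0 (by norm_num) 1 (by norm_num) (by norm_num)).2.2) (by decide)
  · exact iff_of_false (fun h => hT _ _ _ (hf.2.1 1 (by norm_num)).2.2.2.1 h (hf.2.1 1 (by norm_num)).2.2.2.2) (by decide)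
  · exact iff_of_false (fun h => (U 1 (by norm_num)).1 h.symm) (by decide)
  · exact iff_of_false (fun h => (U 1 (by norm_num)).2.1 h.symm) (by decide)
  · exact iff_of_false (fun h => (U 1 (by norm_num)).2.2.1 h.symm) (by decide)
  · exact iff_of_false (fun h => (U 1 (by norm_num)).2.2.2.1 h.symm) (by decide)
  · exact iff_of_false (fun h => (U 1 (by norm_num)).2.2.2.2 h.symm) (by decide)
  · exact iff_of_false (fun h => (hf.2.2 1 (by norm_num) 0 (by norm_num) (by norm_num)).2.1 h.symm) (by decide)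
  · exact iff_of_false (fun h => (hf.2.2 1 (by norm_num) 0 (by norm_num) (by norm_num)).2.2 h.symm) (by decide)
  · exact iff_of_false (hUI _ _ (hf.2.1 0 (by norm_num)).2.2.1 (hf.2.1 1 (by norm_num)).2.2.1) (by decide)
  · exact iff_of_true (hf.2.1 1 (by norm_num)).2.2.2.1.symm (by decide)
  · exact iff_of_true (hf.2.1 1 (by norm_num)).2.2.2.2.symm (by decide)

end Pool.Agent.H333R2.St.FC
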