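import Pool.Agent.H333R2.St.DC1
import Pool.Agent.H333R2.St.CEmb

/-! The case of the anchor `(c)_1`. -/

namespace Pool.Agent.H333R2.St

open Pool.Agent.H333R2.St.FC

private theorem hrules : ∀ r ∈ DC1.D.rules, r = (0, 82, 37) := by decide +kernel

theorem c1 (hE : Stmt_ENG) (hB : Stmt_Bondy) (hLZ : Stmt_LZ) (hUI : Stmt_UInd) : Stmt_C1 := by
  obtain ⟨K, hK⟩ := instFull DC1.D DC1.okK DC1.c1 DC1.h1 DC1.c2 DC1.hc2 DC1.cov2 DC1.c3 DC1.hc3 DC1.cov3
    DC1.c4 DC1.hc4 DC1.c5 DC1.hc5 DC1.sides DC1.good DC1.hsides DC1.hgood DC1.hpat hE hB hLZ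
  refine ⟨K, fun V _ G f t x u hT hS hC hA hf hR => ?_⟩
  have : Nonempty V := ⟨f 0⟩
  have hU : ∀ a b, TyU G 5 f a → TyU G 5 f b → ¬ G.Adj a b := hUI V G f hT hS hC hf.1
  have he : EmbA G 8 DC1.D.adj (e1 f t x u) := emb1 hT hf hU
  have h5 : ∀ {T : ℕ} {v : V}, HTy G 8 (e1 f t x u) T v → ∀ j < 5, (G.Adj v (f j) ↔ Nat.testBit T j = true) := by
    intro T v h j hj
    have h' := h j (by omega)
    rwa [show e1 f t x u j = f j by unfold e1; rw [if_pos hj]] at h'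
  have h5' : ∀ {T : ℕ} {v : V} (b : Bool) (m : ℕ), m < 5 → HTy G 8 (e1 f t x u) T v →
      (∀ j < 5, Nat.testBit T j = Nat.testBit (msk 5 b m) j) → Ty G 5 f b m v := by
    intro T v b m hm h hT'
    rw [ty_msk msk5 hf.1 hm]
    intro j hj
    rw [h5 h j hj, hT' j hj]
  have h0 : ∀ {v : V}, HTy G 8 (e1 f t x u) 0 v → TyU G 5 f v := by
    intro v h
    rw [tyU_zero]
    exact h5 h
  refine hK V G (e1 f t x u) ⟨hT, hS, fun _ => hA, he, ?_, ?_⟩
  · intro a b ha hb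
    exact hU a b (h0 ha) (h0 hb)
  · intro r hr z p q hz hp hq
    rw [hrules r hr] at hz hp hq
    simp only at hz hp hq
    have p5 : G.Adj p (t 0) ↔ _ := hp 5 (by decide)
    have p6 : G.Adj p (x 0) ↔ _ := hp 6 (by decide)
    have p7 : G.Adj p (u 0) ↔ _ := hp 7 (by decide)
    have q5 : G.Adj q (t 0) ↔ _ := hq 5 (by decide)
    have q7 : G.Adj q (u 0) ↔ _ := hq 7 (by decide)
    have z5 : G.Adj z (t 0) ↔ _ := hz 5 (by decide)
    have z6 : G.Adj z (x 0) ↔ _ := hz 6 (by decide)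
    refine hR p q z (h5' true 0 (by norm_num) hp (by decide)) (p6.2 (by decide))
      (fun h => absurd (p7.1 h) (by decide)) (h5' true 1 (by norm_num) hq (by decide)) (q5.2 (by decide))
      (fun h => absurd (q7.1 h) (by decide)) (h0 hz) (fun h => absurd (z5.1 h) (by decide))
      (fun h => absurd (z6.1 h) (by decide))

end Pool.Agent.H333R2.St
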