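import Pool.Agent.H333R2.St.DC2
import Pool.Agent.H333R2.St.CEmb

/-! Facts about the anchor `(c)_2`. -/

namespace Pool.Agent.H333R2.St

open Pool.Agent.H333R2.St.FC

theorem c2c : Stmt_C2 := by
  intro V G f t x u hT hS hUI hA hf z
  have he : EmbA G 11 DC2.adj (e2 f t x u) := emb2 hT hf hUI
  have hA' : true = true → ¬ ∃ g, Anch G 8 g := fun _ => hA
  have cls : ∀ v, ∃ i < 16, HTy G 11 (e2 f t x u) (DC2.tys.getD i 0) v := by
    intro v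
    obtain ⟨T, hT', hv⟩ := ver1_sound hT hS hA' he DC2.h1 v
    obtain ⟨i, hi, rfl⟩ := List.mem_iff_getElem.1 hT'
    refine ⟨i, by rw [DC2.hlen] at hi; exact hi, ?_⟩
    simpa [List.getD_eq_getElem?_getD, hi] using hv
  have tw : ∀ v, 5 ≤ v → v < 11 → (∀ i < 16, ∃ ct, ver4b 11 DC2.adj true (DC2.adj.getD v 0)
      (DC2.tys.getD i 0) (Nat.testBit (DC2.tys.getD i 0) v) ct = true) →
      HTy G 11 (e2 f t x u) (DC2.adj.getD v 0) z → ∀ w, G.Adj z w ↔ G.Adj (e2 f t x u v) w := by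
    intro v h5 h11 hc hz w
    obtain ⟨i, hi, hw⟩ := cls w
    obtain ⟨ct, hct⟩ := hc i hi
    rw [ver4b_sound hT hS hA' he hct hz hw, G.adj_comm, hw v h11]
  obtain ⟨T, hT', hz⟩ := ver1_sound hT hS hA' he DC2.h1 z
  rcases DC2.hdef T hT' with ⟨v, h5, h11, rfl⟩ | ⟨h1, h2, h3, h4⟩
  · right
    interval_cases v
    · exact ⟨0, by norm_num, Or.inl (tw 5 (by norm_num) (by norm_num) (fun i hi => ⟨_, DC2.ht_5 i hi⟩) hz)⟩
    · exact ⟨0, by norm_num, Or.inr (Or.inl (tw 6 (by norm_num) (by norm_num) (fun i hi => ⟨_, DC2.ht_6 i hi⟩) hz))⟩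
    · exact ⟨0, by norm_num, Or.inr (Or.inr (tw 7 (by norm_num) (by norm_num) (fun i hi => ⟨_, DC2.ht_7 i hi⟩) hz))⟩
    · exact ⟨1, by norm_num, Or.inl (tw 8 (by norm_num) (by norm_num) (fun i hi => ⟨_, DC2.ht_8 i hi⟩) hz)⟩
    · exact ⟨1, by norm_num, Or.inr (Or.inl (tw 9 (by norm_num) (by norm_num) (fun i hi => ⟨_, DC2.ht_9 i hi⟩) hz))⟩
    · exact ⟨1, by norm_num, Or.inr (Or.inr (tw 10 (by norm_num) (by norm_num) (fun i hi => ⟨_, DC2.ht_10 i hi⟩) hz))⟩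
  · left
    have a5 : G.Adj z (t 0) ↔ _ := hz 5 (by norm_num)
    have a6 : G.Adj z (x 0) ↔ _ := hz 6 (by norm_num)
    have a7 : G.Adj z (u 0) ↔ _ := hz 7 (by norm_num)
    have a8 : G.Adj z (t 1) ↔ _ := hz 8 (by norm_num)
    have a9 : G.Adj z (x 1) ↔ _ := hz 9 (by norm_num)
    have a10 : G.Adj z (u 1) ↔ _ := hz 10 (by norm_num)
    refine ⟨by rw [a5, a8, h1], by rw [a6, a9, h2], by rw [a7, h3]; simp, by rw [a10, h4]; simp⟩

end Pool.Agent.H333R2.St
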