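import Pool.Agent.H333R2.St.Defs

/-! No induced `C₅`: bipartite or an odd cycle. -/

namespace Pool.Agent.H333R2.St

open Finset Classical
open Pool.Agent.H175R2 (Cn cliqueWidth)

namespace C5F

variable {V : Type} {G : SimpleGraph V} {N : ℕ}

/-- closed walk of length `N` -/
def Cy (G : SimpleGraph V) (N : ℕ) (w : ZMod N → V) : Prop := ∀ i, G.Adj (w i) (w (i + 1))

/-- there are no closed walks of odd length smaller than `N` -/
def NO (G : SimpleGraph V) (N : ℕ) : Prop :=
  ∀ k < N, k % 2 = 1 → ∀ a, ∀ p : G.Walk a a, p.length ≠ k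

lemma along {w : ZMod N → V} (hw : Cy G N w) (i : ZMod N) (k : ℕ) :
    ∃ p : G.Walk (w i) (w (i + k)), p.length = k := by
  induction k with
  | zero => exact ⟨SimpleGraph.Walk.nil.copy rfl (by simp), by simp⟩
  | succ k ih =>
    obtain ⟨p, hp⟩ := ih
    have h := hw (i + k)
    have e : i + (k : ZMod N) + 1 = i + ((k + 1 : ℕ) : ZMod N) := by push_cast; ring
    rw [e] at h
    exact ⟨p.concat h, by simp [hp]⟩

/-- walk through the other arc -/
lemma along' {w : ZMod N → V} (hw : Cy G N w) (i : ZMod N) (k : ℕ) (hk : k ≤ N) :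
    ∃ p : G.Walk (w (i + k)) (w i), p.length = N - k := by
  obtain ⟨p, hp⟩ := along hw (i + k) (N - k)
  have e : i + (k : ZMod N) + ((N - k : ℕ) : ZMod N) = i := by
    rw [Nat.cast_sub hk]; simp
  exact ⟨p.copy rfl (by rw [e]), by simp [hp]⟩

lemma nbr {w : ZMod N → V} (hN : N % 2 = 1) (hNO : NO G N) (hw : Cy G N w) (z : V) (i : ZMod N)
    (k : ℕ) (hk : k < N) (h1 : G.Adj z (w i)) (h2 : G.Adj z (w (i + k))) :
    k = 0 ∨ k = 2 ∨ k + 2 = N := by
  rcases Nat.mod_two_eq_zero_or_one k with hk2 | hk2
  · obtain ⟨p, hp⟩ := along' hw i k hk.le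
    have := hNO (N - k + 2)
    by_contra hc
    push Not at hc
    obtain ⟨ha, hb, hc⟩ := hc
    refine hNO (N - k + 2) (by omega) (by omega) z
      ((SimpleGraph.Walk.cons h2 p).concat h1.symm) ?_
    simp [hp]
  · obtain ⟨p, hp⟩ := along hw i k
    by_contra hc
    push Not at hc
    obtain ⟨ha, hb, hc⟩ := hc
    by_cases hk1 : k + 1 = N
    · omega
    · refine hNO (k + 2) (by omega) (by omega) z
        ((SimpleGraph.Walk.cons h1 p).concat h2.symm) ?_
      simp [hp]

lemma chord {w : ZMod N → V} (hN : N % 2 = 1) (hNO : NO G N) (hw : Cy G N w) (i : ZMod N)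
    (k : ℕ) (hk : k < N) (h1 : G.Adj (w i) (w (i + k))) : k = 1 ∨ k + 1 = N := by
  rcases Nat.mod_two_eq_zero_or_one k with hk2 | hk2
  · obtain ⟨p, hp⟩ := along hw i k
    by_contra hc
    push Not at hc
    obtain ⟨ha, hb⟩ := hc
    refine hNO (k + 1) (by omega) (by omega) _ (SimpleGraph.Walk.cons h1.symm p) ?_
    simp [hp]
  · obtain ⟨p, hp⟩ := along' hw i k hk.le
    by_contra hc
    push Not at hc
    obtain ⟨ha, hb⟩ := hc
    refine hNO (N - k + 1) (by omega) (by omega) _ (SimpleGraph.Walk.cons h1 p) ?_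
    simp [hp]

/-- a neighbour of the cycle has two neighbours on it -/
lemma two (hSF : SF G) {w : ZMod N → V} (hN : N % 2 = 1) (hN7 : 7 ≤ N) (hNO : NO G N)
    (hw : Cy G N w) (z : V) (i : ZMod N) (h : G.Adj z (w i)) :
    G.Adj z (w (i + 2)) ∨ G.Adj z (w (i - 2)) := by
  by_contra hc
  push Not at hc
  obtain ⟨h2, h2'⟩ := hc
  have hch : ∀ (j : ZMod N) (k : ℕ), 2 ≤ k → k ≤ 5 → ¬ G.Adj (w j) (w (j + k)) := by
    intro j k hk hk5 hadj
    rcases chord hN hNO hw j k (by omega) hadj with h | h <;> omega
  have hz1 : ¬ G.Adj z (w (i + 1)) := by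
    intro h'
    rcases nbr hN hNO hw z i 1 (by omega) h (by simpa using h') with h | h | h <;> omega
  have hz1' : ¬ G.Adj z (w (i - 1)) := by
    intro h'
    have e : i - 1 + ((1 : ℕ) : ZMod N) = i := by push_cast; ring
    rcases nbr hN hNO hw z (i - 1) 1 (by omega) h' (by rw [e]; exact h) with h | h | h <;> omega
  have hz3' : ¬ G.Adj z (w (i - 3)) := by
    intro h'
    have e : i - 3 + ((3 : ℕ) : ZMod N) = i := by push_cast; ring
    rcases nbr hN hNO hw z (i - 3) 3 (by omega) h' (by rw [e]; exact h) with h | h | h <;> omega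
  apply hSF (w i) z (w (i + 1)) (w (i + 2)) (w (i - 1)) (w (i - 2)) (w (i - 3))
  have e1 := hw i
  have e2 := hw (i + 1)
  have e3 := hw (i - 1)
  have e4 := hw (i - 2)
  have e5 := hw (i - 3)
  rw [show i + 1 + 1 = i + 2 by ring] at e2
  rw [show i - 1 + 1 = i by ring] at e3
  rw [show i - 2 + 1 = i - 1 by ring] at e4
  rw [show i - 3 + 1 = i - 2 by ring] at e5
  refine ⟨⟨h.symm, e1, e3.symm, e2, e4.symm, e5.symm⟩, ?_, ?_, ?_, hz1, h2, hz1', h2', hz3', ?_,
    ?_, ?_, ?_, ?_, ?_, ?_⟩
  · intro h'; exact hch i 2 (by norm_num) (by norm_num) (by simpa using h')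
  · intro h'; exact hch (i - 2) 2 (by norm_num) (by norm_num) (by
      rw [show i - 2 + ((2 : ℕ) : ZMod N) = i by push_cast; ring]; exact h'.symm)
  · intro h'; exact hch (i - 3) 3 (by norm_num) (by norm_num) (by
      rw [show i - 3 + ((3 : ℕ) : ZMod N) = i by push_cast; ring]; exact h'.symm)
  · intro h'; exact hch (i - 1) 2 (by norm_num) (by norm_num) (by
      rw [show i - 1 + ((2 : ℕ) : ZMod N) = i + 1 by push_cast; ring]; exact h'.symm)
  · intro h'; exact hch (i - 2) 3 (by norm_num) (by norm_num) (by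
      rw [show i - 2 + ((3 : ℕ) : ZMod N) = i + 1 by push_cast; ring]; exact h'.symm)
  · intro h'; exact hch (i - 3) 4 (by norm_num) (by norm_num) (by
      rw [show i - 3 + ((4 : ℕ) : ZMod N) = i + 1 by push_cast; ring]; exact h'.symm)
  · intro h'; exact hch (i - 1) 3 (by norm_num) (by norm_num) (by
      rw [show i - 1 + ((3 : ℕ) : ZMod N) = i + 2 by push_cast; ring]; exact h'.symm)
  · intro h'; exact hch (i - 2) 4 (by norm_num) (by norm_num) (by
      rw [show i - 2 + ((4 : ℕ) : ZMod N) = i + 2 by push_cast; ring]; exact h'.symm)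
  · intro h'; exact hch (i - 3) 5 (by norm_num) (by norm_num) (by
      rw [show i - 3 + ((5 : ℕ) : ZMod N) = i + 2 by push_cast; ring]; exact h'.symm)
  · intro h'; exact hch (i - 3) 2 (by norm_num) (by norm_num) (by
      rw [show i - 3 + ((2 : ℕ) : ZMod N) = i - 1 by push_cast; ring]; exact h'.symm)

/-- vertices at the cycle have a type -/
lemma typ (hSF : SF G) {w : ZMod N → V} (hN : N % 2 = 1) (hN7 : 7 ≤ N) (hNO : NO G N)
    (hw : Cy G N w) (z : V) (i : ZMod N) (h : G.Adj z (w i)) :
    ∃ j, G.Adj z (w (j - 1)) ∧ G.Adj z (w (j + 1)) := by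
  rcases two hSF hN hN7 hNO hw z i h with h' | h'
  · exact ⟨i + 1, by rw [show i + 1 - 1 = i by ring]; exact h,
      by rw [show i + 1 + 1 = i + 2 by ring]; exact h'⟩
  · exact ⟨i - 1, by rw [show i - 1 - 1 = i - 2 by ring]; exact h',
      by rw [show i - 1 + 1 = i by ring]; exact h⟩

lemma ne_of {N : ℕ} (k : ℕ) (h0 : 0 < k) (hk : k < N) : (k : ZMod N) ≠ 0 := by
  intro h
  rw [ZMod.natCast_eq_zero_iff] at h
  exact absurd (Nat.le_of_dvd h0 h) (by omega)

/-- replacement -/
lemma repl {w : ZMod N → V} (hN7 : 7 ≤ N) (hw : Cy G N w) (z : V) (i : ZMod N)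
    (h1 : G.Adj z (w (i - 1))) (h2 : G.Adj z (w (i + 1))) :
    Cy G N (Function.update w i z) := by
  have h10 : (1 : ZMod N) ≠ 0 := by
    have := ne_of (N := N) 1 (by norm_num) (by omega); simpa using this
  intro j
  by_cases hj : j = i
  · subst hj
    have : j + 1 ≠ j := by simpa using h10
    rw [Function.update_self, Function.update_of_ne this]
    exact h2
  · rw [Function.update_of_ne hj]
    by_cases hj' : j + 1 = i
    · subst hj'
      rw [Function.update_self]
      rw [show j + 1 - 1 = j by ring] at h1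
      exact h1.symm
    · rw [Function.update_of_ne hj']
      exact hw j

/-- half of the twin property -/
lemma half (hSF : SF G) {w : ZMod N → V} (hN : N % 2 = 1) (hN7 : 7 ≤ N) (hNO : NO G N)
    (hw : Cy G N w) (z : V) (i : ZMod N) (h1 : G.Adj z (w (i - 1))) (h2 : G.Adj z (w (i + 1)))
    (x : V) (hzx : G.Adj z x) : G.Adj (w i) x := by
  have h20 : (2 : ZMod N) ≠ 0 := by
    have := ne_of (N := N) 2 (by norm_num) (by omega); simpa using this
  have h40 : (4 : ZMod N) ≠ 0 := by
    have := ne_of (N := N) 4 (by norm_num) (by omega); simpa using this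
  have hw' := repl hN7 hw z i h1 h2
  have hx : G.Adj x (Function.update w i z i) := by
    rw [Function.update_self]; exact hzx.symm
  have n4 : ¬ G.Adj x (Function.update w i z (i + 4)) := by
    intro h'
    rcases nbr hN hNO hw' x i 4 (by omega) hx (by simpa using h') with h | h | h <;> omega
  have n4' : ¬ G.Adj x (Function.update w i z (i - 4)) := by
    intro h'
    have e : i - 4 + ((4 : ℕ) : ZMod N) = i := by push_cast; ring
    rcases nbr hN hNO hw' x (i - 4) 4 (by omega) h' (by rw [e]; exact hx) with h | h | h <;> omega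
  rw [Function.update_of_ne (by simpa using h40)] at n4
  rw [Function.update_of_ne (by simpa using h40)] at n4'
  rcases two hSF hN hN7 hNO hw' x i hx with h' | h'
  · rw [Function.update_of_ne (by simpa using h20)] at h'
    rcases two hSF hN hN7 hNO hw x (i + 2) h' with h | h
    · rw [show i + 2 + 2 = i + 4 by ring] at h
      exact absurd h n4
    · rw [show i + 2 - 2 = i by ring] at h
      exact h.symm
  · rw [Function.update_of_ne (by simpa using h20)] at h'
    rcases two hSF hN hN7 hNO hw x (i - 2) h' with h | h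
    · rw [show i - 2 + 2 = i by ring] at h
      exact h.symm
    · rw [show i - 2 - 2 = i - 4 by ring] at h
      exact absurd h n4'

lemma twin (hSF : SF G) {w : ZMod N → V} (hN : N % 2 = 1) (hN7 : 7 ≤ N) (hNO : NO G N)
    (hw : Cy G N w) (z : V) (i : ZMod N) (h1 : G.Adj z (w (i - 1))) (h2 : G.Adj z (w (i + 1)))
    (x : V) : G.Adj z x ↔ G.Adj (w i) x := by
  refine ⟨half hSF hN hN7 hNO hw z i h1 h2 x, ?_⟩
  have h10 : (1 : ZMod N) ≠ 0 := by
    have := ne_of (N := N) 1 (by norm_num) (by omega); simpa using this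
  have hw' := repl hN7 hw z i h1 h2
  have k1 : G.Adj (w i) (Function.update w i z (i - 1)) := by
    rw [Function.update_of_ne (by simpa using h10)]
    have := hw (i - 1)
    rw [show i - 1 + 1 = i by ring] at this
    exact this.symm
  have k2 : G.Adj (w i) (Function.update w i z (i + 1)) := by
    rw [Function.update_of_ne (by simpa using h10)]
    exact hw i
  have := half hSF hN hN7 hNO hw' (w i) i k1 k2 x
  rw [Function.update_self] at this
  exact this

/-- every vertex is on the cycle -/
lemma all [Fintype V] (hSF : SF G) (hC : Cn G univ) (hT : TwinFree G) {w : ZMod N → V}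
    (hN : N % 2 = 1) (hN7 : 7 ≤ N) (hNO : NO G N) (hw : Cy G N w) (z : V) : ∃ i, z = w i := by
  have h20 : (2 : ZMod N) ≠ 0 := by
    have := ne_of (N := N) 2 (by norm_num) (by omega); simpa using this
  set S : Finset V := univ.filter (fun v => ∃ i, G.Adj v (w i)) with hS
  have hSn : S.Nonempty := ⟨w 0, by
    rw [hS, Finset.mem_filter]; exact ⟨Finset.mem_univ _, 0 + 1, hw 0⟩⟩
  have hall : ¬ (univ \ S).Nonempty := by
    intro hne
    obtain ⟨x, hx, y, hy, hxy⟩ := hC.2 S (Finset.subset_univ _) hSn hne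
    rw [hS, Finset.mem_filter] at hx
    obtain ⟨-, i, hi⟩ := hx
    obtain ⟨j, hj1, hj2⟩ := typ hSF hN hN7 hNO hw x i hi
    have hw' := repl hN7 hw x j hj1 hj2
    have hyx : G.Adj y (Function.update w j x j) := by
      rw [Function.update_self]; exact hxy.symm
    apply (Finset.mem_sdiff.mp hy).2
    rw [hS, Finset.mem_filter]
    refine ⟨Finset.mem_univ _, ?_⟩
    rcases two hSF hN hN7 hNO hw' y j hyx with h' | h'
    · rw [Function.update_of_ne (by simpa using h20)] at h'
      exact ⟨_, h'⟩
    · rw [Function.update_of_ne (by simpa using h20)] at h'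
      exact ⟨_, h'⟩
  have hz : z ∈ S := by
    by_contra hz
    exact hall ⟨z, Finset.mem_sdiff.mpr ⟨Finset.mem_univ _, hz⟩⟩
  rw [hS, Finset.mem_filter] at hz
  obtain ⟨-, i, hi⟩ := hz
  obtain ⟨j, hj1, hj2⟩ := typ hSF hN hN7 hNO hw z i hi
  refine ⟨j, ?_⟩
  by_contra hne
  obtain ⟨v, hv⟩ := hT z (w j) hne
  exact hv (twin hSF hN hN7 hNO hw z j hj1 hj2 v)

lemma deg [Fintype V] (hSF : SF G) (hC : Cn G univ) (hT : TwinFree G) {w : ZMod N → V}
    (hN : N % 2 = 1) (hN7 : 7 ≤ N) (hNO : NO G N) (hw : Cy G N w) : Dg G univ := by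
  refine ⟨hC, ?_⟩
  intro x _
  obtain ⟨i, rfl⟩ := all hSF hC hT hN hN7 hNO hw x
  have hsub : univ.filter (fun y => G.Adj (w i) y) ⊆ {w (i - 1), w (i + 1)} := by
    intro y hy
    rw [Finset.mem_filter] at hy
    obtain ⟨j, rfl⟩ := all hSF hC hT hN hN7 hNO hw y
    have : NeZero N := ⟨by omega⟩
    have hk : ((j - i).val : ZMod N) = j - i := ZMod.natCast_zmod_val _
    have hlt : (j - i).val < N := ZMod.val_lt _
    have e : j = i + ((j - i).val : ZMod N) := by rw [hk]; ring
    have hadj := hy.2
    rw [e] at hadj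
    rw [Finset.mem_insert, Finset.mem_singleton]
    rcases chord hN hNO hw i _ hlt hadj with h | h
    · right
      rw [e, h]; simp
    · left
      have : (((j - i).val + 1 : ℕ) : ZMod N) = 0 := by rw [h]; simp
      push_cast at this
      rw [hk] at this
      congr 1
      linear_combination this
  exact (Finset.card_le_card hsub).trans Finset.card_le_two

lemma five (hN : N = 5) {w : ZMod N → V} (hNO : NO G N) (hw : Cy G N w) : ∃ f, Anch G 5 f := by
  subst hN
  refine ⟨fun i => w (i : ZMod 5), ?_⟩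
  intro i j hij hj
  show G.Adj (w (i : ZMod 5)) (w (j : ZMod 5)) ↔ (j - i) % 3 = 1
  have e : (j : ZMod 5) = (i : ZMod 5) + ((j - i : ℕ) : ZMod 5) := by
    rw [Nat.cast_sub hij.le]; ring
  rw [e]
  constructor
  · intro h
    rcases chord (by norm_num) hNO hw _ (j - i) (by omega) h with h | h <;> omega
  · intro h
    have : j - i = 1 ∨ j - i = 4 := by omega
    rcases this with h | h
    · rw [h]
      have := hw (i : ZMod 5)
      simpa using this
    · rw [h]
      have := hw ((i : ZMod 5) + 4)
      have e : (i : ZMod 5) + 4 + 1 = i := by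
        have : (4 + 1 : ZMod 5) = 0 := by decide
        rw [add_assoc, this, add_zero]
      rw [e] at this
      exact this.symm

end C5F

theorem c5f : Stmt_C5F := by
  intro V _ G hTF hSF hC hT
  by_cases hcol : G.Colorable 2
  · right; left
    obtain ⟨c⟩ := hcol
    refine ⟨fun v => decide (c v = 0), ?_⟩
    intro u v huv h
    have := c.valid huv
    have h' : (c u = 0 ↔ c v = 0) := by simpa using h
    apply this
    have hu := (c u).isLt
    have hv := (c v).isLt
    simp only [Fin.ext_iff] at h' ⊢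
    simp at h'
    omega
  · rw [SimpleGraph.two_colorable_iff_forall_loop_even] at hcol
    push Not at hcol
    have hex : ∃ n, n % 2 = 1 ∧ ∃ (a : V) (p : G.Walk a a), p.length = n := by
      obtain ⟨a, p, hp⟩ := hcol
      refine ⟨p.length, ?_, a, p, rfl⟩
      have := Nat.not_even_iff_odd.mp (by simpa using hp)
      exact Nat.odd_iff.mp this
    set N := Nat.find hex with hNdef
    obtain ⟨hN, a, p, hp⟩ := Nat.find_spec hex
    rw [← hNdef] at hN hp
    have hNO : C5F.NO G N := by
      intro k hk hk2 b q hq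
      exact Nat.find_min hex hk ⟨hk2, b, q, hq⟩
    have : NeZero N := ⟨by omega⟩
    have hN1 : N ≠ 1 := by
      intro h
      have h1 := p.adj_getVert_succ (i := 0) (by omega)
      have h2 : p.getVert (0 + 1) = a := by
        have := p.getVert_length; rw [hp, h] at this; exact this
      rw [h2, p.getVert_zero] at h1
      exact G.loopless.irrefl _ h1
    have hw : C5F.Cy G N (fun i => p.getVert i.val) := by
      intro i
      show G.Adj (p.getVert i.val) (p.getVert (i + 1).val)
      have hi := ZMod.val_lt i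
      have h1 := p.adj_getVert_succ (i := i.val) (by omega)
      by_cases hc : i.val + 1 = N
      · have h0 : i + 1 = 0 := by
          have : ((i.val + 1 : ℕ) : ZMod N) = 0 := by rw [hc]; simp
          rwa [Nat.cast_add, ZMod.natCast_zmod_val, Nat.cast_one] at this
        have e : p.getVert N = a := by
          have := p.getVert_length
          rwa [hp] at this
        rw [h0, ZMod.val_zero, p.getVert_zero]
        rw [hc, e] at h1
        exact h1
      · have h2 : (i + 1).val = i.val + 1 := by
          have : (i + 1) = ((i.val + 1 : ℕ) : ZMod N) := by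
            rw [Nat.cast_add, ZMod.natCast_zmod_val, Nat.cast_one]
          rw [this, ZMod.val_natCast, Nat.mod_eq_of_lt (by omega)]
        rw [h2]
        exact h1
    by_cases h5 : N = 5
    · left
      exact C5F.five h5 hNO hw
    · by_cases h3 : N = 3
      · exfalso
        have h1 := p.adj_getVert_succ (i := 0) (by omega)
        have h2 := p.adj_getVert_succ (i := 1) (by omega)
        have h3' := p.adj_getVert_succ (i := 2) (by omega)
        have h4 : p.getVert (2 + 1) = p.getVert 0 := by
          have := p.getVert_length; rw [hp, h3] at this; rw [p.getVert_zero]; exact this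
        rw [h4] at h3'
        exact hTF _ _ _ h1 h2 h3'.symm
      · right; right
        exact C5F.deg hSF hC hT hN (by omega) hNO hw

end Pool.Agent.H333R2.St
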