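import Pool.Agent.H333R2.St.Defs

/-!
# Task C2 (helper497): `UInd` and `CM`
-/

namespace Pool.Agent.H333R2.St

open Finset Classical
open Pool.Agent.H175R2 (Cn cliqueWidth)

namespace CMAux

variable {V : Type} {G : SimpleGraph V}

theorem anch5 {f : ℕ → V} (h : Anch G 5 f) : ∀ i < 5, ∀ j < 5,
    (G.Adj (f i) (f j) ↔ ((i + 1) % 5 = j ∨ (j + 1) % 5 = i)) := by
  have key : ∀ i < 5, ∀ j < 5, i < j →
      ((j - i) % 3 = 1 ↔ ((i + 1) % 5 = j ∨ (j + 1) % 5 = i)) := by decide
  intro i hi j hj
  rcases lt_trichotomy i j with hij | hij | hij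
  · rw [h i j hij hj]
    exact key i hi j hj hij
  · subst hij
    constructor
    · intro h'; exact absurd h' (G.loopless.irrefl _)
    · intro h'; omega
  · rw [G.adj_comm, h j i hij hi, key j hj i hi hij, or_comm]

theorem reach_nb {U : V → Prop} {a b : V} (ha : U a) (hb : U b) (hab : G.Adj a b) :
    ∀ x, Relation.ReflTransGen (fun p q => G.Adj p q ∧ U q) a x → U x ∧ ∃ y, U y ∧ G.Adj x y := by
  intro x hx
  induction hx with
  | refl => exact ⟨ha, b, hb, hab⟩
  | tail _ h ih => exact ⟨h.2, _, ih.1, h.1.symm⟩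

theorem cn_of {W : Type} {H : SimpleGraph W} {S : Finset W} (h0 : S.Nonempty)
    (h : ∀ T ⊆ S, T.Nonempty → (∃ b ∈ S, b ∉ T) → ∃ x ∈ T, ∃ y ∈ S, y ∉ T ∧ H.Adj x y) :
    Cn H S := by
  refine ⟨h0, fun T hT h1 h2 => ?_⟩
  obtain ⟨b, hb⟩ := h2
  rw [mem_sdiff] at hb
  obtain ⟨x, hx, y, hy, hyT, hxy⟩ := h T hT h1 ⟨b, hb.1, hb.2⟩
  exact ⟨x, hx, y, mem_sdiff.2 ⟨hy, hyT⟩, hxy⟩

end CMAux

open CMAux

theorem uInd : Stmt_UInd := by
  intro V _ G f hTF hSF hCn hA a b ha hb hab
  have h5 := anch5 hA
  set C : Finset V := univ.filter (fun x =>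
    Relation.ReflTransGen (fun p q => G.Adj p q ∧ TyU G 5 f q) a x) with hC
  have hf0 : f 0 ∉ C := by
    intro h
    have h1 := (reach_nb (G := G) (U := TyU G 5 f) ha hb hab (f 0) (mem_filter.1 h).2).1
    exact h1 1 (by norm_num) ((h5 0 (by norm_num) 1 (by norm_num)).2 (Or.inl rfl))
  obtain ⟨u1, hu1, t, ht, hut⟩ := hCn.2 C (subset_univ _)
    ⟨a, mem_filter.2 ⟨mem_univ _, Relation.ReflTransGen.refl⟩⟩
    ⟨f 0, mem_sdiff.2 ⟨mem_univ _, hf0⟩⟩
  have hu1r := (mem_filter.1 hu1).2
  obtain ⟨hu1U, u2, hu2U, hu12⟩ := reach_nb (G := G) (U := TyU G 5 f) ha hb hab u1 hu1r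
  have htU : ¬ TyU G 5 f t := by
    intro h
    exact (mem_sdiff.1 ht).2 (mem_filter.2 ⟨mem_univ _, hu1r.tail ⟨hut, h⟩⟩)
  unfold TyU at htU
  push Not at htU
  obtain ⟨j, hj, htj⟩ := htU
  have htu2 : ¬ G.Adj t u2 := hTF t u1 u2 hut.symm hu12
  -- neighbours of `t` on the cycle
  have hcons : ∀ i < 5, ∀ k < 5, ((i + 1) % 5 = k ∨ (k + 1) % 5 = i) → G.Adj t (f i) →
      ¬ G.Adj t (f k) := fun i hi k hk hik hti =>
    hTF t (f i) (f k) hti ((h5 i hi k hk).2 hik)
  have nf : ∀ i < 5, ∀ k < 5, ¬ ((i + 1) % 5 = k ∨ (k + 1) % 5 = i) → ¬ G.Adj (f i) (f k) :=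
    fun i hi k hk h h' => h ((h5 i hi k hk).1 h')
  have yf : ∀ i < 5, ∀ k < 5, ((i + 1) % 5 = k ∨ (k + 1) % 5 = i) → G.Adj (f i) (f k) :=
    fun i hi k hk h => (h5 i hi k hk).2 h
  have n1 : ∀ i < 5, ¬ G.Adj (f i) u1 := fun i hi h => hu1U i hi h.symm
  have n2 : ∀ i < 5, ¬ G.Adj (f i) u2 := fun i hi h => hu2U i hi h.symm
  by_cases h2 : G.Adj t (f ((j + 2) % 5))
  · -- two neighbours
    refine hSF (f ((j + 2) % 5)) (f ((j + 1) % 5)) (f ((j + 3) % 5)) (f ((j + 4) % 5)) t u1 u2
      ⟨⟨?_, ?_, h2.symm, ?_, hut.symm, hu12⟩, ?_, n1 _ (by omega), n2 _ (by omega), ?_, ?_, ?_,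
        n1 _ (by omega), n2 _ (by omega), ?_, n1 _ (by omega), n2 _ (by omega), ?_,
        n1 _ (by omega), n2 _ (by omega), htu2⟩
    · exact yf _ (by omega) _ (by omega) (by omega)
    · exact yf _ (by omega) _ (by omega) (by omega)
    · exact yf _ (by omega) _ (by omega) (by omega)
    · exact nf _ (by omega) _ (by omega) (by omega)
    · exact nf _ (by omega) _ (by omega) (by omega)
    · exact nf _ (by omega) _ (by omega) (by omega)
    · exact fun h => hcons j hj _ (by omega) (by omega) htj h.symm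
    · exact fun h => hcons _ (by omega) _ (by omega) (by omega) h2 h.symm
    · exact fun h => hcons j hj _ (by omega) (by omega) htj h.symm
  · -- one neighbour
    refine hSF (f j) (f ((j + 4) % 5)) (f ((j + 1) % 5)) (f ((j + 2) % 5)) t u1 u2
      ⟨⟨?_, ?_, htj.symm, ?_, hut.symm, hu12⟩, ?_, n1 _ (by omega), n2 _ (by omega), ?_, ?_, ?_,
        n1 _ (by omega), n2 _ (by omega), ?_, n1 _ (by omega), n2 _ (by omega), ?_,
        n1 _ (by omega), n2 _ (by omega), htu2⟩
    · exact yf _ (by omega) _ (by omega) (by omega)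
    · exact yf _ (by omega) _ (by omega) (by omega)
    · exact yf _ (by omega) _ (by omega) (by omega)
    · exact nf _ (by omega) _ (by omega) (by omega)
    · exact nf _ (by omega) _ (by omega) (by omega)
    · exact nf _ (by omega) _ (by omega) (by omega)
    · exact fun h => hcons j hj _ (by omega) (by omega) htj h.symm
    · exact fun h => hcons j hj _ (by omega) (by omega) htj h.symm
    · exact fun h => h2 h.symm

namespace CMAux

section trees

variable {V : Type} {P Q : Finset V → Prop}

theorem bt_mono {R : Finset V} (hR : BT P R) : (∀ A ⊆ R, P A → Q A) → BT Q R := by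
  induction hR with
  | leaf x => intro _; exact BT.leaf x
  | node hd _ _ h ihA ihB =>
    intro hPQ
    exact BT.node hd (ihA fun A hA => hPQ A (hA.trans subset_union_left))
      (ihB fun A hA => hPQ A (hA.trans subset_union_right)) (hPQ _ (Subset.refl _) h)

theorem bt_insert {A : Finset V} {x : V} (hA : BT Q A) (h : Q (insert x A)) :
    BT Q (insert x A) := by
  by_cases hx : x ∈ A
  · rw [insert_eq_of_mem hx]; exact hA
  · have e : insert x A = A ∪ {x} := by
      rw [union_comm]; rfl
    rw [e] at h ⊢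
    exact BT.node (disjoint_singleton_right.2 hx) hA (BT.leaf x) h

end trees

section fam

variable {V : Type} {G : SimpleGraph V} {f t x u : ℕ → V} {m : ℕ}

/-- uniform adjacency to the triples of index at least `j` -/
def Unif (G : SimpleGraph V) (t x u : ℕ → V) (m j : ℕ) (y : V) (b : Bool × Bool × Bool) : Prop :=
  ∀ i, j ≤ i → i < m → (G.Adj y (t i) ↔ b.1 = true) ∧ (G.Adj y (x i) ↔ b.2.1 = true) ∧
    (G.Adj y (u i) ↔ b.2.2 = true)

/-- the uniform trace -/
noncomputable def ft (G : SimpleGraph V) (f : ℕ → V) (Z : Finset V) (b : Bool × Bool × Bool) :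
    Finset V :=
  Z.filter (fun z => (b.1 = true ∧ G.Adj z (f 1)) ∨ (b.2.1 = true ∧ G.Adj z (f 0)) ∨
    (b.2.2 = true ∧ ¬ G.Adj z (f 1) ∧ ¬ G.Adj z (f 0)))

theorem tf0 (h : CFam G f m t x u) {i : ℕ} (hi : i < m) :
    G.Adj (t i) (f 1) ∧ ¬ G.Adj (t i) (f 0) := by
  have h5 := anch5 h.1
  have h1 := (h.2.1 i hi).1
  have a := h1 1 (by norm_num)
  have b := h1 0 (by norm_num)
  rw [h5 0 (by norm_num) 1 (by norm_num)] at a
  rw [h5 0 (by norm_num) 0 (by norm_num)] at b
  exact ⟨a.2 ⟨Or.inl rfl, fun h => absurd h (by decide)⟩, fun h => by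
    rcases (b.1 h).1 with h | h <;> norm_num at h⟩

theorem xf0 (h : CFam G f m t x u) {i : ℕ} (hi : i < m) :
    G.Adj (x i) (f 0) ∧ ¬ G.Adj (x i) (f 1) := by
  have h5 := anch5 h.1
  have h1 := (h.2.1 i hi).2.1
  have a := h1 1 (by norm_num)
  have b := h1 0 (by norm_num)
  rw [h5 1 (by norm_num) 1 (by norm_num)] at a
  rw [h5 1 (by norm_num) 0 (by norm_num)] at b
  exact ⟨b.2 ⟨Or.inr rfl, fun h => absurd h (by decide)⟩, fun h => by
    rcases (a.1 h).1 with h | h <;> norm_num at h⟩

theorem uf0 (h : CFam G f m t x u) {i : ℕ} (hi : i < m) :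
    ¬ G.Adj (u i) (f 0) ∧ ¬ G.Adj (u i) (f 1) :=
  ⟨(h.2.1 i hi).2.2.1 0 (by norm_num), (h.2.1 i hi).2.2.1 1 (by norm_num)⟩

theorem trc_ft (h : CFam G f m t x u) {j : ℕ} {y : V} {b : Bool × Bool × Bool}
    (hy : Unif G t x u m j y b) (Z : Finset V)
    (hZ : ∀ z ∈ Z, ∃ i, j ≤ i ∧ i < m ∧ (z = t i ∨ z = x i ∨ z = u i)) :
    trc G Z y = ft G f Z b := by
  unfold trc ft
  refine filter_congr fun z hz => ?_
  obtain ⟨i, hji, him, hzi⟩ := hZ z hz
  obtain ⟨y1, y2, y3⟩ := hy i hji him
  rcases hzi with rfl | rfl | rfl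
  · have := tf0 h him
    rw [y1]
    simp [this.1, this.2]
  · have := xf0 h him
    rw [y2]
    simp [this.1, this.2]
  · have := uf0 h him
    rw [y3]
    simp [this.1, this.2]

theorem t_unif (hTF : TF G) (h : CFam G f m t x u) {i0 j : ℕ} (hi0 : i0 < m) (hj : i0 < j) :
    Unif G t x u m j (t i0) (false, true, false) := by
  intro i hji him
  have hne : i0 ≠ i := by omega
  have h1 := h.2.2 i0 hi0 i him hne
  have h2 := h.2.2 i him i0 hi0 (Ne.symm hne)
  refine ⟨?_, ?_, ?_⟩
  · simp only [Bool.false_eq_true, iff_false]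
    exact hTF _ _ _ (tf0 h hi0).1 (tf0 h him).1.symm
  · simp only [iff_true]
    exact h1.1
  · simp only [Bool.false_eq_true, iff_false]
    exact fun h' => h2.2.1 h'.symm

theorem x_unif (hTF : TF G) (h : CFam G f m t x u) {i0 j : ℕ} (hi0 : i0 < m) (hj : i0 < j) :
    Unif G t x u m j (x i0) (true, false, false) := by
  intro i hji him
  have hne : i0 ≠ i := by omega
  have h2 := h.2.2 i him i0 hi0 (Ne.symm hne)
  refine ⟨?_, ?_, ?_⟩
  · simp only [iff_true]
    exact h2.1.symm
  · simp only [Bool.false_eq_true, iff_false]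
    exact hTF _ _ _ (xf0 h hi0).1 (xf0 h him).1.symm
  · simp only [Bool.false_eq_true, iff_false]
    exact fun h' => h2.2.2 h'.symm

theorem u_unif (hU : ∀ a b, TyU G 5 f a → TyU G 5 f b → ¬ G.Adj a b) (h : CFam G f m t x u)
    {i0 j : ℕ} (hi0 : i0 < m) (hj : i0 < j) :
    Unif G t x u m j (u i0) (false, false, false) := by
  intro i hji him
  have hne : i0 ≠ i := by omega
  have h1 := h.2.2 i0 hi0 i him hne
  refine ⟨?_, ?_, ?_⟩
  · simp only [Bool.false_eq_true, iff_false]
    exact h1.2.1
  · simp only [Bool.false_eq_true, iff_false]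
    exact h1.2.2
  · simp only [Bool.false_eq_true, iff_false]
    exact hU _ _ (h.2.1 i0 hi0).2.2.1 (h.2.1 i him).2.2.1

/-- `t i` and `x i` are not adjacent -/
theorem tx (hTF : TF G) (h : CFam G f m t x u) {i : ℕ} (hi : i < m) : ¬ G.Adj (t i) (x i) :=
  hTF _ _ _ (h.2.1 i hi).2.2.2.1.symm (h.2.1 i hi).2.2.2.2

theorem fam_le [Fintype V] (hTF : TF G) (h : CFam G f m t x u) : m ≤ Fintype.card V := by
  have h1 : (range m).card ≤ (univ : Finset V).card := by
    refine card_le_card_of_injOn t (fun _ _ => mem_univ _) ?_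
    intro i hi j hj hij
    have hi' : i < m := mem_range.1 (mem_coe.1 hi)
    have hj' : j < m := mem_range.1 (mem_coe.1 hj)
    by_contra hne
    have h2 := (h.2.2 i hi' j hj' hne).1
    rw [hij] at h2
    exact tx hTF h hj' h2
  rwa [card_range, card_univ] at h1

/-- extension of a family by one triple -/
theorem fam_ext (h : CFam G f m t x u) (p q z : V) (hp : Ty G 5 f true 0 p)
    (hq : Ty G 5 f true 1 q) (hz : TyU G 5 f z) (hzp : G.Adj z p) (hzq : G.Adj z q)
    (h1 : ∀ i < m, G.Adj (t i) q) (h2 : ∀ i < m, G.Adj p (x i)) (h3 : ∀ i < m, ¬ G.Adj (u i) p)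
    (h4 : ∀ i < m, ¬ G.Adj (u i) q) (h5 : ∀ i < m, ¬ G.Adj z (t i))
    (h6 : ∀ i < m, ¬ G.Adj z (x i)) :
    CFam G f (m + 1) (fun i => if i < m then t i else p) (fun i => if i < m then x i else q)
      (fun i => if i < m then u i else z) := by
  refine ⟨h.1, ?_, ?_⟩
  · intro i hi
    by_cases him : i < m
    · simp only [him, if_true]
      exact h.2.1 i him
    · simp only [him, if_false]
      exact ⟨hp, hq, hz, hzp, hzq⟩
  · intro i hi j hj hij
    by_cases him : i < m <;> by_cases hjm : j < m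
    · simp only [him, hjm, if_true]
      exact h.2.2 i him j hjm hij
    · simp only [him, hjm, if_true, if_false]
      exact ⟨h1 i him, h3 i him, h4 i him⟩
    · simp only [him, hjm, if_true, if_false]
      exact ⟨h2 j hjm, h5 j hjm, h6 j hjm⟩
    · omega

end fam

end CMAux

theorem cm (h1 : Stmt_C1) (h2 : Stmt_C2) (h3 : Stmt_UInd) (_h4 : Stmt_Glue) (h5 : Stmt_Induce) :
    Stmt_CM := by
  obtain ⟨K, hK⟩ := h1
  refine ⟨8 * K + 20, ?_⟩
  intro V _ G f t₀ x₀ u₀ hTF hSF hCn hTw hA8 hfam₀
  have hU := h3 V G f hTF hSF hCn hfam₀.1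
  -- a maximal family
  obtain ⟨m, ⟨t, x, u, hfam⟩, hm1, hmax⟩ : ∃ m, (∃ t x u : ℕ → V, CFam G f m t x u) ∧ 1 ≤ m ∧
      ∀ m', (∃ t x u : ℕ → V, CFam G f m' t x u) → m' ≤ m := by
    have hc : 1 ≤ Fintype.card V := fam_le hTF hfam₀
    refine ⟨Nat.findGreatest (fun m => ∃ t x u : ℕ → V, CFam G f m t x u) (Fintype.card V),
      ?_, ?_, ?_⟩
    · exact Nat.findGreatest_spec (P := fun m => ∃ t x u : ℕ → V, CFam G f m t x u) hc
        ⟨t₀, x₀, u₀, hfam₀⟩
    · exact Nat.le_findGreatest hc ⟨t₀, x₀, u₀, hfam₀⟩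
    · rintro m' ⟨t, x, u, h⟩
      exact Nat.le_findGreatest (fam_le hTF h) ⟨t, x, u, h⟩
  have hm0 : 0 < m := hm1
  -- default vertices
  have hdef : ∀ z, (∀ i < m, z ≠ t i ∧ z ≠ x i ∧ z ≠ u i) → ∀ i, 1 ≤ i → i < m →
      ((G.Adj z (t 0) ↔ G.Adj z (t i)) ∧ (G.Adj z (x 0) ↔ G.Adj z (x i)) ∧ ¬ G.Adj z (u 0) ∧
        ¬ G.Adj z (u i)) := by
    intro z hz i hi him
    have hi0 : i ≠ 0 := by omega
    have hf2 : CFam G f 2 (fun k => if k = 0 then t 0 else t i)
        (fun k => if k = 0 then x 0 else x i) (fun k => if k = 0 then u 0 else u i) := by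
      refine ⟨hfam.1, ?_, ?_⟩
      · intro k hk
        by_cases hk0 : k = 0
        · simp only [hk0, if_true]
          exact hfam.2.1 0 hm0
        · simp only [hk0, if_false]
          exact hfam.2.1 i him
      · intro k hk l hl hkl
        by_cases hk0 : k = 0 <;> by_cases hl0 : l = 0
        · omega
        · simp only [hk0, hl0, if_true, if_false]
          exact hfam.2.2 0 hm0 i him (Ne.symm hi0)
        · simp only [hk0, hl0, if_true, if_false]
          exact hfam.2.2 i him 0 hm0 hi0
        · omega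
    have htw : ∀ w, (∀ v, G.Adj z v ↔ G.Adj w v) → z = w := by
      intro w hw
      by_contra hne
      obtain ⟨v, hv⟩ := hTw z w hne
      exact hv (hw v)
    rcases h2 V G f _ _ _ hTF hSF hU hA8 hf2 z with h | ⟨k, hk, h⟩
    · simpa using h
    · exfalso
      by_cases hk0 : k = 0
      · subst hk0
        simp only [if_true] at h
        rcases h with h | h | h
        · exact (hz 0 hm0).1 (htw _ h)
        · exact (hz 0 hm0).2.1 (htw _ h)
        · exact (hz 0 hm0).2.2 (htw _ h)
      · simp only [hk0, if_false] at h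
        rcases h with h | h | h
        · exact (hz i him).1 (htw _ h)
        · exact (hz i him).2.1 (htw _ h)
        · exact (hz i him).2.2 (htw _ h)
  -- the reduced graph
  obtain ⟨R, memR⟩ : ∃ R : Finset V, ∀ z, z ∈ R ↔ ∀ i, 1 ≤ i → i < m →
      z ≠ t i ∧ z ≠ x i ∧ z ≠ u i := by
    refine ⟨univ.filter (fun z => ∀ i, 1 ≤ i → i < m → z ≠ t i ∧ z ≠ x i ∧ z ≠ u i), fun z => ?_⟩
    simp only [mem_filter, mem_univ, true_and]
  have notR : ∀ z, z ∉ R → ∃ i, 1 ≤ i ∧ i < m ∧ (z = t i ∨ z = x i ∨ z = u i) := by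
    intro z hz
    rw [memR] at hz
    push Not at hz
    obtain ⟨i, h1, h2, h3⟩ := hz
    refine ⟨i, h1, h2, ?_⟩
    by_cases ht : z = t i
    · exact Or.inl ht
    · by_cases hx : z = x i
      · exact Or.inr (Or.inl hx)
      · exact Or.inr (Or.inr (h3 ht hx))
  have hft : ∀ i, i < m → G.Adj (t i) (f 1) ∧ ¬ G.Adj (t i) (f 0) := fun i hi => tf0 hfam hi
  have hfx : ∀ i, i < m → G.Adj (x i) (f 0) ∧ ¬ G.Adj (x i) (f 1) := fun i hi => xf0 hfam hi
  have hfu : ∀ i, i < m → ¬ G.Adj (u i) (f 0) ∧ ¬ G.Adj (u i) (f 1) := fun i hi => uf0 hfam hi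
  -- members of `R`
  have t0R : t 0 ∈ R := by
    rw [memR]
    intro i hi him
    refine ⟨?_, ?_, ?_⟩
    · intro h
      have := (hfam.2.2 0 hm0 i him (by omega)).1
      rw [h] at this
      exact tx hTF hfam him this
    · intro h
      have := (hft 0 hm0).1
      rw [h] at this
      exact (hfx i him).2 this
    · intro h
      have := (hft 0 hm0).1
      rw [h] at this
      exact (hfu i him).2 this
  have x0R : x 0 ∈ R := by
    rw [memR]
    intro i hi him
    refine ⟨?_, ?_, ?_⟩
    · intro h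
      have := (hfx 0 hm0).1
      rw [h] at this
      exact (hft i him).2 this
    · intro h
      have := (hfam.2.2 i him 0 hm0 (by omega)).1
      rw [h] at this
      exact tx hTF hfam him this
    · intro h
      have := (hfx 0 hm0).1
      rw [h] at this
      exact (hfu i him).1 this
  have u0R : u 0 ∈ R := by
    rw [memR]
    intro i hi him
    refine ⟨?_, ?_, ?_⟩
    · intro h
      have := (hfu 0 hm0).2
      rw [h] at this
      exact this (hft i him).1
    · intro h
      have := (hfu 0 hm0).1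
      rw [h] at this
      exact this (hfx i him).1
    · intro h
      have := (hfam.2.2 0 hm0 i him (by omega)).2.1
      rw [h] at this
      exact this (hfam.2.1 i him).2.2.2.1
  have a5 := anch5 hfam.1
  have fR : ∀ j < 5, f j ∈ R := by
    intro j hj
    rw [memR]
    intro i hi him
    obtain ⟨_, _, hui, hut, hux⟩ := hfam.2.1 i him
    refine ⟨?_, ?_, ?_⟩
    · intro h
      rw [← h] at hut
      exact hui j hj hut
    · intro h
      rw [← h] at hux
      exact hui j hj hux
    · intro h
      have h6 := (a5 j hj ((j + 1) % 5) (by omega)).2 (Or.inl rfl)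
      rw [h] at h6
      exact hui _ (by omega) h6
  -- members of `R` are default or in the first triple
  have Rdef : ∀ z ∈ R, (∀ i < m, z ≠ t i ∧ z ≠ x i ∧ z ≠ u i) ∨ z = t 0 ∨ z = x 0 ∨ z = u 0 := by
    intro z hz
    rw [memR] at hz
    by_cases h : z = t 0 ∨ z = x 0 ∨ z = u 0
    · exact Or.inr h
    · left
      intro i him
      by_cases hi : i = 0
      · subst hi
        rw [not_or, not_or] at h
        exact h
      · exact hz i (by omega) him
  -- uniformity
  have hunif : ∀ z ∈ R, ∃ b, Unif G t x u m 1 z b := by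
    intro z hz
    rcases Rdef z hz with h | rfl | rfl | rfl
    · refine ⟨(decide (G.Adj z (t 0)), decide (G.Adj z (x 0)), false), ?_⟩
      intro i hi him
      obtain ⟨d1, d2, d3, d4⟩ := hdef z h i hi him
      refine ⟨?_, ?_, ?_⟩
      · simp only [decide_eq_true_eq]; exact d1.symm
      · simp only [decide_eq_true_eq]; exact d2.symm
      · simp only [Bool.false_eq_true, iff_false]; exact d4
    · exact ⟨_, t_unif hTF hfam hm0 (by norm_num)⟩
    · exact ⟨_, x_unif hTF hfam hm0 (by norm_num)⟩
    · exact ⟨_, u_unif hU hfam hm0 (by norm_num)⟩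
  -- the tree of the reduced graph
  have hBdR : Bd G K R := by
    apply h5 V G K R
    obtain ⟨π, hπ⟩ : ∃ π : V → ((R : Set V) : Type), ∀ v ∈ R, (π v : V) = v := by
      refine ⟨fun v => if h : v ∈ R then ⟨v, mem_coe.2 h⟩ else ⟨t 0, mem_coe.2 t0R⟩, ?_⟩
      intro v hv
      simp only [hv, dif_pos]
    have hf' : ∀ j < 5, (π (f j) : V) = f j := fun j hj => hπ _ (fR j hj)
    have hTy : ∀ (b : Bool) (k : ℕ), k < 5 → ∀ p : ((R : Set V) : Type),
        Ty (G.induce (R : Set V)) 5 (fun j => π (f j)) b k p ↔ Ty G 5 f b k p := by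
      intro b k hk p
      unfold Ty
      constructor
      · intro h j hj
        have h6 : G.Adj (p : V) (π (f j)) ↔ G.Adj (π (f k) : V) (π (f j)) ∧
            (b = false → j ≠ (k + 1) % 5) := h j hj
        rwa [hf' j hj, hf' k hk] at h6
      · intro h j hj
        show G.Adj (p : V) (π (f j)) ↔ G.Adj (π (f k) : V) (π (f j)) ∧
            (b = false → j ≠ (k + 1) % 5)
        rw [hf' j hj, hf' k hk]
        exact h j hj
    have hTyU : ∀ p : ((R : Set V) : Type),
        TyU (G.induce (R : Set V)) 5 (fun j => π (f j)) p ↔ TyU G 5 f p := by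
      intro p
      unfold TyU
      constructor
      · intro h j hj
        have h6 : ¬ G.Adj (p : V) (π (f j)) := h j hj
        rwa [hf' j hj] at h6
      · intro h j hj
        show ¬ G.Adj (p : V) (π (f j))
        rw [hf' j hj]
        exact h j hj
    have et := hπ _ t0R
    have ex := hπ _ x0R
    have eu := hπ _ u0R
    refine hK _ (G.induce (R : Set V)) (fun j => π (f j)) (fun j => π (t j)) (fun j => π (x j))
      (fun j => π (u j)) ?_ ?_ ?_ ?_ ?_ ?_
    · intro a b c hab hbc hac
      exact hTF a b c hab hbc hac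
    · intro a b1 b2 b3 c1 c2 c3 h
      exact hSF a b1 b2 b3 c1 c2 c3 h
    · -- connectivity
      refine cn_of ⟨π (t 0), mem_univ _⟩ ?_
      intro T _ hT1 hT2
      by_contra hcon
      have hside : ∀ a b : ((R : Set V) : Type), G.Adj (a : V) b → a ∈ T → b ∈ T := by
        intro a b hab ha
        by_contra hb
        exact hcon ⟨a, ha, b, mem_univ _, hb, hab⟩
      have hside' : ∀ a b : ((R : Set V) : Type), G.Adj (a : V) b → (a ∈ T ↔ b ∈ T) :=
        fun a b hab => ⟨hside a b hab, hside b a hab.symm⟩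
      obtain ⟨_, _, hu0, hut0, hux0⟩ := hfam.2.1 0 hm0
      have st : (π (u 0) ∈ T ↔ π (t 0) ∈ T) := hside' _ _ (by rw [et, eu]; exact hut0)
      have sx : (π (u 0) ∈ T ↔ π (x 0) ∈ T) := hside' _ _ (by rw [ex, eu]; exact hux0)
      -- the side of a vertex
      set sd : V → Prop := fun v => if h : v ∈ R then (⟨v, mem_coe.2 h⟩ : ((R : Set V) : Type)) ∈ T
        else π (t 0) ∈ T with hsd
      have sdR : ∀ a : ((R : Set V) : Type), (sd a ↔ a ∈ T) := by
        intro a
        have ha : (a : V) ∈ R := mem_coe.1 a.2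
        simp only [hsd, ha, dif_pos]
      have sdN : ∀ v, v ∉ R → (sd v ↔ π (t 0) ∈ T) := by
        intro v hv
        simp only [hsd, hv, dif_neg, not_false_eq_true]
      have hmix : ∀ v w, G.Adj v w → v ∉ R → w ∈ R → (sd w ↔ π (t 0) ∈ T) := by
        intro v w hvw hv hw
        obtain ⟨i, hi, him, hvi⟩ := notR v hv
        have hww : sd w ↔ (⟨w, mem_coe.2 hw⟩ : ((R : Set V) : Type)) ∈ T := sdR ⟨w, mem_coe.2 hw⟩
        rw [hww]
        rcases Rdef w hw with h | rfl | rfl | rfl
        · obtain ⟨d1, d2, d3, d4⟩ := hdef w h i hi him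
          rcases hvi with rfl | rfl | rfl
          · exact hside' _ _ (by
              show G.Adj w (π (t 0) : V)
              rw [et]; exact d1.2 hvw.symm)
          · rw [← st, sx]
            exact hside' _ _ (by
              show G.Adj w (π (x 0) : V)
              rw [ex]; exact d2.2 hvw.symm)
          · exact absurd hvw.symm d4
        · have e : (⟨t 0, mem_coe.2 hw⟩ : ((R : Set V) : Type)) = π (t 0) := Subtype.ext et.symm
          rw [e]
        · have e : (⟨x 0, mem_coe.2 hw⟩ : ((R : Set V) : Type)) = π (x 0) := Subtype.ext ex.symm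
          rw [e, ← sx, st]
        · have e : (⟨u 0, mem_coe.2 hw⟩ : ((R : Set V) : Type)) = π (u 0) := Subtype.ext eu.symm
          rw [e, st]
      have hall : ∀ v w, G.Adj v w → (sd v ↔ sd w) := by
        intro v w hvw
        by_cases hv : v ∈ R <;> by_cases hw : w ∈ R
        · rw [show (sd v ↔ (⟨v, mem_coe.2 hv⟩ : ((R : Set V) : Type)) ∈ T) from
            sdR ⟨v, mem_coe.2 hv⟩, show (sd w ↔ (⟨w, mem_coe.2 hw⟩ : ((R : Set V) : Type)) ∈ T) from
            sdR ⟨w, mem_coe.2 hw⟩]
          exact hside' _ _ hvw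
        · rw [sdN w hw]
          exact hmix w v hvw.symm hw hv
        · rw [sdN v hv]
          exact (hmix v w hvw hv hw).symm
        · rw [sdN v hv, sdN w hw]
      obtain ⟨a, ha⟩ := hT1
      obtain ⟨b, hb⟩ := hT2
      obtain ⟨v, hv, w, hw, hvw⟩ := hCn.2 (univ.filter sd) (subset_univ _)
        ⟨a, mem_filter.2 ⟨mem_univ _, (sdR a).2 ha⟩⟩
        ⟨b, mem_sdiff.2 ⟨mem_univ _, fun h => hb.2 ((sdR b).1 (mem_filter.1 h).2)⟩⟩
      exact (mem_sdiff.1 hw).2 (mem_filter.2 ⟨mem_univ _, (hall v w hvw).1 (mem_filter.1 hv).2⟩)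
    · rintro ⟨g, hg⟩
      exact hA8 ⟨fun i => (g i : V), fun i j hij hj => hg i j hij hj⟩
    · refine ⟨?_, ?_, ?_⟩
      · intro i j hij hj
        show G.Adj (π (f i) : V) (π (f j)) ↔ _
        rw [hf' i (by omega), hf' j hj]
        exact hfam.1 i j hij hj
      · intro i hi
        have hi0 : i = 0 := by omega
        subst hi0
        obtain ⟨e1, e2, e3, e4, e5⟩ := hfam.2.1 0 hm0
        refine ⟨?_, ?_, ?_, ?_, ?_⟩
        · rw [hTy true 0 (by norm_num), et]; exact e1
        · rw [hTy true 1 (by norm_num), ex]; exact e2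
        · rw [hTyU, eu]; exact e3
        · show G.Adj (π (u 0) : V) (π (t 0))
          rw [eu, et]; exact e4
        · show G.Adj (π (u 0) : V) (π (x 0))
          rw [eu, ex]; exact e5
      · intro i hi j hj hij
        omega
    · -- the rule
      rintro p q z hp hpx hpu hq hqt hqu hz hzt hzx ⟨hzp, hzq⟩
      rw [hTy true 0 (by norm_num)] at hp
      rw [hTy true 1 (by norm_num)] at hq
      rw [hTyU] at hz
      have hpx' : G.Adj (p : V) (x 0) := by rw [← ex]; exact hpx
      have hpu' : ¬ G.Adj (p : V) (u 0) := by rw [← eu]; exact hpu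
      have hqt' : G.Adj (q : V) (t 0) := by rw [← et]; exact hqt
      have hqu' : ¬ G.Adj (q : V) (u 0) := by rw [← eu]; exact hqu
      have hzt' : ¬ G.Adj (z : V) (t 0) := by rw [← et]; exact hzt
      have hzx' : ¬ G.Adj (z : V) (x 0) := by rw [← ex]; exact hzx
      have hzp' : G.Adj (z : V) p := hzp
      have hzq' : G.Adj (z : V) q := hzq
      have hp1 : G.Adj (p : V) (f 1) :=
        (hp 1 (by norm_num)).2 ⟨(a5 0 (by norm_num) 1 (by norm_num)).2 (Or.inl rfl),
          fun h => absurd h (by decide)⟩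
      have hq0 : G.Adj (q : V) (f 0) :=
        (hq 0 (by norm_num)).2 ⟨(a5 1 (by norm_num) 0 (by norm_num)).2 (Or.inr rfl),
          fun h => absurd h (by decide)⟩
      have dp : ∀ i < m, (p : V) ≠ t i ∧ (p : V) ≠ x i ∧ (p : V) ≠ u i := by
        rcases Rdef p (mem_coe.1 p.2) with h | h | h | h
        · exact h
        · rw [h] at hpx'
          exact absurd hpx' (tx hTF hfam hm0)
        · rw [h] at hpx'
          exact absurd hpx' (G.loopless.irrefl _)
        · rw [h] at hp1
          exact absurd hp1 (hfu 0 hm0).2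
      have dq : ∀ i < m, (q : V) ≠ t i ∧ (q : V) ≠ x i ∧ (q : V) ≠ u i := by
        rcases Rdef q (mem_coe.1 q.2) with h | h | h | h
        · exact h
        · rw [h] at hqt'
          exact absurd hqt' (G.loopless.irrefl _)
        · rw [h] at hqt'
          exact absurd hqt'.symm (tx hTF hfam hm0)
        · rw [h] at hq0
          exact absurd hq0 (hfu 0 hm0).1
      have dz : ∀ i < m, (z : V) ≠ t i ∧ (z : V) ≠ x i ∧ (z : V) ≠ u i := by
        rcases Rdef z (mem_coe.1 z.2) with h | h | h | h
        · exact h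
        · exact absurd (h ▸ (hft 0 hm0).1) (hz 1 (by norm_num))
        · exact absurd (h ▸ (hfx 0 hm0).1) (hz 0 (by norm_num))
        · rw [h] at hzt'
          exact absurd (hfam.2.1 0 hm0).2.2.2.1 hzt'
      have hcase : ∀ i < m, i = 0 ∨ 1 ≤ i := fun i _ => by omega
      have hext := fam_ext hfam p q z hp hq hz hzp' hzq'
        (by
          intro i hi
          rcases hcase i hi with rfl | h
          · exact hqt'.symm
          · exact ((hdef q dq i h hi).1.1 hqt').symm)
        (by
          intro i hi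
          rcases hcase i hi with rfl | h
          · exact hpx'
          · exact (hdef p dp i h hi).2.1.1 hpx')
        (by
          intro i hi h'
          rcases hcase i hi with rfl | h
          · exact hpu' h'.symm
          · exact (hdef p dp i h hi).2.2.2 h'.symm)
        (by
          intro i hi h'
          rcases hcase i hi with rfl | h
          · exact hqu' h'.symm
          · exact (hdef q dq i h hi).2.2.2 h'.symm)
        (by
          intro i hi h'
          rcases hcase i hi with rfl | h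
          · exact hzt' h'
          · exact hzt' ((hdef z dz i h hi).1.2 h'))
        (by
          intro i hi h'
          rcases hcase i hi with rfl | h
          · exact hzx' h'
          · exact hzx' ((hdef z dz i h hi).2.1.2 h'))
      have := hmax (m + 1) ⟨_, _, _, hext⟩
      omega
  -- from `R` to everything
  set Q : Finset V → Prop := fun A => tr G A (univ \ A) ≤ 8 * K + 20 with hQ
  have hQR : ∀ B ⊆ R, tr G B (R \ B) ≤ K → Q B := by
    intro B hB hBK
    show (B.image (trc G (univ \ B))).card ≤ 8 * K + 20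
    have hsub : B.image (trc G (univ \ B)) ⊆
        ((B.image (trc G (R \ B))) ×ˢ (univ : Finset (Bool × Bool × Bool))).image
          (fun p => p.1 ∪ ft G f (univ \ R) p.2) := by
      intro S hS
      obtain ⟨y, hy, rfl⟩ := mem_image.1 hS
      obtain ⟨b, hb⟩ := hunif y (hB hy)
      refine mem_image.2 ⟨(trc G (R \ B) y, b), mem_product.2 ⟨mem_image_of_mem _ hy, mem_univ _⟩,
        ?_⟩
      have e1 := trc_ft hfam hb (univ \ R) (fun z hz => notR z (mem_sdiff.1 hz).2)
      show trc G (R \ B) y ∪ ft G f (univ \ R) b = trc G (univ \ B) y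
      rw [← e1]
      ext z
      unfold trc
      simp only [mem_union, mem_filter, mem_sdiff, mem_univ, true_and]
      constructor
      · rintro (⟨⟨_, h7⟩, h8⟩ | ⟨h7, h8⟩)
        · exact ⟨h7, h8⟩
        · exact ⟨fun h => h7 (hB h), h8⟩
      · rintro ⟨h7, h8⟩
        by_cases hz : z ∈ R
        · exact Or.inl ⟨⟨hz, h7⟩, h8⟩
        · exact Or.inr ⟨hz, h8⟩
    calc (B.image (trc G (univ \ B))).card
        ≤ _ := card_le_card hsub
      _ ≤ ((B.image (trc G (R \ B))) ×ˢ (univ : Finset (Bool × Bool × Bool))).card :=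
          card_image_le
      _ = (B.image (trc G (R \ B))).card * 8 := by
          rw [card_product]; rfl
      _ ≤ K * 8 := Nat.mul_le_mul_right _ hBK
      _ ≤ 8 * K + 20 := by omega
  have hBR : BT Q R := bt_mono hBdR hQR
  -- prefixes
  set A : ℕ → Finset V := fun j => univ.filter (fun z => z ∈ R ∨ ∃ i, 1 ≤ i ∧ i < j ∧
    (z = t i ∨ z = x i ∨ z = u i)) with hA
  have memA : ∀ j z, z ∈ A j ↔ (z ∈ R ∨ ∃ i, 1 ≤ i ∧ i < j ∧ (z = t i ∨ z = x i ∨ z = u i)) :=
    fun j z => by
      rw [hA]
      simp only [mem_filter, mem_univ, true_and]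
  have hQA : ∀ j, 1 ≤ j → j < m → ∀ B, A j ⊆ B → B ⊆ A (j + 1) → Q B := by
    intro j hj hjm B hB1 hB2
    show (B.image (trc G (univ \ B))).card ≤ 8 * K + 20
    have hZ : ∀ z ∈ univ \ B, ∃ i, j ≤ i ∧ i < m ∧ (z = t i ∨ z = x i ∨ z = u i) := by
      intro z hz
      have hz1 : z ∉ A j := fun h => (mem_sdiff.1 hz).2 (hB1 h)
      rw [memA, not_or] at hz1
      obtain ⟨i, hi, him, hzi⟩ := notR z hz1.1
      refine ⟨i, ?_, him, hzi⟩
      by_contra hij
      exact hz1.2 ⟨i, hi, by omega, hzi⟩
    have hsub : B.image (trc G (univ \ B)) ⊆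
        (univ : Finset (Bool × Bool × Bool)).image (fun b => ft G f (univ \ B) b) ∪
          {trc G (univ \ B) (t j), trc G (univ \ B) (x j), trc G (univ \ B) (u j)} := by
      intro S hS
      obtain ⟨y, hy, rfl⟩ := mem_image.1 hS
      have hfin : ∀ b, Unif G t x u m j y b → trc G (univ \ B) y ∈
          (univ : Finset (Bool × Bool × Bool)).image (fun b => ft G f (univ \ B) b) ∪
          {trc G (univ \ B) (t j), trc G (univ \ B) (x j), trc G (univ \ B) (u j)} := by
        intro b hb
        exact mem_union_left _ (mem_image.2 ⟨b, mem_univ _, (trc_ft hfam hb _ hZ).symm⟩)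
      rcases (memA (j + 1) y).1 (hB2 hy) with h | ⟨i, hi, hij, h⟩
      · obtain ⟨b, hb⟩ := hunif y h
        exact hfin b fun i hi him => hb i (by omega) him
      · by_cases hij' : i = j
        · subst hij'
          apply mem_union_right
          rcases h with rfl | rfl | rfl <;> simp
        · have hlt : i < j := by omega
          rcases h with rfl | rfl | rfl
          · exact hfin _ (t_unif hTF hfam (by omega) hlt)
          · exact hfin _ (x_unif hTF hfam (by omega) hlt)
          · exact hfin _ (u_unif hU hfam (by omega) hlt)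
    calc (B.image (trc G (univ \ B))).card ≤ _ := card_le_card hsub
      _ ≤ ((univ : Finset (Bool × Bool × Bool)).image (fun b => ft G f (univ \ B) b)).card +
          ({trc G (univ \ B) (t j), trc G (univ \ B) (x j), trc G (univ \ B) (u j)} :
            Finset (Finset V)).card := card_union_le _ _
      _ ≤ 8 + 3 := by
          apply Nat.add_le_add
          · exact card_image_le
          · exact card_le_three
      _ ≤ 8 * K + 20 := by omega
  have hstep : ∀ j, 1 ≤ j → j ≤ m → BT Q (A j) := by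
    intro j hj
    induction j, hj using Nat.le_induction with
    | base =>
      intro _
      have e : A 1 = R := by
        ext z
        rw [memA]
        constructor
        · rintro (h | ⟨i, h1, h2, _⟩)
          · exact h
          · omega
        · exact Or.inl
      rw [e]
      exact hBR
    | succ j hj ih =>
      intro hjm
      have ih' := ih (by omega)
      have e : A (j + 1) = insert (u j) (insert (x j) (insert (t j) (A j))) := by
        ext z
        simp only [mem_insert, memA]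
        constructor
        · rintro (h | ⟨i, h1, h2, h3⟩)
          · exact Or.inr (Or.inr (Or.inr (Or.inl h)))
          · by_cases hij : i = j
            · subst hij
              rcases h3 with h3 | h3 | h3
              · exact Or.inr (Or.inr (Or.inl h3))
              · exact Or.inr (Or.inl h3)
              · exact Or.inl h3
            · exact Or.inr (Or.inr (Or.inr (Or.inr ⟨i, h1, by omega, h3⟩)))
        · rintro (h | h | h | h | ⟨i, h1, h2, h3⟩)
          · exact Or.inr ⟨j, hj, by omega, Or.inr (Or.inr h)⟩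
          · exact Or.inr ⟨j, hj, by omega, Or.inr (Or.inl h)⟩
          · exact Or.inr ⟨j, hj, by omega, Or.inl h⟩
          · exact Or.inl h
          · exact Or.inr ⟨i, h1, by omega, h3⟩
      have s1 : insert (t j) (A j) ⊆ A (j + 1) := by
        rw [e]
        exact (subset_insert _ _).trans (subset_insert _ _)
      have s2 : insert (x j) (insert (t j) (A j)) ⊆ A (j + 1) := by
        rw [e]
        exact subset_insert _ _
      have b1 := bt_insert ih' (hQA j hj (by omega) _ (subset_insert _ _) s1)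
      have b2 := bt_insert b1 (hQA j hj (by omega) _
        ((subset_insert _ _).trans (subset_insert _ _)) s2)
      have b3 := bt_insert b2 (hQA j hj (by omega) _
        (((subset_insert _ _).trans (subset_insert _ _)).trans (subset_insert _ _)) (by rw [← e]))
      rw [e]
      exact b3
  have hAm : A m = univ := by
    ext z
    rw [memA]
    simp only [mem_univ, iff_true]
    by_cases hz : z ∈ R
    · exact Or.inl hz
    · exact Or.inr (notR z hz)
  have := hstep m hm1 le_rfl
  rw [hAm] at this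
  exact this

end Pool.Agent.H333R2.St
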