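import Pool.Agent.H333R2.St.Defs

/-! Symmetry under bipartite complement (task L1, helper89). -/

set_option autoImplicit false

namespace Pool.Agent.H333R2.St

open Finset Classical

private theorem coB_sf {V : Type} (H : SimpleGraph V) (c : V → Bool) (hB : Bip H c) (hS : SF H) :
    SF (coB H c) := by
  intro x a b1 b2 c1 c2 c3 h
  obtain ⟨⟨hxa, hxb, hxc, hbb, hcc, hcd⟩, n1, n2, n3, n4, n5, n6, n7, n8, n9, n10, n11, n12, n13,
    n14, n15⟩ := h
  have hsame : ∀ u v, c u = c v → ¬ H.Adj u v := fun u v huv hadj => hB u v hadj huv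
  have hH : ∀ u v, c u ≠ c v → ¬ (coB H c).Adj u v → H.Adj u v := by
    intro u v huv hn
    by_contra hn'
    exact hn ⟨huv, hn'⟩
  have ka : c a = !(c x) := by
    have := hxa.1
    cases h1 : c a <;> cases h2 : c x <;> simp_all
  have kb : c b1 = !(c x) := by
    have := hxb.1
    cases h1 : c b1 <;> cases h2 : c x <;> simp_all
  have kc : c c1 = !(c x) := by
    have := hxc.1
    cases h1 : c c1 <;> cases h2 : c x <;> simp_all
  have kb2 : c b2 = c x := by
    have := hbb.1
    rw [kb] at this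
    cases h1 : c b2 <;> cases h2 : c x <;> simp_all
  have kc2 : c c2 = c x := by
    have := hcc.1
    rw [kc] at this
    cases h1 : c c2 <;> cases h2 : c x <;> simp_all
  have kc3 : c c3 = !(c x) := by
    have := hcd.1
    rw [kc2] at this
    cases h1 : c c3 <;> cases h2 : c x <;> simp_all
  have hne : ∀ u v, c u = c x → c v = !(c x) → c u ≠ c v := by
    intro u v hu hv
    rw [hu, hv]
    simp
  refine hS b2 c1 c3 x a c2 b1 ⟨⟨?_, ?_, ?_, ?_, ?_, ?_⟩, ?_, ?_, ?_, ?_, ?_, ?_, ?_, ?_, ?_, ?_, ?_,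
    ?_, ?_, ?_, ?_⟩
  · exact hH _ _ (hne _ _ kb2 kc) n12
  · exact hH _ _ (hne _ _ kb2 kc3) n14
  · exact hH _ _ (hne _ _ kb2 ka) (fun h => n5 h.symm)
  · exact (hH _ _ (hne _ _ rfl kc3) n3).symm
  · exact (hH _ _ (hne _ _ kc2 ka) (fun h => n7 h.symm)).symm
  · exact hH _ _ (hne _ _ kc2 kb) (fun h => n10 h.symm)
  · exact hsame _ _ kb2
  · exact hsame _ _ (kb2.trans kc2.symm)
  · exact fun h => hbb.2 h.symm
  · exact hsame _ _ (kc.trans kc3.symm)
  · exact fun h => hxc.2 h.symm
  · exact hsame _ _ (kc.trans ka.symm)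
  · exact fun h => hcc.2 h
  · exact hsame _ _ (kc.trans kb.symm)
  · exact hsame _ _ (kc3.trans ka.symm)
  · exact fun h => hcd.2 h.symm
  · exact hsame _ _ (kc3.trans kb.symm)
  · exact fun h => hxa.2 h
  · exact hsame _ _ kc2.symm
  · exact fun h => hxb.2 h
  · exact hsame _ _ (ka.trans kb.symm)

private theorem coB_coB {V : Type} (H : SimpleGraph V) (c : V → Bool) (hB : Bip H c) :
    coB (coB H c) c = H := by
  ext u v
  constructor
  · rintro ⟨h1, h2⟩
    by_contra h3
    exact h2 ⟨h1, h3⟩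
  · intro h
    exact ⟨hB u v h, fun h' => h'.2 h⟩

private theorem coB_skew {V : Type} (H : SimpleGraph V) (c : V → Bool) (X : Finset V)
    (h : Skew H c X) : Skew (coB H c) c X := by
  obtain ⟨b, Y, hY, h1, h2, h3, h4⟩ := h
  refine ⟨!b, Y, hY, h1, h2, ?_, ?_⟩
  · intro u hu v hv hcu hcv
    have e1 : c u ≠ b := by
      rw [hcu]
      cases b <;> simp
    have e2 : c v = b := by
      cases hb : b <;> cases hv : c v <;> simp_all
    refine ⟨?_, h4 u hu v hv e1 e2⟩
    rw [e2]
    exact e1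
  · intro u hu v hv hcu hcv hadj
    have e1 : c u = b := by
      cases hb : b <;> cases hu : c u <;> simp_all
    have e2 : c v ≠ b := by
      rw [hcv]
      cases b <;> simp
    exact hadj.2 (h3 u hu v hv e1 e2)

theorem coB_all : Stmt_coB := by
  intro V H c hB hS
  refine ⟨fun u v h => h.1, coB_sf H c hB hS, ?_, ?_, coB_coB H c hB⟩
  · intro X
    unfold Dec
    rw [coB_coB H c hB]
    have h1 : Skew (coB H c) c X ↔ Skew H c X := by
      constructor
      · intro h
        have := coB_skew (coB H c) c X h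
        rwa [coB_coB H c hB] at this
      · exact coB_skew H c X
    rw [h1]
    tauto
  · intro X u v
    unfold Tw
    constructor
    · rintro ⟨h1, h2⟩
      refine ⟨h1, fun w hw hcw => ?_⟩
      have h3 := h2 w hw hcw
      have e1 : (coB H c).Adj u w ↔ ¬ H.Adj u w :=
        ⟨fun h => h.2, fun h => ⟨hcw.symm, h⟩⟩
      have e2 : (coB H c).Adj v w ↔ ¬ H.Adj v w :=
        ⟨fun h => h.2, fun h => ⟨by rw [← h1]; exact hcw.symm, h⟩⟩
      tauto
    · rintro ⟨h1, h2⟩
      refine ⟨h1, fun w hw hcw => ?_⟩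
      have h3 := h2 w hw hcw
      have e1 : (coB H c).Adj u w ↔ ¬ H.Adj u w :=
        ⟨fun h => h.2, fun h => ⟨hcw.symm, h⟩⟩
      have e2 : (coB H c).Adj v w ↔ ¬ H.Adj v w :=
        ⟨fun h => h.2, fun h => ⟨by rw [← h1]; exact hcw.symm, h⟩⟩
      tauto

end Pool.Agent.H333R2.St
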