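import Pool.Agent.H333R2.St.Defs

/-! Task L3: cut vertices in `S_{1,2,3}`-free bipartite graphs. -/

namespace Pool.Agent.H333R2.St

open Finset Classical
open Pool.Agent.H175R2 (Cn)

namespace DISm

variable {V : Type} {H : SimpleGraph V} {c : V → Bool} {X : Finset V}

lemma tn {a b : Bool} : a = b ↔ a.toNat = b.toNat := by
  cases a <;> cases b <;> simp

lemma tn' {a b : Bool} : a ≠ b ↔ a.toNat + b.toNat = 1 := by
  cases a <;> cases b <;> simp

lemma hbn (hB : Bip H c) {u v : V} (h : H.Adj u v) : (c u).toNat + (c v).toNat = 1 :=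
  tn'.1 (hB u v h)

lemma distinguish (hT : TwF H c X) {s t : V} (hs : s ∈ X) (ht : t ∈ X)
    (hc : (c s).toNat = (c t).toNat)
    (hne : s ≠ t) : ∃ w ∈ X, c w ≠ c s ∧
      ((H.Adj s w ∧ ¬ H.Adj t w) ∨ (H.Adj t w ∧ ¬ H.Adj s w)) := by
  by_contra h
  push Not at h
  apply hne
  apply hT s hs t ht
  refine ⟨tn.2 hc, fun w hw hcw => ?_⟩
  have := h w hw hcw
  tauto

lemma conn (hD : ¬ Dis H X) (hn : X.Nonempty) : Cn H X := by
  refine ⟨hn, fun T hT h1 h2 => ?_⟩
  by_contra h
  push Not at h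
  exact hD ⟨T, hT, h1, h2, h⟩

lemma card2 {u a b : V} (h : ∀ w ∈ X, H.Adj u w → w = a ∨ w = b) :
    (X.filter (fun y => H.Adj u y)).card ≤ 2 := by
  have : X.filter (fun y => H.Adj u y) ⊆ {a, b} := by
    intro w hw
    simp only [mem_filter] at hw
    simpa using h w hw.1 hw.2
  exact (card_le_card this).trans card_le_two

lemma walk (hB : Bip H c) (hS : SF H) (hT : TwF H c X) (hD : ¬ Dis H X) :
    ∀ (n : ℕ) (Z : Finset V) (p q r s : V), (X \ Z).card = n → Z ⊆ X → p ∈ Z → q ∈ Z → r ∈ Z →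
      s ∈ X → s ∉ Z → H.Adj r s → H.Adj r q → H.Adj q p → p ≠ r →
      (∀ z ∈ Z, ∀ u ∈ X, H.Adj z u → u ∈ Z ∨ (z = r ∧ u = s)) →
      ∀ u ∈ X, u ∉ Z → (X.filter (fun y => H.Adj u y)).card ≤ 2 := by
  intro n
  induction n with
  | zero =>
    intro Z p q r s hn hZ hp hq hr hs hsZ _ _ _ _ _ u hu huZ
    rw [card_eq_zero] at hn
    exfalso
    have : u ∈ X \ Z := mem_sdiff.2 ⟨hu, huZ⟩
    rw [hn] at this
    simp at this
  | succ n ih =>
    intro Z p q r s hn hZ hp hq hr hs hsZ hrs hrq hqp hpr hcl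
    have hqr : q ≠ r := by
      rintro rfl; exact H.loopless.irrefl _ hrq
    have hout : ∀ z ∈ Z, z ≠ r → ∀ u ∈ X, u ∉ Z → ¬ H.Adj z u := by
      intro z hz hzr u hu huZ h
      rcases hcl z hz u hu h with h' | h'
      · exact huZ h'
      · exact hzr h'.1
    have hnb : ∀ t ∈ X, H.Adj s t → t ≠ r → t ∉ Z := by
      intro t ht hst htr htZ
      exact hout t htZ htr s hs hsZ hst.symm
    have key : ∀ t ∈ X, ∀ t' ∈ X, ∀ w ∈ X, H.Adj s t → H.Adj s t' → t ≠ r → t' ≠ r →
        H.Adj t w → ¬ H.Adj t' w → False := by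
      intro t ht t' ht' w hw hst hst' htr htr' htw htw'
      have htZ := hnb t ht hst htr
      have htZ' := hnb t' ht' hst' htr'
      have hts : t ≠ s := by rintro rfl; exact H.loopless.irrefl _ hst
      have hws : w ≠ s := by rintro rfl; exact htw' hst'.symm
      have hwZ : w ∉ Z := by
        intro hwZ
        rcases hcl w hwZ t ht htw.symm with h | h
        · exact htZ h
        · exact hts h.2
      have hts' : t' ≠ s := by rintro rfl; exact H.loopless.irrefl _ hst'
      have c1 := hbn hB hst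
      have c2 := hbn hB hst'
      have c3 := hbn hB hrs
      have c4 := hbn hB hrq
      have c5 := hbn hB hqp
      have c6 := hbn hB htw
      have same : ∀ a b, (c a).toNat = (c b).toNat → ¬ H.Adj a b := fun a b h h' => by
        have := hbn hB h'; omega
      apply hS s t' t w r q p
      refine ⟨⟨hst', hst, hrs.symm, htw, hrq, hqp⟩, ?_⟩
      refine ⟨same _ _ (by omega), fun h => hout q hq hqr s hs hsZ h.symm,
        fun h => hout p hp hpr s hs hsZ h.symm, same _ _ (by omega), htw', ?_, ?_, ?_, ?_, ?_, ?_,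
        ?_, ?_, ?_, same _ _ (by omega)⟩
      · exact same _ _ (by omega)
      · exact fun h => hout q hq hqr t' ht' htZ' h.symm
      · exact fun h => hout p hp hpr t' ht' htZ' h.symm
      · exact same _ _ (by omega)
      · exact fun h => hout q hq hqr t ht htZ h.symm
      · exact fun h => hout p hp hpr t ht htZ h.symm
      · intro h
        rcases hcl r hr w hw h.symm with h' | h'
        · exact hwZ h'
        · exact hws h'.2
      · exact fun h => hout q hq hqr w hw hwZ h.symm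
      · exact fun h => hout p hp hpr w hw hwZ h.symm
    have huniq : ∀ t ∈ X, ∀ t' ∈ X, H.Adj s t → H.Adj s t' → t ≠ r → t' ≠ r → t = t' := by
      intro t ht t' ht' hst hst' htr htr'
      by_contra hne
      obtain ⟨w, hw, -, h | h⟩ := distinguish hT ht ht' (by
        have c1 := hbn hB hst
        have c2 := hbn hB hst'
        grind) hne
      · exact key t ht t' ht' w hw hst hst' htr htr' h.1 h.2
      · exact key t' ht' t ht w hw hst' hst htr' htr h.1 h.2
    intro u hu huZ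
    by_cases ht : ∃ t ∈ X, H.Adj s t ∧ t ≠ r
    · obtain ⟨t, ht, hst, htr⟩ := ht
      by_cases hus : u = s
      · subst hus
        refine card2 (a := r) (b := t) ?_
        intro w hw huw
        by_cases hwr : w = r
        · exact Or.inl hwr
        · exact Or.inr (huniq w hw t ht huw hst hwr htr)
      · have htZ := hnb t ht hst htr
        refine ih (insert s Z) q r s t ?_ ?_ ?_ ?_ ?_ ht ?_ hst hrs.symm hrq ?_ ?_ u hu ?_
        · have : X \ insert s Z = (X \ Z).erase s := by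
            ext a; simp only [mem_sdiff, mem_insert, mem_erase]; tauto
          rw [this, card_erase_of_mem (mem_sdiff.2 ⟨hs, hsZ⟩), hn]
          rfl
        · exact insert_subset hs hZ
        · exact mem_insert_of_mem hq
        · exact mem_insert_of_mem hr
        · exact mem_insert_self _ _
        · rw [mem_insert]; push Not
          exact ⟨by rintro rfl; exact H.loopless.irrefl _ hst, htZ⟩
        · rintro rfl; exact hsZ hq
        · intro z hz u' hu' hzu
          rcases mem_insert.1 hz with rfl | hz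
          · by_cases h : u' = r
            · subst h; exact Or.inl (mem_insert_of_mem hr)
            · exact Or.inr ⟨rfl, huniq u' hu' t ht hzu hst h htr⟩
          · rcases hcl z hz u' hu' hzu with h | h
            · exact Or.inl (mem_insert_of_mem h)
            · exact Or.inl (by rw [h.2]; exact mem_insert_self _ _)
        · rw [mem_insert]; push Not; exact ⟨hus, huZ⟩
    · push Not at ht
      by_cases hus : u = s
      · subst hus
        refine card2 (a := r) (b := r) ?_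
        intro w hw huw
        exact Or.inl (ht w hw huw)
      · exfalso
        apply hD
        refine ⟨insert s Z, insert_subset hs hZ, ⟨s, mem_insert_self _ _⟩, ⟨u, ?_⟩, ?_⟩
        · rw [mem_sdiff, mem_insert]; push Not; exact ⟨hu, hus, huZ⟩
        · intro z hz u' hu' hzu
          rw [mem_sdiff, mem_insert] at hu'
          push Not at hu'
          rcases mem_insert.1 hz with rfl | hz
          · exact hu'.2.2 (by rw [ht u' hu'.1 hzu]; exact hr)
          · rcases hcl z hz u' hu'.1 hzu with h | h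
            · exact hu'.2.2 h
            · exact hu'.2.1 h.2

lemma side (hB : Bip H c) (hS : SF H) (hT : TwF H c X) (hD : ¬ Dis H X) {v : V} (hv : v ∈ X)
    {K : Finset V} (hK : K ⊆ X) (hvK : v ∉ K)
    (hcl : ∀ u ∈ K, ∀ w ∈ X, H.Adj u w → w ∈ K ∨ w = v)
    {y2 x2 : V} (hy2 : y2 ∈ X) (hy2K : y2 ∉ K) (hx2 : x2 ∈ X) (hx2K : x2 ∉ K)
    (hvy2 : H.Adj v y2) (hyx2 : H.Adj y2 x2) (hx2v : x2 ≠ v)
    {y x y' : V} (hy : y ∈ K) (hx : x ∈ K) (hy' : y' ∈ K)
    (h1 : H.Adj v y) (h2 : H.Adj y x) (h3 : H.Adj x y') (h4 : ¬ H.Adj v y') :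
    (∀ u ∈ K, (X.filter (fun w => H.Adj u w)).card ≤ 2) ∧ ∀ u ∈ K, H.Adj v u → u = y := by
  have hy2v : y2 ≠ v := by rintro rfl; exact H.loopless.irrefl _ hvy2
  have n1 : ∀ a ∈ K, ¬ H.Adj a y2 := fun a ha h => by
    rcases hcl a ha y2 hy2 h with h | h
    · exact hy2K h
    · exact hy2v h
  have n1' : ∀ a ∈ K, ¬ H.Adj y2 a := fun a ha h => n1 a ha h.symm
  have n2 : ∀ a ∈ K, ¬ H.Adj a x2 := fun a ha h => by
    rcases hcl a ha x2 hx2 h with h | h
    · exact hx2K h
    · exact hx2v h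
  have n2' : ∀ a ∈ K, ¬ H.Adj x2 a := fun a ha h => n2 a ha h.symm
  have same : ∀ a b, (c a).toNat = (c b).toNat → ¬ H.Adj a b := fun a b h h' => by
        have := hbn hB h'; omega
  have k1 := hbn hB hvy2
  have k2 := hbn hB hyx2
  have s1 : ∀ a ∈ K, ∀ b ∈ K, ∀ d ∈ K, ∀ z ∈ K, H.Adj v a → H.Adj a b → H.Adj b d →
      ¬ H.Adj v d → H.Adj v z → H.Adj b z := by
    intro a ha b hb d hd z hz e1 e2 e3 e4 e5
    by_contra hbz
    have c1 := hbn hB e1
    have c2 := hbn hB e2
    have c3 := hbn hB e3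
    have c5 := hbn hB e5
    apply hS v z y2 x2 a b d
    refine ⟨⟨e5, hvy2, e1, hyx2, e2, e3⟩, same _ _ (by omega), same _ _ (by omega), e4, n1 z hz,
      n2 z hz, same _ _ (by omega), fun h => hbz h.symm, same _ _ (by omega), n1' a ha, n1' b hb,
      n1' d hd, n2' a ha, n2' b hb, n2' d hd, same _ _ (by omega)⟩
  have s2 : ∀ x' ∈ K, ∀ a ∈ K, H.Adj v a → H.Adj a x' → ∃ d ∈ K, H.Adj x' d ∧ ¬ H.Adj v d := by
    intro x' hx' a ha e1 e2
    by_contra hcon
    push Not at hcon
    have hax : H.Adj x a := s1 y hy x hx y' hy' a ha h1 h2 h3 h4 e1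
    have c1 := hbn hB e1
    have c2 := hbn hB e2
    have c3 := hbn hB hax
    have c4 := hbn hB h3
    apply hS a x' x y' v y2 x2
    refine ⟨⟨e2, hax.symm, e1.symm, h3, hvy2, hyx2⟩, same _ _ (by omega), n1 a ha, n2 a ha,
      same _ _ (by omega), fun h => h4 (hcon y' hy' h), same _ _ (by omega), n1 x' hx', n2 x' hx',
      same _ _ (by omega), n1 x hx, n2 x hx, fun h => h4 h.symm, n1 y' hy', n2 y' hy',
      same _ _ (by omega)⟩
  have s3 : ∀ a ∈ K, ∀ b ∈ K, H.Adj v a → H.Adj v b → a = b := by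
    intro a ha b hb e1 e2
    by_contra hne
    have c1 := hbn hB e1
    have c2 := hbn hB e2
    have aux : ∀ a ∈ K, ∀ b ∈ K, H.Adj v a → H.Adj v b → ∀ w ∈ X, H.Adj a w → ¬ H.Adj b w →
        False := by
      intro a ha b hb e1 e2 w hw f1 f2
      have hwv : w ≠ v := by rintro rfl; exact f2 e2.symm
      have hwK : w ∈ K := (hcl a ha w hw f1).resolve_right hwv
      obtain ⟨d, hd, g1, g2⟩ := s2 w hwK a ha e1 f1
      exact f2 (s1 a ha w hwK d hd b hb e1 f1 g1 g2 e2).symm
    obtain ⟨w, hw, -, h | h⟩ := distinguish hT (hK ha) (hK hb) (by omega) hne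
    · exact aux a ha b hb e1 e2 w hw h.1 h.2
    · exact aux b hb a ha e2 e1 w hw h.1 h.2
  have s4 : ∀ a ∈ K, ∀ b ∈ K, H.Adj y a → H.Adj y b → a = b := by
    intro a ha b hb e1 e2
    by_contra hne
    have c1 := hbn hB e1
    have c2 := hbn hB e2
    have aux : ∀ a ∈ K, ∀ b ∈ K, H.Adj y a → H.Adj y b → ∀ w ∈ X, H.Adj a w → ¬ H.Adj b w →
        False := by
      intro a ha b hb e1 e2 w hw f1 f2
      have c0 := hbn hB h1
      have c1 := hbn hB e1
      have c2 := hbn hB e2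
      have c3 := hbn hB f1
      have hwv : w ≠ v := by rintro rfl; grind
      have hwK : w ∈ K := (hcl a ha w hw f1).resolve_right hwv
      have hvw : ¬ H.Adj v w := by
        intro h
        have := s3 w hwK y hy h h1
        subst this
        exact f2 e2.symm
      apply hS y b a w v y2 x2
      refine ⟨⟨e2, e1, h1.symm, f1, hvy2, hyx2⟩, same _ _ (by omega), n1 y hy, n2 y hy,
        same _ _ (by omega), f2, same _ _ (by omega), n1 b hb, n2 b hb,
        same _ _ (by omega), n1 a ha, n2 a ha, fun h => hvw h.symm, n1 w hwK, n2 w hwK,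
        same _ _ (by omega)⟩
    obtain ⟨w, hw, -, h | h⟩ := distinguish hT (hK ha) (hK hb) (by omega) hne
    · exact aux a ha b hb e1 e2 w hw h.1 h.2
    · exact aux b hb a ha e2 e1 w hw h.1 h.2
  have hyn : ∀ w ∈ X, H.Adj y w → w = v ∨ w = x := by
    intro w hw h
    rcases hcl y hy w hw h with h' | h'
    · exact Or.inr (s4 w h' x hx h h2)
    · exact Or.inl h'
  refine ⟨?_, fun u hu h => s3 u hu y hy h h1⟩
  intro u hu
  by_cases huy : u = y
  · subst huy
    exact card2 hyn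
  · refine walk hB hS hT hD _ (insert y (X \ K)) y2 v y x rfl ?_ ?_ ?_ ?_ (hK hx) ?_ h2 h1.symm
      hvy2 ?_ ?_ u (hK hu) ?_
    · exact insert_subset (hK hy) sdiff_subset
    · exact mem_insert_of_mem (mem_sdiff.2 ⟨hy2, hy2K⟩)
    · exact mem_insert_of_mem (mem_sdiff.2 ⟨hv, hvK⟩)
    · exact mem_insert_self _ _
    · rw [mem_insert, mem_sdiff]; push Not
      exact ⟨by rintro rfl; exact H.loopless.irrefl _ h2, fun _ => hx⟩
    · rintro rfl; exact hy2K hy
    · intro z hz w hw hzw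
      rcases mem_insert.1 hz with rfl | hz
      · rcases hyn w hw hzw with h | h
        · left; rw [h]; exact mem_insert_of_mem (mem_sdiff.2 ⟨hv, hvK⟩)
        · exact Or.inr ⟨rfl, h⟩
      · left
        by_cases hwK : w ∈ K
        · rcases hcl w hwK z (mem_sdiff.1 hz).1 hzw.symm with h | h
          · exact absurd h (mem_sdiff.1 hz).2
          · subst h
            rw [s3 w hwK y hy hzw h1]
            exact mem_insert_self _ _
        · exact mem_insert_of_mem (mem_sdiff.2 ⟨hw, hwK⟩)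
    · rw [mem_insert, mem_sdiff]; push Not
      exact ⟨huy, fun _ => hu⟩

/-- a path from `v` into a mixed part -/
lemma path (hB : Bip H c) (hD : ¬ Dis H X) {v : V} (hv : v ∈ X)
    {K : Finset V} (hK : K ⊆ X) (hvK : v ∉ K)
    (hcl : ∀ u ∈ K, ∀ w ∈ X, H.Adj u w → w ∈ K ∨ w = v) {y' : V} (hy' : y' ∈ K)
    (hc : c y' ≠ c v) (hn : ¬ H.Adj v y') :
    ∃ y ∈ K, ∃ x ∈ K, ∃ s ∈ K, H.Adj v y ∧ H.Adj y x ∧ H.Adj x s ∧ ¬ H.Adj v s := by
  have hC := conn hD ⟨v, hv⟩
  set T : Finset V := X.filter (fun t => t ∈ K → (H.Adj v t ∨ ∃ y ∈ K, H.Adj v y ∧ H.Adj y t))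
    with hT
  obtain ⟨t, ht, s, hs, hts⟩ := hC.2 T (filter_subset _ _)
    ⟨v, by rw [hT, mem_filter]; exact ⟨hv, fun h => absurd h hvK⟩⟩
    ⟨y', by
      rw [mem_sdiff, hT, mem_filter]
      refine ⟨hK hy', fun h => ?_⟩
      rcases h.2 hy' with h | ⟨y, hy, h1, h2⟩
      · exact hn h
      · have := hbn hB h1
        have := hbn hB h2
        have := tn'.1 hc
        omega⟩
  rw [hT, mem_filter] at ht
  rw [mem_sdiff, hT, mem_filter] at hs
  obtain ⟨hsX, hs⟩ := hs
  have hs' : ¬ (s ∈ K → (H.Adj v s ∨ ∃ y ∈ K, H.Adj v y ∧ H.Adj y s)) := fun h => hs ⟨hsX, h⟩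
  push Not at hs'
  obtain ⟨hsK, hs1, hs2⟩ := hs'
  by_cases htK : t ∈ K
  · rcases ht.2 htK with h | ⟨y, hy, h1, h2⟩
    · exact absurd hts (hs2 t htK h)
    · exact ⟨y, hy, t, htK, s, hsK, h1, h2, hts, hs1⟩
  · rcases hcl s hsK t ht.1 hts.symm with h | h
    · exact absurd h htK
    · subst h; exact absurd hts hs1

lemma core (hB : Bip H c) (hS : SF H) (hT : TwF H c X) (hD : ¬ Dis H X) {v : V} (hv : v ∈ X)
    {K K' : Finset V} (hK : K ⊆ X) (hvK : v ∉ K) (hK' : K' ⊆ X) (hvK' : v ∉ K')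
    (hdj : ∀ u ∈ K, u ∉ K') (hun : ∀ u ∈ X, u = v ∨ u ∈ K ∨ u ∈ K') (hn' : K'.Nonempty)
    (hcl : ∀ u ∈ K, ∀ w ∈ X, H.Adj u w → w ∈ K ∨ w = v)
    (hcl' : ∀ u ∈ K', ∀ w ∈ X, H.Adj u w → w ∈ K' ∨ w = v)
    (hpend : ∀ y ∈ X, H.Adj y v → ∃ w ∈ X, H.Adj y w ∧ w ≠ v)
    {y' : V} (hy' : y' ∈ K) (hc : c y' ≠ c v) (hn : ¬ H.Adj v y') : Dg H X := by
  have nbr : ∀ L : Finset V, L ⊆ X → v ∉ L → L.Nonempty →
      (∀ u ∈ L, ∀ w ∈ X, H.Adj u w → w ∈ L ∨ w = v) → ∃ y ∈ L, H.Adj v y := by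
    intro L hL hvL hLn hLc
    by_contra hcon
    push Not at hcon
    apply hD
    refine ⟨L, hL, hLn, ⟨v, mem_sdiff.2 ⟨hv, hvL⟩⟩, ?_⟩
    intro u hu w hw huw
    rcases hLc u hu w (mem_sdiff.1 hw).1 huw with h | h
    · exact (mem_sdiff.1 hw).2 h
    · subst h; exact hcon u hu huw.symm
  obtain ⟨y, hy, x, hx, s, hs, h1, h2, h3, h4⟩ := path hB hD hv hK hvK hcl hy' hc hn
  obtain ⟨y2, hy2, hvy2⟩ := nbr K' hK' hvK' hn' hcl'
  obtain ⟨x2, hx2X, hyx2, hx2v⟩ := hpend y2 (hK' hy2) hvy2.symm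
  have hx2 : x2 ∈ K' := (hcl' y2 hy2 x2 hx2X hyx2).resolve_right hx2v
  have hdj' : ∀ u ∈ K', u ∉ K := fun u hu h => hdj u h hu
  obtain ⟨d1, e1⟩ := side hB hS hT hD hv hK hvK hcl (hK' hy2) (hdj' _ hy2) hx2X (hdj' _ hx2)
    hvy2 hyx2 hx2v hy hx hs h1 h2 h3 h4
  have hxv : x ≠ v := by rintro rfl; exact hvK hx
  -- the other side
  obtain ⟨d2, e2⟩ : (∀ u ∈ K', (X.filter (fun w => H.Adj u w)).card ≤ 2) ∧
      ∃ z, ∀ u ∈ K', H.Adj v u → u = z := by
    by_cases hm : ∃ z ∈ K', c z ≠ c v ∧ ¬ H.Adj v z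
    · obtain ⟨z, hz, hzc, hzn⟩ := hm
      obtain ⟨a, ha, b, hb, d, hd, g1, g2, g3, g4⟩ := path hB hD hv hK' hvK' hcl' hz hzc hzn
      obtain ⟨d2, e2⟩ := side hB hS hT hD hv hK' hvK' hcl' (hK hy) (hdj _ hy) (hK hx) (hdj _ hx)
        h1 h2 hxv ha hb hd g1 g2 g3 g4
      exact ⟨d2, a, e2⟩
    · push Not at hm
      have same : ∀ a b, (c a).toNat = (c b).toNat → ¬ H.Adj a b := fun a b h h' => by
        have := hbn hB h'; omega
      have nK : ∀ a ∈ K', ∀ b ∈ K, ¬ H.Adj a b := by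
        intro a ha b hb h
        rcases hcl' a ha b (hK hb) h with h' | h'
        · exact hdj b hb h'
        · subst h'; exact hvK hb
      have k0 := hbn hB h1
      have k1 := hbn hB h2
      have k2 := hbn hB h3
      -- one vertex of the opposite colour
      have u1 : ∀ a ∈ K', ∀ b ∈ K', H.Adj v a → H.Adj v b → a = b := by
        intro a ha b hb f1 f2
        by_contra hne
        have aux : ∀ a ∈ K', ∀ b ∈ K', H.Adj v a → H.Adj v b → ∀ w ∈ X, H.Adj a w →
            ¬ H.Adj b w → False := by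
          intro a ha b hb f1 f2 w hw g1 g2
          have hwv : w ≠ v := by rintro rfl; exact g2 f2.symm
          have hwK : w ∈ K' := (hcl' a ha w hw g1).resolve_right hwv
          have c1 := hbn hB f1
          have c2 := hbn hB f2
          have c3 := hbn hB g1
          apply hS v b a w y x s
          refine ⟨⟨f2, f1, h1, g1, h2, h3⟩, same _ _ (by omega), same _ _ (by omega), h4,
            same _ _ (by omega), g2, nK b hb y hy, nK b hb x hx, nK b hb s hs, nK a ha y hy,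
            nK a ha x hx, nK a ha s hs, nK w hwK y hy, nK w hwK x hx, nK w hwK s hs,
            same _ _ (by omega)⟩
        have c1 := hbn hB f1
        have c2 := hbn hB f2
        obtain ⟨w, hw, -, h | h⟩ := distinguish hT (hK' ha) (hK' hb) (by omega) hne
        · exact aux a ha b hb f1 f2 w hw h.1 h.2
        · exact aux b hb a ha f2 f1 w hw h.1 h.2
      -- vertices of the colour of `v` in `K'` are adjacent to `y2` only
      have kvy2 := hbn hB hvy2
      have u2 : ∀ a ∈ K', c a = c v → ∀ w ∈ X, H.Adj a w → w = y2 := by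
        intro a ha hca w hw h
        have k5 := hbn hB h
        have k6 := tn.1 hca
        have hwv : w ≠ v := by rintro rfl; omega
        have hwK : w ∈ K' := (hcl' a ha w hw h).resolve_right hwv
        exact u1 w hwK y2 hy2 (hm w hwK (tn'.2 (by omega))) hvy2
      have u3 : ∀ a ∈ K', c a = c v → H.Adj a y2 := by
        intro a ha hca
        obtain ⟨p, hp, q, hq, hpq⟩ := (conn hD ⟨v, hv⟩).2 {a} (by simpa using hK' ha) (by simp)
          ⟨v, by
            rw [mem_sdiff, mem_singleton]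
            exact ⟨hv, by rintro rfl; exact hvK' ha⟩⟩
        rw [mem_singleton] at hp
        subst hp
        rw [← u2 p ha hca q (mem_sdiff.1 hq).1 hpq]
        exact hpq
      have u4 : ∀ a ∈ K', ∀ b ∈ K', c a = c v → c b = c v → a = b := by
        intro a ha b hb f1 f2
        by_contra hne
        obtain ⟨w, hw, -, h | h⟩ := distinguish hT (hK' ha) (hK' hb)
          (by rw [tn.1 f1, tn.1 f2]) hne
        · rw [u2 a ha f1 w hw h.1] at h
          exact h.2 (u3 b hb f2)
        · rw [u2 b hb f2 w hw h.1] at h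
          exact h.2 (u3 a ha f1)
      refine ⟨?_, y2, fun u hu h => u1 u hu y2 hy2 h hvy2⟩
      intro u hu
      by_cases hcu : c u = c v
      · exact card2 (a := y2) (b := y2) (fun w hw h => Or.inl (u2 u hu hcu w hw h))
      · have huy : u = y2 := u1 u hu y2 hy2 (hm u hu hcu) hvy2
        subst huy
        refine card2 (a := v) (b := x2) ?_
        intro w hw h
        rcases hcl' u hu w hw h with h' | h'
        · right
          have := hbn hB h
          have := hbn hB hyx2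
          exact u4 w h' x2 hx2 (tn.2 (by omega)) (tn.2 (by omega))
        · exact Or.inl h'
  obtain ⟨z, hz⟩ := e2
  refine ⟨conn hD ⟨v, hv⟩, ?_⟩
  intro u hu
  rcases hun u hu with rfl | hu | hu
  · refine card2 (a := y) (b := z) ?_
    intro w hw h
    rcases hun w hw with rfl | hw' | hw'
    · exact absurd h (H.loopless.irrefl _)
    · exact Or.inl (e1 w hw' h)
    · exact Or.inr (hz w hw' h)
  · exact d1 u hu
  · exact d2 u hu

end DISm

open DISm in
/-- a cut vertex of an indecomposable twin-free graph has a pendant neighbour, or all degrees are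
at most two -/
theorem dis : Stmt_DIS := by
  intro V H c hB hS X hT hDec v hv hDis
  by_contra hcon
  push Not at hcon
  obtain ⟨hnDg, hpend⟩ := hcon
  have hD : ¬ Dis H X := fun h => hDec (Or.inl h)
  have hDc : ¬ Dis (coB H c) X := fun h => hDec (Or.inr (Or.inl h))
  obtain ⟨Y, hYX, hYn, hYn', hYY⟩ := hDis
  have hsub : ∀ u ∈ Y, u ∈ X ∧ u ≠ v := fun u hu => ⟨(mem_erase.1 (hYX hu)).2,
    (mem_erase.1 (hYX hu)).1⟩
  have hsub' : ∀ u ∈ (X.erase v) \ Y, u ∈ X ∧ u ≠ v ∧ u ∉ Y := fun u hu => by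
    rw [mem_sdiff, mem_erase] at hu
    exact ⟨hu.1.2, hu.1.1, hu.2⟩
  have hcl : ∀ u ∈ Y, ∀ w ∈ X, H.Adj u w → w ∈ Y ∨ w = v := by
    intro u hu w hw h
    by_contra hcon
    push Not at hcon
    exact hYY u hu w (mem_sdiff.2 ⟨mem_erase.2 ⟨hcon.2, hw⟩, hcon.1⟩) h
  have hcl' : ∀ u ∈ (X.erase v) \ Y, ∀ w ∈ X, H.Adj u w → w ∈ (X.erase v) \ Y ∨ w = v := by
    intro u hu w hw h
    by_contra hcon
    push Not at hcon
    have hwY : w ∈ Y := by
      by_contra hwY
      exact hcon.1 (mem_sdiff.2 ⟨mem_erase.2 ⟨hcon.2, hw⟩, hwY⟩)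
    exact hYY w hwY u hu h.symm
  obtain ⟨y', hy'X, hcy', hy'v⟩ : ∃ y' ∈ X, c y' ≠ c v ∧ ¬ H.Adj v y' := by
    by_contra h
    push Not at h
    apply hDc
    refine ⟨{v}, by simpa using hv, by simp, ?_, ?_⟩
    · obtain ⟨a, ha⟩ := hYn
      exact ⟨a, by rw [mem_sdiff, mem_singleton]; exact hsub a ha⟩
    · intro u hu w hw hadj
      rw [mem_singleton] at hu
      subst hu
      exact hadj.2 (h w (mem_sdiff.1 hw).1 hadj.1.symm)
  have hy'ne : y' ≠ v := by rintro rfl; exact hcy' rfl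
  have hpend' : ∀ y ∈ X, H.Adj y v → ∃ w ∈ X, H.Adj y w ∧ w ≠ v := hpend
  apply hnDg
  by_cases hy'Y : y' ∈ Y
  · refine core hB hS hT hD hv (K := Y) (K' := (X.erase v) \ Y) (fun u hu => (hsub u hu).1)
      (fun h => (hsub v h).2 rfl) (fun u hu => (hsub' u hu).1) (fun h => (hsub' v h).2.1 rfl)
      (fun u hu h => (hsub' u h).2.2 hu) ?_ hYn' hcl hcl' hpend' hy'Y hcy' hy'v
    intro u hu
    by_cases h1 : u = v
    · exact Or.inl h1
    · by_cases h2 : u ∈ Y
      · exact Or.inr (Or.inl h2)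
      · exact Or.inr (Or.inr (mem_sdiff.2 ⟨mem_erase.2 ⟨h1, hu⟩, h2⟩))
  · refine core hB hS hT hD hv (K := (X.erase v) \ Y) (K' := Y) (fun u hu => (hsub' u hu).1)
      (fun h => (hsub' v h).2.1 rfl) (fun u hu => (hsub u hu).1) (fun h => (hsub v h).2 rfl)
      (fun u hu h => (hsub' u hu).2.2 h) ?_ hYn hcl' hcl hpend'
      (mem_sdiff.2 ⟨mem_erase.2 ⟨hy'ne, hy'X⟩, hy'Y⟩) hcy' hy'v
    intro u hu
    by_cases h1 : u = v
    · exact Or.inl h1
    · by_cases h2 : u ∈ Y
      · exact Or.inr (Or.inr h2)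
      · exact Or.inr (Or.inl (mem_sdiff.2 ⟨mem_erase.2 ⟨h1, hu⟩, h2⟩))

end Pool.Agent.H333R2.St
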