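import Pool.Agent.H333R2.St.Defs

/-! Task L4 (END), helper793. -/

namespace Pool.Agent.H333R2.St

open Finset Classical
open Pool.Agent.H175R2 (Cn cliqueWidth)

/-- `v` has a pendant neighbour in `H[X]` -/
def END_P {V : Type} (H : SimpleGraph V) (X : Finset V) (v : V) : Prop :=
  ∃ y ∈ X, H.Adj y v ∧ ∀ w ∈ X, H.Adj y w → w = v

theorem END_bool {a b d : Bool} (h : a ≠ b) (h' : d ≠ b) : a = d := by
  cases a <;> cases b <;> cases d <;> simp_all

theorem END_lem {V : Type} {H : SimpleGraph V} {c : V → Bool} (hB : Bip H c) {X : Finset V}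
    (hD : ¬ Dec H c X) (hall : ∀ v ∈ X, END_P H X v ∨ END_P (coB H c) X v)
    {y v : V} (hy : y ∈ X) (hyv : H.Adj y v) (hp : ∀ w ∈ X, H.Adj y w → w = v) :
    ∃ w ∈ X, w ≠ v ∧ c w = c v ∧ ¬ H.Adj w y ∧ ∀ z ∈ X, c z ≠ c w → ¬ H.Adj w z → z = y := by
  rcases hall y hy with ⟨w, hw, h1, h2⟩ | ⟨w, hw, h1, h2⟩
  · exfalso
    have hwv : w = v := hp w hw h1.symm
    subst hwv
    apply hD
    by_cases hne : (X \ {w, y}).Nonempty
    · left
      refine ⟨{w, y}, ?_, ⟨w, by simp⟩, hne, ?_⟩
      · intro u hu
        simp only [mem_insert, mem_singleton] at hu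
        rcases hu with hu | hu
        · rw [hu]; exact hw
        · rw [hu]; exact hy
      · intro u hu z hz hadj
        simp only [mem_sdiff, mem_insert, mem_singleton, not_or] at hu hz
        rcases hu with hu | hu
        · rw [hu] at hadj
          exact hz.2.2 (h2 z hz.1 hadj)
        · rw [hu] at hadj
          exact hz.2.1 (hp z hz.1 hadj)
    · right; left
      refine ⟨{w}, by simpa using hw, by simp, ⟨y, ?_⟩, ?_⟩
      · simp only [mem_sdiff, mem_singleton]
        exact ⟨hy, H.ne_of_adj hyv⟩
      · intro u hu z hz hadj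
        simp only [mem_sdiff, mem_singleton] at hu hz
        have hzy : z = y := by
          by_contra hzy
          apply hne
          refine ⟨z, ?_⟩
          simp only [mem_sdiff, mem_insert, mem_singleton, not_or]
          exact ⟨hz.1, hz.2, hzy⟩
        rw [hu, hzy] at hadj
        exact hadj.2 hyv.symm
  · refine ⟨w, hw, ?_, END_bool h1.1 (hB _ _ hyv).symm, h1.2, ?_⟩
    · rintro rfl
      exact h1.2 hyv.symm
    · intro z hz hcz hnz
      exact h2 z hz ⟨fun h => hcz h.symm, hnz⟩

theorem END_core {V : Type} {H : SimpleGraph V} {c : V → Bool} (hB : Bip H c) {X : Finset V}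
    (hD : ¬ Dec H c X) (hall : ∀ v ∈ X, END_P H X v ∨ END_P (coB H c) X v)
    {v : V} (hv : v ∈ X) (hPv : END_P H X v) : False := by
  obtain ⟨y0, hy0, h0, hp0⟩ := hPv
  obtain ⟨w, hw, hwv, hcw, hwy, hwall⟩ := END_lem hB hD hall hy0 h0 hp0
  have hcy : c y0 ≠ c v := hB _ _ h0
  have hsame : ∀ {a b : V}, c a = c b → ¬ H.Adj a b := fun h h' => hB _ _ h' h
  rcases hall w hw with ⟨y', hy', h1, hp1⟩ | ⟨y', hy', h1, hp1⟩
  · -- `w` has a pendant neighbour
    have hyy : y0 ≠ y' := by
      rintro rfl
      exact hwy h1.symm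
    obtain ⟨w', hw', hw'w, hcw', hw'y, hw'all⟩ := END_lem hB hD hall hy' h1 hp1
    have hw'v : w' = v := by
      apply hp0 w' hw'
      by_contra hc
      have h2 : c y0 ≠ c w' := by rw [hcw', hcw]; exact hcy
      exact hyy (hw'all y0 hy0 h2 (fun h => hc h.symm))
    rw [hw'v] at hw'all hw'y
    have hcy' : c y' ≠ c v := by rw [← hcw]; exact hB _ _ h1
    apply hD
    by_cases hne : (X \ {v, w, y0, y'}).Nonempty
    · right; right
      refine ⟨c v, {v, w, y0, y'}, ?_, ⟨v, by simp⟩, hne, ?_, ?_⟩
      · intro u hu
        simp only [mem_insert, mem_singleton] at hu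
        rcases hu with hu | hu | hu | hu <;> rw [hu] <;> assumption
      · intro u hu z hz hcu hcz
        simp only [mem_sdiff, mem_insert, mem_singleton, not_or] at hu hz
        obtain ⟨hzX, hz1, hz2, hz3, hz4⟩ := hz
        rcases hu with hu | hu | hu | hu
        · rw [hu]
          by_contra hc
          exact hz4 (hw'all z hzX hcz hc)
        · rw [hu]
          by_contra hc
          exact hz3 (hwall z hzX (by rw [hcw]; exact hcz) hc)
        · rw [hu] at hcu
          exact absurd hcu hcy
        · rw [hu] at hcu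
          exact absurd hcu hcy'
      · intro u hu z hz hcu hcz hadj
        simp only [mem_sdiff, mem_insert, mem_singleton, not_or] at hu hz
        obtain ⟨hzX, hz1, hz2, hz3, hz4⟩ := hz
        rcases hu with hu | hu | hu | hu
        · rw [hu] at hcu
          exact hcu rfl
        · rw [hu] at hcu
          exact hcu hcw
        · rw [hu] at hadj
          exact hz1 (hp0 z hzX hadj)
        · rw [hu] at hadj
          exact hz2 (hp1 z hzX hadj)
    · left
      refine ⟨{v, y0}, ?_, ⟨v, by simp⟩, ⟨w, ?_⟩, ?_⟩
      · intro u hu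
        simp only [mem_insert, mem_singleton] at hu
        rcases hu with hu | hu <;> rw [hu] <;> assumption
      · simp only [mem_sdiff, mem_insert, mem_singleton, not_or]
        refine ⟨hw, hwv, ?_⟩
        rintro rfl
        exact hcy hcw
      · intro u hu z hz hadj
        simp only [mem_sdiff, mem_insert, mem_singleton, not_or] at hu hz
        have hz' : z = w ∨ z = y' := by
          by_contra hzc
          rw [not_or] at hzc
          apply hne
          refine ⟨z, ?_⟩
          simp only [mem_sdiff, mem_insert, mem_singleton, not_or]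
          exact ⟨hz.1, hz.2.1, hzc.1, hz.2.2, hzc.2⟩
        rcases hu with hu | hu <;> rcases hz' with hz' | hz' <;> rw [hu, hz'] at hadj
        · exact hsame hcw.symm hadj
        · exact hw'y hadj
        · exact hwy hadj.symm
        · exact hsame (END_bool hcy hcy') hadj
  · -- `w` has a pendant neighbour in the bipartite complement
    have hy'y : y' = y0 := hwall y' hy' h1.1 (fun h => h1.2 h.symm)
    rw [hy'y] at h1 hp1
    have hcls : ∀ z ∈ X, c z = c v → z = v ∨ z = w := by
      intro z hz hcz
      by_cases hadj : H.Adj y0 z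
      · exact Or.inl (hp0 z hz hadj)
      · refine Or.inr (hp1 z hz ⟨?_, hadj⟩)
        rw [hcz]
        exact hcy
    apply hD
    by_cases hboth : ∃ z ∈ X, H.Adj z v ∧ H.Adj z w
    · obtain ⟨z, hz, hzv, hzw⟩ := hboth
      right; left
      refine ⟨{z}, by simpa using hz, by simp, ⟨v, ?_⟩, ?_⟩
      · simp only [mem_sdiff, mem_singleton]
        exact ⟨hv, fun h => H.ne_of_adj hzv h.symm⟩
      · intro u hu x hx hadj
        simp only [mem_sdiff, mem_singleton] at hu hx
        rw [hu] at hadj
        have hcx : c x = c v := END_bool hadj.1.symm (hB _ _ hzv).symm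
        rcases hcls x hx.1 hcx with h | h
        · rw [h] at hadj
          exact hadj.2 hzv
        · rw [h] at hadj
          exact hadj.2 hzw
    · push Not at hboth
      left
      refine ⟨{v, y0}, ?_, ⟨v, by simp⟩, ⟨w, ?_⟩, ?_⟩
      · intro u hu
        simp only [mem_insert, mem_singleton] at hu
        rcases hu with hu | hu <;> rw [hu] <;> assumption
      · simp only [mem_sdiff, mem_insert, mem_singleton, not_or]
        refine ⟨hw, hwv, ?_⟩
        rintro rfl
        exact hcy hcw
      · intro u hu z hz hadj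
        simp only [mem_sdiff, mem_insert, mem_singleton, not_or] at hu hz
        rcases hu with hu | hu <;> rw [hu] at hadj
        · have hzc : c z ≠ c w := by
            rw [hcw]
            exact (hB _ _ hadj).symm
          apply hboth z hz.1 hadj.symm
          by_contra hc
          exact hz.2.2 (hwall z hz.1 hzc (fun h => hc h.symm))
        · exact hz.2.1 (hp0 z hz.1 hadj)

theorem end_ (h1 : Stmt_coB) (h2 : Stmt_DIS) : Stmt_END := by
  intro V H c hB hS X hX hT hD hall
  obtain ⟨hB', hS', hDec, hTw, hcc⟩ := h1 V H c hB hS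
  by_contra hcon
  rw [not_or] at hcon
  have hT' : TwF (coB H c) c X := fun u hu v hv huv => hT u hu v hv ((hTw X u v).1 huv)
  have hD' : ¬ Dec (coB H c) c X := fun h => hD ((hDec X).1 h)
  have key : ∀ v ∈ X, END_P H X v ∨ END_P (coB H c) X v := by
    intro v hv
    rcases hall v hv with h | h
    · rcases h2 V H c hB hS X hT hD v hv h with h3 | h3
      · exact absurd h3 hcon.1
      · exact Or.inl h3
    · rcases h2 V (coB H c) c hB' hS' X hT' hD' v hv h with h3 | h3
      · exact absurd h3 hcon.2
      · exact Or.inr h3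
  by_cases hex : ∃ v ∈ X, END_P H X v
  · obtain ⟨v, hv, hPv⟩ := hex
    exact END_core hB hD key hv hPv
  · push Not at hex
    have key' : ∀ v ∈ X, END_P (coB H c) X v := fun v hv => (key v hv).resolve_left (hex v hv)
    obtain ⟨v, hv⟩ : X.Nonempty := Finset.card_pos.1 (by omega)
    exact END_core hB' hD' (fun v hv => Or.inl (key' v hv)) hv (key' v hv)

end Pool.Agent.H333R2.St
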