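import Pool.Agent.H333R2.St.Defs

/-!
# The finite engine (task E2, helper439)
-/

namespace Pool.Agent.H333R2.St

open Finset Classical

namespace ENG

theorem bt_mono {V : Type} {P Q : Finset V → Prop} {A : Finset V} (h : BT P A) :
    (∀ B ⊆ A, P B → Q B) → BT Q A := by
  induction h with
  | leaf x => intro _; exact BT.leaf x
  | node hd hA hB hP ihA ihB =>
    intro hQ
    refine BT.node hd (ihA ?_) (ihB ?_) (hQ _ (Finset.Subset.refl _) hP)
    · intro B hB' hPB
      exact hQ B (hB'.trans Finset.subset_union_left) hPB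
    · intro B hB' hPB
      exact hQ B (hB'.trans Finset.subset_union_right) hPB

theorem bt_all {V : Type} {Q : Finset V → Prop} {A : Finset V} (hne : A.Nonempty) :
    (∀ B ⊆ A, Q B) → BT Q A := by
  induction hne using Finset.Nonempty.cons_induction with
  | singleton a => intro _; exact BT.leaf a
  | cons a s ha hs ih =>
    intro hQ
    have h1 : Finset.cons a s ha = {a} ∪ s := by
      rw [Finset.cons_eq_insert]
      rfl
    rw [h1]
    refine BT.node ?_ (BT.leaf a) (ih ?_) ?_
    · simpa using ha
    · intro B hB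
      exact hQ B (hB.trans (Finset.subset_cons ha))
    · rw [← h1]
      exact hQ _ (Finset.Subset.refl _)

theorem mem_trc {V : Type} (G : SimpleGraph V) (Z : Finset V) (x y : V) :
    y ∈ trc G Z x ↔ y ∈ Z ∧ G.Adj x y := by
  unfold trc
  exact Finset.mem_filter

/-- a function determined by `g` takes at most as many values as `g` -/
theorem card_image_le_of_det {V α β : Type} [DecidableEq α] [DecidableEq β] (A : Finset V) (f : V → α) (g : V → β)
    (h : ∀ x ∈ A, ∀ x' ∈ A, g x = g x' → f x = f x') :
    (A.image f).card ≤ (A.image g).card := by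
  by_cases hA : A.Nonempty
  · obtain ⟨a0, ha0⟩ := hA
    have : Nonempty V := ⟨a0⟩
    have h1 : A.image f ⊆ (A.image g).image (fun b => f (Function.invFunOn g (A : Set V) b)) := by
      intro y hy
      obtain ⟨x, hx, rfl⟩ := Finset.mem_image.1 hy
      refine Finset.mem_image.2 ⟨g x, Finset.mem_image_of_mem g hx, ?_⟩
      have h2 : ∃ a ∈ (A : Set V), g a = g x := ⟨x, hx, rfl⟩
      have h3 := Function.invFunOn_mem h2
      have h4 := Function.invFunOn_eq h2
      exact h _ h3 x hx h4
    exact le_trans (Finset.card_le_card h1) Finset.card_image_le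
  · rw [Finset.not_nonempty_iff_eq_empty] at hA
    simp [hA]

end ENG

theorem eng (hGlue : Stmt_Glue) (hADT : Stmt_ADT) : Stmt_ENG := by
  intro T nk K
  obtain ⟨M, hM⟩ := hADT T
  refine ⟨Fintype.card (Fin T × Fin M × Option (Fin nk) × (Fin T → Bool)) * (K + 1), ?_⟩
  intro V _ _ G τ knd hs hnone hthree hBd
  obtain ⟨lam, cl, hclA, hdet⟩ := hM V (Fin T) (Fin nk) G τ knd (fun _ => univ) hs
    (fun a => by simp) (fun a b _ => Finset.mem_univ b) hthree
  set Lab := Fin T × Fin M × Option (Fin nk) × (Fin T → Bool) with hLab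
  let lb : V → Lab := fun v => (τ v, lam v, cl v, fun b => decide (∃ y, τ y = b ∧ G.Adj v y))
  have hlb : ∀ v v', lb v = lb v' → τ v = τ v' ∧ lam v = lam v' ∧ cl v = cl v' ∧
      ∀ b, (∃ y, τ y = b ∧ G.Adj v y) ↔ ∃ y, τ y = b ∧ G.Adj v' y := by
    intro v v' h
    have h1 : τ v = τ v' := congrArg (fun l : Lab => l.1) h
    have h2 : lam v = lam v' := congrArg (fun l : Lab => l.2.1) h
    have h3 : cl v = cl v' := congrArg (fun l : Lab => l.2.2.1) h
    have h4 : (fun b => decide (∃ y, τ y = b ∧ G.Adj v y)) =
      fun b => decide (∃ y, τ y = b ∧ G.Adj v' y) := congrArg (fun l : Lab => l.2.2.2) h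
    exact ⟨h1, h2, h3, fun b => decide_eq_decide.1 (congrFun h4 b)⟩
  have hSC : ∀ v w v' w', τ v = τ v' → τ w = τ w' → SC G τ (τ v) (τ w) →
      (∀ b, (∃ y, τ y = b ∧ G.Adj v y) ↔ ∃ y, τ y = b ∧ G.Adj v' y) →
      (G.Adj v w ↔ G.Adj v' w') := by
    intro v w v' w' hv hw hsc hb
    constructor
    · intro h
      obtain ⟨y, hy, hy'⟩ := (hb (τ w)).1 ⟨w, rfl, h⟩
      exact hsc v' y w' hv.symm hy hw.symm hy'
    · intro h
      obtain ⟨y, hy, hy'⟩ := (hb (τ w)).2 ⟨w', hw.symm, h⟩
      exact hsc v y w rfl hy rfl hy'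
  have hfact : ∀ v w v' w', lb v = lb v' → lb w = lb w' →
      (knd (τ v) (τ w) ≠ none → ¬ (cl v = knd (τ v) (τ w) ∧ cl w = knd (τ v) (τ w))) →
      (G.Adj v w ↔ G.Adj v' w') := by
    intro v w v' w' hv hw hn
    obtain ⟨hv1, hv2, hv3, hv4⟩ := hlb v v' hv
    obtain ⟨hw1, hw2, hw3, hw4⟩ := hlb w w' hw
    by_cases hk : knd (τ v) (τ w) = none
    · rcases hnone _ _ hk with h | h
      · exact hSC v w v' w' hv1 hw1 h hv4
      · rw [G.adj_comm v w, G.adj_comm v' w']
        exact hSC w v w' v' hw1 hv1 h hw4
    · exact hdet v w v' w' hv1 hw1 hv2 hw2 hv3 hw3 hk (hn hk)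
  -- cluster index
  let cix : V → ℕ := fun v => (cl v).elim nk (fun s => (s : ℕ))
  have hcix1 : ∀ v (s : Fin nk), cl v = some s → cix v = s := by
    intro v s h
    simp only [cix, h, Option.elim]
  have hcix2 : ∀ v, cl v = none → cix v = nk := by
    intro v h
    simp only [cix, h, Option.elim]
  have hcix3 : ∀ v (s : Fin nk), cix v = s → cl v = some s := by
    intro v s h
    cases hc : cl v with
    | none =>
      rw [hcix2 v hc] at h
      have := s.2
      omega
    | some r =>
      rw [hcix1 v r hc] at h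
      rw [Fin.ext h]
  have hcix4 : ∀ v, cix v ≤ nk := by
    intro v
    cases hc : cl v with
    | none => rw [hcix2 v hc]
    | some r =>
      rw [hcix1 v r hc]
      exact r.2.le
  let W : ℕ → Finset V := fun s => univ.filter (fun v => cix v = s)
  have hWmem : ∀ s v, v ∈ W s ↔ cix v = s := by
    intro s v
    simp [W]
  set K' := Fintype.card Lab * (K + 1) with hK'
  have hcardLab : Fintype.card Lab ≤ K' := by
    rw [hK']
    exact Nat.le_mul_of_pos_right _ (Nat.succ_pos K)
  let Q : Finset V → Prop := fun A => tr G A (univ \ A) ≤ K'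
  -- sets whose traces are determined by the labels
  have hQlab : ∀ A : Finset V, (∀ x ∈ A, ∀ y, y ∉ A → knd (τ x) (τ y) ≠ none →
      ¬ (cl x = knd (τ x) (τ y) ∧ cl y = knd (τ x) (τ y))) → Q A := by
    intro A hA
    have h1 : (A.image (trc G (univ \ A))).card ≤ (A.image lb).card := by
      apply ENG.card_image_le_of_det
      intro x hx x' hx' h
      unfold trc
      apply Finset.filter_congr
      intro y hy
      have hyA : y ∉ A := (Finset.mem_sdiff.1 hy).2
      exact hfact x y x' y h rfl (hA x hx y hyA)
    have h2 : (A.image lb).card ≤ Fintype.card Lab := Finset.card_le_univ _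
    exact le_trans h1 (le_trans h2 hcardLab)
  have hW : ∀ s < nk + 1, W s = ∅ ∨ BT Q (W s) := by
    intro s hs1
    by_cases hne : (W s).Nonempty
    · right
      by_cases hsn : s < nk
      · have hb := hBd ⟨s, hsn⟩ (W s) hne
        refine ENG.bt_mono hb ?_
        intro A hA hP
        have hAc : ∀ x ∈ A, cl x = some ⟨s, hsn⟩ := by
          intro x hx
          exact hcix3 x ⟨s, hsn⟩ ((hWmem s x).1 (hA hx))
        have h1 : (A.image (trc G (univ \ A))).card ≤
            (A.image (fun x => (lb x, trc (Hk G τ knd hs ⟨s, hsn⟩) (W s \ A) x))).card := by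
          apply ENG.card_image_le_of_det
          intro x hx x' hx' h
          rw [Prod.mk.injEq] at h
          obtain ⟨hl, ht⟩ := h
          unfold trc
          apply Finset.filter_congr
          intro y hy
          have hyA : y ∉ A := (Finset.mem_sdiff.1 hy).2
          by_cases hcase : y ∈ W s ∧ knd (τ x) (τ y) = some ⟨s, hsn⟩
          · obtain ⟨hyW, hk⟩ := hcase
            have hy1 : y ∈ W s \ A := Finset.mem_sdiff.2 ⟨hyW, hyA⟩
            have hk' : knd (τ x') (τ y) = some ⟨s, hsn⟩ := by
              rw [← (hlb x x' hl).1]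
              exact hk
            have h2 : y ∈ trc (Hk G τ knd hs ⟨s, hsn⟩) (W s \ A) x ↔
                y ∈ trc (Hk G τ knd hs ⟨s, hsn⟩) (W s \ A) x' := by rw [ht]
            rw [ENG.mem_trc, ENG.mem_trc, and_iff_right hy1, and_iff_right hy1] at h2
            constructor
            · intro h
              exact (h2.1 ⟨h, hk⟩).1
            · intro h
              exact (h2.2 ⟨h, hk'⟩).1
          · refine hfact x y x' y hl rfl ?_
            intro _ hboth
            apply hcase
            have hk : knd (τ x) (τ y) = some ⟨s, hsn⟩ := by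
              rw [← hboth.1]
              exact hAc x hx
            refine ⟨?_, hk⟩
            rw [hWmem]
            exact hcix1 y ⟨s, hsn⟩ (hboth.2.trans hk)
        have h2 : (A.image (fun x => (lb x, trc (Hk G τ knd hs ⟨s, hsn⟩) (W s \ A) x))).card ≤
            ((univ : Finset Lab) ×ˢ
              (A.image (trc (Hk G τ knd hs ⟨s, hsn⟩) (W s \ A)))).card := by
          apply Finset.card_le_card
          intro p hp
          obtain ⟨x, hx, rfl⟩ := Finset.mem_image.1 hp
          exact Finset.mem_product.2 ⟨Finset.mem_univ _, Finset.mem_image_of_mem _ hx⟩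
        rw [Finset.card_product, Finset.card_univ] at h2
        have h3 : (A.image (trc (Hk G τ knd hs ⟨s, hsn⟩) (W s \ A))).card ≤ K + 1 :=
          le_trans hP (Nat.le_succ K)
        exact le_trans h1 (le_trans h2 (Nat.mul_le_mul_left _ h3))
      · have hs2 : s = nk := by omega
        refine ENG.bt_all hne ?_
        intro A hA
        apply hQlab
        intro x hx y hy hk hboth
        have h1 : cix x = nk := by
          rw [← hs2]
          exact (hWmem s x).1 (hA hx)
        cases hc : cl x with
        | none =>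
          rw [hc] at hboth
          exact hk hboth.1.symm
        | some r =>
          rw [hcix1 x r hc] at h1
          have := r.2
          omega
    · left
      exact Finset.not_nonempty_iff_eq_empty.1 hne
  have huniv : (range (nk + 1)).biUnion W = univ := by
    ext v
    simp only [Finset.mem_biUnion, Finset.mem_range, Finset.mem_univ, iff_true]
    exact ⟨cix v, Nat.lt_succ_of_le (hcix4 v), (hWmem _ v).2 rfl⟩
  have hfin := hGlue V Q (nk + 1) W ?_ hW ?_ ?_
  · rw [huniv] at hfin
    exact hfin
  · intro s _ t _ hst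
    rw [Finset.disjoint_left]
    intro v hv hv'
    exact hst (((hWmem s v).1 hv).symm.trans ((hWmem t v).1 hv'))
  · intro t ht
    apply hQlab
    intro x hx y hy hk hboth
    apply hy
    rw [Finset.mem_biUnion] at hx ⊢
    obtain ⟨s, hs1, hs2⟩ := hx
    refine ⟨s, hs1, ?_⟩
    rw [hWmem] at hs2 ⊢
    have hc : cl x = cl y := hboth.1.trans hboth.2.symm
    have : cix x = cix y := by
      simp only [cix, hc]
    omega
  · rw [huniv]
    exact Finset.univ_nonempty

end Pool.Agent.H333R2.St
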