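import Pool.Agent.H333R2.St.Defs

/-! Task K2 (helper418): classification of attachments to long anchors. -/

namespace Pool.Agent.H333R2.St

open Finset Classical
open Pool.Agent.H175R2 (Cn cliqueWidth)

namespace K2h

/-- the words of the anchor `𝔸_11` -/
def nb (b : Bool) (m j : ℕ) : Bool :=
  ((decide (m < j) && decide ((j - m) % 3 = 1)) || (decide (j < m) && decide ((m - j) % 3 = 1))) &&
    (b || decide (j ≠ (m + 1) % 11))

theorem nb_w1 : ∀ b : Bool, ∀ m < 11, nb b m 0 = true → nb b m 3 = false →
    (nb b m 1 = false ∧ nb b m 2 = true) ∨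
    (nb b m 1 = false ∧ nb b m 2 = false ∧ nb b m 4 = false ∧ nb b m 5 = true) := by
  decide

theorem nb_zero : ∀ b : Bool, ∀ m < 11, ∃ j < 10, nb b m j = true := by
  decide

variable {V : Type} {G : SimpleGraph V} {n : ℕ} {f : ℕ → V}

theorem win (h1 : Stmt_Rot) (hn : n % 3 = 2) (hn11 : 11 ≤ n) (hA : Anch G n f) (a : ℕ) :
    Anch G 11 (fun i => f ((i + a) % n)) := by
  intro i j hij hj
  exact h1 V G n f a hn hA i j hij (by omega)

theorem adjF (h1 : Stmt_Rot) (hn : n % 3 = 2) (hA : Anch G n f) {i d : ℕ} (hd : d < n) :
    G.Adj (f (i % n)) (f ((i + d) % n)) ↔ d % 3 = 1 := by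
  rcases Nat.eq_zero_or_pos d with rfl | hd0
  · simp
  · have := h1 V G n f i hn hA 0 d hd0 hd
    simp only [Nat.zero_add, Nat.sub_zero] at this
    rw [add_comm i d]
    exact this

theorem adj11 {g : ℕ → V} (hg : Anch G 11 g) {m j : ℕ} (hm : m < 11) (hj : j < 11) :
    G.Adj (g m) (g j) ↔ ((m < j ∧ (j - m) % 3 = 1) ∨ (j < m ∧ (m - j) % 3 = 1)) := by
  rcases lt_trichotomy m j with h | h | h
  · rw [hg m j h hj]
    constructor
    · intro h'; exact Or.inl ⟨h, h'⟩
    · rintro (h' | h')
      · exact h'.2
      · omega
  · subst h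
    simp
  · rw [G.adj_comm, hg j m h hm]
    constructor
    · intro h'; exact Or.inr ⟨h, h'⟩
    · rintro (h' | h')
      · omega
      · exact h'.2

theorem word (h1 : Stmt_Rot) (h2 : Stmt_A11) (hT : TF G) (hS : SF G) (hn : n % 3 = 2)
    (hn11 : 11 ≤ n) (hA : Anch G n f) (v : V) (a : ℕ) :
    (∀ j < 11, ¬ G.Adj v (f ((j + a) % n))) ∨
    ∃ b : Bool, ∃ m < 11, ∀ j < 11, (G.Adj v (f ((j + a) % n)) ↔ nb b m j = true) := by
  have hw := win h1 hn hn11 hA a
  obtain ⟨hc, -, -⟩ := h2 V G hT hS _ hw
  rcases hc v with h | ⟨b, m, hm, h⟩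
  · left
    intro j hj
    exact h j hj
  · right
    refine ⟨b, m, hm, fun j hj => ?_⟩
    have h' := h j hj
    have h3 := adj11 hw hm hj
    simp only at h' h3
    rw [h', h3]
    unfold nb
    simp only [Bool.and_eq_true, Bool.or_eq_true, decide_eq_true_eq]
    refine and_congr_right fun _ => ?_
    cases b
    · simp
    · simp

end K2h

open K2h

theorem an (h1 : Stmt_Rot) (h2 : Stmt_A11) : Stmt_An := by
  intro V G hT hS n f hn hn11 hA
  have hn0 : 0 < n := by omega
  refine ⟨fun v => ?_, ?_⟩
  · by_cases hU : TyU G n f v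
    · exact Or.inl hU
    right
    -- the bi-infinite word
    set s : ℕ → Prop := fun j => G.Adj v (f (j % n)) with hs
    have hper : ∀ j, s (j + n) ↔ s j := by
      intro j
      simp only [hs, Nat.add_mod_right]
    have hword := word h1 h2 hT hS hn hn11 hA v
    -- no window is zero
    have hnz : ∀ a, ¬ ∀ j < 11, ¬ s (j + a) := by
      intro a ha
      apply hU
      have hstep : ∀ k, ∀ j < 11, ¬ s (j + (a + k)) := by
        intro k
        induction k with
        | zero => exact ha
        | succ k ih =>
          rcases hword (a + (k + 1)) with h | ⟨b, m, hm, h⟩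
          · exact h
          · exfalso
            obtain ⟨j, hj, hj2⟩ := nb_zero b m hm
            have := (h j (by omega)).2 hj2
            apply ih (j + 1) (by omega)
            show G.Adj v (f ((j + 1 + (a + k)) % n))
            rw [show j + 1 + (a + k) = j + (a + (k + 1)) by ring]
            exact this
      intro j hj
      have h3 := hstep (j + (n - 1) * a) 0 (by omega)
      have h4 : 0 + (a + (j + (n - 1) * a)) = j + n * a := by
        obtain ⟨n', rfl⟩ : ∃ n', n = n' + 1 := ⟨n - 1, by omega⟩
        simp only [Nat.add_sub_cancel]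
        ring
      rw [h4] at h3
      simp only [hs, Nat.add_mul_mod_self_left] at h3
      rwa [Nat.mod_eq_of_lt hj] at h3
    -- W1
    have hW1 : ∀ k, s k → ¬ s (k + 3) → (¬ s (k + 1) ∧ s (k + 2)) ∨
        (¬ s (k + 1) ∧ ¬ s (k + 2) ∧ ¬ s (k + 4) ∧ s (k + 5)) := by
      intro k hk hk3
      rcases hword k with h | ⟨b, m, hm, h⟩
      · exact absurd h (hnz k)
      · have e : ∀ j < 11, (s (k + j) ↔ nb b m j = true) := by
          intro j hj
          rw [add_comm k j]
          exact h j hj
        have e0 := (e 0 (by omega)).1 hk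
        have e3 : nb b m 3 = false := by
          rw [← Bool.not_eq_true]
          intro h'
          exact hk3 ((e 3 (by omega)).2 h')
        rcases nb_w1 b m hm e0 e3 with ⟨g1, g2⟩ | ⟨g1, g2, g3, g4⟩
        · left
          rw [e 1 (by omega), e 2 (by omega), g1, g2]
          simp
        · right
          rw [e 1 (by omega), e 2 (by omega), e 4 (by omega), e 5 (by omega), g1, g2, g3, g4]
          simp
    -- triangle-freeness
    have hTri : ∀ i d, 0 < d → d < n → s i → s (i + d) → d % 3 ≠ 1 := by
      intro i d hd0 hd hi hj h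
      have := (adjF h1 hn hA (i := i) hd).2 h
      exact hT (f (i % n)) v (f ((i + d) % n)) hi.symm hj this
    -- the position of the jump
    obtain ⟨j0, hj0⟩ : ∃ j0, s j0 := by
      by_contra hcon
      push Not at hcon
      exact hnz 0 fun j _ => hcon _
    obtain ⟨k, hk, hk3⟩ : ∃ k, s k ∧ ¬ s (k + 3) := by
      by_contra hcon
      push Not at hcon
      have hall : ∀ t, s (j0 + 3 * t) := by
        intro t
        induction t with
        | zero => simpa using hj0
        | succ t ih =>
          have := hcon _ ih
          rwa [show j0 + 3 * t + 3 = j0 + 3 * (t + 1) by ring] at this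
      have h3 := hall ((n + 1) / 3)
      rw [show j0 + 3 * ((n + 1) / 3) = (j0 + 1) + n by omega, hper] at h3
      exact hTri j0 1 (by omega) (by omega) hj0 h3 rfl
    -- the two cases
    have key : ∃ b : Bool, ∀ d < n, (s (k + 1 + d) ↔ (d % 3 = 1 ∧ (b = false → d ≠ 1))) := by
      have hklast : s (k + 1 + (n - 1)) := by
        rw [show k + 1 + (n - 1) = k + n by omega, hper]
        exact hk
      -- the induction
      have hind : ∀ d0, d0 % 3 = 1 → s (k + 1 + d0) →
          (∀ d < n, s (k + 1 + d) → d % 3 = 1) →
          ∀ t, d0 + 3 * t < n → s (k + 1 + (d0 + 3 * t)) := by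
        intro d0 hd0 hs0 hres t
        induction t with
        | zero => intro _; simpa using hs0
        | succ t ih =>
          intro hlt
          by_contra hcon
          have hi := ih (by omega)
          have hW := hW1 _ hi (by
            rw [show k + 1 + (d0 + 3 * t) + 3 = k + 1 + (d0 + 3 * (t + 1)) by ring]; exact hcon)
          have h2' : ¬ s (k + 1 + (d0 + 3 * t) + 2) := by
            intro h
            have := hres (d0 + 3 * t + 2) (by omega) (by
              rwa [show k + 1 + (d0 + 3 * t + 2) = k + 1 + (d0 + 3 * t) + 2 by ring])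
            omega
          rcases hW with ⟨-, h⟩ | ⟨-, -, -, h⟩
          · exact h2' h
          · by_cases h5 : d0 + 3 * t + 5 < n
            · have := hres (d0 + 3 * t + 5) h5 (by
                rwa [show k + 1 + (d0 + 3 * t + 5) = k + 1 + (d0 + 3 * t) + 5 by ring])
              omega
            · have h6 : d0 + 3 * (t + 1) = n - 1 := by omega
              rw [h6] at hcon
              exact hcon hklast
      rcases hW1 k hk hk3 with ⟨g1, g2⟩ | ⟨g1, g2, g4, g5⟩
      · refine ⟨true, ?_⟩
        have hres : ∀ d < n, s (k + 1 + d) → d % 3 = 1 := by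
          intro d hd hsd
          by_cases hd1 : d = n - 1
          · omega
          have a1 := hTri k (1 + d) (by omega) (by omega) hk (by rwa [← add_assoc])
          rcases Nat.lt_or_ge d 2 with h | h
          · interval_cases d
            · exact absurd hsd g1
            · rfl
          · have a2 := hTri (k + 2) (d - 1) (by omega) (by omega) g2 (by
              rwa [show k + 2 + (d - 1) = k + 1 + d by omega])
            omega
        intro d hd
        constructor
        · intro h
          exact ⟨hres d hd h, fun h' => absurd h' (by decide)⟩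
        · rintro ⟨h, -⟩
          have := hind 1 rfl (by rwa [show k + 1 + 1 = k + 2 by ring]) hres (d / 3) (by omega)
          rwa [show 1 + 3 * (d / 3) = d by omega] at this
      · refine ⟨false, ?_⟩
        have hres : ∀ d < n, s (k + 1 + d) → d % 3 = 1 := by
          intro d hd hsd
          by_cases hd1 : d = n - 1
          · omega
          have a1 := hTri k (1 + d) (by omega) (by omega) hk (by rwa [← add_assoc])
          rcases Nat.lt_or_ge d 5 with h | h
          · interval_cases d
            · exact absurd hsd g1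
            · rfl
            · exact absurd hsd hk3
            · exact absurd hsd g4
            · rfl
          · have a2 := hTri (k + 5) (d - 4) (by omega) (by omega) g5 (by
              rwa [show k + 5 + (d - 4) = k + 1 + d by omega])
            omega
        intro d hd
        constructor
        · intro h
          refine ⟨hres d hd h, fun _ h' => ?_⟩
          subst h'
          exact g2 h
        · rintro ⟨h, h'⟩
          have h1' := h' rfl
          have := hind 4 rfl (by rwa [show k + 1 + 4 = k + 5 by ring]) hres (d / 3 - 1) (by omega)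
          rwa [show 4 + 3 * (d / 3 - 1) = d by omega] at this
    obtain ⟨b, hb⟩ := key
    refine ⟨b, (k + 1) % n, Nat.mod_lt _ hn0, fun j hj => ?_⟩
    -- write `j = (k + 1 + d) % n`
    obtain ⟨d, hd, hdj⟩ : ∃ d < n, (k + 1 + d) % n = j := by
      have hm := Nat.mod_lt (k + 1) hn0
      have hdm := Nat.div_add_mod (k + 1) n
      by_cases hc : (k + 1) % n ≤ j
      · refine ⟨j - (k + 1) % n, by omega, ?_⟩
        rw [show k + 1 + (j - (k + 1) % n) = j + n * ((k + 1) / n) by omega,
          Nat.add_mul_mod_self_left, Nat.mod_eq_of_lt hj]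
      · refine ⟨j + n - (k + 1) % n, by omega, ?_⟩
        rw [show k + 1 + (j + n - (k + 1) % n) = j + n + n * ((k + 1) / n) by omega,
          Nat.add_mul_mod_self_left, Nat.add_mod_right, Nat.mod_eq_of_lt hj]
    have e1 := hb d hd
    have e2 := adjF h1 hn hA (i := k + 1) hd
    rw [hdj] at e2
    have e3 : s (k + 1 + d) ↔ G.Adj v (f j) := by
      simp only [hs, hdj]
    rw [← e3, e1, e2]
    refine and_congr_right fun hd3 => ?_
    refine imp_congr_right fun _ => ?_
    rw [not_iff_not]
    rw [Nat.mod_add_mod, ← hdj]
    constructor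
    · rintro rfl; rfl
    · intro h
      -- (k+1+d) ≡ (k+1+1) mod n
      have h3 : d % n = 1 % n := Nat.ModEq.add_left_cancel' (k + 1) h
      rwa [Nat.mod_eq_of_lt hd, Nat.mod_eq_of_lt (by omega)] at h3
  · intro v w hv hvw a ha haw
    have hw := win h1 hn hn11 hA a
    obtain ⟨-, hc, -⟩ := h2 V G hT hS _ hw
    have h3 := hc v w (fun j hj => hv _ (Nat.mod_lt _ hn0)) hvw 0 (by omega)
    simp only [Nat.zero_add, Nat.mod_eq_of_lt ha] at h3
    exact h3 haw

end Pool.Agent.H333R2.St
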