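import Pool.Agent.H333R2.St.FC3

/-! Full instances and anchors `𝔸_n` in terms of masks. -/

namespace Pool.Agent.H333R2.St.FC

open Pool.Agent.H333R2.St

variable {V : Type} {G : SimpleGraph V}

theorem instFull (D : AD) (hk : D.okK = true) (c1 : Ct) (h1 : ver1 D.n D.adj D.a3 D.tys c1 = true)
    (c2 : List (ℕ × ℕ × Ct)) (h2 : D.all2 c2 = true)
    (hc2 : D.cover2 (c2.map fun x => (x.1, x.2.1)) = true)
    (c3 : List (ℕ × ℕ × ℕ × Ct)) (h3 : D.all3 c3 = true)
    (hc3 : D.cover3 (c3.map fun x => (x.1, x.2.1, x.2.2.1)) = true)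
    (c4 : List (ℕ × ℕ × Ct)) (h4 : D.all4 c4 = true)
    (c5 : List (List ℕ × Ct)) (h5 : D.all5 c5 = true)
    (sides : List (List ℕ × List ℕ)) (good : List ℕ)
    (hsides : ∀ k < D.nk, D.kindOK (k + 1) (sides.getD k ([], [])).1 (sides.getD k ([], [])).2 = true)
    (hgood : ∀ k ∈ good, D.indOK (c4.map fun x => (x.1, x.2.1)) (sides.getD k ([], [])).1 = true ∧
      D.indOK (c4.map fun x => (x.1, x.2.1)) (sides.getD k ([], [])).2 = true)
    (hpat : ∀ k < D.nk, k ∉ good →
      cover5 (c5.map fun x => x.1) (sides.getD k ([], [])).1 (sides.getD k ([], [])).2 = true)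
    (hE : Stmt_ENG) (hB : Stmt_Bondy) (hLZ : Stmt_LZ) : ∃ K : ℕ, ∀ (V : Type) [Fintype V] [Nonempty V]
      (G : SimpleGraph V) (f : ℕ → V), Hyp D G f → Bd G K Finset.univ := by
  obtain ⟨K, hK⟩ := inst D hk c2 h2 hc2 c3 h3 hc3 hE hB
  refine ⟨K, fun V _ _ G f H => ?_⟩
  have hcl : ∀ v : V, ∃ i : Fin D.tys.length, HTy G D.n f (D.ty i) v := by
    intro v
    obtain ⟨T, hT, hv⟩ := ver1_sound H.tf H.sf H.ha H.he h1 v
    obtain ⟨i, hi, rfl⟩ := List.mem_iff_getElem.1 hT
    refine ⟨⟨i, hi⟩, ?_⟩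
    unfold AD.ty
    simpa [List.getD_eq_getElem?_getD, hi] using hv
  choose τ hτ using hcl
  refine hK V G f H τ hτ fun k X hX => ?_
  have hb := hk_bip (G := G) hk (τ := τ) (hsides k k.2)
  refine hLZ V _ _ hb ?_ X hX
  by_cases hg : k.val ∈ good
  · exact hk_sf_good hk H hτ h4 (hsides k k.2) (hgood k hg).1 (hgood k hg).2
  · exact hk_sf_pat hk H hτ h5 (hsides k k.2) (hpat k k.2 hg)

/-! ### anchors -/

def adjb (i j : ℕ) : Bool := (decide (i < j) && (j - i) % 3 == 1) || (decide (j < i) && (i - j) % 3 == 1)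

/-- mask of type `(b, m)` -/
def msk (n : ℕ) (b : Bool) (m : ℕ) : ℕ :=
  (List.range n).foldl (fun a j => if adjb m j && (b || j != (m + 1) % n) then a ||| 2 ^ j else a) 0

lemma anch_adj {n : ℕ} {f : ℕ → V} (h : Anch G n f) {i j : ℕ} (hi : i < n) (hj : j < n) :
    G.Adj (f i) (f j) ↔ adjb i j = true := by
  unfold adjb
  rcases lt_trichotomy i j with h1 | h1 | h1
  · rw [h i j h1 hj]; simp [h1, not_lt.2 h1.le]
  · subst h1; simp
  · rw [G.adj_comm, h j i h1 hi]; simp [h1, not_lt.2 h1.le]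

lemma ty_msk {n : ℕ} (hn : ∀ b : Bool, ∀ m < n, ∀ j < n,
      Nat.testBit (msk n b m) j = (adjb m j && (b || j != (m + 1) % n)))
    {f : ℕ → V} (h : Anch G n f) {b : Bool} {m : ℕ} (hm : m < n) {v : V} :
    Ty G n f b m v ↔ HTy G n f (msk n b m) v := by
  unfold Ty HTy
  have key : ∀ j < n, ((G.Adj (f m) (f j) ∧ (b = false → j ≠ (m + 1) % n)) ↔
      Nat.testBit (msk n b m) j = true) := by
    intro j hj
    rw [hn b m hm j hj, anch_adj h hm hj]
    cases b <;> simp
  constructor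
  · intro h' j hj; rw [h' j hj]; exact key j hj
  · intro h' j hj; rw [h' j hj]; exact (key j hj).symm

lemma tyU_zero {n : ℕ} {f : ℕ → V} {v : V} : TyU G n f v ↔ HTy G n f 0 v := by
  unfold TyU HTy
  simp

theorem msk5 : ∀ b : Bool, ∀ m < 5, ∀ j < 5,
    Nat.testBit (msk 5 b m) j = (adjb m j && (b || j != (m + 1) % 5)) := by decide +kernel
theorem msk8 : ∀ b : Bool, ∀ m < 8, ∀ j < 8,
    Nat.testBit (msk 8 b m) j = (adjb m j && (b || j != (m + 1) % 8)) := by decide +kernel
theorem msk11 : ∀ b : Bool, ∀ m < 11, ∀ j < 11,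
    Nat.testBit (msk 11 b m) j = (adjb m j && (b || j != (m + 1) % 11)) := by decide +kernel

lemma emb_of_anch {n : ℕ} {adj : List ℕ} (hadj : ∀ j < n, ∀ i < j,
      Nat.testBit (adj.getD i 0) j = decide ((j - i) % 3 = 1)) {f : ℕ → V} (h : Anch G n f) :
    EmbA G n adj f := by
  intro i j hij hj
  rw [h i j hij hj, hadj j hj i hij]; simp

/-- constant pair, without hypotheses on types -/
def ver4b (n : ℕ) (adj : List ℕ) (a3 : Bool) (a b : ℕ) (v : Bool) (ct : Ct) : Bool :=
  ver n adj a3 [a, b] [(n, n + 1, !v)] [] ct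

theorem ver4b_sound (hT : TF G) (hS : SF G) {a3 : Bool} (hA : a3 = true → ¬ ∃ g, Anch G 8 g)
    {n : ℕ} {adj : List ℕ} {f : ℕ → V} (he : EmbA G n adj f) {a b : ℕ} {v : Bool} {ct : Ct}
    (h : ver4b n adj a3 a b v ct = true) {x y : V} (hx : HTy G n f a x) (hy : HTy G n f b y) :
    (G.Adj x y ↔ v = true) := by
  by_contra hcon
  have e0 : cfg f n [x, y] n = x := by simp [cfg]
  have e1 : cfg f n [x, y] (n + 1) = y := by simp [cfg]
  refine ver_sound (e := cfg f n [x, y]) hT hS a3 hA (EmbA_cfg he) (ty := [a, b]) ?_ ?_ (by simp) ct h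
  · intro i hi
    rw [HTy_cfg, cfg_add]
    simp only [List.length_cons, List.length_nil] at hi
    interval_cases i
    · simpa using hx
    · simpa using hy
  · intro l hl
    simp only [List.mem_cons, List.not_mem_nil, or_false] at hl
    unfold LitT
    subst hl
    simp only [e0, e1]
    cases v
    · simp at hcon ⊢; exact hcon
    · simp at hcon ⊢; exact hcon

/-- conflict check without type 0 -/
def ver3b (n : ℕ) (adj : List ℕ) (rules : List (ℕ × ℕ × ℕ)) (a b b' : ℕ) (ct : Ct) : Bool :=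
  ver n adj false [a, a, a, b, b, b', b'] [] ((sepCl n (n + 3) ++ sepCl n (n + 5)) ++
    ruleCl n rules [a, a, a, b, b, b', b']) ct

theorem ver3b_sound (hT : TF G) (hS : SF G)
    {n : ℕ} {adj : List ℕ} {f : ℕ → V} (he : EmbA G n adj f)
    {rules : List (ℕ × ℕ × ℕ)} (hR : Rul G n f rules) {a b b' : ℕ} {ct : Ct}
    (h : ver3b n adj rules a b b' ct = true) {t1 t2 t3 x1 x2 y1 y2 : V}
    (h1 : HTy G n f a t1) (h2 : HTy G n f a t2) (h3 : HTy G n f a t3)
    (hx1 : HTy G n f b x1) (hx2 : HTy G n f b x2) (hy1 : HTy G n f b' y1) (hy2 : HTy G n f b' y2)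
    (s1 : Sep G t1 t2 t3 x1 x2) (s2 : Sep G t1 t2 t3 y1 y2) : False := by
  have e0 : cfg f n [t1, t2, t3, x1, x2, y1, y2] n = t1 := by simp [cfg]
  have e1 : cfg f n [t1, t2, t3, x1, x2, y1, y2] (n + 1) = t2 := by simp [cfg]
  have e2 : cfg f n [t1, t2, t3, x1, x2, y1, y2] (n + 2) = t3 := by simp [cfg]
  have e3 : cfg f n [t1, t2, t3, x1, x2, y1, y2] (n + 3) = x1 := by simp [cfg]
  have e4 : cfg f n [t1, t2, t3, x1, x2, y1, y2] (n + 4) = x2 := by simp [cfg]
  have e5 : cfg f n [t1, t2, t3, x1, x2, y1, y2] (n + 5) = y1 := by simp [cfg]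
  have e6 : cfg f n [t1, t2, t3, x1, x2, y1, y2] (n + 6) = y2 := by simp [cfg]
  have hty : ∀ i < [a, a, a, b, b, b', b'].length, HTy G n f ([a, a, a, b, b, b', b'].getD i 0)
      ([t1, t2, t3, x1, x2, y1, y2].getD i (f 0)) := by
    intro i hi
    simp only [List.length_cons, List.length_nil] at hi
    interval_cases i
    · simpa using h1
    · simpa using h2
    · simpa using h3
    · simpa using hx1
    · simpa using hx2
    · simpa using hy1
    · simpa using hy2
  refine ver_sound (e := cfg f n [t1, t2, t3, x1, x2, y1, y2]) hT hS false (by simp) (EmbA_cfg he)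
    (ty := [a, a, a, b, b, b', b']) ?_ (by simp) ?_ ct h
  · intro i hi
    rw [HTy_cfg, cfg_add]; exact hty i hi
  · intro c hc
    rw [List.mem_append, List.mem_append] at hc
    rcases hc with (hc | hc) | hc
    · refine sepCl_sound ?_ c hc
      rw [e0, e1, e2, e3, show n + 3 + 1 = n + 4 by omega, e4]; exact s1
    · refine sepCl_sound ?_ c hc
      rw [e0, e1, e2, e5, show n + 5 + 1 = n + 6 by omega, e6]; exact s2
    · unfold ruleCl at hc
      simp only [List.mem_flatMap, List.mem_map, List.mem_filter, List.mem_range, beq_iff_eq] at hc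
      obtain ⟨r, hr, i, ⟨hi, hi'⟩, j, ⟨hj, hj'⟩, k, ⟨hk, hk'⟩, rfl⟩ := hc
      have h1 := hty i hi
      have h2 := hty j hj
      have h3 := hty k hk
      rw [hi'] at h1; rw [hj'] at h2; rw [hk'] at h3
      have h4 := hR r hr _ _ _ h1 h2 h3
      by_cases h5 : G.Adj ([t1, t2, t3, x1, x2, y1, y2].getD i (f 0))
          ([t1, t2, t3, x1, x2, y1, y2].getD j (f 0))
      · refine ⟨(n + i, n + k, false), by simp, ?_⟩
        constructor
        · intro h; rw [cfg_add, cfg_add] at h; exact absurd ⟨h5, h⟩ h4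
        · intro h; simp at h
      · refine ⟨(n + i, n + j, false), by simp, ?_⟩
        constructor
        · intro h; rw [cfg_add, cfg_add] at h; exact absurd h h5
        · intro h; simp at h

end Pool.Agent.H333R2.St.FC
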