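import Pool.Agent.H333R2.St.DK2
import Pool.Agent.H333R2.St.FC4

/-! The case of the anchor `C₅`. -/

namespace Pool.Agent.H333R2.St

open Pool.Agent.H333R2.St.FC

private theorem hrules : ∀ r ∈ DK2.D.rules, ∃ m < 5, r.2.1 = msk 5 true m ∧
    r.2.2 = msk 5 true ((m + 1) % 5) ∧ (r.1 = msk 5 false ((m + 5 - 1) % 5) ∨ r.1 = 0) := by
  decide +kernel

private theorem hadj : ∀ j < 5, ∀ i < j,
    Nat.testBit (DK2.D.adj.getD i 0) j = decide ((j - i) % 3 = 1) := by decide +kernel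

theorem k2 (hE : Stmt_ENG) (hB : Stmt_Bondy) (hLZ : Stmt_LZ) (hUI : Stmt_UInd) : Stmt_K2 := by
  obtain ⟨K, hK⟩ := instFull DK2.D DK2.okK DK2.c1 DK2.h1 DK2.c2 DK2.hc2 DK2.cov2 DK2.c3 DK2.hc3 DK2.cov3
    DK2.c4 DK2.hc4 DK2.c5 DK2.hc5 DK2.sides DK2.good DK2.hsides DK2.hgood DK2.hpat hE hB hLZ
  refine ⟨K, fun V _ G f hT hS hC hf hI hR => ?_⟩
  haveI : Nonempty V := ⟨f 0⟩
  have ty : ∀ {b : Bool} {m : ℕ} (_ : m < 5) {v : V}, Ty G 5 f b m v ↔ HTy G 5 f (msk 5 b m) v :=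
    fun hm => ty_msk msk5 hf hm
  refine hK V G f ⟨hT, hS, fun h => ?_, ?_, ?_, ?_⟩
  · exact absurd h (by decide)
  · exact emb_of_anch (n := 5) hadj hf
  · intro a b ha hb
    exact hUI V G f hT hS hC hf a b (tyU_zero.2 ha) (tyU_zero.2 hb)
  · intro r hr z p q hz hp hq
    obtain ⟨m, hm, h1, h2, h3⟩ := hrules r hr
    rw [h1] at hp; rw [h2] at hq
    have hp' := (ty hm).2 hp
    have hq' := (ty (Nat.mod_lt _ (by norm_num))).2 hq
    rcases h3 with h3 | h3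
    · rw [h3] at hz
      exact hI m hm p q z hp' hq' ((ty (Nat.mod_lt _ (by norm_num))).2 hz)
    · rw [h3] at hz
      exact hR m hm p q z hp' hq' (tyU_zero.2 hz)

end Pool.Agent.H333R2.St
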