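import Pool.Agent.H333R2.St.DK3
import Pool.Agent.H333R2.St.FC4

/-! The case of the anchor `𝔸_8` (Wagner graph). -/

namespace Pool.Agent.H333R2.St

open Pool.Agent.H333R2.St.FC

open Ct in
private def cU : List Ct := [.s 6510879872, .s 8893176960, .s 8894251169, .s 8894189795, .s 8895071426, .s 6510879872, .s 8893176960, .s 8896185568, .s 3456378017, .s 8896322592, .s 8897396801, .s 6510879872, .s 4296287426, .s 7621321765, .s 8897396801, .s 6510879872, .s 8898217058, .s 8892024993, .s 3456378017, .s 5404632291, .s 5404632291, .s 139732038, .s 8896185568, .s 3456378017, .s 8899331200, .s 8893107394, .s 4296287426, .s 6512976900, .s 6512976900, .s 5402535015, .s 8899331200, .s 4296287426]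

private theorem hU : ∀ i < 32, ver4b 8 DK3.D.adj false 0 (DK3.D.tys.getD (i + 1) 0) false
    (cU.getD i (.t 0)) = true := by decide +kernel

private theorem hT0 : ∀ T ∈ DK3.D.tys, T = 0 ∨ ∃ i < 32, DK3.D.tys.getD (i + 1) 0 = T := by
  decide +kernel

private theorem hrules : ∀ r ∈ DK3.D.rules, ∃ m < 8, r.2.1 = msk 8 true m ∧
    r.2.2 = msk 8 true ((m + 1) % 8) ∧ r.1 = msk 8 false ((m + 8 - 1) % 8) := by
  decide +kernel

private theorem hadj : ∀ j < 8, ∀ i < j,
    Nat.testBit (DK3.D.adj.getD i 0) j = decide ((j - i) % 3 = 1) := by decide +kernel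

theorem k3 (hE : Stmt_ENG) (hB : Stmt_Bondy) (hLZ : Stmt_LZ) : Stmt_K3 := by
  obtain ⟨K, hK⟩ := instFull DK3.D DK3.okK DK3.c1 DK3.h1 DK3.c2 DK3.hc2 DK3.cov2 DK3.c3 DK3.hc3 DK3.cov3
    DK3.c4 DK3.hc4 DK3.c5 DK3.hc5 DK3.sides DK3.good DK3.hsides DK3.hgood DK3.hpat hE hB hLZ
  refine ⟨K, fun V _ G f hT hS hC hf hI => ?_⟩
  have : Nonempty V := ⟨f 0⟩
  have ty : ∀ {b : Bool} {m : ℕ} (_ : m < 8) {v : V}, Ty G 8 f b m v ↔ HTy G 8 f (msk 8 b m) v :=
    fun hm => ty_msk msk8 hf hm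
  have he : EmbA G 8 DK3.D.adj f := emb_of_anch (n := 8) hadj hf
  have hA : false = true → ¬ ∃ g, Anch G 8 g := fun h => absurd h (by decide)
  -- no vertex of type U
  have hUe : ∀ v, ¬ HTy G 8 f 0 v := by
    classical
    by_contra hcon
    push Not at hcon
    obtain ⟨v0, hv0⟩ := hcon
    have h0 : ¬ HTy G 8 f 0 (f 0) := by
      intro h
      have h1 := (hf 0 1 (by norm_num) (by norm_num)).2 (by norm_num)
      have h2 := (h 1 (by norm_num)).1 h1
      simp at h2
    obtain ⟨x, hx, y, hy, hxy⟩ := hC.2 (Finset.univ.filter (fun v => HTy G 8 f 0 v)) (Finset.filter_subset _ _)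
      ⟨v0, by simp [hv0]⟩ ⟨f 0, by simp [h0]⟩
    simp only [Finset.mem_filter, Finset.mem_univ, true_and, Finset.mem_sdiff] at hx hy
    obtain ⟨T, hT', hv⟩ := ver1_sound hT hS hA he DK3.h1 y
    rcases hT0 T hT' with rfl | ⟨i, hi, rfl⟩
    · exact hy hv
    · have := (ver4b_sound hT hS hA he (hU i hi) hx hv).1 hxy
      simp at this
  refine hK V G f ⟨hT, hS, fun h => ?_, he, ?_, ?_⟩
  · exact absurd h (by decide)
  · intro a b ha _
    exact absurd ha (hUe a)
  · intro r hr z p q hz hp hq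
    obtain ⟨m, hm, h1, h2, h3⟩ := hrules r hr
    rw [h1] at hp; rw [h2] at hq; rw [h3] at hz
    exact hI m hm p q z ((ty hm).2 hp) ((ty (Nat.mod_lt _ (by norm_num))).2 hq)
      ((ty (Nat.mod_lt _ (by norm_num))).2 hz)

end Pool.Agent.H333R2.St
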