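import Pool.Agent.H333R2.St.Defs

/-! Module K4: assembly for long anchors. -/

namespace Pool.Agent.H333R2.St

open Finset Classical
open Pool.Agent.H175R2 (Cn)

theorem k4_md (a n : ℕ) (h : a < 2 * n) : a % n = if a < n then a else a - n := by
  split_ifs with h1
  · exact Nat.mod_eq_of_lt h1
  · rw [Nat.mod_eq_sub_mod (by omega), Nat.mod_eq_of_lt (by omega)]

theorem k4_rot_eq (n j a s : ℕ) (hj : j < n) :
    ((j + s) % n = ((a + s) % n + 1) % n) ↔ j = (a + 1) % n := by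
  have hn : 0 < n := by omega
  have e1 : ((a + s) % n + 1) % n = ((a + 1) % n + s) % n := by
    rw [Nat.mod_add_mod, Nat.mod_add_mod]
    congr 1
    omega
  rw [e1]
  constructor
  · intro h3
    have h4 : (j + s) ≡ ((a + 1) % n + s) [MOD n] := h3
    have h5 : j ≡ (a + 1) % n [MOD n] := Nat.ModEq.add_right_cancel' s h4
    exact Nat.ModEq.eq_of_lt_of_lt h5 hj (Nat.mod_lt _ hn)
  · intro h3
    rw [h3]

/-- types and rotation -/
theorem k4_ty_rot {V : Type} (G : SimpleGraph V) (n : ℕ) (f : ℕ → V) (b : Bool) (a s : ℕ) (v : V)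
    (ha : a < n) (h : Ty G n f b ((a + s) % n) v) :
    Ty G n (fun i => f ((i + s) % n)) b a v := by
  intro j hj
  have hn : 0 < n := by omega
  have h1 := h ((j + s) % n) (Nat.mod_lt _ hn)
  simp only
  rw [h1]
  have h2 := k4_rot_eq n j a s hj
  constructor
  · rintro ⟨h3, h4⟩
    exact ⟨h3, fun hb h5 => h4 hb (h2.2 h5)⟩
  · rintro ⟨h3, h4⟩
    exact ⟨h3, fun hb h5 => h4 hb (h2.1 h5)⟩

theorem k4_surj (n s j : ℕ) (hj : j < n) : ∃ j' < n, (j' + s) % n = j := by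
  have hn : 0 < n := by omega
  refine ⟨(j + (n - s % n)) % n, Nat.mod_lt _ hn, ?_⟩
  have hs : s % n < n := Nat.mod_lt _ hn
  rw [Nat.mod_add_mod, Nat.add_mod, ← Nat.add_mod]
  have e : j + (n - s % n) + s = j + n + n * (s / n) := by
    have := Nat.mod_add_div s n
    omega
  rw [e, Nat.add_mul_mod_self_left, Nat.add_mod_right, Nat.mod_eq_of_lt hj]

/-- inverse rotation of types -/
theorem k4_ty_rot' {V : Type} (G : SimpleGraph V) (n : ℕ) (f : ℕ → V) (b : Bool) (a s : ℕ) (v : V)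
    (h : Ty G n (fun i => f ((i + s) % n)) b a v) :
    Ty G n f b ((a + s) % n) v := by
  intro j hj
  obtain ⟨j', hj', rfl⟩ := k4_surj n s j hj
  have h1 := h j' hj'
  simp only at h1
  rw [h1]
  have h2 := k4_rot_eq n j' a s hj'
  constructor
  · rintro ⟨h3, h4⟩
    exact ⟨h3, fun hb h5 => h4 hb (h2.1 h5)⟩
  · rintro ⟨h3, h4⟩
    exact ⟨h3, fun hb h5 => h4 hb (h2.2 h5)⟩

theorem k4_insr {V : Type} (G : SimpleGraph V) (n : ℕ) (f : ℕ → V) (s : ℕ) (hn : 0 < n)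
    (h : InsR G n f) : InsR G n (fun i => f ((i + s) % n)) := by
  intro m hm x y z hx hy hz
  have hx' := k4_ty_rot' G n f true m s x hx
  have hy' := k4_ty_rot' G n f true _ s y hy
  have hz' := k4_ty_rot' G n f false _ s z hz
  refine h ((m + s) % n) (Nat.mod_lt _ hn) x y z hx' ?_ ?_
  · have e : ((m + s) % n + 1) % n = ((m + 1) % n + s) % n := by
      rw [Nat.mod_add_mod, Nat.mod_add_mod]
      congr 1
      omega
    rw [e]; exact hy'
  · have e : ((m + s) % n + n - 1) % n = ((m + n - 1) % n + s) % n := by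
      rw [Nat.mod_add_mod]
      have e1 : (m + s) % n + n - 1 = (m + s) % n + (n - 1) := by omega
      rw [e1, Nat.mod_add_mod]
      congr 1
      omega
    rw [e]; exact hz'

/-- the word of a type on a window -/
def k4_wd (m j e : ℕ) : Bool := (if j < m then (m - j) % 3 == 1 else (j - m) % 3 == 1) && (j != e)

theorem k4_word {V : Type} (G : SimpleGraph V) (n : ℕ) (f : ℕ → V) (hn : 11 ≤ n)
    (hA : Anch G n f) (b : Bool) (m : ℕ) (v : V) (hm : m < n) (hv : Ty G n f b m v) :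
    ∀ j < 11, (G.Adj v (f j) ↔ k4_wd m j (if b then 99 else (m + 1) % n) = true) := by
  intro j hj
  rw [hv j (by omega)]
  unfold k4_wd
  have h1 : (b = false → j ≠ (m + 1) % n) ↔ j ≠ (if b then 99 else (m + 1) % n) := by
    cases b
    · simp
    · simp; omega
  rw [h1, Bool.and_eq_true, bne_iff_ne]
  rcases Nat.lt_trichotomy j m with h | h | h
  · rw [if_pos h, SimpleGraph.adj_comm, hA j m h hm, beq_iff_eq]
  · subst h
    rw [if_neg (show ¬ j < j by omega), Nat.sub_self]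
    simp
  · rw [if_neg (show ¬ j < m by omega), hA m j h (by omega), beq_iff_eq]

theorem k4_fin : ∀ m < 14, ∀ e ∈ [99, m + 1, if 10 ≤ m then 0 else 99], ∀ p < 8, 3 ≤ p →
    ∀ e' ∈ [99, p + 1], (∀ j < 11, k4_wd m j e = k4_wd p j e') → m = p ∧ e = e' := by
  decide +kernel

theorem k4_wd_mod (m m' j e e' : ℕ) (hj : j < 11) (hm : 11 ≤ m) (hm' : 11 ≤ m')
    (h : m % 3 = m' % 3) (he : j = e ↔ j = e') : k4_wd m j e = k4_wd m' j e' := by
  unfold k4_wd
  rw [if_pos (by omega), if_pos (by omega)]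
  have h1 : (m - j) % 3 = (m' - j) % 3 := by omega
  rw [h1]
  congr 1
  by_cases h2 : j = e
  · have h3 := he.1 h2
    rw [bne_eq_false_iff_eq.2 h2, bne_eq_false_iff_eq.2 h3]
  · have h3 : j ≠ e' := fun h3 => h2 (he.2 h3)
    rw [bne_iff_ne.2 h2, bne_iff_ne.2 h3]

theorem k4_win {V : Type} (G : SimpleGraph V) (n : ℕ) (f : ℕ → V) (hn : 11 ≤ n)
    (hA : Anch G n f) (b' : Bool) (m : ℕ) (v : V) (hm : m < n) (hv : Ty G n f b' m v)
    (b : Bool) (p : ℕ) (hp3 : 3 ≤ p) (hp7 : p ≤ 7) (hw : Ty G 11 f b p v) : b' = b ∧ m = p := by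
  have hA11 : Anch G 11 f := fun i j hij hj => hA i j hij (by omega)
  have hw1 := k4_word G n f hn hA b' m v hm hv
  have hw2 := k4_word G 11 f le_rfl hA11 b p v (by omega) hw
  have hpe : (p + 1) % 11 = p + 1 := Nat.mod_eq_of_lt (by omega)
  rw [hpe] at hw2
  have heq : ∀ j < 11, k4_wd m j (if b' then 99 else (m + 1) % n) =
      k4_wd p j (if b then 99 else p + 1) := by
    intro j hj
    have h1 := hw1 j hj
    have h2 := hw2 j hj
    rw [Bool.eq_iff_iff, ← h1, ← h2]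
  have he' : (if b then 99 else p + 1) ∈ [99, p + 1] := by cases b <;> simp
  -- reduce m
  obtain ⟨m0, e0, hm0, he0, h0, hback⟩ : ∃ m0 e0, m0 < 14 ∧
      e0 ∈ [99, m0 + 1, if 10 ≤ m0 then 0 else 99] ∧
      (∀ j < 11, k4_wd m0 j e0 = k4_wd m j (if b' then 99 else (m + 1) % n)) ∧
      (m0 ≤ 7 → m = m0 ∧ e0 = if b' then 99 else m0 + 1) := by
    rcases Nat.lt_or_ge m 11 with h | h
    · refine ⟨m, if b' then 99 else (m + 1) % n, by omega, ?_, fun j _ => rfl, ?_⟩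
      · cases b'
        · simp only [Bool.false_eq_true, if_false]
          rw [k4_md _ _ (by omega)]
          split_ifs with h1 h2 <;> simp <;> omega
        · simp
      · intro h7
        refine ⟨rfl, ?_⟩
        rw [Nat.mod_eq_of_lt (by omega)]
    · -- m >= 11
      obtain ⟨m0, h1, h2, h3⟩ : ∃ m0, 11 ≤ m0 ∧ m0 < 14 ∧ m0 % 3 = m % 3 := by
        have : m % 3 = 0 ∨ m % 3 = 1 ∨ m % 3 = 2 := by omega
        rcases this with h | h | h
        · exact ⟨12, by omega, by omega, by omega⟩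
        · exact ⟨13, by omega, by omega, by omega⟩
        · exact ⟨11, by omega, by omega, by omega⟩
      by_cases hc : b' = false ∧ m + 1 = n
      · refine ⟨m0, 0, h2, ?_, ?_, fun h => by omega⟩
        · rw [if_pos (by omega)]; simp
        · intro j hj
          apply k4_wd_mod m0 m j _ _ hj h1 h h3
          rw [hc.1, hc.2]
          simp
      · refine ⟨m0, 99, h2, by simp, ?_, fun h => by omega⟩
        intro j hj
        apply k4_wd_mod m0 m j _ _ hj h1 h h3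
        cases b'
        · have h5 : m + 1 ≠ n := fun h5 => hc ⟨rfl, h5⟩
          simp only [Bool.false_eq_true, if_false]
          rw [Nat.mod_eq_of_lt (by omega)]
          omega
        · simp
  obtain ⟨h1, h2⟩ := k4_fin m0 hm0 e0 he0 p (by omega) hp3 _ he' (fun j hj => by
    rw [h0 j hj, heq j hj])
  obtain ⟨h3, h4⟩ := hback (by omega)
  refine ⟨?_, by omega⟩
  rw [h4] at h2
  cases b <;> cases b'
  · rfl
  · simp at h2; omega
  · simp at h2; omega
  · rfl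

theorem k4_notU {V : Type} (G : SimpleGraph V) (n : ℕ) (f : ℕ → V) (hn : 11 ≤ n)
    (hA : Anch G n f) (v : V) (hv : TyU G n f v)
    (b : Bool) (p : ℕ) (hp3 : 3 ≤ p) (hp7 : p ≤ 7) (hw : Ty G 11 f b p v) : False := by
  have h1 := hw (p - 1) (by omega)
  have h2 := hv (p - 1) (by omega)
  apply h2
  rw [h1]
  refine ⟨?_, ?_⟩
  · rw [SimpleGraph.adj_comm, hA (p - 1) p (by omega) (by omega)]
    omega
  · intro _ h3
    rw [Nat.mod_eq_of_lt (by omega)] at h3
    omega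

/-- restriction to the window -/
theorem k4_restr {V : Type} (G : SimpleGraph V) (n : ℕ) (f : ℕ → V) (hn : 11 ≤ n) (b : Bool)
    (p : ℕ) (hp : p ≤ 9) (v : V) (h : Ty G n f b p v) : Ty G 11 f b p v := by
  intro j hj
  rw [h j (by omega)]
  have e1 : (p + 1) % n = p + 1 := Nat.mod_eq_of_lt (by omega)
  have e2 : (p + 1) % 11 = p + 1 := Nat.mod_eq_of_lt (by omega)
  rw [e1, e2]

theorem k4_mb (n : ℕ) (hn : 11 ≤ n) (a b : Bool × ℕ) (ha : a.2 < n) (hb : b.2 < n)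
    (h : Mb n a.1 b.1 ((b.2 + n - a.2) % n)) : Rk n a.2 b ∨ Rk n b.2 a := by
  obtain ⟨a1, m⟩ := a
  obtain ⟨b1, m'⟩ := b
  simp only at ha hb h ⊢
  unfold Mb at h
  unfold Rk
  simp only
  rw [k4_md (m' + n - m) n (by omega)] at h
  rw [k4_md (m + 1) n (by omega), k4_md (m' + 1) n (by omega), k4_md (m + 2) n (by omega),
    k4_md (m' + 2) n (by omega)]
  rcases h with ⟨h1, h2, h3⟩ | ⟨h1, h2, h3⟩ | ⟨h1, h2, h3⟩ | ⟨h1, h2, h3⟩ <;> subst h1 <;> subst h2
  · rcases h3 with h3 | h3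
    · left; left; refine ⟨rfl, ?_⟩; split_ifs at h3 ⊢ <;> omega
    · right; left; refine ⟨rfl, ?_⟩; split_ifs at h3 ⊢ <;> omega
  · rcases h3 with h3 | h3
    · left; right; refine ⟨rfl, ?_⟩; split_ifs at h3 ⊢ <;> omega
    · right; left; refine ⟨rfl, ?_⟩; split_ifs at h3 ⊢ <;> omega
  · rcases h3 with h3 | h3
    · left; left; refine ⟨rfl, ?_⟩; split_ifs at h3 ⊢ <;> omega
    · right; right; refine ⟨rfl, ?_⟩; split_ifs at h3 ⊢ <;> omega
  · rcases h3 with h3 | h3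
    · right; right; refine ⟨rfl, ?_⟩; split_ifs at h3 ⊢ <;> omega
    · left; right; refine ⟨rfl, ?_⟩; split_ifs at h3 ⊢ <;> omega

theorem k4_kn_none (n : ℕ) (a b : Bool × ℕ) (ha : a.2 < n) (hb : b.2 < n)
    (h : kn n a b = none) : ¬ Rk n a.2 b ∧ ¬ Rk n b.2 a := by
  unfold kn at h
  rw [if_neg (by omega)] at h
  constructor
  · intro h1
    rw [if_pos h1] at h
    simp at h
  · intro h1
    by_cases h2 : Rk n a.2 b
    · rw [if_pos h2] at h
      simp at h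
    · rw [if_neg h2, if_pos h1] at h
      simp at h

theorem k4_kn_some (n : ℕ) (a b : Bool × ℕ) (k : ℕ) (h : kn n a b = some k) :
    a.2 < n ∧ b.2 < n ∧ ((Rk n a.2 b ∧ a.2 = k) ∨ (Rk n b.2 a ∧ b.2 = k)) := by
  unfold kn at h
  by_cases h0 : n ≤ a.2 ∨ n ≤ b.2
  · rw [if_pos h0] at h; simp at h
  rw [if_neg h0] at h
  push Not at h0
  refine ⟨h0.1, h0.2, ?_⟩
  by_cases h2 : Rk n a.2 b
  · rw [if_pos h2] at h
    simp only [Option.some.injEq] at h
    exact Or.inl ⟨h2, h⟩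
  · rw [if_neg h2] at h
    by_cases h3 : Rk n b.2 a
    · rw [if_pos h3] at h
      simp only [Option.some.injEq] at h
      exact Or.inr ⟨h3, h⟩
    · rw [if_neg h3] at h
      simp at h

theorem k4_rk_ne (n : ℕ) (hn : 11 ≤ n) (k : ℕ) (hk : k < n) (a : Bool × ℕ) (h : Rk n k a) :
    a.2 ≠ k := by
  intro h0
  unfold Rk at h
  rw [h0] at h
  rw [k4_md (k + 1) n (by omega), k4_md (k + 2) n (by omega)] at h
  rcases h with ⟨_, h⟩ | ⟨_, h⟩ <;> split_ifs at h <;> omega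

/-- two types on the same side of kind `k` have no kind and are not adjacent by the formula -/
theorem k4_same (n : ℕ) (hn : 11 ≤ n) (hn3 : n % 3 = 2) (k : ℕ) (hk : k < n) (a b : Bool × ℕ)
    (ha : a.2 < n) (hb : b.2 < n)
    (h : (a.2 = k ∧ b.2 = k) ∨ (Rk n k a ∧ Rk n k b)) :
    kn n a b = none ∧ ¬ (((b.2 + n - a.2) % n) % 3 = 1) := by
  obtain ⟨a1, m⟩ := a
  obtain ⟨b1, m'⟩ := b
  simp only at ha hb h ⊢
  unfold kn
  rw [if_neg (by simp only; omega)]
  unfold Rk at h ⊢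
  simp only at h ⊢
  rw [k4_md (k + 1) n (by omega)] at h
  rw [k4_md (m + 1) n (by omega), k4_md (m' + 1) n (by omega),
    k4_md (m' + n - m) n (by omega)]
  rw [k4_md (m + 2) n (by omega), k4_md (m' + 2) n (by omega)] at h ⊢
  rcases h with ⟨h1, h2⟩ | ⟨h1, h2⟩
  · subst h1 h2
    refine ⟨?_, ?_⟩
    · rw [if_neg, if_neg]
      · rintro (⟨_, h⟩ | ⟨_, h⟩) <;> split_ifs at h <;> omega
      · rintro (⟨_, h⟩ | ⟨_, h⟩) <;> split_ifs at h <;> omega
    · split_ifs <;> omega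
  · have hm : (a1 = true ∧ m = if k + 1 < n then k + 1 else k + 1 - n) ∨
        (a1 = false ∧ (if m + 2 < n then m + 2 else m + 2 - n) = k) := h1
    have hm' : (b1 = true ∧ m' = if k + 1 < n then k + 1 else k + 1 - n) ∨
        (b1 = false ∧ (if m' + 2 < n then m' + 2 else m' + 2 - n) = k) := h2
    have hA : (m' = if m + 1 < n then m + 1 else m + 1 - n) → False := by
      intro h
      rcases hm with ⟨_, h5⟩ | ⟨_, h5⟩ <;> rcases hm' with ⟨_, h6⟩ | ⟨_, h6⟩ <;>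
        split_ifs at h h5 h6 <;> omega
    have hB : ((if m' + 2 < n then m' + 2 else m' + 2 - n) = m) → False := by
      intro h
      rcases hm with ⟨_, h5⟩ | ⟨_, h5⟩ <;> rcases hm' with ⟨_, h6⟩ | ⟨_, h6⟩ <;>
        split_ifs at h h5 h6 <;> omega
    have hC : (m = if m' + 1 < n then m' + 1 else m' + 1 - n) → False := by
      intro h
      rcases hm with ⟨_, h5⟩ | ⟨_, h5⟩ <;> rcases hm' with ⟨_, h6⟩ | ⟨_, h6⟩ <;>
        split_ifs at h h5 h6 <;> omega
    have hD : ((if m + 2 < n then m + 2 else m + 2 - n) = m') → False := by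
      intro h
      rcases hm with ⟨_, h5⟩ | ⟨_, h5⟩ <;> rcases hm' with ⟨_, h6⟩ | ⟨_, h6⟩ <;>
        split_ifs at h h5 h6 <;> omega
    refine ⟨?_, ?_⟩
    · rw [if_neg, if_neg]
      · rintro (⟨_, h⟩ | ⟨_, h⟩)
        · exact hC h
        · exact hD h
      · rintro (⟨_, h⟩ | ⟨_, h⟩)
        · exact hA h
        · exact hB h
    · intro h
      rcases hm with ⟨_, h5⟩ | ⟨_, h5⟩ <;> rcases hm' with ⟨_, h6⟩ | ⟨_, h6⟩ <;>
        split_ifs at h h5 h6 <;> omega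

theorem k4_opp (n : ℕ) (hn : 11 ≤ n) (k : ℕ) (hk : k < n) (a b : Bool × ℕ)
    (hb : b.2 < n) (h1 : a.2 = k) (h2 : Rk n k b) : kn n a b = some k := by
  unfold kn
  rw [if_neg (by omega), h1, if_pos h2]

/-- `SF` for the parts -/
theorem k4_sf {V : Type} (G : SimpleGraph V) (hS : SF G) (n : ℕ) (hn : 11 ≤ n) (hn3 : n % 3 = 2)
    (τ : V → Bool × ℕ) (hs : ∀ a b, kn n a b = kn n b a) (hτ : ∀ v, (τ v).2 < n)
    (hf : ∀ v w, kn n (τ v) (τ w) = none →
      (G.Adj v w ↔ (((τ w).2 + n - (τ v).2) % n) % 3 = 1)) (k : ℕ) :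
    SF (Hk G τ (kn n) hs k) := by
  intro x a b1 b2 c1 c2 c3 h
  have hadj : ∀ u w, (Hk G τ (kn n) hs k).Adj u w → G.Adj u w ∧ k < n ∧
      ((τ u).2 = k ∨ Rk n k (τ u)) ∧ ((τ w).2 = k ∨ Rk n k (τ w)) := by
    intro u w huw
    obtain ⟨h1, h2⟩ := huw
    obtain ⟨h3, h4, h5⟩ := k4_kn_some n _ _ k h2
    refine ⟨h1, ?_⟩
    rcases h5 with ⟨h5, h6⟩ | ⟨h5, h6⟩
    · rw [← h6]
      exact ⟨h3, Or.inl rfl, Or.inr h5⟩
    · rw [← h6]
      exact ⟨h4, Or.inr h5, Or.inl rfl⟩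
  have hk : k < n := (hadj _ _ h.1.1).2.1
  have hnadj : ∀ u w, ((τ u).2 = k ∨ Rk n k (τ u)) → ((τ w).2 = k ∨ Rk n k (τ w)) →
      ¬ (Hk G τ (kn n) hs k).Adj u w → ¬ G.Adj u w := by
    intro u w hu hw hnot hG
    rcases hu with hu | hu <;> rcases hw with hw | hw
    · obtain ⟨h1, h2⟩ := k4_same n hn hn3 k hk (τ u) (τ w) (hτ u) (hτ w) (Or.inl ⟨hu, hw⟩)
      exact h2 ((hf u w h1).1 hG)
    · exact hnot ⟨hG, k4_opp n hn k hk (τ u) (τ w) (hτ w) hu hw⟩
    · refine hnot ⟨hG, ?_⟩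
      rw [hs]
      exact k4_opp n hn k hk (τ w) (τ u) (hτ u) hw hu
    · obtain ⟨h1, h2⟩ := k4_same n hn hn3 k hk (τ u) (τ w) (hτ u) (hτ w) (Or.inr ⟨hu, hw⟩)
      exact h2 ((hf u w h1).1 hG)
  obtain ⟨⟨h1, h2, h3, h4, h5, h6⟩, n1, n2, n3, n4, n5, n6, n7, n8, n9, n10, n11, n12, n13, n14,
    n15⟩ := h
  have q1 := hadj _ _ h1
  have q2 := hadj _ _ h2
  have q3 := hadj _ _ h3
  have q4 := hadj _ _ h4
  have q5 := hadj _ _ h5
  have q6 := hadj _ _ h6
  have tx := q1.2.2.1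
  have ta := q1.2.2.2
  have tb1 := q2.2.2.2
  have tb2 := q4.2.2.2
  have tc1 := q3.2.2.2
  have tc2 := q5.2.2.2
  have tc3 := q6.2.2.2
  exact hS x a b1 b2 c1 c2 c3 ⟨⟨q1.1, q2.1, q3.1, q4.1, q5.1, q6.1⟩,
    hnadj _ _ tx tb2 n1, hnadj _ _ tx tc2 n2, hnadj _ _ tx tc3 n3, hnadj _ _ ta tb1 n4,
    hnadj _ _ ta tb2 n5, hnadj _ _ ta tc1 n6, hnadj _ _ ta tc2 n7, hnadj _ _ ta tc3 n8,
    hnadj _ _ tb1 tc1 n9, hnadj _ _ tb1 tc2 n10, hnadj _ _ tb1 tc3 n11, hnadj _ _ tb2 tc1 n12,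
    hnadj _ _ tb2 tc2 n13, hnadj _ _ tb2 tc3 n14, hnadj _ _ tc1 tc3 n15⟩

theorem k4_bip {V : Type} (G : SimpleGraph V) (n : ℕ) (hn : 11 ≤ n)
    (τ : V → Bool × ℕ) (hs : ∀ a b, kn n a b = kn n b a) (k : ℕ) :
    Bip (Hk G τ (kn n) hs k) (fun v => decide ((τ v).2 = k)) := by
  intro u w h
  obtain ⟨h1, h2⟩ := h
  obtain ⟨h3, h4, h5⟩ := k4_kn_some n _ _ k h2
  simp only [ne_eq, decide_eq_decide]
  intro h6
  rcases h5 with ⟨h5, h7⟩ | ⟨h5, h7⟩
  · rw [h7] at h5 h3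
    exact k4_rk_ne n hn k h3 _ h5 (h6.1 h7)
  · rw [h7] at h5 h4
    exact k4_rk_ne n hn k h4 _ h5 (h6.2 h7)

/-- the conflict lemma for one pair of kinds -/
theorem k4_conf {V : Type} (h1 : Stmt_Rot) (h2 : Stmt_An) (h4 : Stmt_N11) (h8 : Stmt_Bondy)
    (G : SimpleGraph V) (n : ℕ) (f : ℕ → V) (hT : TF G) (hS : SF G) (hn3 : n % 3 = 2)
    (hn : 11 ≤ n) (hA : Anch G n f) (hI : InsR G n f) (τ : V → Bool × ℕ)
    (hτ : ∀ v, Ty G n f (τ v).1 (τ v).2 v) (a b b' : Bool × ℕ) (ha : a.2 < n) (hb : b.2 < n)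
    (hb' : b'.2 < n) (hab : Rk n a.2 b) (hab' : Rk n b'.2 a) (t1 t2 t3 : V) (e1 : τ t1 = a)
    (e2 : τ t2 = a) (e3 : τ t3 = a)
    (r1 : ¬ SameRow G τ b t1 t2) (r2 : ¬ SameRow G τ b t1 t3) (r3 : ¬ SameRow G τ b t2 t3)
    (s1 : ¬ SameRow G τ b' t1 t2) (s2 : ¬ SameRow G τ b' t1 t3) (s3 : ¬ SameRow G τ b' t2 t3) :
    False := by
  obtain ⟨x1, x2, hx1, hx2, hsx⟩ := h8 V (Bool × ℕ) G τ b t1 t2 t3 r1 r2 r3
  obtain ⟨y1, y2, hy1, hy2, hsy⟩ := h8 V (Bool × ℕ) G τ b' t1 t2 t3 s1 s2 s3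
  obtain ⟨a1, m⟩ := a
  obtain ⟨bb, mb⟩ := b
  obtain ⟨bb', mb'⟩ := b'
  simp only at ha hb hb'
  set s := (m + n - 5) % n with hs
  have hsm : (5 ≤ m ∧ s = m - 5) ∨ (m < 5 ∧ s = m + n - 5) := by
    rw [hs, k4_md _ _ (by omega)]
    split_ifs <;> omega
  have p5 : (5 + s) % n = m := by
    rw [k4_md _ _ (by omega)]
    split_ifs <;> omega
  set F : ℕ → V := fun i => f ((i + s) % n) with hF
  have hFn : Anch G n F := h1 V G n f s hn3 hA
  have hF11 : Anch G 11 F := fun i j hij hj => hFn i j hij (by omega)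
  have hFI : InsR G n F := k4_insr G n f s (by omega) hI
  have hty : ∀ v b p, p ≤ 9 → τ v = (b, (p + s) % n) → Ty G 11 F b p v := by
    intro v b p hp hv
    apply k4_restr G n F hn b p hp v
    apply k4_ty_rot G n f b p s v (by omega)
    have := hτ v
    rw [hv] at this
    exact this
  have hins : ∀ m, 4 ≤ m → m ≤ 6 → ∀ x y z, Ty G 11 F true m x → Ty G 11 F true (m + 1) y →
      Ty G 11 F false (m - 1) z → ¬ (G.Adj z x ∧ G.Adj z y) := by
    intro m hm4 hm6 x y z hx hy hz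
    have hAn := (h2 V G hT hS n F hn3 hn hFn).1
    have glob : ∀ v b p, 3 ≤ p → p ≤ 7 → Ty G 11 F b p v → Ty G n F b p v := by
      intro v b p hp3 hp7 hv
      rcases hAn v with h | ⟨b', m', hm', h⟩
      · exact (k4_notU G n F hn hFn v h b p hp3 hp7 hv).elim
      · obtain ⟨h5, h6⟩ := k4_win G n F hn hFn b' m' v hm' h b p hp3 hp7 hv
        rw [← h5, ← h6]; exact h
    refine hFI m (by omega) x y z (glob x true m (by omega) (by omega) hx) ?_ ?_
    · rw [Nat.mod_eq_of_lt (by omega : m + 1 < n)]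
      exact glob y true (m + 1) (by omega) (by omega) hy
    · have : (m + n - 1) % n = m - 1 := by
        rw [k4_md _ _ (by omega)]
        split_ifs <;> omega
      rw [this]
      exact glob z false (m - 1) (by omega) (by omega) hz
  -- position of b
  have hpb : mb = ((if bb then 6 else 3) + s) % n := by
    unfold Rk at hab
    simp only at hab
    rw [k4_md (m + 1) n (by omega), k4_md (mb + 2) n (by omega)] at hab
    rcases hab with ⟨h5, h6⟩ | ⟨h5, h6⟩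
    · rw [h5, if_pos rfl]
      rcases Nat.lt_or_ge (6 + s) (2 * n) with h7 | h7
      · rw [k4_md _ _ h7]
        split_ifs at h6 ⊢ <;> omega
      · omega
    · rw [h5, if_neg (by simp)]
      rw [k4_md _ _ (by omega)]
      split_ifs at h6 ⊢ <;> omega
  have hpb' : mb' = ((if a1 then 4 else 7) + s) % n := by
    unfold Rk at hab'
    simp only at hab'
    rw [k4_md (mb' + 1) n (by omega), k4_md (m + 2) n (by omega)] at hab'
    rcases hab' with ⟨h5, h6⟩ | ⟨h5, h6⟩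
    · rw [h5, if_pos rfl]
      rw [k4_md _ _ (by omega)]
      split_ifs at h6 ⊢ <;> omega
    · rw [h5, if_neg (by simp)]
      rcases Nat.lt_or_ge (7 + s) (2 * n) with h7 | h7
      · rw [k4_md _ _ h7]
        split_ifs at h6 ⊢ <;> omega
      · omega
  have hN := h4 V G hT hS F hF11 hins t1 t2 t3 x1 x2 y1 y2 hsx hsy
  have htx : ∀ x ∈ ({x1, x2} : Set V), Ty G 11 F bb (if bb then 6 else 3) x := by
    intro x hx
    apply hty x bb _ (by split_ifs <;> omega)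
    rw [← hpb]
    rcases hx with hx | hx
    · rw [hx]; exact hx1
    · rw [Set.mem_singleton_iff.1 hx]; exact hx2
  cases a1
  · refine hN.2 bb bb' ?_ htx ?_
    · intro t ht
      apply hty t false 5 (by omega)
      rw [p5]
      rcases ht with ht | ht | ht
      · rw [ht]; exact e1
      · rw [ht]; exact e2
      · rw [Set.mem_singleton_iff.1 ht]; exact e3
    · intro y hy
      apply hty y bb' 7 (by omega)
      simp only [Bool.false_eq_true, if_false] at hpb'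
      rw [← hpb']
      rcases hy with hy | hy
      · rw [hy]; exact hy1
      · rw [Set.mem_singleton_iff.1 hy]; exact hy2
  · refine hN.1 bb bb' ?_ htx ?_
    · intro t ht
      apply hty t true 5 (by omega)
      rw [p5]
      rcases ht with ht | ht | ht
      · rw [ht]; exact e1
      · rw [ht]; exact e2
      · rw [Set.mem_singleton_iff.1 ht]; exact e3
    · intro y hy
      apply hty y bb' 4 (by omega)
      simp only [if_true] at hpb'
      rw [← hpb']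
      rcases hy with hy | hy
      · rw [hy]; exact hy1
      · rw [Set.mem_singleton_iff.1 hy]; exact hy2

theorem k4 (h1 : Stmt_Rot) (h2 : Stmt_An) (h3 : Stmt_Pn) (h4 : Stmt_N11) (h5 : Stmt_knSymm)
    (h6 : Stmt_LIN) (h7 : Stmt_LZ) (h8 : Stmt_Bondy) : Stmt_K4 := by
  obtain ⟨K', hK'⟩ := h6 6
  refine ⟨K', ?_⟩
  intro V _ G n f hT hS hC hn3 hn hA hI
  obtain ⟨hAn1, hAn2⟩ := h2 V G hT hS n f hn3 hn hA
  -- no vertices of type U
  have hnoU : ∀ v, ¬ TyU G n f v := by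
    intro v hv
    set T : Finset V := univ.filter (fun v => TyU G n f v) with hTdef
    have hf0 : ¬ TyU G n f (f 0) := by
      intro h
      apply h 1 (by omega)
      rw [hA 0 1 (by omega) (by omega)]
    obtain ⟨x, hx, y, hy, hxy⟩ := hC.2 T (Finset.subset_univ _)
      ⟨v, by rw [hTdef]; exact Finset.mem_filter.2 ⟨Finset.mem_univ _, hv⟩⟩
      ⟨f 0, by
        rw [Finset.mem_sdiff, hTdef]
        exact ⟨Finset.mem_univ _, fun h => hf0 (Finset.mem_filter.1 h).2⟩⟩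
    rw [hTdef] at hx
    have h9 := hAn2 x y (Finset.mem_filter.1 hx).2 hxy
    apply (Finset.mem_sdiff.1 hy).2
    rw [hTdef]
    exact Finset.mem_filter.2 ⟨Finset.mem_univ _, h9⟩
  have hex : ∀ v, ∃ p : Bool × ℕ, p.2 < n ∧ Ty G n f p.1 p.2 v := by
    intro v
    rcases hAn1 v with h | ⟨b, m, hm, h⟩
    · exact absurd h (hnoU v)
    · exact ⟨(b, m), hm, h⟩
  choose τ hτn hτ using hex
  have hs := h5 n hn
  have hform : ∀ v w, kn n (τ v) (τ w) = none →
      (G.Adj v w ↔ (((τ w).2 + n - (τ v).2) % n) % 3 = 1) := by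
    intro v w hvw
    obtain ⟨h9, h10⟩ := k4_kn_none n _ _ (hτn v) (hτn w) hvw
    refine h3 V G hT hS n f hn3 hn hA (τ v).1 (τ w).1 (τ v).2 (hτn v) (τ w).2 (hτn w) ?_ v w
      (hτ v) (hτ w)
    intro h
    rcases k4_mb n hn _ _ (hτn v) (hτn w) h with h | h
    · exact h9 h
    · exact h10 h
  haveI : Nonempty V := ⟨f 0⟩
  refine hK' V G n τ hs hn hn3 hτn hform ?_ ?_
  · intro a b b' hab hab' hne t1 t2 t3 e1 e2 e3 r1 r2 r3 s1 s2 s3
    obtain ⟨k, hk⟩ := Option.ne_none_iff_exists'.1 hab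
    obtain ⟨k', hk'⟩ := Option.ne_none_iff_exists'.1 hab'
    obtain ⟨ha, hb, hkk⟩ := k4_kn_some n a b k hk
    obtain ⟨_, hb', hkk'⟩ := k4_kn_some n a b' k' hk'
    have hne' : k ≠ k' := fun h => hne (by rw [hk, hk', h])
    rcases hkk with ⟨h9, h10⟩ | ⟨h9, h10⟩ <;> rcases hkk' with ⟨h11, h12⟩ | ⟨h11, h12⟩
    · exact hne' (h10.symm.trans h12)
    · exact k4_conf h1 h2 h4 h8 G n f hT hS hn3 hn hA hI τ hτ a b b' ha hb hb' h9 h11 t1 t2 t3
        e1 e2 e3 r1 r2 r3 s1 s2 s3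
    · exact k4_conf h1 h2 h4 h8 G n f hT hS hn3 hn hA hI τ hτ a b' b ha hb' hb h11 h9 t1 t2 t3
        e1 e2 e3 s1 s2 s3 r1 r2 r3
    · apply hne'
      rw [← h10, ← h12]
      unfold Rk at h9 h11
      rw [k4_md (a.2 + 2) n (by omega)] at h9 h11
      rw [k4_md (b.2 + 1) n (by omega)] at h9
      rw [k4_md (b'.2 + 1) n (by omega)] at h11
      rcases h9 with ⟨h13, h9⟩ | ⟨h13, h9⟩ <;> rcases h11 with ⟨h14, h11⟩ | ⟨h14, h11⟩
      · split_ifs at h9 h11 <;> omega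
      · rw [h13] at h14; simp at h14
      · rw [h13] at h14; simp at h14
      · split_ifs at h9 h11 <;> omega
  · intro k X hX
    exact h7 V _ _ (k4_bip G n hn τ hs k) (k4_sf G hS n hn hn3 τ hs hτn hform k) X hX

end Pool.Agent.H333R2.St
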