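import Pool.Agent.H333R2.St.Defs

namespace Pool.Agent.H333R2.St

open Finset Classical
open Pool.Agent.H175R2 (Cn cliqueWidth)

/-- numbers of different values, compared -/
theorem lz_card_image {α β γ : Type} [DecidableEq β] [DecidableEq γ] (A : Finset α) (f : α → β) (g : α → γ)
    (h : ∀ u ∈ A, ∀ u' ∈ A, g u = g u' → f u = f u') : (A.image f).card ≤ (A.image g).card := by
  rcases A.eq_empty_or_nonempty with rfl | ⟨u0, hu0⟩
  · simp
  have hne : Nonempty α := ⟨u0⟩
  have hsub : A.image f ⊆ (A.image g).image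
      (fun y => f (Classical.epsilon (fun u => u ∈ A ∧ g u = y))) := by
    intro z hz
    obtain ⟨u, hu, rfl⟩ := Finset.mem_image.1 hz
    refine Finset.mem_image.2 ⟨g u, Finset.mem_image_of_mem _ hu, ?_⟩
    have h1 : (fun v => v ∈ A ∧ g v = g u) (Classical.epsilon (fun v => v ∈ A ∧ g v = g u)) :=
      Classical.epsilon_spec (p := fun v => v ∈ A ∧ g v = g u) ⟨u, hu, rfl⟩
    exact h _ h1.1 _ hu h1.2
  exact (Finset.card_le_card hsub).trans Finset.card_image_le

variable {V : Type}

theorem lz_mem_trc {G : SimpleGraph V} {Z : Finset V} {x y : V} :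
    y ∈ trc G Z x ↔ y ∈ Z ∧ G.Adj x y := by
  unfold trc
  rw [Finset.mem_filter]

/-- comparison of trace numbers -/
theorem lz_tr_le {G G' : SimpleGraph V} {A Z Z' : Finset V}
    (h : ∀ u ∈ A, ∀ u' ∈ A, (∀ y ∈ Z', G'.Adj u y ↔ G'.Adj u' y) →
      ∀ y ∈ Z, G.Adj u y ↔ G.Adj u' y) : tr G A Z ≤ tr G' A Z' := by
  unfold tr
  apply lz_card_image
  intro u hu u' hu' he
  have h1 : ∀ y ∈ Z', G'.Adj u y ↔ G'.Adj u' y := by
    intro y hy
    have := congrArg (fun s => y ∈ s) he
    simp only [lz_mem_trc, eq_iff_iff] at this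
    constructor
    · exact fun h2 => (this.1 ⟨hy, h2⟩).2
    · exact fun h2 => (this.2 ⟨hy, h2⟩).2
  have h2 := h u hu u' hu' h1
  ext y
  rw [lz_mem_trc, lz_mem_trc]
  constructor
  · exact fun h3 => ⟨h3.1, (h2 y h3.1).1 h3.2⟩
  · exact fun h3 => ⟨h3.1, (h2 y h3.1).2 h3.2⟩

/-- monotonicity of trees, on subsets of the root -/
theorem lz_mono {P P' : Finset V → Prop} {R : Finset V} (h : BT P R)
    (hP : ∀ A ⊆ R, P A → P' A) : BT P' R := by
  induction h with
  | leaf x => exact BT.leaf x
  | node hd hA hB h ihA ihB =>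
    refine BT.node hd (ihA fun A' hA' => hP A' (hA'.trans subset_union_left))
      (ihB fun A' hA' => hP A' (hA'.trans subset_union_right)) (hP _ (Subset.refl _) h)

/-- node condition, per colour -/
def LzQ (H : SimpleGraph V) (c : V → Bool) (X A : Finset V) : Prop :=
  ∀ b : Bool, tr H (A.filter (fun u => c u = b)) (X \ A) ≤ 3

theorem lz_root {H : SimpleGraph V} {c : V → Bool} (X : Finset V) : LzQ H c X X := by
  intro b
  have : tr H (X.filter (fun u => c u = b)) (X \ X) ≤ 1 := by
    unfold tr
    rw [Finset.sdiff_self]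
    refine Finset.card_le_one.2 ?_
    intro s hs t ht
    obtain ⟨u, _, rfl⟩ := Finset.mem_image.1 hs
    obtain ⟨v, _, rfl⟩ := Finset.mem_image.1 ht
    simp [trc]
  omega

/-- cuts of a decomposable set: the adjacency between the two parts depends only on the colours -/
theorem lz_cut {H : SimpleGraph V} {c : V → Bool} (hb : Bip H c) {X : Finset V}
    (h : Dec H c X) : ∃ Y ⊆ X, Y.Nonempty ∧ (X \ Y).Nonempty ∧
      ∃ f : Bool → Bool → Prop, ∀ u ∈ Y, ∀ v ∈ X \ Y, H.Adj u v ↔ f (c u) (c v) := by
  rcases h with ⟨Y, h1, h2, h3, h4⟩ | ⟨Y, h1, h2, h3, h4⟩ | ⟨b, Y, h1, h2, h3, h4, h5⟩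
  · exact ⟨Y, h1, h2, h3, fun _ _ => False, fun u hu v hv => iff_of_false (h4 u hu v hv) id⟩
  · refine ⟨Y, h1, h2, h3, fun a b => a ≠ b, fun u hu v hv => ⟨fun h => hb u v h, fun h => ?_⟩⟩
    by_contra hn
    exact h4 u hu v hv ⟨h, hn⟩
  · refine ⟨Y, h1, h2, h3, fun a a' => a = b ∧ a' ≠ b, fun u hu v hv => ⟨fun h => ?_, fun h => ?_⟩⟩
    · have hne := hb u v h
      by_cases hu' : c u = b
      · exact ⟨hu', fun hv' => hne (hu'.trans hv'.symm)⟩
      · exfalso
        have hv' : c v = b := by
          cases hcu : c u <;> cases hcv : c v <;> cases b <;> simp_all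
        exact h5 u hu v hv hu' hv' h
    · exact h4 u hu v hv h.1 h.2

/-- transfer of a tree of `Y` to a tree in `X` -/
theorem lz_transfer {H : SimpleGraph V} {c : V → Bool} {X Y : Finset V} (_hYX : Y ⊆ X)
    (hf : ∀ u ∈ Y, ∀ u' ∈ Y, c u = c u' → ∀ v ∈ X \ Y, H.Adj u v ↔ H.Adj u' v)
    (h : BT (LzQ H c Y) Y) : BT (LzQ H c X) Y := by
  refine lz_mono h fun A hA hQ b => ?_
  refine (lz_tr_le ?_).trans (hQ b)
  intro u hu u' hu' hr y hy
  rw [Finset.mem_filter] at hu hu'
  rw [Finset.mem_sdiff] at hy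
  by_cases hyY : y ∈ Y
  · exact hr y (Finset.mem_sdiff.2 ⟨hyY, hy.2⟩)
  · exact hf u (hA hu.1) u' (hA hu'.1) (hu.2.trans hu'.2.symm) y (Finset.mem_sdiff.2 ⟨hy.1, hyY⟩)

/-- insertion of a twin -/
theorem lz_insert {H : SimpleGraph V} {c : V → Bool} (hb : Bip H c) {X : Finset V} {x p : V}
    (hx : x ∈ X) (hp : p ∈ X) (hxp : x ≠ p) (ht : Tw H c X x p) {R : Finset V}
    (h : BT (LzQ H c (X.erase x)) R) : R ⊆ X.erase x →
    (p ∉ R → BT (LzQ H c X) R) ∧ (p ∈ R → BT (LzQ H c X) (insert x R)) := by
  obtain ⟨hc, ht⟩ := ht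
  have hadj : ∀ u ∈ X, H.Adj u x ↔ H.Adj u p := by
    intro u hu
    by_cases hcu : c u = c x
    · exact iff_of_false (fun h => hb u x h hcu) (fun h => hb u p h (hcu.trans hc))
    · have := ht u hu hcu
      rw [H.adj_comm u x, H.adj_comm u p]
      exact this
  have hadj' : ∀ u ∈ X, H.Adj x u ↔ H.Adj p u := by
    intro u hu
    rw [H.adj_comm x u, H.adj_comm p u]
    exact hadj u hu
  induction h with
  | leaf y =>
    intro hR
    refine ⟨fun _ => BT.leaf y, fun hpy => ?_⟩
    rw [Finset.mem_singleton] at hpy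
    subst hpy
    have e : insert x ({p} : Finset V) = {x} ∪ {p} := by
      ext z; simp
    rw [e]
    refine BT.node (by simpa using hxp) (BT.leaf x) (BT.leaf p) fun b => ?_
    unfold tr
    refine Finset.card_image_le.trans ((Finset.card_filter_le _ _).trans ?_)
    rw [← e]
    exact Finset.card_le_two.trans (by norm_num)
  | @node A B hd hA hB h ihA ihB =>
    intro hR
    have hAX := subset_union_left.trans hR
    have hBX := subset_union_right.trans hR
    obtain ⟨a1, a2⟩ := ihA hAX
    obtain ⟨b1, b2⟩ := ihB hBX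
    have hxR : x ∉ A ∪ B := fun hx' => (Finset.mem_erase.1 (hR hx')).1 rfl
    have hins : p ∈ A ∪ B → LzQ H c X (insert x (A ∪ B)) := by
      intro hpR b
      have h1 : tr H ((insert x (A ∪ B)).filter (fun u => c u = b)) (X \ insert x (A ∪ B)) ≤
          tr H ((A ∪ B).filter (fun u => c u = b)) (X.erase x \ (A ∪ B)) := by
        unfold tr
        apply Finset.card_le_card
        intro s hs
        obtain ⟨u, hu, rfl⟩ := Finset.mem_image.1 hs
        rw [Finset.mem_filter, Finset.mem_insert] at hu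
        have hZ : X \ insert x (A ∪ B) = X.erase x \ (A ∪ B) := by
          ext z
          rw [Finset.mem_sdiff, Finset.mem_sdiff, Finset.mem_insert, Finset.mem_erase, not_or]
          exact ⟨fun h => ⟨⟨h.2.1, h.1⟩, h.2.2⟩, fun h => ⟨h.1.2, h.1.1, h.2⟩⟩
        rw [hZ]
        rcases hu.1 with hux | hu1
        · have hu2 := hu.2
          rw [hux] at hu2
          rw [hux]
          have hpm : p ∈ (A ∪ B).filter (fun u => c u = b) :=
            Finset.mem_filter.2 ⟨hpR, hc.symm.trans hu2⟩
          have htr : trc H (X.erase x \ (A ∪ B)) p = trc H (X.erase x \ (A ∪ B)) x := by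
            ext z
            rw [lz_mem_trc, lz_mem_trc]
            constructor
            · intro hz
              exact ⟨hz.1, (hadj' z (Finset.mem_of_mem_erase (Finset.mem_sdiff.1 hz.1).1)).2 hz.2⟩
            · intro hz
              exact ⟨hz.1, (hadj' z (Finset.mem_of_mem_erase (Finset.mem_sdiff.1 hz.1).1)).1 hz.2⟩
          rw [← htr]
          exact Finset.mem_image_of_mem _ hpm
        · exact Finset.mem_image_of_mem _ (Finset.mem_filter.2 ⟨hu1, hu.2⟩)
      exact h1.trans (h b)
    constructor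
    · intro hpR
      rw [Finset.mem_union, not_or] at hpR
      refine BT.node hd (a1 hpR.1) (b1 hpR.2) fun b => (lz_tr_le ?_).trans (h b)
      intro u hu u' hu' hr y hy
      rw [Finset.mem_filter] at hu hu'
      rw [Finset.mem_sdiff] at hy
      by_cases hyx : y = x
      · subst hyx
        have hpZ : p ∈ X.erase y \ (A ∪ B) := by
          rw [Finset.mem_sdiff, Finset.mem_erase, Finset.mem_union, not_or]
          exact ⟨⟨hxp.symm, hp⟩, hpR⟩
        have := hr p hpZ
        rw [hadj u (Finset.mem_of_mem_erase (hR hu.1)), hadj u' (Finset.mem_of_mem_erase (hR hu'.1))]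
        exact this
      · exact hr y (Finset.mem_sdiff.2 ⟨Finset.mem_erase.2 ⟨hyx, hy.1⟩, hy.2⟩)
    · intro hpR
      have hxA : x ∉ A := fun h' => hxR (Finset.mem_union_left _ h')
      have hxB : x ∉ B := fun h' => hxR (Finset.mem_union_right _ h')
      by_cases hpA : p ∈ A
      · have hpB : p ∉ B := fun h' => Finset.disjoint_left.1 hd hpA h'
        have e : insert x (A ∪ B) = insert x A ∪ B := by
          rw [Finset.insert_union]
        rw [e]
        refine BT.node ?_ (a2 hpA) (b1 hpB) ?_
        · rw [Finset.disjoint_insert_left]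
          exact ⟨hxB, hd⟩
        · rw [← e]
          exact hins hpR
      · have hpB : p ∈ B := (Finset.mem_union.1 hpR).resolve_left hpA
        have e : insert x (A ∪ B) = A ∪ insert x B := by
          rw [Finset.union_insert]
        rw [e]
        refine BT.node ?_ (a1 hpA) (b2 hpB) ?_
        · rw [Finset.disjoint_insert_right]
          exact ⟨hxA, hd⟩
        · rw [← e]
          exact hins hpR

/-- trees for paths and cycles -/
theorem lz_dt {H' : SimpleGraph V} {X : Finset V} {P : Finset V → Prop}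
    (hP : ∀ A ⊆ X, tr H' A (X \ A) ≤ 3 → P A) {A : Finset V}
    (h : Pool.Agent.H175R2.DT H' 2 X A) (hA : A ⊆ X) : BT P A := by
  induction h with
  | leaf x => exact BT.leaf x
  | @node A B hd hA' hB' hn ihA ihB =>
    refine BT.node hd (ihA (subset_union_left.trans hA)) (ihB (subset_union_right.trans hA)) ?_
    apply hP _ hA
    have h1 : (((A ∪ B).image (Pool.Agent.H175R2.on H' X (A ∪ B))).erase ∅).card ≤ 2 := hn
    have h2 := Finset.pred_card_le_card_erase (s := (A ∪ B).image
      (Pool.Agent.H175R2.on H' X (A ∪ B))) (a := ∅)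
    have h3 : tr H' (A ∪ B) (X \ (A ∪ B)) =
        ((A ∪ B).image (Pool.Agent.H175R2.on H' X (A ∪ B))).card := rfl
    omega

theorem lz_dg {H' H : SimpleGraph V} {c : V → Bool} {X : Finset V} (h : Dg H' X)
    (hdet : ∀ u ∈ X, ∀ u' ∈ X, c u = c u' → ∀ y ∈ X, (H'.Adj u y ↔ H'.Adj u' y) →
      (H.Adj u y ↔ H.Adj u' y)) : BT (LzQ H c X) X := by
  have h1 := Pool.Agent.H175R2.dt_deg_two h.2 X.card X (Subset.refl _) le_rfl h.1
  refine lz_dt ?_ h1 (Subset.refl _)
  intro A hA hA3 b
  have h2 : tr H (A.filter (fun u => c u = b)) (X \ A) ≤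
      tr H' (A.filter (fun u => c u = b)) (X \ A) := by
    apply lz_tr_le
    intro u hu u' hu' hr y hy
    rw [Finset.mem_filter] at hu hu'
    exact hdet u (hA hu.1) u' (hA hu'.1) (hu.2.trans hu'.2.symm) y (Finset.mem_sdiff.1 hy).1
      (hr y hy)
  refine h2.trans (le_trans ?_ hA3)
  unfold tr
  exact Finset.card_le_card (Finset.image_subset_image (Finset.filter_subset _ _))

theorem lz (h1 : Stmt_coB) (h2 : Stmt_PC) : Stmt_LZ := by
  intro V H c hb hS
  have main : ∀ n : ℕ, ∀ X : Finset V, X.card = n → X.Nonempty → BT (LzQ H c X) X := by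
    intro n
    induction n using Nat.strong_induction_on with
    | _ n ih =>
      intro X hXn hX
      by_cases hX1 : X.card ≤ 1
      · obtain ⟨x, hx⟩ := hX
        have : X = {x} := by
          rw [Finset.eq_singleton_iff_unique_mem]
          exact ⟨hx, fun y hy => Finset.card_le_one.1 hX1 y hy x hx⟩
        rw [this]
        exact BT.leaf x
      by_cases hdec : Dec H c X
      · obtain ⟨Y, hYX, hY, hXY, f, hf⟩ := lz_cut hb hdec
        have c1 : (X \ Y).card + Y.card = X.card := Finset.card_sdiff_add_card_eq_card hYX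
        have c2 := Finset.card_pos.2 hY
        have c3 := Finset.card_pos.2 hXY
        have t1 := ih Y.card (by omega) Y rfl hY
        have t2 := ih (X \ Y).card (by omega) (X \ Y) rfl hXY
        have s1 : BT (LzQ H c X) Y := by
          refine lz_transfer hYX (fun u hu u' hu' hcc v hv => ?_) t1
          rw [hf u hu v hv, hf u' hu' v hv, hcc]
        have s2 : BT (LzQ H c X) (X \ Y) := by
          refine lz_transfer Finset.sdiff_subset (fun u hu u' hu' hcc v hv => ?_) t2
          have hv' : v ∈ Y := by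
            rw [Finset.mem_sdiff, Finset.mem_sdiff, not_and, not_not] at hv
            exact hv.2 hv.1
          rw [H.adj_comm u v, H.adj_comm u' v, hf v hv' u hu, hf v hv' u' hu', hcc]
        have e : X = Y ∪ (X \ Y) := (Finset.union_sdiff_of_subset hYX).symm
        have s3 : BT (LzQ H c X) (Y ∪ (X \ Y)) :=
          BT.node Finset.disjoint_sdiff s1 s2 (by rw [← e]; exact lz_root X)
        rwa [← e] at s3
      · obtain ⟨hb', hS', _, hTw, _⟩ := h1 V H c hb hS
        -- case analysis common to both graphs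
        have common : ∀ H' : SimpleGraph V, (∀ X u v, Tw H' c X u v ↔ Tw H c X u v) →
            (∀ u u' y, c u = c u' → (H'.Adj u y ↔ H'.Adj u' y) → (H.Adj u y ↔ H.Adj u' y)) →
            Bl H' c X → BT (LzQ H c X) X := by
          intro H' hT hdet hBl
          obtain ⟨P, hPX, hDg, hP7, hPt⟩ := hBl
          by_cases hPe : P = X
          · rw [hPe] at hDg
            exact lz_dg hDg fun u _ u' _ hcc y _ hr => hdet u u' y hcc hr
          · obtain ⟨x, hx, hxP⟩ := Finset.exists_of_ssubset (lt_of_le_of_ne hPX hPe)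
            obtain ⟨p, hp, htw⟩ := hPt x hx
            have hxp : x ≠ p := fun h => hxP (h ▸ hp)
            have hcard := Finset.card_erase_of_mem hx
            have t := ih (X.erase x).card (by omega) (X.erase x) rfl
              ⟨p, Finset.mem_erase.2 ⟨hxp.symm, hPX hp⟩⟩
            have := (lz_insert hb hx (hPX hp) hxp ((hT X x p).1 htw) t (Subset.refl _)).2
              (Finset.mem_erase.2 ⟨hxp.symm, hPX hp⟩)
            rwa [Finset.insert_erase hx] at this
        rcases h2 V H c hb hS X (by omega) hdec with hBl | hBl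
        · exact common H (fun _ _ _ => Iff.rfl) (fun _ _ _ _ h => h) hBl
        · refine common (coB H c) hTw ?_ hBl
          intro u u' y hcc hr
          by_cases hcy : c u = c y
          · exact iff_of_false (fun h => hb u y h hcy) (fun h => hb u' y h (hcc ▸ hcy))
          · have hr' : (c u ≠ c y ∧ ¬ H.Adj u y) ↔ (c u' ≠ c y ∧ ¬ H.Adj u' y) := hr
            rw [← hcc] at hr'
            simp only [hcy, ne_eq, not_false_eq_true, true_and] at hr'
            exact not_iff_not.1 hr'
  intro X hX
  refine lz_mono (main X.card X rfl hX) fun A _ hQ => ?_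
  have e : trc H (X \ A) = trc H (X \ A) := rfl
  have : tr H A (X \ A) ≤ tr H (A.filter (fun u => c u = true)) (X \ A) +
      tr H (A.filter (fun u => c u = false)) (X \ A) := by
    unfold tr
    refine le_trans (Finset.card_le_card ?_) (Finset.card_union_le _ _)
    intro s hs
    obtain ⟨u, hu, rfl⟩ := Finset.mem_image.1 hs
    rw [Finset.mem_union]
    by_cases hcu : c u = true
    · exact Or.inl (Finset.mem_image_of_mem _ (Finset.mem_filter.2 ⟨hu, hcu⟩))
    · exact Or.inr (Finset.mem_image_of_mem _ (Finset.mem_filter.2 ⟨hu, by simpa using hcu⟩))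
  have q1 := hQ true
  have q2 := hQ false
  omega

end Pool.Agent.H333R2.St
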