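import Pool.Agent.H333R2.St.Defs

/-! Assembly: `(K₃, S_{1,2,3})`-free graphs have decomposition trees of bounded width. -/

namespace Pool.Agent.H333R2.St

open Finset Classical
open Pool.Agent.H175R2 (Cn cliqueWidth)

theorem main_mono {V : Type} {G : SimpleGraph V} {K K' : ℕ} {R : Finset V} (h : Bd G K R)
    (hK : K ≤ K') : Bd G K' R := by
  have key : ∀ A : Finset V, BT (fun A => tr G A (R \ A) ≤ K) A →
      BT (fun A => tr G A (R \ A) ≤ K') A := by
    intro A hA
    induction hA with
    | leaf x => exact BT.leaf x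
    | node hd hA hB h ihA ihB => exact BT.node hd ihA ihB (h.trans hK)
  exact key R h

theorem main_of_dt {V : Type} {G : SimpleGraph V} {K : ℕ} {R A : Finset V}
    (h : Pool.Agent.H175R2.DT G K R A) : BT (fun A => tr G A (R \ A) ≤ K + 1) A := by
  induction h with
  | leaf x => exact BT.leaf x
  | @node A B hd hA hB h ihA ihB =>
    refine BT.node hd ihA ihB ?_
    have h2 : tr G (A ∪ B) (R \ (A ∪ B)) - 1 ≤ Pool.Agent.H175R2.nt G R (A ∪ B) :=
      Finset.pred_card_le_card_erase
    omega

theorem main (h1 : Stmt_Red) (h2 : Stmt_LZ) (h3 : Stmt_C5F) (h4 : Stmt_K2) (h5 : Stmt_K3)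
    (h6 : Stmt_K4) (h7 : Stmt_CM) (h8 : Stmt_Ins) (h9 : Stmt_AnchCard) (h10 : Stmt_Rot) :
    Stmt_Main := by
  obtain ⟨K2, hK2⟩ := h4
  obtain ⟨K3, hK3⟩ := h5
  obtain ⟨K4, hK4⟩ := h6
  obtain ⟨KM, hKM⟩ := h7
  apply h1
  refine ⟨6 + K2 + K3 + K4 + KM, ?_⟩
  intro V _ G tf sf cn twf
  rcases h3 V G tf sf cn twf with ⟨f0, hf0⟩ | ⟨c, hc⟩ | hdg
  · -- the longest anchor
    let P : ℕ → Prop := fun n => n % 3 = 2 ∧ 5 ≤ n ∧ ∃ f, Anch G n f
    have hP5 : P 5 := ⟨rfl, le_refl _, f0, hf0⟩
    have hbound : ∀ n, P n → n ≤ Fintype.card V := by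
      rintro n ⟨hn, hn5, f, hf⟩
      exact h9 V G n f hn hn5 hf
    obtain ⟨n, hn⟩ : ∃ n, n = Nat.findGreatest P (Fintype.card V) := ⟨_, rfl⟩
    have hPn : P n := by
      rw [hn]
      exact Nat.findGreatest_spec (hbound 5 hP5) hP5
    have hmax : ∀ k, n < k → ¬ P k := by
      intro k hk hPk
      rw [hn] at hk
      exact Nat.findGreatest_is_greatest hk (hbound k hPk) hPk
    obtain ⟨hn3, hn5, f, hf⟩ := hPn
    have hno : ¬ ∃ g, Anch G (n + 3) g := by
      intro h
      exact hmax (n + 3) (by omega) ⟨by omega, by omega, h⟩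
    have hins : InsR G n f := h8 V G n f tf hn3 hn5 hf hno
    have hcases : n = 5 ∨ n = 8 ∨ 11 ≤ n := by omega
    rcases hcases with rfl | rfl | hn11
    · by_cases hC : ∃ f' t x u, CFam G f' 1 t x u
      · obtain ⟨f', t, x, u, hC⟩ := hC
        exact main_mono (hKM V G f' t x u tf sf cn twf hno hC) (by omega)
      · refine main_mono (hK2 V G f tf sf cn hf hins ?_) (by omega)
        rintro m hm p q z hp hq hz ⟨hzp, hzq⟩
        apply hC
        refine ⟨fun i => f ((i + m) % 5), fun _ => p, fun _ => q, fun _ => z,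
          h10 V G 5 f m rfl hf, ?_, ?_⟩
        · intro i _
          refine ⟨?_, ?_, ?_, hzp, hzq⟩
          · intro j _
            have h11 := hp ((j + m) % 5) (Nat.mod_lt _ (by norm_num))
            have h12 : (0 + m) % 5 = m := by rw [zero_add, Nat.mod_eq_of_lt hm]
            simp only [h12]
            rw [h11]
            simp
          · intro j _
            have h11 := hq ((j + m) % 5) (Nat.mod_lt _ (by norm_num))
            have h12 : (1 + m) % 5 = (m + 1) % 5 := by rw [add_comm]
            simp only [h12]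
            rw [h11]
            simp
          · intro j _
            exact hz ((j + m) % 5) (Nat.mod_lt _ (by norm_num))
        · intro i hi j hj hij
          omega
    · exact main_mono (hK3 V G f tf sf cn hf hins) (by omega)
    · exact main_mono (hK4 V G n f tf sf cn hn3 hn11 hf hins) (by omega)
  · exact main_mono (h2 V G c hc sf univ cn.1) (by omega)
  · have h11 := Pool.Agent.H175R2.dt_deg_two (G := G) (R := univ) hdg.2 _ univ
      (Subset.refl _) le_rfl cn
    have h12 : Bd G 3 univ := main_of_dt h11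
    exact main_mono h12 (by omega)

end Pool.Agent.H333R2.St
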