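import Pool.Agent.H333R2.St.Defs

/-! Module L7: attachments to an induced `P₇`. -/

namespace Pool.Agent.H333R2.St

open Finset Classical
open Pool.Agent.H175R2 (Cn cliqueWidth)

/-- a 7-tuple of indices -/
abbrev L7T := ℕ × ℕ × ℕ × ℕ × ℕ × ℕ × ℕ

/-- the check of an `S7` in a boolean matrix -/
def l7s (m : ℕ → ℕ → Bool) : L7T → Bool
  | (x, a, b1, b2, c1, c2, c3) =>
    m x a && m x b1 && m x c1 && m b1 b2 && m c1 c2 && m c2 c3 &&
    !m x b2 && !m x c2 && !m x c3 && !m a b1 && !m a b2 && !m a c1 && !m a c2 && !m a c3 &&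
    !m b1 c1 && !m b1 c2 && !m b1 c3 && !m b2 c1 && !m b2 c2 && !m b2 c3 && !m c1 c3

theorem l7_sound {V : Type} (H : SimpleGraph V) (w : ℕ → V) (m : ℕ → ℕ → Bool)
    (hm : ∀ i j, H.Adj (w i) (w j) ↔ m i j = true) (hS : SF H) (t : L7T) : l7s m t = false := by
  obtain ⟨x, a, b1, b2, c1, c2, c3⟩ := t
  by_contra h
  rw [Bool.not_eq_false] at h
  apply hS (w x) (w a) (w b1) (w b2) (w c1) (w c2) (w c3)
  unfold S7
  simp only [hm]
  simp only [l7s, Bool.and_eq_true, Bool.not_eq_true'] at h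
  simp only [Bool.not_eq_true]
  tauto

/-- the path matrix -/
def l7p (i j : ℕ) : Bool := i + 1 == j || j + 1 == i

/-- bits on the vertices of the parity of `k` -/
def l7b (k : ℕ) (b0 b1 b2 b3 : Bool) (i : ℕ) : Bool :=
  if (i + k) % 2 = 0 then
    (if i / 2 = 0 then b0 else if i / 2 = 1 then b1 else if i / 2 = 2 then b2 else b3)
  else false

/-- path and one more vertex with bits `f` -/
def l7m2 (f : ℕ → Bool) (i j : ℕ) : Bool :=
  if i < 7 then (if j < 7 then l7p i j else f i) else if j < 7 then f j else false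

/-- path, a twin of `p k` (index 7), one more vertex with bits `f` -/
def l7m (k : ℕ) (f : ℕ → Bool) (i j : ℕ) : Bool :=
  if i < 7 then (if j < 7 then l7p i j else if j = 7 then l7p i k else f i)
  else if i = 7 then (if j < 7 then l7p j k else if j = 7 then false else !f k)
  else if j < 7 then f j else if j = 7 then !f k else false

def l7c : List L7T := [(4, 8, 5, 6, 3, 2, 1),
  (2, 8, 1, 0, 3, 4, 5),
  (5, 6, 4, 3, 8, 1, 0),
  (3, 8, 4, 5, 2, 1, 0),
  (4, 3, 5, 6, 8, 0, 1),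
  (2, 3, 1, 0, 8, 6, 5),
  (8, 6, 4, 3, 0, 1, 7),
  (8, 6, 0, 1, 7, 3, 4),
  (8, 6, 0, 1, 4, 3, 7),
  (8, 3, 5, 6, 7, 0, 1),
  (8, 3, 5, 6, 1, 0, 7),
  (8, 3, 1, 0, 7, 6, 5),
  (8, 3, 1, 0, 5, 6, 7),
  (8, 0, 6, 5, 7, 3, 2),
  (8, 0, 6, 5, 2, 3, 7),
  (8, 0, 2, 3, 6, 5, 7),
  (7, 8, 5, 6, 3, 2, 1),
  (7, 8, 4, 5, 2, 1, 0),
  (7, 8, 1, 0, 3, 4, 5),
  (7, 6, 4, 3, 8, 1, 0),
  (7, 0, 2, 3, 8, 5, 6),
  (5, 7, 6, 8, 4, 3, 2),
  (5, 6, 7, 8, 4, 3, 2),
  (5, 6, 4, 7, 8, 1, 0),
  (4, 8, 5, 7, 3, 2, 1),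
  (4, 7, 5, 8, 3, 2, 1),
  (4, 7, 5, 6, 3, 8, 1),
  (4, 5, 7, 8, 3, 2, 1),
  (4, 3, 5, 6, 7, 8, 1),
  (3, 8, 4, 7, 2, 1, 0),
  (3, 8, 4, 5, 2, 7, 0),
  (2, 8, 1, 7, 3, 4, 5),
  (2, 7, 1, 8, 3, 4, 5),
  (2, 7, 1, 0, 3, 8, 5),
  (2, 3, 1, 0, 7, 8, 5),
  (2, 1, 7, 8, 3, 4, 5),
  (1, 7, 0, 8, 2, 3, 4),
  (1, 0, 7, 8, 2, 3, 4),
  (8, 6, 4, 3, 7, 1, 0),
  (8, 0, 2, 3, 7, 5, 6),
  (7, 3, 5, 6, 8, 0, 1),
  (7, 3, 1, 0, 8, 6, 5),
  (4, 8, 5, 6, 3, 7, 1),
  (4, 3, 5, 6, 8, 7, 1),
  (3, 7, 4, 8, 2, 1, 0),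
  (3, 7, 4, 5, 2, 8, 0),
  (3, 4, 7, 8, 2, 1, 0),
  (3, 2, 7, 8, 4, 5, 6),
  (2, 8, 1, 0, 3, 7, 5),
  (2, 3, 1, 0, 8, 7, 5)]

def l7c1 : List L7T := [(4, 7, 5, 6, 3, 2, 1), (2, 7, 1, 0, 3, 4, 5), (4, 3, 5, 6, 7, 0, 1),
  (2, 3, 1, 0, 7, 6, 5)]

def l7c2 : List L7T := [(5, 6, 4, 3, 7, 1, 0), (3, 7, 4, 5, 2, 1, 0)]

theorem l7_tab : ∀ k < 7, ∀ b0 b1 b2 b3 : Bool,
    l7c.any (l7s (l7m k (l7b k b0 b1 b2 b3))) = true := by
  decide +kernel

theorem l7_tab1 : ∀ b0 b1 b2 b3 : Bool,
    (b0, b1, b2, b3) ∈ ([(false, false, false, false), (true, true, true, true),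
      (true, true, false, false), (false, true, true, false), (false, false, true, true),
      (true, false, false, false), (false, false, false, true), (true, false, false, true),
      (true, true, false, true), (true, false, true, true)] : List (Bool × Bool × Bool × Bool)) ∨
    l7c1.any (l7s (l7m2 (l7b 0 b0 b1 b2 b3))) = true := by
  decide +kernel

theorem l7_tab2 : ∀ b0 b1 b2 : Bool,
    (b0, b1, b2) ∈ ([(false, false, false), (true, true, true),
      (true, false, false), (true, true, false), (false, true, true),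
      (false, false, true)] : List (Bool × Bool × Bool)) ∨
    l7c2.any (l7s (l7m2 (l7b 1 b0 b1 b2 false))) = true := by
  decide +kernel

/-- colours alternate along the path -/
theorem l7_col {V : Type} (H : SimpleGraph V) (c : V → Bool) (hc : Bip H c) (p : ℕ → V)
    (hp : ∀ i < 7, ∀ j < 7, (H.Adj (p i) (p j) ↔ (i + 1 = j ∨ j + 1 = i))) :
    ∀ i < 7, c (p i) = if i % 2 = 0 then c (p 0) else !c (p 0) := by
  intro i
  induction i with
  | zero => intro _; simp
  | succ i ih =>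
    intro hi
    have h2 := ih (by omega)
    have h3 := hc _ _ ((hp i (by omega) (i + 1) hi).mpr (Or.inl rfl))
    have h4 : c (p (i + 1)) = !c (p i) := by
      revert h3
      cases c (p i) <;> cases c (p (i + 1)) <;> simp
    rw [h4, h2]
    by_cases h5 : i % 2 = 0
    · have h6 : ¬ ((i + 1) % 2 = 0) := by omega
      rw [if_pos h5, if_neg h6]
    · have h6 : (i + 1) % 2 = 0 := by omega
      rw [if_neg h5, if_pos h6, Bool.not_not]

/-- the bits of a vertex -/
theorem l7_bits {V : Type} (H : SimpleGraph V) (c : V → Bool) (hc : Bip H c) (p : ℕ → V)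
    (hp : ∀ i < 7, ∀ j < 7, (H.Adj (p i) (p j) ↔ (i + 1 = j ∨ j + 1 = i))) (k : ℕ) (hk : k < 7)
    (v : V) (hv : c v ≠ c (p k)) (b0 b1 b2 b3 : Bool)
    (h0 : ∀ i < 7, i / 2 = 0 → (i + k) % 2 = 0 → (H.Adj v (p i) ↔ b0 = true))
    (h1 : ∀ i < 7, i / 2 = 1 → (i + k) % 2 = 0 → (H.Adj v (p i) ↔ b1 = true))
    (h2 : ∀ i < 7, i / 2 = 2 → (i + k) % 2 = 0 → (H.Adj v (p i) ↔ b2 = true))
    (h3 : ∀ i < 7, i / 2 = 3 → (i + k) % 2 = 0 → (H.Adj v (p i) ↔ b3 = true)) :
    ∀ i < 7, (H.Adj v (p i) ↔ l7b k b0 b1 b2 b3 i = true) := by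
  intro i hi
  unfold l7b
  by_cases hpar : (i + k) % 2 = 0
  · rw [if_pos hpar]
    have : i / 2 = 0 ∨ i / 2 = 1 ∨ i / 2 = 2 ∨ i / 2 = 3 := by omega
    rcases this with h | h | h | h
    · rw [h0 i hi h hpar]; simp [h]
    · rw [h1 i hi h hpar]; simp [h]
    · rw [h2 i hi h hpar]; simp [h]
    · rw [h3 i hi h hpar]; simp [h]
  · rw [if_neg hpar]
    constructor
    · intro hadj
      exfalso
      apply hc _ _ hadj
      have e1 := l7_col H c hc p hp i hi
      have e2 := l7_col H c hc p hp k hk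
      rw [e2] at hv
      rw [e1]
      by_cases h5 : i % 2 = 0
      · have h6 : ¬ (k % 2 = 0) := by omega
        rw [if_neg h6] at hv
        rw [if_pos h5]
        revert hv
        cases c v <;> cases c (p 0) <;> simp
      · have h6 : k % 2 = 0 := by omega
        rw [if_pos h6] at hv
        rw [if_neg h5]
        revert hv
        cases c v <;> cases c (p 0) <;> simp
    · intro h; exact absurd h (by simp)

theorem l7_m2 {V : Type} (H : SimpleGraph V) (p : ℕ → V)
    (hp : ∀ i < 7, ∀ j < 7, (H.Adj (p i) (p j) ↔ (i + 1 = j ∨ j + 1 = i))) (v : V) (f : ℕ → Bool)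
    (hf : ∀ i < 7, (H.Adj v (p i) ↔ f i = true)) (i j : ℕ) :
    H.Adj (if i < 7 then p i else v) (if j < 7 then p j else v) ↔ l7m2 f i j = true := by
  unfold l7m2
  by_cases hi : i < 7
  · by_cases hj : j < 7
    · simp only [hi, hj, if_true]
      rw [hp i hi j hj]
      unfold l7p
      simp
    · simp only [hi, hj, if_true, if_false]
      rw [SimpleGraph.adj_comm]
      exact hf i hi
  · by_cases hj : j < 7
    · simp only [hi, hj, if_true, if_false]
      exact hf j hj
    · simp only [hi, hj, if_false]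
      simp

theorem l7_m {V : Type} (H : SimpleGraph V) (p : ℕ → V)
    (hp : ∀ i < 7, ∀ j < 7, (H.Adj (p i) (p j) ↔ (i + 1 = j ∨ j + 1 = i))) (k : ℕ) (hk : k < 7)
    (q w : V) (f : ℕ → Bool) (hq : ∀ i < 7, (H.Adj q (p i) ↔ H.Adj (p k) (p i)))
    (hf : ∀ i < 7, (H.Adj w (p i) ↔ f i = true)) (hqw : H.Adj q w ↔ f k = false) (i j : ℕ) :
    H.Adj (if i < 7 then p i else if i = 7 then q else w)
      (if j < 7 then p j else if j = 7 then q else w) ↔ l7m k f i j = true := by
  have hqi : ∀ i < 7, (H.Adj q (p i) ↔ l7p i k = true) := by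
    intro i hi
    rw [hq i hi, hp k hk i hi]
    unfold l7p
    simp
    tauto
  unfold l7m
  by_cases hi : i < 7
  · by_cases hj : j < 7
    · simp only [hi, hj, if_true]
      rw [hp i hi j hj]
      unfold l7p
      simp
    · by_cases hj7 : j = 7
      · subst hj7
        simp only [hi, if_true, hj, if_false]
        rw [SimpleGraph.adj_comm]
        exact hqi i hi
      · simp only [hi, hj, hj7, if_true, if_false]
        rw [SimpleGraph.adj_comm]
        exact hf i hi
  · by_cases hi7 : i = 7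
    · subst hi7
      by_cases hj : j < 7
      · simp only [hi, hj, if_true, if_false]
        exact hqi j hj
      · by_cases hj7 : j = 7
        · subst hj7
          simp
        · simp only [hi, hj, hj7, if_true, if_false]
          rw [hqw]
          simp
    · by_cases hj : j < 7
      · simp only [hi, hj, hi7, if_true, if_false]
        exact hf j hj
      · by_cases hj7 : j = 7
        · subst hj7
          simp only [hi, hj, hi7, if_true, if_false]
          rw [SimpleGraph.adj_comm, hqw]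
          simp
        · simp only [hi, hj, hi7, hj7, if_false]
          simp

theorem l7_any {V : Type} (H : SimpleGraph V) (w : ℕ → V) (m : ℕ → ℕ → Bool)
    (hm : ∀ i j, H.Adj (w i) (w j) ↔ m i j = true) (hS : SF H) (L : List L7T) :
    ¬ (L.any (l7s m) = true) := by
  intro h
  obtain ⟨t, _, ht⟩ := List.any_eq_true.mp h
  rw [l7_sound H w m hm hS t] at ht
  exact absurd ht (by simp)

/-- a vertex with the same trace on an induced `P₇` as `p k` is a twin of `p k` -/
theorem tw7 : Stmt_Tw7 := by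
  intro V H c hc hS p hp k hk q hcq hq w hw
  by_contra hne
  have hcol := l7_col H c hc p hp
  set f : ℕ → Bool := l7b k (decide (H.Adj w (p (k % 2)))) (decide (H.Adj w (p (2 + k % 2))))
    (decide (H.Adj w (p (4 + k % 2)))) (decide (H.Adj w (p 6))) with hf
  have hvk : c w ≠ c (p k) := by rw [← hcq]; exact hw
  -- the parity of the neighbours of w is the parity of k
  have hbits : ∀ i < 7, (H.Adj w (p i) ↔ f i = true) := by
    apply l7_bits H c hc p hp k hk w hvk
    · intro i hi h1 h2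
      have : i = k % 2 := by omega
      subst this
      simp
    · intro i hi h1 h2
      have : i = 2 + k % 2 := by omega
      subst this
      simp
    · intro i hi h1 h2
      have : i = 4 + k % 2 := by omega
      subst this
      simp
    · intro i hi h1 h2
      have : i = 6 := by omega
      subst this
      simp
  have hqw : H.Adj q w ↔ f k = false := by
    have h1 := hbits k hk
    rw [← Bool.not_eq_true, ← h1, SimpleGraph.adj_comm H w (p k)]
    tauto
  exact l7_any H _ _ (l7_m H p hp k hk q w f hq hbits hqw) hS l7c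
    (l7_tab k hk _ _ _ _)

/-- attachments to an induced `P₇` -/
theorem cls7 : Stmt_Cls7 := by
  intro V H c hc hS p hp
  constructor
  · intro v hv
    have hv0 : c v ≠ c (p 0) := by
      have := hc _ _ ((hp 0 (by omega) 1 (by omega)).mpr (Or.inl rfl))
      rw [hv]
      exact this.symm
    obtain ⟨b0, hb0⟩ : ∃ b : Bool, H.Adj v (p 0) ↔ b = true := ⟨decide (H.Adj v (p 0)), by simp⟩
    obtain ⟨b1, hb1⟩ : ∃ b : Bool, H.Adj v (p 2) ↔ b = true := ⟨decide (H.Adj v (p 2)), by simp⟩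
    obtain ⟨b2, hb2⟩ : ∃ b : Bool, H.Adj v (p 4) ↔ b = true := ⟨decide (H.Adj v (p 4)), by simp⟩
    obtain ⟨b3, hb3⟩ : ∃ b : Bool, H.Adj v (p 6) ↔ b = true := ⟨decide (H.Adj v (p 6)), by simp⟩
    have hbits : ∀ i < 7, (H.Adj v (p i) ↔ l7b 0 b0 b1 b2 b3 i = true) := by
      apply l7_bits H c hc p hp 0 (by omega) v hv0
      · intro i hi h1 h2
        have : i = 0 := by omega
        subst this
        exact hb0
      · intro i hi h1 h2
        have : i = 2 := by omega
        subst this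
        exact hb1
      · intro i hi h1 h2
        have : i = 4 := by omega
        subst this
        exact hb2
      · intro i hi h1 h2
        have : i = 6 := by omega
        subst this
        exact hb3
    have hno := l7_any H _ _ (l7_m2 H p hp v _ hbits) hS l7c1
    have hin := (l7_tab1 b0 b1 b2 b3).resolve_right hno
    have hev : ∀ P : ℕ → Prop, (∀ i < 7, i % 2 = 0 → P i) ↔ (P 0 ∧ P 2 ∧ P 4 ∧ P 6) := by
      intro P
      constructor
      · intro h
        exact ⟨h 0 (by omega) rfl, h 2 (by omega) rfl, h 4 (by omega) rfl, h 6 (by omega) rfl⟩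
      · rintro ⟨h0, h2, h4, h6⟩ i hi hpar
        have : i = 0 ∨ i = 2 ∨ i = 4 ∨ i = 6 := by omega
        rcases this with rfl | rfl | rfl | rfl <;> assumption
    simp only [hev]
    simp only [List.mem_cons, Prod.mk.injEq, List.not_mem_nil, or_false] at hin
    rcases hin with ⟨rfl, rfl, rfl, rfl⟩ | ⟨rfl, rfl, rfl, rfl⟩ | ⟨rfl, rfl, rfl, rfl⟩ |
      ⟨rfl, rfl, rfl, rfl⟩ | ⟨rfl, rfl, rfl, rfl⟩ | ⟨rfl, rfl, rfl, rfl⟩ | ⟨rfl, rfl, rfl, rfl⟩ |
      ⟨rfl, rfl, rfl, rfl⟩ | ⟨rfl, rfl, rfl, rfl⟩ | ⟨rfl, rfl, rfl, rfl⟩ <;>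
      simp only [Bool.false_eq_true, iff_false, iff_true] at hb0 hb1 hb2 hb3
    · left; exact ⟨hb0, hb1, hb2, hb3⟩
    · right; left; exact ⟨hb0, hb1, hb2, hb3⟩
    · right; right; left
      refine ⟨1, by decide, ?_⟩
      simp [hb0, hb1, hb2, hb3, hp]
    · right; right; left
      refine ⟨3, by decide, ?_⟩
      simp [hb0, hb1, hb2, hb3, hp]
    · right; right; left
      refine ⟨5, by decide, ?_⟩
      simp [hb0, hb1, hb2, hb3, hp]
    · right; right; right; left
      simp [hb0, hb1, hb2, hb3]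
    · right; right; right; right; left
      simp [hb0, hb1, hb2, hb3]
    · right; right; right; right; right; left
      simp [hb0, hb1, hb2, hb3]
    · right; right; right; right; right; right; left
      simp [hb0, hb1, hb2, hb3]
    · right; right; right; right; right; right; right
      simp [hb0, hb1, hb2, hb3]
  · intro v hv
    have hv0 : c v ≠ c (p 1) := by
      have := hc _ _ ((hp 0 (by omega) 1 (by omega)).mpr (Or.inl rfl))
      rw [hv]
      exact this
    obtain ⟨b0, hb0⟩ : ∃ b : Bool, H.Adj v (p 1) ↔ b = true := ⟨decide (H.Adj v (p 1)), by simp⟩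
    obtain ⟨b1, hb1⟩ : ∃ b : Bool, H.Adj v (p 3) ↔ b = true := ⟨decide (H.Adj v (p 3)), by simp⟩
    obtain ⟨b2, hb2⟩ : ∃ b : Bool, H.Adj v (p 5) ↔ b = true := ⟨decide (H.Adj v (p 5)), by simp⟩
    have hbits : ∀ i < 7, (H.Adj v (p i) ↔ l7b 1 b0 b1 b2 false i = true) := by
      apply l7_bits H c hc p hp 1 (by omega) v hv0
      · intro i hi h1 h2
        have : i = 1 := by omega
        subst this
        exact hb0
      · intro i hi h1 h2
        have : i = 3 := by omega
        subst this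
        exact hb1
      · intro i hi h1 h2
        have : i = 5 := by omega
        subst this
        exact hb2
      · intro i hi h1 h2
        omega
    have hno := l7_any H _ _ (l7_m2 H p hp v _ hbits) hS l7c2
    have hin := (l7_tab2 b0 b1 b2).resolve_right hno
    have hev : ∀ P : ℕ → Prop, (∀ i < 7, i % 2 = 1 → P i) ↔ (P 1 ∧ P 3 ∧ P 5) := by
      intro P
      constructor
      · intro h
        exact ⟨h 1 (by omega) rfl, h 3 (by omega) rfl, h 5 (by omega) rfl⟩
      · rintro ⟨h0, h2, h4⟩ i hi hpar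
        have : i = 1 ∨ i = 3 ∨ i = 5 := by omega
        rcases this with rfl | rfl | rfl <;> assumption
    simp only [hev]
    simp only [List.mem_cons, Prod.mk.injEq, List.not_mem_nil, or_false] at hin
    rcases hin with ⟨rfl, rfl, rfl⟩ | ⟨rfl, rfl, rfl⟩ | ⟨rfl, rfl, rfl⟩ |
      ⟨rfl, rfl, rfl⟩ | ⟨rfl, rfl, rfl⟩ | ⟨rfl, rfl, rfl⟩ <;>
      simp only [Bool.false_eq_true, iff_false, iff_true] at hb0 hb1 hb2
    · left; exact ⟨hb0, hb1, hb2⟩
    · right; left; exact ⟨hb0, hb1, hb2⟩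
    · right; right
      refine ⟨0, by decide, ?_⟩
      simp [hb0, hb1, hb2, hp]
    · right; right
      refine ⟨2, by decide, ?_⟩
      simp [hb0, hb1, hb2, hp]
    · right; right
      refine ⟨4, by decide, ?_⟩
      simp [hb0, hb1, hb2, hp]
    · right; right
      refine ⟨6, by decide, ?_⟩
      simp [hb0, hb1, hb2, hp]

end Pool.Agent.H333R2.St
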