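import Pool.Agent.H333R2.St.Defs

namespace Pool.Agent.H333R2.St

open Finset Classical
open Pool.Agent.H175R2 (Cn cliqueWidth)

variable {V : Type}

theorem pc_tw_refl (H : SimpleGraph V) (c : V → Bool) (X : Finset V) (x : V) : Tw H c X x x :=
  ⟨rfl, fun _ _ _ => Iff.rfl⟩

theorem pc_bl_self {H : SimpleGraph V} {c : V → Bool} {X : Finset V} (h : Dg H X)
    (h7 : 7 ≤ X.card) : Bl H c X :=
  ⟨X, Finset.Subset.refl _, h, h7, fun x hx => ⟨x, hx, pc_tw_refl H c X x⟩⟩

/-- retraction of `X` onto `X'` -/
structure PcRet (H : SimpleGraph V) (c : V → Bool) (X X' : Finset V) (ρ : V → V) : Prop where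
  sub : X' ⊆ X
  map : ∀ a ∈ X, ρ a ∈ X'
  fix : ∀ a ∈ X', ρ a = a
  col : ∀ a ∈ X, c (ρ a) = c a
  adj : ∀ a ∈ X, ∀ b ∈ X, H.Adj (ρ a) (ρ b) ↔ H.Adj a b

theorem PcRet.coB {H : SimpleGraph V} {c : V → Bool} {X X' : Finset V} {ρ : V → V}
    (h : PcRet H c X X' ρ) : PcRet (St.coB H c) c X X' ρ where
  sub := h.sub
  map := h.map
  fix := h.fix
  col := h.col
  adj := by
    intro a ha b hb
    show (c (ρ a) ≠ c (ρ b) ∧ ¬ H.Adj (ρ a) (ρ b)) ↔ (c a ≠ c b ∧ ¬ H.Adj a b)
    rw [h.col a ha, h.col b hb, h.adj a ha b hb]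

/-- pull-back of a cut -/
theorem PcRet.cut {H : SimpleGraph V} {c : V → Bool} {X X' : Finset V} {ρ : V → V}
    (h : PcRet H c X X' ρ) {Y : Finset V} (h1 : Y ⊆ X') (h2 : Y.Nonempty)
    (h3 : (X' \ Y).Nonempty) : ∃ Y' ⊆ X, Y'.Nonempty ∧ (X \ Y').Nonempty ∧
      (∀ a ∈ Y', ρ a ∈ Y ∧ a ∈ X) ∧ ∀ b ∈ X \ Y', ρ b ∈ X' \ Y ∧ b ∈ X := by
  refine ⟨X.filter (fun a => ρ a ∈ Y), Finset.filter_subset _ _, ?_, ?_, ?_, ?_⟩
  · obtain ⟨y, hy⟩ := h2
    refine ⟨y, Finset.mem_filter.2 ⟨h.sub (h1 hy), ?_⟩⟩
    rw [h.fix y (h1 hy)]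
    exact hy
  · obtain ⟨z, hz⟩ := h3
    rw [Finset.mem_sdiff] at hz
    refine ⟨z, Finset.mem_sdiff.2 ⟨h.sub hz.1, fun hz' => hz.2 ?_⟩⟩
    have := (Finset.mem_filter.1 hz').2
    rwa [h.fix z hz.1] at this
  · intro a ha
    rw [Finset.mem_filter] at ha
    exact ⟨ha.2, ha.1⟩
  · intro b hb
    rw [Finset.mem_sdiff, Finset.mem_filter, not_and] at hb
    exact ⟨Finset.mem_sdiff.2 ⟨h.map b hb.1, hb.2 hb.1⟩, hb.1⟩

theorem PcRet.dis {H : SimpleGraph V} {c : V → Bool} {X X' : Finset V} {ρ : V → V}
    (h : PcRet H c X X' ρ) (hd : Dis H X') : Dis H X := by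
  obtain ⟨Y, h1, h2, h3, h4⟩ := hd
  obtain ⟨Y', g1, g2, g3, g4, g5⟩ := h.cut h1 h2 h3
  refine ⟨Y', g1, g2, g3, fun u hu v hv => ?_⟩
  rw [← h.adj u (g4 u hu).2 v (g5 v hv).2]
  exact h4 _ (g4 u hu).1 _ (g5 v hv).1

theorem PcRet.dec {H : SimpleGraph V} {c : V → Bool} {X X' : Finset V} {ρ : V → V}
    (h : PcRet H c X X' ρ) (hd : Dec H c X') : Dec H c X := by
  rcases hd with hd | hd | ⟨b, Y, h1, h2, h3, h4, h5⟩
  · exact Or.inl (h.dis hd)
  · exact Or.inr (Or.inl (h.coB.dis hd))
  · obtain ⟨Y', g1, g2, g3, g4, g5⟩ := h.cut h1 h2 h3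
    refine Or.inr (Or.inr ⟨b, Y', g1, g2, g3, fun u hu v hv e1 e2 => ?_,
      fun u hu v hv e1 e2 => ?_⟩)
    · rw [← h.adj u (g4 u hu).2 v (g5 v hv).2]
      exact h4 _ (g4 u hu).1 _ (g5 v hv).1 (by rw [h.col u (g4 u hu).2]; exact e1)
        (by rw [h.col v (g5 v hv).2]; exact e2)
    · rw [← h.adj u (g4 u hu).2 v (g5 v hv).2]
      exact h5 _ (g4 u hu).1 _ (g5 v hv).1 (by rw [h.col u (g4 u hu).2]; exact e1)
        (by rw [h.col v (g5 v hv).2]; exact e2)

theorem PcRet.bl {H : SimpleGraph V} {c : V → Bool} {X X' : Finset V} {ρ : V → V}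
    (h : PcRet H c X X' ρ) (hb : Bl H c X') : Bl H c X := by
  obtain ⟨P, h1, h2, h3, h4⟩ := hb
  refine ⟨P, h1.trans h.sub, h2, h3, fun x hx => ?_⟩
  obtain ⟨p, hp, ht⟩ := h4 (ρ x) (h.map x hx)
  refine ⟨p, hp, (h.col x hx).symm.trans ht.1, fun w hw hcw => ?_⟩
  rw [← h.adj x hx w hw]
  rw [ht.2 (ρ w) (h.map w hw) (by rw [h.col w hw, h.col x hx]; exact hcw)]
  have hpX : p ∈ X := h.sub (h1 hp)
  have := h.adj p hpX w hw
  rw [h.fix p (h1 hp)] at this
  exact this

/-- twins give a retraction -/
theorem pc_ret {H : SimpleGraph V} {c : V → Bool} (hb : Bip H c) {X : Finset V} {u u' : V}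
    (hu : u ∈ X) (huu : u ≠ u') (ht : Tw H c X u u') :
    PcRet H c X (X.erase u') (fun a => if a = u' then u else a) := by
  have key : ∀ b ∈ X, H.Adj u b ↔ H.Adj u' b := by
    intro b hbX
    by_cases hc : c b = c u
    · exact iff_of_false (fun h => hb u b h hc.symm) (fun h => hb u' b h (ht.1.symm.trans hc.symm))
    · exact ht.2 b hbX hc
  refine ⟨Finset.erase_subset _ _, ?_, ?_, ?_, ?_⟩
  · intro a ha
    split_ifs with h
    · exact Finset.mem_erase.2 ⟨huu, hu⟩
    · exact Finset.mem_erase.2 ⟨h, ha⟩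
  · intro a ha
    rw [if_neg (Finset.mem_erase.1 ha).1]
  · intro a _
    split_ifs with h
    · rw [h]; exact ht.1
    · rfl
  · intro a ha b hb'
    by_cases h1 : a = u' <;> by_cases h2 : b = u'
    · rw [if_pos h1, if_pos h2, h1, h2]
      exact iff_of_false (H.loopless.irrefl _) (H.loopless.irrefl _)
    · rw [if_pos h1, if_neg h2, h1]
      exact key b hb'
    · rw [if_neg h1, if_pos h2, h2, H.adj_comm a u, H.adj_comm a u']
      exact key a ha
    · rw [if_neg h1, if_neg h2]

/-- a window of seven consecutive vertices of a long path or cycle -/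
theorem pc_window {H : SimpleGraph V} {c : V → Bool} (hb : Bip H c) {P : Finset V}
    (h7 : 7 ≤ P.card) {q : ℕ → V} (hq : PRep H P P.card q ∨ CRep H P P.card q) {p : V}
    (hp : p ∈ P) : ∃ (r : ℕ → V) (k : ℕ), k < 7 ∧ r k = p ∧ (∀ j < 7, r j ∈ P) ∧
      ∀ i < 7, ∀ j < 7, (H.Adj (r i) (r j) ↔ (i + 1 = j ∨ j + 1 = i)) := by
  have himg : (range P.card).image q = P := by
    rcases hq with h | h
    · exact h.2.1
    · exact h.2.1
  obtain ⟨i, hi, rfl⟩ := Finset.mem_image.1 (himg.symm ▸ hp : p ∈ (range P.card).image q)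
  rw [Finset.mem_range] at hi
  have hmem : ∀ j < P.card, q j ∈ P := by
    intro j hj
    have h1 : q j ∈ (range P.card).image q := Finset.mem_image_of_mem _ (Finset.mem_range.2 hj)
    rwa [himg] at h1
  refine ⟨fun j => q (min i (P.card - 7) + j), i - min i (P.card - 7), by omega, ?_,
    fun j hj => hmem _ (by omega), ?_⟩
  · simp only
    congr 1
    omega
  · rcases hq with h | h
    · intro a ha b hb'
      simp only
      rw [h.2.2 _ (by omega) _ (by omega)]
      omega
    · have h8 : P.card ≠ 7 := by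
        intro he
        have hcol : ∀ j, j + 1 < 7 → c (q j) ≠ c (q (j + 1)) := by
          intro j hj
          apply hb
          rw [h.2.2 _ (by omega) _ (by omega)]
          omega
        have h0 : c (q 0) ≠ c (q 6) := by
          apply hb
          rw [h.2.2 _ (by omega) _ (by omega)]
          omega
        have e0 := hcol 0 (by omega)
        have e1 := hcol 1 (by omega)
        have e2 := hcol 2 (by omega)
        have e3 := hcol 3 (by omega)
        have e4 := hcol 4 (by omega)
        have e5 := hcol 5 (by omega)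
        simp only [Nat.reduceAdd, zero_add] at e0 e1 e2 e3 e4 e5
        have bb : ∀ a b d : Bool, a ≠ b → b ≠ d → a = d := by
          intro a b d
          cases a <;> cases b <;> cases d <;> simp
        have f1 := bb _ _ _ e0 e1
        have f2 := bb _ _ _ e2 e3
        have f3 := bb _ _ _ e4 e5
        exact h0 (f1.trans (f2.trans f3))
      intro a ha b hb'
      simp only
      rw [h.2.2 _ (by omega) _ (by omega)]
      omega

/-- the step (iii) -/
theorem pc_step (h5 : Stmt_STEP) (h6 : Stmt_Tw7) (h7 : Stmt_PR) {H : SimpleGraph V}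
    {c : V → Bool} (hb : Bip H c) (hS : SF H) {X : Finset V} (htf : TwF H c X)
    (hdec : ¬ Dec H c X) {v : V} (hv : v ∈ X) (hbl : Bl H c (X.erase v)) :
    (Dg H X ∨ Dg (coB H c) X) ∧ 7 ≤ X.card := by
  obtain ⟨P, hPX, hDg, hP7, hPt⟩ := hbl
  have hXe : (X.erase v).card ≤ X.card := Finset.card_le_card (Finset.erase_subset _ _)
  have hPe : P = X.erase v := by
    by_contra hne
    obtain ⟨x, hx, hxP⟩ := Finset.exists_of_ssubset (lt_of_le_of_ne hPX hne)
    obtain ⟨p, hp, htw⟩ := hPt x hx
    obtain ⟨q, hq⟩ := h7 V H P hDg (by omega)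
    obtain ⟨r, k, hk, hrk, hrP, hadj⟩ := pc_window hb hP7 hq hp
    have h8 := h6 V H c hb hS r hadj k hk x (by rw [hrk]; exact htw.1) ?_
    · have h9 : Tw H c X x p := by
        refine ⟨htw.1, fun w _ hcw => ?_⟩
        have := h8 w hcw
        rwa [hrk] at this
      have h10 := htf x (Finset.mem_of_mem_erase hx) p (Finset.mem_of_mem_erase (hPX hp)) h9
      exact hxP (h10 ▸ hp)
    · intro j hj
      rw [hrk]
      by_cases hcj : c (r j) = c x
      · exact iff_of_false (fun h => hb _ _ h hcj.symm)
          (fun h => hb _ _ h (htw.1.symm.trans hcj.symm))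
      · exact htw.2 (r j) (hPX (hrP j hj)) hcj
  rw [hPe] at hDg hP7
  exact ⟨h5 V H c hb hS X htf hdec v hv hDg hP7, by omega⟩

theorem pc (h1 : Stmt_coB) (h2 : Stmt_SK) (h3 : Stmt_END) (h4 : Stmt_SmallP) (h5 : Stmt_STEP)
    (h6 : Stmt_Tw7) (h7 : Stmt_PR) : Stmt_PC := by
  intro V H c hb hS
  obtain ⟨hb', hS', hDec', hTw', hcc⟩ := h1 V H c hb hS
  have main : ∀ n : ℕ, ∀ X : Finset V, X.card = n → 2 ≤ X.card → ¬ Dec H c X →
      Bl H c X ∨ Bl (coB H c) c X := by
    intro n
    induction n using Nat.strong_induction_on with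
    | _ n ih =>
      intro X hXn hX2 hdec
      by_cases htf : TwF H c X
      · -- twin-free
        have fin : ((Dg H X ∨ Dg (coB H c) X) ∧ 7 ≤ X.card) → Bl H c X ∨ Bl (coB H c) c X := by
          rintro ⟨h | h, h8⟩
          · exact Or.inl (pc_bl_self h h8)
          · exact Or.inr (pc_bl_self h h8)
        by_cases hall : ∀ v ∈ X, Dis H (X.erase v) ∨ Dis (coB H c) (X.erase v)
        · rcases h3 V H c hb hS X hX2 htf hdec hall with h | h
          · exact fin ⟨Or.inl h, h4 V H c hb X hX2 h hdec⟩
          · exact fin ⟨Or.inr h, h4 V (coB H c) c hb' X hX2 h (mt (hDec' X).1 hdec)⟩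
        · push Not at hall
          obtain ⟨v, hv, hd1, hd2⟩ := hall
          have hdec' : ¬ Dec H c (X.erase v) := by
            rintro (h | h | h)
            · exact hd1 h
            · exact hd2 h
            · exact hdec (h2 V H c hb hS X v hv hd1 hd2 h)
          have hcard := Finset.card_erase_of_mem hv
          have h2' : 2 ≤ (X.erase v).card := by
            by_contra hlt
            have hX2' : X.card = 2 := by omega
            obtain ⟨a, b, hab, rfl⟩ := Finset.card_eq_two.1 hX2'
            apply hdec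
            have hba : ({a, b} : Finset V) \ {a} = {b} := by
              ext z
              simp only [Finset.mem_sdiff, Finset.mem_insert, Finset.mem_singleton]
              constructor
              · rintro ⟨rfl | rfl, h⟩
                · exact absurd rfl h
                · rfl
              · rintro rfl
                exact ⟨Or.inr rfl, hab.symm⟩
            have hcut : ∀ K : SimpleGraph V, ¬ K.Adj a b → Dis K {a, b} := by
              intro K hK
              refine ⟨{a}, by simp, by simp, ?_, ?_⟩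
              · rw [hba]; simp
              · intro u hu w hw
                rw [hba] at hw
                rw [Finset.mem_singleton] at hu hw
                subst hu; subst hw
                exact hK
            by_cases hadj : H.Adj a b
            · exact Or.inr (Or.inl (hcut _ (fun h => h.2 hadj)))
            · exact Or.inl (hcut _ hadj)
          rcases ih (X.erase v).card (by omega) (X.erase v) rfl h2' hdec' with h | h
          · exact fin (pc_step h5 h6 h7 hb hS htf hdec hv h)
          · have htf' : TwF (coB H c) c X := fun u hu w hw ht => htf u hu w hw ((hTw' X u w).1 ht)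
            have h8 := pc_step h5 h6 h7 hb' hS' htf' (mt (hDec' X).1 hdec) hv h
            rw [hcc] at h8
            exact fin ⟨h8.1.symm, h8.2⟩
      · -- twins
        unfold TwF at htf
        push Not at htf
        obtain ⟨u, hu, u', hu', ht, huu⟩ := htf
        have hret := pc_ret hb hu huu ht
        have hcard := Finset.card_erase_of_mem hu'
        have hdec' : ¬ Dec H c (X.erase u') := fun h => hdec (hret.dec h)
        have h2' : 2 ≤ (X.erase u').card := by
          by_contra hlt
          have hX2' : X.card = 2 := by omega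
          have hXe : X = {u, u'} := by
            symm
            apply Finset.eq_of_subset_of_card_le
            · intro z hz
              rw [Finset.mem_insert, Finset.mem_singleton] at hz
              rcases hz with rfl | rfl
              · exact hu
              · exact hu'
            · rw [hX2', Finset.card_pair huu]
          apply hdec
          left
          refine ⟨{u}, by simpa using hu, by simp, ⟨u', ?_⟩, ?_⟩
          · rw [Finset.mem_sdiff, Finset.mem_singleton]
            exact ⟨hu', huu.symm⟩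
          · intro a ha w hw hadj
            rw [Finset.mem_singleton] at ha
            rw [Finset.mem_sdiff, Finset.mem_singleton, hXe, Finset.mem_insert,
              Finset.mem_singleton] at hw
            have hw' : w = u' := by
              rcases hw.1 with h | h
              · exact absurd h hw.2
              · exact h
            rw [ha, hw'] at hadj
            exact hb _ _ hadj ht.1
        rcases ih (X.erase u').card (by omega) (X.erase u') rfl h2' hdec' with h | h
        · exact Or.inl (hret.bl h)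
        · exact Or.inr (hret.coB.bl h)
  intro X hX2 hdec
  exact main X.card X rfl hX2 hdec

end Pool.Agent.H333R2.St
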