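import Pool.Agent.H333R2.St.Defs

namespace Pool.Agent.H333R2.St

open Finset Classical
open Pool.Agent.H175R2 (Cn cliqueWidth)

theorem pr_deg {V : Type} {H : SimpleGraph V} {X : Finset V}
    (hd : ∀ x ∈ X, (X.filter (fun y => H.Adj x y)).card ≤ 2) {x a b c : V} (hx : x ∈ X)
    (ha : a ∈ X) (hb : b ∈ X) (hc : c ∈ X) (hab : a ≠ b) (hac : a ≠ c) (hbc : b ≠ c)
    (h1 : H.Adj x a) (h2 : H.Adj x b) (h3 : H.Adj x c) : False := by
  have h4 : ({a, b, c} : Finset V) ⊆ X.filter (fun y => H.Adj x y) := by
    intro y hy
    rw [Finset.mem_insert, Finset.mem_insert, Finset.mem_singleton] at hy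
    rw [Finset.mem_filter]
    rcases hy with rfl | rfl | rfl
    · exact ⟨ha, h1⟩
    · exact ⟨hb, h2⟩
    · exact ⟨hc, h3⟩
  have h5 := (Finset.card_le_card h4).trans (hd x hx)
  rw [Finset.card_eq_three.2 ⟨a, b, c, hab, hac, hbc, rfl⟩] at h5
  omega

/-- `p 0, …, p (m-1)` is a path in `X` (not necessarily induced) -/
def PrSq {V : Type} (H : SimpleGraph V) (X : Finset V) (m : ℕ) (p : ℕ → V) : Prop :=
  (∀ i < m, ∀ j < m, p i = p j → i = j) ∧ (∀ i < m, p i ∈ X) ∧
    ∀ i, i + 1 < m → H.Adj (p i) (p (i + 1))

theorem pr_step {V : Type} {H : SimpleGraph V} {X : Finset V} (h : Dg H X) {m : ℕ} {p : ℕ → V}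
    (hp : PrSq H X m p) (hm : 1 ≤ m) (hX : m < X.card) : ∃ p', PrSq H X (m + 1) p' := by
  obtain ⟨hcn, hd⟩ := h
  obtain ⟨inj, mem, adj⟩ := hp
  have h1 : (range m).image p ⊆ X := by
    intro y hy
    obtain ⟨i, hi, rfl⟩ := Finset.mem_image.1 hy
    exact mem i (Finset.mem_range.1 hi)
  have h2 : ((range m).image p).Nonempty := ⟨p 0, Finset.mem_image_of_mem _ (Finset.mem_range.2 hm)⟩
  have h3 : (X \ (range m).image p).Nonempty := by
    rw [← Finset.card_pos, Finset.card_sdiff_of_subset h1]
    have := Finset.card_image_le (s := range m) (f := p)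
    rw [Finset.card_range] at this
    omega
  obtain ⟨x, hx, y, hy, hxy⟩ := hcn.2 _ h1 h2 h3
  obtain ⟨i, hi, rfl⟩ := Finset.mem_image.1 hx
  rw [Finset.mem_range] at hi
  rw [Finset.mem_sdiff] at hy
  have hyp : ∀ j < m, p j ≠ y := fun j hj h => hy.2 (h ▸ Finset.mem_image_of_mem _ (Finset.mem_range.2 hj))
  by_cases hi0 : i = 0
  · subst hi0
    refine ⟨fun k => if k = 0 then y else p (k - 1), ?_, ?_, ?_⟩
    · intro a ha b hb hab
      simp only at hab
      by_cases ha0 : a = 0 <;> by_cases hb0 : b = 0
      · omega
      · rw [if_pos ha0, if_neg hb0] at hab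
        exact absurd hab.symm (hyp _ (by omega))
      · rw [if_neg ha0, if_pos hb0] at hab
        exact absurd hab (hyp _ (by omega))
      · rw [if_neg ha0, if_neg hb0] at hab
        have := inj _ (by omega) _ (by omega) hab
        omega
    · intro a ha
      simp only
      by_cases ha0 : a = 0
      · rw [if_pos ha0]; exact hy.1
      · rw [if_neg ha0]; exact mem _ (by omega)
    · intro a ha
      simp only
      by_cases ha0 : a = 0
      · subst ha0
        simpa using hxy.symm
      · rw [if_neg ha0, if_neg (by omega)]
        have := adj (a - 1) (by omega)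
        rw [Nat.sub_add_cancel (by omega)] at this
        simpa using this
  · by_cases him : i + 1 = m
    · refine ⟨fun k => if k = m then y else p k, ?_, ?_, ?_⟩
      · intro a ha b hb hab
        simp only at hab
        by_cases ha0 : a = m <;> by_cases hb0 : b = m
        · omega
        · rw [if_pos ha0, if_neg hb0] at hab
          exact absurd hab.symm (hyp _ (by omega))
        · rw [if_neg ha0, if_pos hb0] at hab
          exact absurd hab (hyp _ (by omega))
        · rw [if_neg ha0, if_neg hb0] at hab
          exact inj _ (by omega) _ (by omega) hab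
      · intro a ha
        simp only
        by_cases ha0 : a = m
        · rw [if_pos ha0]; exact hy.1
        · rw [if_neg ha0]; exact mem _ (by omega)
      · intro a ha
        simp only
        rw [if_neg (by omega)]
        by_cases ha0 : a + 1 = m
        · rw [if_pos ha0]
          have : a = i := by omega
          rw [this]
          exact hxy
        · rw [if_neg ha0]
          exact adj a (by omega)
    · exfalso
      have h4 := adj i (by omega)
      have h5 := adj (i - 1) (by omega)
      rw [Nat.sub_add_cancel (by omega)] at h5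
      refine pr_deg hd (mem i hi) (mem (i - 1) (by omega)) (mem (i + 1) (by omega)) hy.1 ?_ ?_ ?_
        h5.symm h4 hxy
      · intro he
        have := inj _ (by omega) _ (by omega) he
        omega
      · exact hyp _ (by omega)
      · exact hyp _ (by omega)

theorem pr : Stmt_PR := by
  intro V H X h hX
  have hex : ∀ m, 1 ≤ m → m ≤ X.card → ∃ p, PrSq H X m p := by
    intro m hm
    induction m, hm using Nat.le_induction with
    | base =>
      intro _
      obtain ⟨x, hx⟩ := h.1.1
      refine ⟨fun _ => x, ?_, fun _ _ => hx, ?_⟩
      · intro i hi j hj _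
        omega
      · intro i hi
        omega
    | succ m hm ih =>
      intro hmX
      obtain ⟨p, hp⟩ := ih (by omega)
      exact pr_step h hp hm (by omega)
  obtain ⟨p, inj, mem, adj⟩ := hex X.card (by omega) le_rfl
  have hd := h.2
  have himg : (range X.card).image p = X := by
    apply Finset.eq_of_subset_of_card_le
    · intro y hy
      obtain ⟨i, hi, rfl⟩ := Finset.mem_image.1 hy
      exact mem i (Finset.mem_range.1 hi)
    · rw [Finset.card_image_of_injOn, Finset.card_range]
      intro i hi j hj hij
      exact inj i (Finset.mem_range.1 hi) j (Finset.mem_range.1 hj) hij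
  -- adjacencies
  have key : ∀ i j, i < j → j < X.card → H.Adj (p i) (p j) → i + 1 = j ∨ (i = 0 ∧ j + 1 = X.card) := by
    intro i j hij hj ha
    by_contra hcon
    rw [not_or, not_and] at hcon
    obtain ⟨h1, h2⟩ := hcon
    by_cases hi0 : i = 0
    · have h3 := h2 hi0
      have a1 := adj j (by omega)
      have a2 := adj (j - 1) (by omega)
      rw [Nat.sub_add_cancel (by omega)] at a2
      refine pr_deg hd (mem j hj) (mem (j - 1) (by omega)) (mem (j + 1) (by omega))
        (mem i (by omega)) ?_ ?_ ?_ a2.symm a1 ha.symm <;>
      · intro he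
        have := inj _ (by omega) _ (by omega) he
        omega
    · have a1 := adj i (by omega)
      have a2 := adj (i - 1) (by omega)
      rw [Nat.sub_add_cancel (by omega)] at a2
      refine pr_deg hd (mem i (by omega)) (mem (i - 1) (by omega)) (mem (i + 1) (by omega))
        (mem j hj) ?_ ?_ ?_ a2.symm a1 ha <;>
      · intro he
        have := inj _ (by omega) _ (by omega) he
        omega
  refine ⟨p, ?_⟩
  by_cases hc : H.Adj (p 0) (p (X.card - 1))
  · right
    refine ⟨inj, himg, fun i hi j hj => ?_⟩
    constructor
    · intro ha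
      rcases lt_trichotomy i j with hij | hij | hij
      · rcases key i j hij hj ha with h1 | h1 <;> omega
      · subst hij
        exact absurd ha (H.loopless.irrefl _)
      · rcases key j i hij hi ha.symm with h1 | h1 <;> omega
    · rintro (h1 | h1 | ⟨h1, h2⟩ | ⟨h1, h2⟩)
      · subst h1; exact adj i hj
      · subst h1; exact (adj j hi).symm
      · have : j = X.card - 1 := by omega
        rw [h1, this]; exact hc
      · have : i = X.card - 1 := by omega
        rw [h1, this]; exact hc.symm
  · left
    refine ⟨inj, himg, fun i hi j hj => ?_⟩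
    constructor
    · intro ha
      rcases lt_trichotomy i j with hij | hij | hij
      · rcases key i j hij hj ha with h1 | ⟨h1, h2⟩
        · omega
        · exfalso
          have : j = X.card - 1 := by omega
          rw [h1, this] at ha
          exact hc ha
      · subst hij
        exact absurd ha (H.loopless.irrefl _)
      · rcases key j i hij hi ha.symm with h1 | ⟨h1, h2⟩
        · omega
        · exfalso
          have : i = X.card - 1 := by omega
          rw [h1, this] at ha
          exact hc ha.symm
    · rintro (h1 | h1)
      · subst h1; exact adj i hj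
      · subst h1; exact (adj j hi).symm

end Pool.Agent.H333R2.St
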