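import Pool.Agent.H333R2.St.Defs

/-! Module Pn: determined pairs for long anchors. -/

namespace Pool.Agent.H333R2.St

open Finset Classical

theorem pn_md (a n : ℕ) (h : a < 2 * n) : a % n = if a < n then a else a - n := by
  split_ifs with h1
  · exact Nat.mod_eq_of_lt h1
  · rw [Nat.mod_eq_sub_mod (by omega), Nat.mod_eq_of_lt (by omega)]

/-- types and rotation -/
theorem pn_ty_rot {V : Type} (G : SimpleGraph V) (n : ℕ) (f : ℕ → V) (b : Bool) (a s : ℕ) (v : V)
    (ha : a < n) (h : Ty G n f b ((a + s) % n) v) :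
    Ty G n (fun i => f ((i + s) % n)) b a v := by
  intro j hj
  have hn : 0 < n := by omega
  have h1 := h ((j + s) % n) (Nat.mod_lt _ hn)
  try simp only
  rw [h1]
  have h2 : ((j + s) % n = ((a + s) % n + 1) % n) ↔ j = (a + 1) % n := by
    have e1 : ((a + s) % n + 1) % n = ((a + 1) % n + s) % n := by
      rw [Nat.mod_add_mod, Nat.mod_add_mod]
      congr 1
      omega
    rw [e1]
    constructor
    · intro h3
      have h4 : (j + s) ≡ ((a + 1) % n + s) [MOD n] := h3
      have h5 : j ≡ (a + 1) % n [MOD n] := Nat.ModEq.add_right_cancel' s h4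
      exact Nat.ModEq.eq_of_lt_of_lt h5 hj (Nat.mod_lt _ hn)
    · intro h3
      rw [h3]
  constructor
  · rintro ⟨h3, h4⟩
    exact ⟨h3, fun hb h5 => h4 hb (h2.2 h5)⟩
  · rintro ⟨h3, h4⟩
    exact ⟨h3, fun hb h5 => h4 hb (h2.1 h5)⟩

/-- the fact on a sub-anchor -/
theorem pn_sub (h2 : Stmt_A11) {V : Type} (G : SimpleGraph V) (hT : TF G) (hS : SF G) (n : ℕ)
    (f : ℕ → V) (hA : Anch G n f) (g : ℕ → ℕ) (hg : ∀ i j, i < j → j < 11 → g i < g j)
    (hgn : g 10 < n) (hg3 : ∀ i j, i < j → j < 11 → (g j - g i) % 3 = (j - i) % 3)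
    (b b' : Bool) (p p' : ℕ) (hp : p < 11) (hp' : p' < 11)
    (hq : ∀ j < 11, (g j = (g p + 1) % n ↔ j = (p + 1) % 11))
    (hq' : ∀ j < 11, (g j = (g p' + 1) % n ↔ j = (p' + 1) % 11))
    (hM : ¬ Mb 11 b b' ((p' + 11 - p) % 11)) (v w : V)
    (hv : Ty G n f b (g p) v) (hw : Ty G n f b' (g p') w) :
    (G.Adj v w ↔ ((p' + 11 - p) % 11) % 3 = 1) := by
  have hlt : ∀ j < 11, g j < n := by
    intro j hj
    rcases Nat.lt_or_ge j 10 with h | h
    · exact lt_trans (hg j 10 h (by omega)) hgn
    · have : j = 10 := by omega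
      rw [this]; exact hgn
  have hAn : Anch G 11 (fun i => f (g i)) := by
    intro i j hij hj
    try simp only
    rw [hA (g i) (g j) (hg i j hij hj) (hlt j hj), hg3 i j hij hj]
  refine (h2 V G hT hS (fun i => f (g i)) hAn).2.2 b b' p hp p' hp' hM v w ?_ ?_
  · intro j hj
    try simp only
    rw [hv (g j) (hlt j hj)]
    constructor
    · rintro ⟨h3, h4⟩
      exact ⟨h3, fun hb h5 => h4 hb ((hq j hj).2 h5)⟩
    · rintro ⟨h3, h4⟩
      exact ⟨h3, fun hb h5 => h4 hb ((hq j hj).1 h5)⟩
  · intro j hj
    try simp only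
    rw [hw (g j) (hlt j hj)]
    constructor
    · rintro ⟨h3, h4⟩
      exact ⟨h3, fun hb h5 => h4 hb ((hq' j hj).2 h5)⟩
    · rintro ⟨h3, h4⟩
      exact ⟨h3, fun hb h5 => h4 hb ((hq' j hj).1 h5)⟩

/-- two intervals -/
theorem pn_two (h2 : Stmt_A11) {V : Type} (G : SimpleGraph V) (hT : TF G) (hS : SF G) (n : ℕ)
    (f : ℕ → V) (hA : Anch G n f) (d L : ℕ) (hL : 4 ≤ L) (hL' : L ≤ 7) (hLd : L ≤ d)
    (hdn : d + (11 - L) ≤ n) (h3 : d % 3 = L % 3) (b b' : Bool) (v w : V)
    (hv : Ty G n f b 0 v) (hw : Ty G n f b' d w) : (G.Adj v w ↔ d % 3 = 1) := by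
  have key := pn_sub h2 G hT hS n f hA (fun i => if i < L then i else d + (i - L)) (by
    intro i j hij hj
    try simp only
    split_ifs <;> omega) (by
    try simp only
    split_ifs <;> omega) (by
    intro i j hij hj
    try simp only
    split_ifs <;> omega) b b' 0 L (by omega) (by omega) (by
    intro j hj
    try simp only
    rw [if_pos (by omega : 0 < L), Nat.mod_eq_of_lt (by omega : 0 + 1 < n)]
    split_ifs <;> omega) (by
    intro j hj
    try simp only
    rw [if_neg (by omega : ¬ L < L), Nat.mod_eq_of_lt (by omega : d + (L - L) + 1 < n)]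
    split_ifs <;> omega) (by
    unfold Mb
    rw [show (L + 11 - 0) % 11 = L by omega]
    omega) v w (by
    try simp only
    rw [if_pos (by omega : 0 < L)]
    exact hv) (by
    try simp only
    rw [if_neg (by omega : ¬ L < L), Nat.sub_self, Nat.add_zero]
    exact hw)
  rw [key]
  omega

theorem pn (h1 : Stmt_Rot) (h2 : Stmt_A11) : Stmt_Pn := by
  intro V G hT hS n f hn3 hn hA b b' m hm m' hm' hMb v w hv hw
  set d := (m' + n - m) % n with hd
  have hdn : d < n := Nat.mod_lt _ (by omega)
  have hdm : (m ≤ m' ∧ d = m' - m) ∨ (m' < m ∧ d = m' + n - m) := by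
    rw [hd, pn_md _ _ (by omega)]
    split_ifs <;> omega
  rcases Nat.lt_or_ge d 4 with hd4 | hd4
  · -- small difference
    set s := (m + n - 3) % n with hs
    have hsm : (3 ≤ m ∧ s = m - 3) ∨ (m < 3 ∧ s = m + n - 3) := by
      rw [hs, pn_md _ _ (by omega)]
      split_ifs <;> omega
    have hA' := h1 V G n f s hn3 hA
    have e1 : (3 + s) % n = m := by
      rw [pn_md _ _ (by omega)]
      split_ifs <;> omega
    have e2 : (3 + d + s) % n = m' := by
      rcases hsm with h | h <;> rcases hdm with h' | h'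
      · rw [pn_md _ _ (by omega)]
        split_ifs <;> omega
      · rw [pn_md _ _ (by omega)]
        split_ifs <;> omega
      · rcases Nat.lt_or_ge (3 + d + s) (2 * n) with h5 | h5
        · rw [pn_md _ _ h5]
          split_ifs <;> omega
        · omega
      · omega
    have hv' : Ty G n (fun i => f ((i + s) % n)) b 3 v :=
      pn_ty_rot G n f b 3 s v (by omega) (by rw [e1]; exact hv)
    have hw' : Ty G n (fun i => f ((i + s) % n)) b' (3 + d) w :=
      pn_ty_rot G n f b' (3 + d) s w (by omega) (by rw [e2]; exact hw)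
    have key := pn_sub h2 G hT hS n _ hA' (fun i => i) (fun i j hij _ => hij) (by
      try simp only
      omega) (fun i j _ _ => rfl) b b' 3 (3 + d) (by omega) (by omega) (by
      intro j hj
      try simp only
      rw [Nat.mod_eq_of_lt (by omega : 3 + 1 < n)]) (by
      intro j hj
      try simp only
      rw [Nat.mod_eq_of_lt (by omega : 3 + d + 1 < n)]
      omega) (by
      rw [show (3 + d + 11 - 3) % 11 = d by omega]
      intro h
      apply hMb
      unfold Mb at h ⊢
      rcases h with h | h | h | h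
      · left; exact ⟨h.1, h.2.1, by omega⟩
      · exfalso; omega
      · right; right; left; exact h
      · right; right; right; exact ⟨h.1, h.2.1, by omega⟩) v w hv' hw'
    rw [key]
    omega
  rcases Nat.lt_or_ge (d + 3) n with hd5 | hd5
  · -- middle
    have hA' := h1 V G n f m hn3 hA
    have hv' : Ty G n (fun i => f ((i + m) % n)) b 0 v :=
      pn_ty_rot G n f b 0 m v (by omega) (by rw [Nat.zero_add, Nat.mod_eq_of_lt hm]; exact hv)
    have hw' : Ty G n (fun i => f ((i + m) % n)) b' d w :=
      pn_ty_rot G n f b' d m w hdn (by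
        have : (d + m) % n = m' := by
          rw [pn_md _ _ (by omega)]
          split_ifs <;> omega
        rw [this]; exact hw)
    have h012 : d % 3 = 0 ∨ d % 3 = 1 ∨ d % 3 = 2 := by omega
    rcases h012 with h | h | h
    · exact pn_two h2 G hT hS n _ hA' d 6 (by omega) (by omega) (by omega) (by omega) (by omega)
        b b' v w hv' hw'
    · rcases Nat.lt_or_ge (d + 6) n with h6 | h6
      · exact pn_two h2 G hT hS n _ hA' d 4 (by omega) (by omega) (by omega) (by omega) (by omega)
          b b' v w hv' hw'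
      · exact pn_two h2 G hT hS n _ hA' d 7 (by omega) (by omega) (by omega) (by omega) (by omega)
          b b' v w hv' hw'
    · exact pn_two h2 G hT hS n _ hA' d 5 (by omega) (by omega) (by omega) (by omega) (by omega)
        b b' v w hv' hw'
  · -- large difference
    set s := (m' + n - 3) % n with hs
    have hsm : (3 ≤ m' ∧ s = m' - 3) ∨ (m' < 3 ∧ s = m' + n - 3) := by
      rw [hs, pn_md _ _ (by omega)]
      split_ifs <;> omega
    have hA' := h1 V G n f s hn3 hA
    set e := n - d with he
    have he1 : 1 ≤ e ∧ e ≤ 3 := by omega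
    have e1 : (3 + s) % n = m' := by
      rw [pn_md _ _ (by omega)]
      split_ifs <;> omega
    have e2 : (3 + e + s) % n = m := by
      rcases Nat.lt_or_ge (3 + e + s) (2 * n) with h5 | h5
      · rw [pn_md _ _ h5]
        split_ifs <;> omega
      · omega
    have hv' : Ty G n (fun i => f ((i + s) % n)) b (3 + e) v :=
      pn_ty_rot G n f b (3 + e) s v (by omega) (by rw [e2]; exact hv)
    have hw' : Ty G n (fun i => f ((i + s) % n)) b' 3 w :=
      pn_ty_rot G n f b' 3 s w (by omega) (by rw [e1]; exact hw)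
    have key := pn_sub h2 G hT hS n _ hA' (fun i => i) (fun i j hij _ => hij) (by
      try simp only
      omega) (fun i j _ _ => rfl) b b' (3 + e) 3 (by omega) (by omega) (by
      intro j hj
      try simp only
      rw [Nat.mod_eq_of_lt (by omega : 3 + e + 1 < n)]
      omega) (by
      intro j hj
      try simp only
      rw [Nat.mod_eq_of_lt (by omega : 3 + 1 < n)]) (by
      rw [show (3 + 11 - (3 + e)) % 11 = 11 - e by omega]
      intro h
      apply hMb
      unfold Mb at h ⊢
      rcases h with h | h | h | h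
      · left; exact ⟨h.1, h.2.1, by omega⟩
      · right; left; exact ⟨h.1, h.2.1, by omega⟩
      · exfalso; omega
      · right; right; right; exact ⟨h.1, h.2.1, by omega⟩) v w hv' hw'
    rw [key]
    omega

end Pool.Agent.H333R2.St
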