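import Pool.Agent.H333R2.St.Defs

/-! Reduction to connected twin-free graphs. -/

namespace Pool.Agent.H333R2.St

open Finset Classical
open Pool.Agent.H175R2 (Cn cliqueWidth)

theorem red_bt_mono {V : Type} {P Q : Finset V → Prop} {A : Finset V} (h : BT P A)
    (hPQ : ∀ B ⊆ A, P B → Q B) : BT Q A := by
  induction h with
  | leaf x => exact BT.leaf x
  | node hd hA hB h ihA ihB =>
    exact BT.node hd (ihA (fun C hC => hPQ C (hC.trans subset_union_left)))
      (ihB (fun C hC => hPQ C (hC.trans subset_union_right))) (hPQ _ (Subset.refl _) h)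

/-- traces do not see vertices without neighbours -/
theorem red_tr {V : Type} (G : SimpleGraph V) {R A C : Finset V} (hAR : A ⊆ R) (hCA : C ⊆ A)
    (h : ∀ x ∈ A, ∀ y ∈ R \ A, ¬ G.Adj x y) : tr G C (R \ C) = tr G C (A \ C) := by
  unfold tr
  congr 1
  apply Finset.image_congr
  intro x hx
  have hxC : x ∈ C := hx
  unfold trc
  ext y
  simp only [Finset.mem_filter, Finset.mem_sdiff]
  constructor
  · rintro ⟨⟨h1, h2⟩, h3⟩
    refine ⟨⟨?_, h2⟩, h3⟩
    by_contra h4
    exact h x (hCA hxC) y (Finset.mem_sdiff.2 ⟨h1, h4⟩) h3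
  · rintro ⟨⟨h1, h2⟩, h3⟩
    exact ⟨⟨hAR h1, h2⟩, h3⟩

theorem red_cn {V : Type} [Fintype V] (G : SimpleGraph V) (R : Finset V) (h : Cn G R) :
    Cn (G.induce (R : Set V)) univ := by
  obtain ⟨⟨r, hr⟩, h2⟩ := h
  refine ⟨⟨⟨r, hr⟩, Finset.mem_univ _⟩, ?_⟩
  intro T _ hT hT'
  obtain ⟨x, hx, y, hy, hxy⟩ := h2 (T.map (Function.Embedding.subtype _))
    (by
      intro x hx
      rw [Finset.mem_map] at hx
      obtain ⟨z, -, rfl⟩ := hx
      exact z.2)
    (by
      obtain ⟨z, hz⟩ := hT
      exact ⟨z.1, Finset.mem_map.2 ⟨z, hz, rfl⟩⟩)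
    (by
      obtain ⟨z, hz⟩ := hT'
      replace hz := (@Finset.mem_sdiff _ (fun a b => propDecidable (a = b)) _ _ _).1 hz
      refine ⟨z.1, Finset.mem_sdiff.2 ⟨z.2, ?_⟩⟩
      intro h3
      rw [Finset.mem_map] at h3
      obtain ⟨w, hw, hwz⟩ := h3
      have : w = z := Subtype.ext hwz
      exact hz.2 (this ▸ hw))
  rw [Finset.mem_map] at hx
  obtain ⟨x', hx', rfl⟩ := hx
  rw [Finset.mem_sdiff] at hy
  refine ⟨x', hx', ⟨y, hy.1⟩, ?_, hxy⟩
  refine (@Finset.mem_sdiff _ (fun a b => propDecidable (a = b)) _ _ _).2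
    ⟨Finset.mem_univ _, fun h3 => hy.2 ?_⟩
  exact Finset.mem_map.2 ⟨_, h3, rfl⟩

theorem red (h1 : Stmt_Induce) (h2 : Stmt_AddTwin) : Stmt_Red := by
  rintro ⟨K0, hK0⟩
  refine ⟨max K0 2, ?_⟩
  intro V _ _ G htf hsf
  have hK2 : 2 ≤ max K0 2 := le_max_right _ _
  have key : ∀ n : ℕ, ∀ R : Finset V, R.card = n → R.Nonempty → Bd G (max K0 2) R := by
    intro n
    induction n using Nat.strong_induction_on with
    | _ n ih =>
      intro R hRn hR
      by_cases hi : ∃ u ∈ R, ∃ u' ∈ R, u ≠ u' ∧ ∀ w ∈ R, (G.Adj u w ↔ G.Adj u' w)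
      · obtain ⟨u, hu, u', hu', hne, hw⟩ := hi
        have hnadj : ¬ G.Adj u u' := by
          intro h
          exact G.loopless.irrefl u' ((hw u' hu').1 h)
        have hue : u ∈ R.erase u' := Finset.mem_erase.2 ⟨hne, hu⟩
        have h3 := ih (R.erase u').card (by rw [← hRn]; exact Finset.card_erase_lt_of_mem hu')
          (R.erase u') rfl ⟨u, hue⟩
        have h4 := h2 V G (max K0 2) (R.erase u') u u' hue (Finset.notMem_erase _ _)
          (fun w hw' => hw w (Finset.mem_of_mem_erase hw')) hnadj hK2 h3
        rwa [Finset.insert_erase hu'] at h4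
      · by_cases hc : Cn G R
        · -- connected and twin-free
          have h3 : Bd (G.induce (R : Set V)) K0 univ := by
            refine hK0 _ (G.induce (R : Set V)) ?_ ?_ (red_cn G R hc) ?_
            · intro a b c hab hbc hac
              exact htf a.1 b.1 c.1 hab hbc hac
            · intro x a b1 b2 c1 c2 c3 h
              exact hsf x.1 a.1 b1.1 b2.1 c1.1 c2.1 c3.1 h
            · intro u v huv
              by_contra hcon
              push Not at hcon
              apply hi
              refine ⟨u.1, u.2, v.1, v.2, fun h => huv (Subtype.ext h), fun w hw => ?_⟩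
              exact hcon ⟨w, hw⟩
          exact red_bt_mono (h1 V G K0 R h3) (fun B _ hB => hB.trans (le_max_left _ _))
        · -- disconnected
          have h3 : ∃ T ⊆ R, T.Nonempty ∧ (R \ T).Nonempty ∧
              ∀ x ∈ T, ∀ y ∈ R \ T, ¬ G.Adj x y := by
            by_contra hcon
            apply hc
            refine ⟨hR, fun T hT hT1 hT2 => ?_⟩
            by_contra hcon2
            apply hcon
            refine ⟨T, hT, hT1, hT2, fun x hx y hy hxy => ?_⟩
            exact hcon2 ⟨x, hx, y, hy, hxy⟩
          obtain ⟨T, hT, hT1, hT2, hno⟩ := h3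
          have hcard := Finset.card_sdiff_add_card_eq_card hT
          have hp1 := hT1.card_pos
          have hp2 := hT2.card_pos
          have hA := ih T.card (by omega) T rfl hT1
          have hB := ih (R \ T).card (by omega) (R \ T) rfl hT2
          have hA' : BT (fun C => tr G C (R \ C) ≤ max K0 2) T := by
            refine red_bt_mono hA (fun C hC h => ?_)
            rw [red_tr G hT hC hno]
            exact h
          have hB' : BT (fun C => tr G C (R \ C) ≤ max K0 2) (R \ T) := by
            refine red_bt_mono hB (fun C hC h => ?_)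
            rw [red_tr G Finset.sdiff_subset hC (fun x hx y hy hxy => ?_)]
            · exact h
            · rw [Finset.sdiff_sdiff_eq_self hT] at hy
              exact hno y hy x hx hxy.symm
          have hU : T ∪ (R \ T) = R := Finset.union_sdiff_of_subset hT
          have hfin : BT (fun C => tr G C (R \ C) ≤ max K0 2) (T ∪ (R \ T)) := by
            refine BT.node Finset.disjoint_sdiff hA' hB' ?_
            rw [hU, Finset.sdiff_self]
            unfold tr
            have h5 : (R.image (trc G ∅)) ⊆ {∅} := by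
              intro x hx
              rw [Finset.mem_image] at hx
              obtain ⟨y, -, rfl⟩ := hx
              simp [trc]
            have h6 := Finset.card_le_card h5
            rw [Finset.card_singleton] at h6
            omega
          rw [hU] at hfin
          exact hfin
  exact key _ univ rfl Finset.univ_nonempty

end Pool.Agent.H333R2.St
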