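import Pool.Agent.H333R2.St.Defs

/-! Anchors: rotation, insertion, injectivity (task K1). -/

namespace Pool.Agent.H333R2.St

open Finset Classical

theorem rot : Stmt_Rot := by
  intro V G n f s hn hf i j hij hj
  have hn0 : 0 < n := by omega
  have ha : (i + s) % n < n := Nat.mod_lt _ hn0
  have e : (j + s) % n = ((i + s) % n + (j - i)) % n := by
    rw [Nat.mod_add_mod]
    congr 1
    omega
  show G.Adj (f ((i + s) % n)) (f ((j + s) % n)) ↔ (j - i) % 3 = 1
  rw [e]
  generalize (i + s) % n = a at ha
  by_cases h : a + (j - i) < n
  · rw [Nat.mod_eq_of_lt h, hf a (a + (j - i)) (by omega) h]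
    rw [show a + (j - i) - a = j - i by omega]
  · have h1 : (a + (j - i)) % n = a + (j - i) - n := by
      rw [Nat.mod_eq_sub_mod (by omega), Nat.mod_eq_of_lt (by omega)]
    rw [h1, G.adj_comm, hf (a + (j - i) - n) a (by omega) ha]
    omega

theorem ins (h : Stmt_Rot) : Stmt_Ins := by
  intro V G n f hT hn h5 hf hno m hm x y z hx hy hz ⟨hzx, hzy⟩
  apply hno
  have hF := h V G n f (m + 1) hn hf
  have hn0 : 0 < n := by omega
  -- the rotated anchor
  have e1 : (n - 1 + (m + 1)) % n = m := by
    rw [show n - 1 + (m + 1) = m + n by omega, Nat.add_mod_right, Nat.mod_eq_of_lt hm]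
  have e2 : (0 + (m + 1)) % n = (m + 1) % n := by rw [Nat.zero_add]
  have e3 : (n - 2 + (m + 1)) % n = (m + n - 1) % n := by
    rw [show n - 2 + (m + 1) = m + n - 1 by omega]
  have e4 : ((m + n - 1) % n + 1) % n = m := by
    rw [Nat.mod_add_mod, show m + n - 1 + 1 = m + n by omega, Nat.add_mod_right,
      Nat.mod_eq_of_lt hm]
  have hlt : ∀ i, (i + (m + 1)) % n < n := fun i => Nat.mod_lt _ hn0
  have e5 : ∀ i < n, ((i + (m + 1)) % n ≠ m ↔ i ≠ n - 1) := by
    intro i hi
    rw [not_iff_not]
    constructor
    · intro h'
      by_cases h1 : i + (m + 1) < n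
      · rw [Nat.mod_eq_of_lt h1] at h'; omega
      · rw [Nat.mod_eq_sub_mod (by omega)] at h'
        by_cases h2 : i + (m + 1) - n < n
        · rw [Nat.mod_eq_of_lt h2] at h'; omega
        · omega
    · rintro rfl
      exact e1
  obtain ⟨F, hFdef⟩ : ∃ F : ℕ → V, F = fun i => f ((i + (m + 1)) % n) := ⟨_, rfl⟩
  rw [← hFdef] at hF
  have hX : ∀ i < n, (G.Adj x (F i) ↔ G.Adj (F (n - 1)) (F i)) := by
    intro i _
    have := hx ((i + (m + 1)) % n) (hlt i)
    rw [hFdef]
    simp only [e1]
    rw [this]
    simp
  have hY : ∀ i < n, (G.Adj y (F i) ↔ G.Adj (F 0) (F i)) := by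
    intro i _
    have := hy ((i + (m + 1)) % n) (hlt i)
    rw [hFdef]
    simp only [e2]
    rw [this]
    simp
  have hZ : ∀ i < n, (G.Adj z (F i) ↔ G.Adj (F (n - 2)) (F i) ∧ i ≠ n - 1) := by
    intro i hi
    have := hz ((i + (m + 1)) % n) (hlt i)
    rw [e4, e5 i hi] at this
    rw [hFdef]
    simp only [e3]
    rw [this]
    simp
  clear hFdef
  have hyx : ¬ G.Adj y x := fun h' => hT y z x hzy.symm hzx h'
  refine ⟨fun i => if i < n then F i else if i = n then y else if i = n + 1 then z else x, ?_⟩
  intro i j hij hj
  by_cases hjn : j < n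
  · have hin : i < n := hij.trans hjn
    simp only [hjn, hin, if_true]
    exact hF i j hij hjn
  · have hj3 : j = n ∨ j = n + 1 ∨ j = n + 2 := by omega
    rcases hj3 with rfl | rfl | rfl
    · -- `y`
      have hin : i < j := hij
      simp only [hin, if_true, lt_irrefl, if_false]
      rw [G.adj_comm, hY i hin]
      by_cases hi0 : i = 0
      · subst hi0
        constructor
        · intro h'; exact absurd h' (G.irrefl)
        · intro h'; omega
      · rw [hF 0 i (by omega) hin]
        omega
    · -- `z`
      have hn1 : ¬ n + 1 < n := by omega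
      have hn2 : ¬ n + 1 = n := by omega
      simp only [hn1, hn2, if_false, if_true]
      by_cases hin : i < n
      · simp only [hin, if_true]
        rw [G.adj_comm, hZ i hin]
        by_cases hi1 : i = n - 1
        · subst hi1
          constructor
          · intro h'; exact absurd rfl h'.2
          · intro h'; omega
        · by_cases hi2 : i = n - 2
          · subst hi2
            constructor
            · intro h'; exact absurd h'.1 (G.irrefl)
            · intro h'; omega
          · rw [G.adj_comm, hF i (n - 2) (by omega) (by omega)]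
            omega
      · have hi : i = n := by omega
        subst hi
        simp only [lt_irrefl, if_false, if_true]
        constructor
        · intro _; omega
        · intro _; exact hzy.symm
    · -- `x`
      have hn1 : ¬ n + 2 < n := by omega
      have hn2 : ¬ n + 2 = n := by omega
      have hn3 : ¬ n + 2 = n + 1 := by omega
      simp only [hn1, hn2, hn3, if_false]
      by_cases hin : i < n
      · simp only [hin, if_true]
        rw [G.adj_comm, hX i hin]
        by_cases hi1 : i = n - 1
        · subst hi1
          constructor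
          · intro h'; exact absurd h' (G.irrefl)
          · intro h'; omega
        · rw [G.adj_comm, hF i (n - 1) (by omega) (by omega)]
          omega
      · have hi : i = n ∨ i = n + 1 := by omega
        rcases hi with rfl | rfl
        · simp only [lt_irrefl, if_false, if_true]
          constructor
          · intro h'; exact absurd h' hyx
          · intro h'; omega
        · have hn1 : ¬ n + 1 < n := by omega
          have hn2 : ¬ n + 1 = n := by omega
          simp only [hn1, hn2, if_false, if_true]
          constructor
          · intro _; omega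
          · intro _; exact hzx

theorem rot_inj {V : Type} (G : SimpleGraph V) (n : ℕ) (f : ℕ → V) (hn : n % 3 = 2) (h5 : 5 ≤ n)
    (hf : Anch G n f) (i j : ℕ) (hij : i < j) (hj : j < n) : f i ≠ f j := by
  intro he
  have h3 : (j - i) % 3 = 0 ∨ (j - i) % 3 = 1 ∨ (j - i) % 3 = 2 := by omega
  rcases h3 with h3 | h3 | h3
  · have h1 := (hf i (i + 1) (by omega) (by omega)).mpr (by omega)
    rw [he, G.adj_comm, hf (i + 1) j (by omega) hj] at h1
    omega
  · have h1 := (hf i j hij hj).mpr h3
    rw [he] at h1
    exact G.irrefl h1
  · by_cases hj1 : j + 1 < n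
    · have h1 := (hf j (j + 1) (by omega) hj1).mpr (by omega)
      rw [← he, hf i (j + 1) (by omega) hj1] at h1
      omega
    · by_cases hi0 : i = 0
      · omega
      · have h1 := (hf (i - 1) i (by omega) (by omega)).mpr (by omega)
        rw [he, hf (i - 1) j (by omega) hj] at h1
        omega

theorem anchCard : Stmt_AnchCard := by
  intro V _ G n f hn h5 hf
  have hinj : Function.Injective (fun i : Fin n => f i) := by
    intro a b hab
    by_contra hne
    rcases lt_or_gt_of_ne (fun h' => hne (Fin.ext h') : (a : ℕ) ≠ b) with h1 | h1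
    · exact rot_inj G n f hn h5 hf a b h1 b.2 hab
    · exact rot_inj G n f hn h5 hf b a h1 a.2 hab.symm
  simpa using Fintype.card_le_of_injective _ hinj

end Pool.Agent.H333R2.St
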