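import Pool.Agent.H333R2.St.Defs

/-! Module SK: skew cuts of `X \ v` extend to a decomposition of `X`. -/

namespace Pool.Agent.H333R2.St

open Finset Classical

namespace SKp

variable {V : Type}

/-- a skew cut with fixed colour -/
def Cut (H : SimpleGraph V) (c : V → Bool) (X : Finset V) (k : Bool) (Y : Finset V) : Prop :=
  Y ⊆ X ∧ Y.Nonempty ∧ (X \ Y).Nonempty ∧
    (∀ u ∈ Y, ∀ w ∈ X \ Y, c u = k → c w ≠ k → H.Adj u w) ∧
    (∀ u ∈ Y, ∀ w ∈ X \ Y, c u ≠ k → c w = k → ¬ H.Adj u w)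

theorem bne {a b k : Bool} (h1 : a ≠ k) (h2 : b ≠ k) : a = b := by
  cases a <;> cases b <;> cases k <;> simp_all

theorem same_not {H : SimpleGraph V} {c : V → Bool} (hB : Bip H c) {u w : V} (h : c u = c w) :
    ¬ H.Adj u w := fun hadj => hB u w hadj h

theorem cut_co {H : SimpleGraph V} {c : V → Bool} {X : Finset V} {k : Bool} {Y : Finset V}
    (h : Cut H c X k Y) : Cut (coB H c) c X k (X \ Y) := by
  obtain ⟨h1, h2, h3, h4, h5⟩ := h
  have hXX : X \ (X \ Y) = Y := Finset.sdiff_sdiff_eq_self h1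
  refine ⟨sdiff_subset, h3, by rw [hXX]; exact h2, ?_, ?_⟩
  · rw [hXX]
    intro u hu w hw hcu hcw
    exact ⟨fun e => hcw (e ▸ hcu), fun hadj => h5 w hw u hu hcw hcu hadj.symm⟩
  · rw [hXX]
    intro u hu w hw hcu hcw hadj
    exact hadj.2 (h4 w hw u hu hcw hcu).symm

theorem co_cut {H : SimpleGraph V} {c : V → Bool} {X : Finset V} {k : Bool} {Y : Finset V}
    (h : Cut (coB H c) c X k Y) : Cut H c X k (X \ Y) := by
  obtain ⟨h1, h2, h3, h4, h5⟩ := h
  have hXX : X \ (X \ Y) = Y := Finset.sdiff_sdiff_eq_self h1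
  refine ⟨sdiff_subset, h3, by rw [hXX]; exact h2, ?_, ?_⟩
  · rw [hXX]
    intro u hu w hw hcu hcw
    by_contra hadj
    exact h5 w hw u hu hcw hcu ⟨fun e => hcw (e.trans hcu), fun h' => hadj h'.symm⟩
  · rw [hXX]
    intro u hu w hw hcu hcw hadj
    exact (h4 w hw u hu hcw hcu).2 hadj.symm

/-- a vertex of the other colour of a minimal cut has a non-neighbour in the cut -/
theorem min_T {H : SimpleGraph V} {c : V → Bool} (hB : Bip H c) {X : Finset V} {k : Bool}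
    {Y1 : Finset V} (h1 : Cut H c X k Y1) (hmin : ∀ Y, Cut H c X k Y → Y ⊆ Y1 → Y = Y1)
    (hD : ¬ Dis H X) {a : V} (ha : a ∈ Y1) (hca : c a ≠ k) :
    ∃ s ∈ Y1, c s = k ∧ ¬ H.Adj s a := by
  by_contra hcon
  push Not at hcon
  obtain ⟨g1, g2, g3, g4, g5⟩ := h1
  by_cases hne : (Y1.erase a).Nonempty
  · have hcut : Cut H c X k (Y1.erase a) := by
      refine ⟨(erase_subset _ _).trans g1, hne, ⟨a, by simp [g1 ha]⟩, ?_, ?_⟩
      · intro u hu w hw hcu hcw
        have hu' := (mem_erase.1 hu).2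
        by_cases hwY : w ∈ Y1
        · have hwa : w = a := by
            by_contra hne'
            exact (mem_sdiff.1 hw).2 (mem_erase.2 ⟨hne', hwY⟩)
          subst hwa
          exact hcon u hu' hcu
        · exact g4 u hu' w (mem_sdiff.2 ⟨(mem_sdiff.1 hw).1, hwY⟩) hcu hcw
      · intro u hu w hw hcu hcw
        have hu' := (mem_erase.1 hu).2
        have hwY : w ∉ Y1 := by
          intro hwY
          have hwa : w = a := by
            by_contra hne'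
            exact (mem_sdiff.1 hw).2 (mem_erase.2 ⟨hne', hwY⟩)
          subst hwa
          exact hca hcw
        exact g5 u hu' w (mem_sdiff.2 ⟨(mem_sdiff.1 hw).1, hwY⟩) hcu hcw
    have := hmin _ hcut (erase_subset _ _)
    exact (notMem_erase a Y1) (by rw [this]; exact ha)
  · have hall : ∀ u ∈ Y1, u = a := by
      intro u hu
      by_contra hne'
      exact hne ⟨u, mem_erase.2 ⟨hne', hu⟩⟩
    apply hD
    refine ⟨Y1, g1, g2, g3, ?_⟩
    intro u hu w hw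
    have := hall u hu
    subst this
    by_cases hcw : c w = k
    · exact g5 u hu w hw hca hcw
    · exact same_not hB (bne hca hcw)

/-- a vertex of the first colour of a minimal cut has a neighbour in the cut -/
theorem min_S {H : SimpleGraph V} {c : V → Bool} {X : Finset V} {k : Bool}
    {Y1 : Finset V} (h1 : Cut H c X k Y1) (hmin : ∀ Y, Cut H c X k Y → Y ⊆ Y1 → Y = Y1)
    (hT : ∃ t ∈ Y1, c t ≠ k) {s : V} (hs : s ∈ Y1) (hcs : c s = k) :
    ∃ t ∈ Y1, c t ≠ k ∧ H.Adj s t := by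
  by_contra hcon
  push Not at hcon
  obtain ⟨g1, g2, g3, g4, g5⟩ := h1
  obtain ⟨t, ht, hct⟩ := hT
  have hcut : Cut H c X k (Y1.erase s) := by
    refine ⟨(erase_subset _ _).trans g1, ⟨t, mem_erase.2 ⟨fun e => hct (e ▸ hcs), ht⟩⟩,
      ⟨s, by simp [g1 hs]⟩, ?_, ?_⟩
    · intro u hu w hw hcu hcw
      have hu' := (mem_erase.1 hu).2
      have hwY : w ∉ Y1 := by
        intro hwY
        have hwa : w = s := by
          by_contra hne'
          exact (mem_sdiff.1 hw).2 (mem_erase.2 ⟨hne', hwY⟩)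
        subst hwa
        exact hcw hcs
      exact g4 u hu' w (mem_sdiff.2 ⟨(mem_sdiff.1 hw).1, hwY⟩) hcu hcw
    · intro u hu w hw hcu hcw
      have hu' := (mem_erase.1 hu).2
      by_cases hwY : w ∈ Y1
      · have hwa : w = s := by
          by_contra hne'
          exact (mem_sdiff.1 hw).2 (mem_erase.2 ⟨hne', hwY⟩)
        subst hwa
        exact fun hadj => hcon u hu' hcu hadj.symm
      · exact g5 u hu' w (mem_sdiff.2 ⟨(mem_sdiff.1 hw).1, hwY⟩) hcu hcw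
  have := hmin _ hcut (erase_subset _ _)
  exact (notMem_erase s Y1) (by rw [this]; exact hs)

/-- neighbours of `x` among the first colour of the cut -/
noncomputable def Nb (H : SimpleGraph V) (c : V → Bool) (k : Bool) (Y1 : Finset V) (x : V) :
    Finset V := Y1.filter (fun y => c y = k ∧ H.Adj x y)

theorem B0 {H : SimpleGraph V} {c : V → Bool} {X : Finset V} {k : Bool}
    {Y1 : Finset V} (h1 : Cut H c X k Y1) (hmin : ∀ Y, Cut H c X k Y → Y ⊆ Y1 → Y = Y1)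
    (P Z : Finset V) (hZ : Z.Nonempty)
    (hPZ : P ∪ Z = Y1.filter (fun y => c y ≠ k)) (hd : Disjoint P Z)
    (hcmp : ∀ p ∈ P, ∀ z ∈ Z, Nb H c k Y1 p ⊆ Nb H c k Y1 z ∨ Nb H c k Y1 z ⊆ Nb H c k Y1 p)
    (x : V) (hx : x ∈ P) (hxm : ∀ z ∈ Z, (Nb H c k Y1 x).card ≤ (Nb H c k Y1 z).card) :
    False := by
  obtain ⟨g1, g2, g3, g4, g5⟩ := h1
  have hPY : ∀ p ∈ P, p ∈ Y1 ∧ c p ≠ k := by
    intro p hp
    have : p ∈ Y1.filter (fun y => c y ≠ k) := hPZ ▸ mem_union_left _ hp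
    exact mem_filter.1 this
  have hZY : ∀ p ∈ Z, p ∈ Y1 ∧ c p ≠ k := by
    intro p hp
    have : p ∈ Y1.filter (fun y => c y ≠ k) := hPZ ▸ mem_union_right _ hp
    exact mem_filter.1 this
  set T' : Finset V := P.filter (fun x => ∀ z ∈ Z, Nb H c k Y1 x ⊆ Nb H c k Y1 z) with hT'
  have hxT : x ∈ T' := by
    rw [hT', mem_filter]
    refine ⟨hx, fun z hz => ?_⟩
    rcases hcmp x hx z hz with h | h
    · exact h
    · rw [Finset.eq_of_subset_of_card_le h (hxm z hz)]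
  set S' : Finset V := Y1.filter (fun s => c s = k ∧ ∃ t ∈ T', H.Adj s t) with hS'
  have hT'P : ∀ t ∈ T', t ∈ P := fun t ht => (mem_filter.1 (hT' ▸ ht)).1
  obtain ⟨z0, hz0⟩ := hZ
  have hz0Y' : z0 ∉ S' ∪ T' := by
    intro hmem
    rcases mem_union.1 hmem with h | h
    · exact (hZY z0 hz0).2 (mem_filter.1 (hS' ▸ h)).2.1
    · exact (disjoint_left.1 hd) (hT'P z0 h) hz0
  have hsub : S' ∪ T' ⊆ Y1 := by
    apply union_subset
    · rw [hS']; exact filter_subset _ _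
    · intro t ht; exact (hPY t (hT'P t ht)).1
  have hcut : Cut H c X k (S' ∪ T') := by
    refine ⟨hsub.trans g1, ⟨x, mem_union_right _ hxT⟩,
      ⟨z0, mem_sdiff.2 ⟨g1 (hZY z0 hz0).1, hz0Y'⟩⟩, ?_, ?_⟩
    · intro u hu w hw hcu hcw
      have huS : u ∈ S' := by
        rcases mem_union.1 hu with h | h
        · exact h
        · exact absurd hcu (hPY u (hT'P u h)).2
      obtain ⟨huY, -, t, ht, hut⟩ := mem_filter.1 (hS' ▸ huS)
      by_cases hwY : w ∈ Y1
      · have htN : u ∈ Nb H c k Y1 t := mem_filter.2 ⟨huY, hcu, hut.symm⟩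
        have htT := (mem_filter.1 (hT' ▸ ht)).2
        have hwPZ : w ∈ P ∪ Z := by rw [hPZ]; exact mem_filter.2 ⟨hwY, hcw⟩
        rcases mem_union.1 hwPZ with hwP | hwZ
        · have hwT : w ∉ T' := fun h => (mem_sdiff.1 hw).2 (mem_union_right _ h)
          have : ∃ z ∈ Z, ¬ Nb H c k Y1 w ⊆ Nb H c k Y1 z := by
            by_contra hcon
            push Not at hcon
            exact hwT (by rw [hT', mem_filter]; exact ⟨hwP, hcon⟩)
          obtain ⟨z, hz, hnz⟩ := this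
          have h1 : Nb H c k Y1 z ⊆ Nb H c k Y1 w := (hcmp w hwP z hz).resolve_left hnz
          exact (mem_filter.1 (h1 (htT z hz htN))).2.2.symm
        · exact (mem_filter.1 (htT w hwZ htN)).2.2.symm
      · exact g4 u huY w (mem_sdiff.2 ⟨(mem_sdiff.1 hw).1, hwY⟩) hcu hcw
    · intro u hu w hw hcu hcw
      have huT : u ∈ T' := by
        rcases mem_union.1 hu with h | h
        · exact absurd (mem_filter.1 (hS' ▸ h)).2.1 hcu
        · exact h
      by_cases hwY : w ∈ Y1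
      · intro hadj
        apply (mem_sdiff.1 hw).2
        apply mem_union_left
        rw [hS', mem_filter]
        exact ⟨hwY, hcw, u, huT, hadj.symm⟩
      · exact g5 u (hPY u (hT'P u huT)).1 w (mem_sdiff.2 ⟨(mem_sdiff.1 hw).1, hwY⟩) hcu hcw
  have heq := hmin _ hcut hsub
  exact hz0Y' (heq ▸ (hZY z0 hz0).1)

theorem AB {H : SimpleGraph V} {c : V → Bool} (hB : Bip H c) (hS : SF H) {X : Finset V} {v : V}
    {Y1 Y2 : Finset V} (h1 : Cut H c X (c v) Y1)
    (hmin : ∀ Y, Cut H c X (c v) Y → Y ⊆ Y1 → Y = Y1)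
    (h2 : Cut H c X (c v) Y2) (h12 : Y1 ⊆ Y2)
    {b xb : V} (hb : b ∈ X \ Y2) (hcb : c b ≠ c v) (hvb : ¬ H.Adj v b)
    (hxb : xb ∈ X \ Y2) (hcxb : c xb = c v) (hbx : H.Adj b xb)
    (hnb : ∃ a ∈ Y1, c a ≠ c v ∧ H.Adj v a) :
    ∀ a ∈ Y1, c a ≠ c v → H.Adj v a := by
  by_contra hcon
  push Not at hcon
  obtain ⟨z0, hz0, hcz0, hvz0⟩ := hcon
  obtain ⟨a0, ha0, hca0, hva0⟩ := hnb
  set P : Finset V := (Y1.filter (fun y => c y ≠ c v)).filter (fun y => H.Adj v y) with hP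
  set Z : Finset V := (Y1.filter (fun y => c y ≠ c v)).filter (fun y => ¬ H.Adj v y) with hZ
  have hPne : P.Nonempty := ⟨a0, by simp only [hP, mem_filter]; exact ⟨⟨ha0, hca0⟩, hva0⟩⟩
  have hZne : Z.Nonempty := ⟨z0, by simp only [hZ, mem_filter]; exact ⟨⟨hz0, hcz0⟩, hvz0⟩⟩
  have hPZ : P ∪ Z = Y1.filter (fun y => c y ≠ c v) := filter_union_filter_not_eq _ _
  have hd : Disjoint P Z := disjoint_filter_filter_not _ _ _
  have hcmp : ∀ p ∈ P, ∀ z ∈ Z, Nb H c (c v) Y1 p ⊆ Nb H c (c v) Y1 z ∨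
      Nb H c (c v) Y1 z ⊆ Nb H c (c v) Y1 p := by
    intro a ha a1 ha1
    rw [hP, mem_filter, mem_filter] at ha
    rw [hZ, mem_filter, mem_filter] at ha1
    obtain ⟨⟨haY, hca⟩, hva⟩ := ha
    obtain ⟨⟨ha1Y, hca1⟩, hva1⟩ := ha1
    by_contra hno
    push Not at hno
    obtain ⟨hn1, hn2⟩ := hno
    obtain ⟨x1, hx1, hx1'⟩ := not_subset.1 hn1
    obtain ⟨y1, hy1, hy1'⟩ := not_subset.1 hn2
    obtain ⟨hx1Y, hcx1, hax1⟩ := mem_filter.1 hx1
    obtain ⟨hy1Y, hcy1, ha1y1⟩ := mem_filter.1 hy1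
    have hx1a1 : ¬ H.Adj a1 x1 := fun h => hx1' (mem_filter.2 ⟨hx1Y, hcx1, h⟩)
    have hy1a : ¬ H.Adj a y1 := fun h => hy1' (mem_filter.2 ⟨hy1Y, hcy1, h⟩)
    obtain ⟨g1, g2, g3, g4, g5⟩ := h2
    refine hS b xb y1 a1 x1 a v ⟨⟨hbx, ?_, ?_, ha1y1.symm, hax1.symm, hva.symm⟩, ?_⟩
    · exact (g4 y1 (h12 hy1Y) b hb hcy1 hcb).symm
    · exact (g4 x1 (h12 hx1Y) b hb hcx1 hcb).symm
    · refine ⟨same_not hB (bne hcb hca1), same_not hB (bne hcb hca), fun h => hvb h.symm,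
        same_not hB (hcxb.trans hcy1.symm), ?_, same_not hB (hcxb.trans hcx1.symm), ?_,
        same_not hB hcxb, same_not hB (hcy1.trans hcx1.symm), fun h => hy1a h.symm,
        same_not hB hcy1, hx1a1, same_not hB (bne hca1 hca), fun h => hva1 h.symm,
        same_not hB hcx1⟩
      · exact fun h => g5 a1 (h12 ha1Y) xb hxb hca1 hcxb h.symm
      · exact fun h => g5 a (h12 haY) xb hxb hca hcxb h.symm
  obtain ⟨p, hp, hpm⟩ := exists_min_image P (fun x => (Nb H c (c v) Y1 x).card) hPne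
  obtain ⟨z, hz, hzm⟩ := exists_min_image Z (fun x => (Nb H c (c v) Y1 x).card) hZne
  rcases le_total ((Nb H c (c v) Y1 p).card) ((Nb H c (c v) Y1 z).card) with hle | hle
  · exact B0 h1 hmin P Z hZne hPZ hd hcmp p hp (fun z' hz' => hle.trans (hzm z' hz'))
  · exact B0 h1 hmin Z P hPne (by rw [union_comm]; exact hPZ) hd.symm
      (fun z' hz' p' hp' => (hcmp p' hp' z' hz').symm) z hz
      (fun p' hp' => hle.trans (hpm p' hp'))

end SKp

open SKp

/-- **Module SK.** -/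
theorem sk (h : Stmt_coB) : Stmt_SK := by
  intro V H c hB hS X0 v hv hD hD' hSk
  by_contra hDec
  obtain ⟨hBc, hSc, -, -, -⟩ := h V H c hB hS
  set X := X0.erase v with hX
  have hXX0 : X ⊆ X0 := erase_subset _ _
  have hvX : v ∉ X := notMem_erase _ _
  -- cuts extend
  have E1 : ∀ Y, Cut H c X (c v) Y → ∃ a ∈ Y, c a ≠ c v ∧ H.Adj v a := by
    intro Y hY
    by_contra hcon
    push Not at hcon
    obtain ⟨g1, g2, g3, g4, g5⟩ := hY
    apply hDec
    refine Or.inr (Or.inr ⟨c v, Y, g1.trans hXX0, g2, g3.mono (sdiff_subset_sdiff hXX0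
      (Subset.refl _)), ?_, ?_⟩)
    · intro u hu w hw hcu hcw
      have hwv : w ≠ v := fun e => hcw (e ▸ rfl)
      exact g4 u hu w (mem_sdiff.2 ⟨mem_erase.2 ⟨hwv, (mem_sdiff.1 hw).1⟩, (mem_sdiff.1 hw).2⟩)
        hcu hcw
    · intro u hu w hw hcu hcw
      by_cases hwv : w = v
      · subst hwv
        exact fun h => hcon u hu hcu h.symm
      · exact g5 u hu w (mem_sdiff.2 ⟨mem_erase.2 ⟨hwv, (mem_sdiff.1 hw).1⟩, (mem_sdiff.1 hw).2⟩)
          hcu hcw
  have E2 : ∀ Y, Cut H c X (c v) Y → ∃ b ∈ X \ Y, c b ≠ c v ∧ ¬ H.Adj v b := by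
    intro Y hY
    by_contra hcon
    push Not at hcon
    obtain ⟨g1, g2, g3, g4, g5⟩ := hY
    have hss : ∀ w, w ∈ X0 \ insert v Y → w ∈ X \ Y := by
      intro w hw
      rw [mem_sdiff, mem_insert, not_or] at hw
      exact mem_sdiff.2 ⟨mem_erase.2 ⟨hw.2.1, hw.1⟩, hw.2.2⟩
    apply hDec
    refine Or.inr (Or.inr ⟨c v, insert v Y, insert_subset hv (g1.trans hXX0), insert_nonempty _ _,
      ?_, ?_, ?_⟩)
    · obtain ⟨w, hw⟩ := g3
      refine ⟨w, mem_sdiff.2 ⟨hXX0 (mem_sdiff.1 hw).1, ?_⟩⟩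
      rw [mem_insert, not_or]
      exact ⟨fun e => hvX (e ▸ (mem_sdiff.1 hw).1), (mem_sdiff.1 hw).2⟩
    · intro u hu w hw hcu hcw
      rcases mem_insert.1 hu with rfl | hu
      · exact hcon w (hss w hw) hcw
      · exact g4 u hu w (hss w hw) hcu hcw
    · intro u hu w hw hcu hcw
      rcases mem_insert.1 hu with rfl | hu
      · exact absurd rfl hcu
      · exact g5 u hu w (hss w hw) hcu hcw
  -- normalised cut
  have hex : ∃ Y, Cut H c X (c v) Y := by
    obtain ⟨b, Y, g1, g2, g3, g4, g5⟩ := hSk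
    by_cases hb : b = c v
    · subst hb
      exact ⟨Y, g1, g2, g3, g4, g5⟩
    · have hXX : X \ (X \ Y) = Y := Finset.sdiff_sdiff_eq_self g1
      have hiff : ∀ u, c u = c v ↔ c u ≠ b := by
        intro u
        constructor
        · intro e e'
          exact hb (e'.symm.trans e)
        · intro e
          exact bne e (fun e' => hb e'.symm)
      refine ⟨X \ Y, sdiff_subset, g3, by rw [hXX]; exact g2, ?_, ?_⟩
      · rw [hXX]
        intro u hu w hw hcu hcw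
        have hcw' : c w = b := by
          by_contra hne
          exact hcw ((hiff w).2 hne)
        exact (g4 w hw u hu hcw' ((hiff u).1 hcu)).symm
      · rw [hXX]
        intro u hu w hw hcu hcw hadj
        have hcu' : c u = b := by
          by_contra hne
          exact hcu ((hiff u).2 hne)
        exact g5 w hw u hu ((hiff w).1 hcw) hcu' hadj.symm
  -- minimal and maximal cuts
  obtain ⟨Y1, hY1, hY1m⟩ := exists_min_image (X.powerset.filter (fun Y => Cut H c X (c v) Y))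
    Finset.card (by
      obtain ⟨Y, hY⟩ := hex
      exact ⟨Y, mem_filter.2 ⟨mem_powerset.2 hY.1, hY⟩⟩)
  have hC1 : Cut H c X (c v) Y1 := (mem_filter.1 hY1).2
  have hmin1 : ∀ Y, Cut H c X (c v) Y → Y ⊆ Y1 → Y = Y1 := by
    intro Y hY hsub
    exact Finset.eq_of_subset_of_card_le hsub (hY1m Y (mem_filter.2 ⟨mem_powerset.2 hY.1, hY⟩))
  obtain ⟨Y2, hY2, hY2m⟩ := exists_max_image
    (X.powerset.filter (fun Y => Cut H c X (c v) Y ∧ Y1 ⊆ Y)) Finset.card
    ⟨Y1, mem_filter.2 ⟨mem_powerset.2 hC1.1, hC1, Subset.refl _⟩⟩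
  have hC2 : Cut H c X (c v) Y2 := (mem_filter.1 hY2).2.1
  have h12 : Y1 ⊆ Y2 := (mem_filter.1 hY2).2.2
  have hmax2 : ∀ Y, Cut H c X (c v) Y → Y2 ⊆ Y → Y2 = Y := by
    intro Y hY hsub
    exact Finset.eq_of_subset_of_card_le hsub
      (hY2m Y (mem_filter.2 ⟨mem_powerset.2 hY.1, hY, h12.trans hsub⟩))
  -- dual
  have hC2c : Cut (coB H c) c X (c v) (X \ Y2) := cut_co hC2
  have hC1c : Cut (coB H c) c X (c v) (X \ Y1) := cut_co hC1
  have h21c : X \ Y2 ⊆ X \ Y1 := sdiff_subset_sdiff (Subset.refl _) h12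
  have hmin2c : ∀ Y, Cut (coB H c) c X (c v) Y → Y ⊆ X \ Y2 → Y = X \ Y2 := by
    intro Y hY hsub
    have hc := co_cut hY
    have hsub' : Y2 ⊆ X \ Y := by
      intro y hy
      exact mem_sdiff.2 ⟨hC2.1 hy, fun hyY => (mem_sdiff.1 (hsub hyY)).2 hy⟩
    rw [hmax2 _ hc hsub', Finset.sdiff_sdiff_eq_self hY.1]
  have hXX1 : X \ (X \ Y1) = Y1 := Finset.sdiff_sdiff_eq_self hC1.1
  -- v has a neighbour in T1, a non-neighbour in T2^c
  obtain ⟨a0, ha0, hca0, hva0⟩ := E1 Y1 hC1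
  obtain ⟨b0, hb0, hcb0, hvb0⟩ := E2 Y2 hC2
  -- a non-neighbour of a0 in S1, a neighbour of b0 in S2^c
  obtain ⟨s0, hs0, hcs0, has0⟩ := min_T hB hC1 hmin1 hD ha0 hca0
  obtain ⟨r0, hr0, hcr0, hbr0⟩ := min_T hBc hC2c hmin2c hD' hb0 hcb0
  have hb0r0 : H.Adj b0 r0 := by
    by_contra hno
    exact hbr0 ⟨fun e => hcb0 (e.symm.trans hcr0), fun h => hno h.symm⟩
  -- v complete to T1
  have hfull : ∀ a ∈ Y1, c a ≠ c v → H.Adj v a :=
    AB hB hS hC1 hmin1 hC2 h12 hb0 hcb0 hvb0 hr0 hcr0 hb0r0 ⟨a0, ha0, hca0, hva0⟩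
  -- v anticomplete to T2^c
  have hempty : ∀ b ∈ X \ Y2, c b ≠ c v → (coB H c).Adj v b := by
    refine AB hBc hSc hC2c hmin2c hC1c h21c (b := a0) (xb := s0) (by rw [hXX1]; exact ha0) hca0
      (fun h => h.2 hva0) (by rw [hXX1]; exact hs0) hcs0
      ⟨fun e => hca0 (e.trans hcs0), fun h => has0 h.symm⟩
      ⟨b0, hb0, hcb0, fun e => hcb0 e.symm, hvb0⟩
  -- step D
  obtain ⟨a, ha, hca, hs0a⟩ := min_S hC1 hmin1 ⟨a0, ha0, hca0⟩ hs0 hcs0
  obtain ⟨b', hb', hcb', hr0b'⟩ := min_S hC2c hmin2c ⟨b0, hb0, hcb0⟩ hr0 hcr0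
  -- step E
  obtain ⟨g1, g2, g3, g4, g5⟩ := hC2
  refine hS s0 b' b0 r0 a v a0 ⟨⟨?_, ?_, hs0a, hb0r0, (hfull a ha hca).symm, hva0⟩, ?_⟩
  · exact g4 s0 (h12 hs0) b' hb' hcs0 hcb'
  · exact g4 s0 (h12 hs0) b0 hb0 hcs0 hcb0
  · refine ⟨same_not hB (hcs0.trans hcr0.symm), same_not hB hcs0, has0,
      same_not hB (bne hcb' hcb0), fun h => hr0b'.2 h.symm, same_not hB (bne hcb' hca),
      fun h => (hempty b' hb' hcb').2 h.symm, same_not hB (bne hcb' hca0),
      same_not hB (bne hcb0 hca), fun h => (hempty b0 hb0 hcb0).2 h.symm,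
      same_not hB (bne hcb0 hca0), fun h => g5 a (h12 ha) r0 hr0 hca hcr0 h.symm,
      same_not hB hcr0, fun h => g5 a0 (h12 ha0) r0 hr0 hca0 hcr0 h.symm,
      same_not hB (bne hca hca0)⟩

end Pool.Agent.H333R2.St
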