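import Pool.Agent.H333R2.St.Defs

/-! Module L8 (STEP): one vertex more than a long path or cycle (helper503). -/

namespace Pool.Agent.H333R2.St

open Finset Classical
open Pool.Agent.H175R2 (Cn cliqueWidth)

namespace StepAux

variable {V : Type} {H : SimpleGraph V} {c : V → Bool}

lemma bool3 {a b d : Bool} (h1 : a ≠ b) (h2 : d ≠ b) : a = d := by
  cases a <;> cases b <;> cases d <;> simp_all

/-- alternating colours -/
lemma col (p : ℕ → V) (n : ℕ) (h : ∀ i, i + 1 < n → c (p i) ≠ c (p (i + 1))) :
    ∀ i < n, c (p i) = (c (p 0) ^^ decide (i % 2 = 1)) := by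
  intro i
  induction i with
  | zero => intro _; simp
  | succ i ih =>
    intro hi
    have h1 := h i hi
    have h2 := ih (by omega)
    have h3 : c (p (i + 1)) = ! c (p i) := by
      cases h4 : c (p i) <;> cases h5 : c (p (i + 1)) <;> simp_all
    rw [h3, h2]
    rcases Nat.mod_two_eq_zero_or_one i with h6 | h6
    · have : (i + 1) % 2 = 1 := by omega
      simp [h6, this]
    · have : (i + 1) % 2 = 0 := by omega
      simp [h6, this]

lemma col_eq (p : ℕ → V) (n : ℕ) (h : ∀ i, i + 1 < n → c (p i) ≠ c (p (i + 1))) (i j : ℕ)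
    (hi : i < n) (hj : j < n) : c (p i) = c (p j) ↔ i % 2 = j % 2 := by
  rw [col p n h i hi, col p n h j hj]
  rcases Nat.mod_two_eq_zero_or_one i with h6 | h6 <;>
    rcases Nat.mod_two_eq_zero_or_one j with h7 | h7 <;> cases c (p 0) <;> simp [h6, h7]

/-- the possible attachments of `v` to a window -/
lemma win (h2 : Stmt_Cls7) (h3 : Stmt_Tw7) (hb : Bip H c) (hs : SF H) {X : Finset V}
    (htw : TwF H c X) {v : V} (hv : v ∈ X) (p : ℕ → V)
    (hp : ∀ i < 7, ∀ j < 7, (H.Adj (p i) (p j) ↔ (i + 1 = j ∨ j + 1 = i)))
    (hX : ∀ i < 7, p i ∈ X.erase v) :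
    (c v = c (p 0) → ((∀ i < 7, i % 2 = 1 → ¬ H.Adj v (p i)) ∨
      (∀ i < 7, i % 2 = 1 → H.Adj v (p i)))) ∧
    (c v = c (p 1) →
      ((∀ i < 7, i % 2 = 0 → ¬ H.Adj v (p i)) ∨ (∀ i < 7, i % 2 = 0 → H.Adj v (p i)) ∨
       (∀ i < 7, i % 2 = 0 → (H.Adj v (p i) ↔ i = 0)) ∨ (∀ i < 7, i % 2 = 0 → (H.Adj v (p i) ↔ i = 6)) ∨
       (∀ i < 7, i % 2 = 0 → (H.Adj v (p i) ↔ (i = 0 ∨ i = 6))) ∨
       (∀ i < 7, i % 2 = 0 → (H.Adj v (p i) ↔ i ≠ 4)) ∨ (∀ i < 7, i % 2 = 0 → (H.Adj v (p i) ↔ i ≠ 2)))) := by
  have halt : ∀ i, i + 1 < 7 → c (p i) ≠ c (p (i + 1)) := fun i hi =>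
    hb _ _ ((hp i (by omega) (i + 1) hi).2 (Or.inl rfl))
  have htwin : ∀ k < 7, c v = c (p k) →
      (∀ i < 7, i % 2 ≠ k % 2 → (H.Adj v (p i) ↔ H.Adj (p k) (p i))) → False := by
    intro k hk hc hh
    have h := h3 V H c hb hs p hp k hk v hc (by
      intro i hi
      by_cases hik : i % 2 = k % 2
      · have hci : c (p i) = c (p k) := (col_eq p 7 halt i k hi hk).2 hik
        constructor
        · intro h'
          exact absurd (hc.trans hci.symm) (hb _ _ h')
        · intro h'
          exact absurd hci.symm (hb _ _ h')
      · exact hh i hi hik)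
    have hm := mem_erase.1 (hX k hk)
    exact hm.1 (htw v hv (p k) hm.2 ⟨hc, fun w _ hw => h w hw⟩).symm
  obtain ⟨c1, c2⟩ := h2 V H c hb hs p hp
  refine ⟨fun hc => ?_, fun hc => ?_⟩
  · rcases c2 v hc with h | h | ⟨k, hk, h⟩
    · exact Or.inl h
    · exact Or.inr h
    · exfalso
      have hk' : k < 7 ∧ k % 2 = 0 := by
        simp only [mem_insert, mem_singleton] at hk
        omega
      refine htwin k hk'.1 ?_ ?_
      · rw [hc]
        exact (col_eq p 7 halt 0 k (by omega) hk'.1).2 (by omega)
      · intro i hi hik
        exact h i hi (by omega)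
  · rcases c1 v hc with h | h | ⟨k, hk, h⟩ | h | h | h | h | h
    · exact Or.inl h
    · exact Or.inr (Or.inl h)
    · exfalso
      have hk' : k < 7 ∧ k % 2 = 1 := by
        simp only [mem_insert, mem_singleton] at hk
        omega
      refine htwin k hk'.1 ?_ ?_
      · rw [hc]
        exact (col_eq p 7 halt 1 k (by omega) hk'.1).2 (by omega)
      · intro i hi hik
        exact h i hi (by omega)
    · exact Or.inr (Or.inr (Or.inl h))
    · exact Or.inr (Or.inr (Or.inr (Or.inl h)))
    · exact Or.inr (Or.inr (Or.inr (Or.inr (Or.inl h))))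
    · exact Or.inr (Or.inr (Or.inr (Or.inr (Or.inr (Or.inl h)))))
    · exact Or.inr (Or.inr (Or.inr (Or.inr (Or.inr (Or.inr h)))))

/-- paths are connected -/
lemma cn_path {X' : Finset V} {n : ℕ} {p : ℕ → V} (hn : 0 < n) (hp : PRep H X' n p) :
    Cn H X' := by
  obtain ⟨hinj, himg, hadj⟩ := hp
  have hm : ∀ k < n, p k ∈ X' := by
    intro k hk
    rw [← himg]
    exact mem_image.2 ⟨k, mem_range.2 hk, rfl⟩
  have hex : ∀ x ∈ X', ∃ i < n, p i = x := by
    intro x hx
    rw [← himg] at hx
    obtain ⟨i, hi, rfl⟩ := mem_image.1 hx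
    exact ⟨i, mem_range.1 hi, rfl⟩
  refine ⟨⟨p 0, hm 0 hn⟩, ?_⟩
  intro T hT hTne hne
  by_contra hcon
  push Not at hcon
  have key : ∀ i, i < n → (p i ∈ T ↔ p 0 ∈ T) := by
    intro i
    induction i with
    | zero => intro _; rfl
    | succ i ih =>
      intro hi
      have h1 : H.Adj (p i) (p (i + 1)) := (hadj i (by omega) (i + 1) hi).2 (Or.inl rfl)
      rw [← ih (by omega)]
      constructor
      · intro h
        by_contra h'
        exact hcon (p (i + 1)) h (p i) (mem_sdiff.2 ⟨hm i (by omega), h'⟩) h1.symm
      · intro h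
        by_contra h'
        exact hcon (p i) h (p (i + 1)) (mem_sdiff.2 ⟨hm _ hi, h'⟩) h1
  obtain ⟨x, hx⟩ := hTne
  obtain ⟨y, hy⟩ := hne
  obtain ⟨i, hi, rfl⟩ := hex x (hT hx)
  obtain ⟨j, hj, rfl⟩ := hex y (mem_sdiff.1 hy).1
  exact (mem_sdiff.1 hy).2 ((key j hj).2 ((key i hi).1 hx))

/-- a path with a vertex attached to one or both ends -/
lemma ext_path {X' : Finset V} {n : ℕ} {p : ℕ → V} (hn : 2 ≤ n) (hp : PRep H X' n p) {v : V}
    (h1 : ∀ j < n, H.Adj v (p j) → j = 0 ∨ j + 1 = n) (h2 : ∃ j < n, H.Adj v (p j)) :
    Dg H (insert v X') := by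
  have hcn := cn_path (by omega) hp
  obtain ⟨hinj, himg, hadj⟩ := hp
  have hm : ∀ k < n, p k ∈ X' := by
    intro k hk
    rw [← himg]
    exact mem_image.2 ⟨k, mem_range.2 hk, rfl⟩
  have hex : ∀ x ∈ X', ∃ i < n, p i = x := by
    intro x hx
    rw [← himg] at hx
    obtain ⟨i, hi, rfl⟩ := mem_image.1 hx
    exact ⟨i, mem_range.1 hi, rfl⟩
  refine ⟨?_, ?_⟩
  · obtain ⟨j, hj, hvj⟩ := h2
    have h := (Pool.Agent.H175R2.Cn.singleton (G := H) v).union hcn
      (Or.inl ⟨v, mem_singleton_self v, p j, hm j hj, hvj⟩)
    rw [insert_eq]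
    exact h
  · intro x hx
    have two : ∀ a b : V, (∀ y ∈ insert v X', H.Adj x y → y = a ∨ y = b) →
        ((insert v X').filter (fun y => H.Adj x y)).card ≤ 2 := by
      intro a b hab
      refine (card_le_card (t := {a, b}) ?_).trans card_le_two
      intro y hy
      rw [mem_filter] at hy
      have := hab y hy.1 hy.2
      simpa using this
    rcases mem_insert.1 hx with rfl | hx'
    · refine two (p 0) (p (n - 1)) ?_
      intro y hy hxy
      rcases mem_insert.1 hy with rfl | hy'
      · exact absurd hxy (H.loopless.irrefl _)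
      · obtain ⟨j, hj, rfl⟩ := hex y hy'
        rcases h1 j hj hxy with rfl | h
        · left; rfl
        · right
          have : j = n - 1 := by omega
          rw [this]
    · obtain ⟨i, hi, rfl⟩ := hex x hx'
      by_cases hi0 : i = 0
      · subst hi0
        refine two (p 1) v ?_
        intro y hy hxy
        rcases mem_insert.1 hy with rfl | hy'
        · right; rfl
        · obtain ⟨j, hj, rfl⟩ := hex y hy'
          left
          have := (hadj 0 hi j hj).1 hxy
          have : j = 1 := by omega
          rw [this]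
      · by_cases hin : i + 1 = n
        · refine two (p (i - 1)) v ?_
          intro y hy hxy
          rcases mem_insert.1 hy with rfl | hy'
          · right; rfl
          · obtain ⟨j, hj, rfl⟩ := hex y hy'
            left
            have := (hadj i hi j hj).1 hxy
            have : j = i - 1 := by omega
            rw [this]
        · refine two (p (i - 1)) (p (i + 1)) ?_
          intro y hy hxy
          rcases mem_insert.1 hy with rfl | hy'
          · have := h1 i hi hxy.symm
            omega
          · obtain ⟨j, hj, rfl⟩ := hex y hy'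
            have h5 := (hadj i hi j hj).1 hxy
            rcases h5 with h5 | h5
            · right; rw [h5]
            · left
              have : j = i - 1 := by omega
              rw [this]

/-- enumeration of the bipartite complement of `P₇` -/
def sig (i : ℕ) : ℕ :=
  if i = 0 then 4 else if i = 1 then 1 else if i = 2 then 6 else if i = 3 then 3 else
    if i = 4 then 0 else if i = 5 then 5 else 2

lemma sig_lt (i : ℕ) : sig i < 7 := by
  unfold sig
  split_ifs <;> omega

lemma sig_inj : ∀ i < 7, ∀ j < 7, sig i = sig j → i = j := by decide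

lemma sig_img : (range 7).image sig = range 7 := by decide

lemma sig_adj : ∀ i < 7, ∀ j < 7, ((sig i % 2 ≠ sig j % 2 ∧
    ¬ (sig i + 1 = sig j ∨ sig j + 1 = sig i)) ↔ (i + 1 = j ∨ j + 1 = i)) := by decide

lemma coB_path {X' : Finset V} {p : ℕ → V} (hb : Bip H c) (hp : PRep H X' 7 p) :
    PRep (coB H c) X' 7 (fun i => p (sig i)) := by
  obtain ⟨hinj, himg, hadj⟩ := hp
  have halt : ∀ i, i + 1 < 7 → c (p i) ≠ c (p (i + 1)) := fun i hi =>
    hb _ _ ((hadj i (by omega) (i + 1) hi).2 (Or.inl rfl))
  refine ⟨?_, ?_, ?_⟩
  · intro i hi j hj h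
    exact sig_inj i hi j hj (hinj _ (sig_lt i) _ (sig_lt j) h)
  · have : (range 7).image (fun i => p (sig i)) = ((range 7).image sig).image p := by
      rw [image_image]
      rfl
    rw [this, sig_img, himg]
  · intro i hi j hj
    rw [← sig_adj i hi j hj, ← hadj _ (sig_lt i) _ (sig_lt j)]
    have h := col_eq p 7 halt (sig i) (sig j) (sig_lt i) (sig_lt j)
    show (c (p (sig i)) ≠ c (p (sig j)) ∧ _) ↔ _
    rw [ne_eq, h]

end StepAux

open StepAux in
/-- one vertex more than a long path or cycle -/
theorem step (h1 : Stmt_coB) (h2 : Stmt_Cls7) (h3 : Stmt_Tw7) (h4 : Stmt_PR) : Stmt_STEP := by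
  have _h1 := h1
  intro V H c hb hs X htw hdec v hv hdg hcard
  have hXe : insert v (X.erase v) = X := insert_erase hv
  obtain ⟨p, hp⟩ := h4 V H (X.erase v) hdg (by omega)
  set n := (X.erase v).card with hn
  have hne : (X \ {v}).Nonempty := by
    rw [sdiff_singleton_eq_erase, ← card_pos]
    omega
  have F1 : ∃ u ∈ X.erase v, H.Adj v u := by
    by_contra hcon
    push Not at hcon
    refine hdec (Or.inl ⟨{v}, by simpa using hv, singleton_nonempty v, hne, ?_⟩)
    intro u hu w hw
    rw [mem_singleton] at hu
    subst hu
    rw [sdiff_singleton_eq_erase] at hw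
    exact hcon w hw
  have F2 : ∃ u ∈ X.erase v, c v ≠ c u ∧ ¬ H.Adj v u := by
    by_contra hcon
    push Not at hcon
    refine hdec (Or.inr (Or.inl ⟨{v}, by simpa using hv, singleton_nonempty v, hne, ?_⟩))
    intro u hu w hw
    rw [mem_singleton] at hu
    subst hu
    rw [sdiff_singleton_eq_erase] at hw
    rintro ⟨h5, h6⟩
    exact h6 (hcon w hw h5)
  rcases hp with hp | hp
  · -- path
    have hp' := hp
    obtain ⟨hinj, himg, hadj⟩ := hp'
    have hm : ∀ k < n, p k ∈ X.erase v := by
      intro k hk
      rw [← himg]
      exact mem_image.2 ⟨k, mem_range.2 hk, rfl⟩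
    have hex : ∀ x ∈ X.erase v, ∃ i < n, p i = x := by
      intro x hx
      rw [← himg] at hx
      obtain ⟨i, hi, rfl⟩ := mem_image.1 hx
      exact ⟨i, mem_range.1 hi, rfl⟩
    have halt : ∀ i, i + 1 < n → c (p i) ≠ c (p (i + 1)) := fun i hi =>
      hb _ _ ((hadj i (by omega) (i + 1) hi).2 (Or.inl rfl))
    obtain ⟨a, han, hva⟩ : ∃ a < n, H.Adj v (p a) := by
      obtain ⟨u, hu, hvu⟩ := F1
      obtain ⟨a, ha, rfl⟩ := hex u hu
      exact ⟨a, ha, hvu⟩
    obtain ⟨b, hbn, hcb, hvb⟩ : ∃ b < n, c v ≠ c (p b) ∧ ¬ H.Adj v (p b) := by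
      obtain ⟨u, hu, hvu⟩ := F2
      obtain ⟨b, hb', rfl⟩ := hex u hu
      exact ⟨b, hb', hvu⟩
    have W := fun (i : ℕ) (hi : i + 6 < n) => win h2 h3 hb hs htw hv (fun k => p (i + k))
      (by
        intro k hk l hl
        rw [hadj (i + k) (by omega) (i + l) (by omega)]
        omega)
      (fun k hk => hm (i + k) (by omega))
    have par : ∀ i < n, ∀ j < n, (c v ≠ c (p i)) → (c v = c (p j) ↔ j % 2 ≠ i % 2) := by
      intro i hi j hj h
      have h5 := col_eq p n halt j i hj hi
      constructor
      · intro h6 h7
        exact h (h6.trans (h5.2 h7))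
      · intro h6
        have h7 : c (p j) ≠ c (p i) := fun h8 => h6 (h5.1 h8)
        exact bool3 h h7
    have hca : c v ≠ c (p a) := hb _ _ hva
    by_cases h8 : 8 ≤ n
    · left
      -- consecutive interior class indices
      have hcons : ∀ j, 1 ≤ j → j + 4 ≤ n → c v ≠ c (p j) →
          (H.Adj v (p j) ↔ H.Adj v (p (j + 2))) := by
        intro j hj1 hj4 hcj
        by_cases hj6 : j + 6 ≤ n
        · have hc0 : c v = c (p (j - 1 + 0)) := by
            rw [par j (by omega) _ (by omega) hcj]
            omega
          have hw := (W (j - 1) (by omega)).1 hc0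
          have e1 : j - 1 + 1 = j := by omega
          have e3 : j - 1 + 3 = j + 2 := by omega
          rcases hw with hw | hw
          · have w1 := hw 1 (by omega) (by omega)
            have w3 := hw 3 (by omega) (by omega)
            simp only [e1] at w1
            simp only [e3] at w3
            exact ⟨fun h => absurd h w1, fun h => absurd h w3⟩
          · have w1 := hw 1 (by omega) (by omega)
            have w3 := hw 3 (by omega) (by omega)
            simp only [e1] at w1
            simp only [e3] at w3
            exact ⟨fun _ => w3, fun _ => w1⟩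
        · have hc0 : c v = c (p (j - 3 + 0)) := by
            rw [par j (by omega) _ (by omega) hcj]
            omega
          have hw := (W (j - 3) (by omega)).1 hc0
          have e1 : j - 3 + 3 = j := by omega
          have e3 : j - 3 + 5 = j + 2 := by omega
          rcases hw with hw | hw
          · have w1 := hw 3 (by omega) (by omega)
            have w3 := hw 5 (by omega) (by omega)
            simp only [e1] at w1
            simp only [e3] at w3
            exact ⟨fun h => absurd h w1, fun h => absurd h w3⟩
          · have w1 := hw 3 (by omega) (by omega)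
            have w3 := hw 5 (by omega) (by omega)
            simp only [e1] at w1
            simp only [e3] at w3
            exact ⟨fun _ => w3, fun _ => w1⟩
      obtain ⟨e, he1, he2, hce⟩ : ∃ e, 1 ≤ e ∧ e ≤ 2 ∧ c v ≠ c (p e) := by
        rcases Nat.mod_two_eq_zero_or_one a with h5 | h5
        · refine ⟨2, by omega, le_rfl, fun h => ?_⟩
          have := (par a han 2 (by omega) hca).1 h
          omega
        · refine ⟨1, le_rfl, by omega, fun h => ?_⟩
          have := (par a han 1 (by omega) hca).1 h
          omega
      have hconst : ∀ k, e + 2 * k + 2 ≤ n → (H.Adj v (p (e + 2 * k)) ↔ H.Adj v (p e)) := by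
        intro k
        induction k with
        | zero => intro _; rfl
        | succ k ih =>
          intro hk
          have h5 := ih (by omega)
          have hcj : c v ≠ c (p (e + 2 * k)) := by
            intro h
            have := (par e (by omega) (e + 2 * k) (by omega) hce).1 h
            omega
          have h6 := hcons (e + 2 * k) (by omega) (by omega) hcj
          have e5 : e + 2 * (k + 1) = e + 2 * k + 2 := by ring
          rw [e5, ← h6, h5]
      have hint : ∀ j, 1 ≤ j → j + 2 ≤ n → c v ≠ c (p j) → (H.Adj v (p j) ↔ H.Adj v (p e)) := by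
        intro j hj1 hj2 hcj
        have hpar : j % 2 = e % 2 := by
          by_contra h
          exact hcj ((par e (by omega) j (by omega) hce).2 h)
        obtain ⟨k, rfl⟩ : ∃ k, j = e + 2 * k := ⟨(j - e) / 2, by omega⟩
        exact hconst k (by omega)
      by_cases hve : H.Adj v (p e)
      · exfalso
        have hbend : b = 0 ∨ b + 1 = n := by
          by_contra hcon
          exact hvb ((hint b (by omega) (by omega) hcb).2 hve)
        rcases hbend with rfl | hbend
        · have hc1 : c v = c (p (0 + 1)) := by
            rw [par 0 hbn _ (by omega) hcb]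
            omega
          have hA : ∀ i < 7, i % 2 = 0 → 1 ≤ i → H.Adj v (p (0 + i)) := by
            intro i hi hi2 hi1
            rw [Nat.zero_add]
            refine (hint i hi1 (by omega) ?_).2 hve
            intro h
            have := (par 0 hbn i (by omega) hcb).1 h
            omega
          have h2' := hA 2 (by omega) (by omega) (by omega)
          have h4' := hA 4 (by omega) (by omega) (by omega)
          have h6' := hA 6 (by omega) (by omega) (by omega)
          have h0' : ¬ H.Adj v (p (0 + 0)) := hvb
          rcases (W 0 (by omega)).2 hc1 with hw | hw | hw | hw | hw | hw | hw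
          · exact hw 2 (by omega) (by omega) h2'
          · exact h0' (hw 0 (by omega) (by omega))
          · exact absurd ((hw 2 (by omega) (by omega)).1 h2') (by omega)
          · exact absurd ((hw 2 (by omega) (by omega)).1 h2') (by omega)
          · exact absurd ((hw 2 (by omega) (by omega)).1 h2') (by omega)
          · exact h0' ((hw 0 (by omega) (by omega)).2 (by omega))
          · exact h0' ((hw 0 (by omega) (by omega)).2 (by omega))
        · have hc1 : c v = c (p (n - 7 + 1)) := by
            rw [par b hbn _ (by omega) hcb]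
            omega
          have hA : ∀ i < 6, i % 2 = 0 → H.Adj v (p (n - 7 + i)) := by
            intro i hi hi2
            refine (hint (n - 7 + i) (by omega) (by omega) ?_).2 hve
            intro h
            have := (par b hbn (n - 7 + i) (by omega) hcb).1 h
            omega
          have h0' := hA 0 (by omega) (by omega)
          have h2' := hA 2 (by omega) (by omega)
          have h4' := hA 4 (by omega) (by omega)
          have h6' : ¬ H.Adj v (p (n - 7 + 6)) := by
            have : n - 7 + 6 = b := by omega
            rw [this]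
            exact hvb
          rcases (W (n - 7) (by omega)).2 hc1 with hw | hw | hw | hw | hw | hw | hw
          · exact hw 2 (by omega) (by omega) h2'
          · exact h6' (hw 6 (by omega) (by omega))
          · exact absurd ((hw 2 (by omega) (by omega)).1 h2') (by omega)
          · exact absurd ((hw 2 (by omega) (by omega)).1 h2') (by omega)
          · exact absurd ((hw 2 (by omega) (by omega)).1 h2') (by omega)
          · exact h6' ((hw 6 (by omega) (by omega)).2 (by omega))
          · exact h6' ((hw 6 (by omega) (by omega)).2 (by omega))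
      · have := ext_path (by omega) hp (v := v) (by
          intro j hj hvj
          by_contra hcon
          exact hve ((hint j (by omega) (by omega) (hb _ _ hvj)).1 hvj)) ⟨a, han, hva⟩
        rw [hXe] at this
        exact this
    · have hn7 : n = 7 := by omega
      have hp7 : PRep H (X.erase v) 7 p := by rw [← hn7]; exact hp
      have hW := W 0 (by omega)
      simp only [Nat.zero_add] at hW
      by_cases hc0 : c v = c (p 0)
      · exfalso
        have hpa : a % 2 = 1 := by
          by_contra h
          exact hca (hc0.trans ((col_eq p n halt 0 a (by omega) han).2 (by omega)))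
        have hpb : b % 2 = 1 := by
          by_contra h
          exact hcb (hc0.trans ((col_eq p n halt 0 b (by omega) hbn).2 (by omega)))
        rcases hW.1 hc0 with hw | hw
        · exact hw a (by omega) hpa hva
        · exact hvb (hw b (by omega) hpb)
      · have hc1 : c v = c (p 1) := bool3 hc0 (halt 0 (by omega)).symm
        have hodd : ∀ j < 7, H.Adj v (p j) → j % 2 = 0 := by
          intro j hj hvj
          by_contra h
          exact hb _ _ hvj (hc1.trans ((col_eq p n halt 1 j (by omega) (by omega)).2 (by omega)))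
        have hcls : ∀ j < 7, c v ≠ c (p j) → j % 2 = 0 := by
          intro j hj hvj
          by_contra h
          exact hvj (hc1.trans ((col_eq p n halt 1 j (by omega) (by omega)).2 (by omega)))
        have hL : (∀ j < 7, H.Adj v (p j) → j = 0 ∨ j + 1 = 7) → Dg H X := by
          intro h
          have := ext_path (by omega) hp7 (v := v) h ⟨a, by omega, hva⟩
          rw [hXe] at this
          exact this
        have hR : ∀ k < 7, (k = 0 ∨ k + 1 = 7) →
            (∀ i < 7, i % 2 = 0 → (H.Adj v (p i) ↔ i ≠ sig k)) → sig k % 2 = 0 → Dg (coB H c) X := by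
          intro k hk hk' h hs2
          have := ext_path (by omega) (coB_path hb hp7) (v := v) (by
            intro j hj hvj
            obtain ⟨h5, h6⟩ := hvj
            have h7 := hcls (sig j) (sig_lt j) h5
            have h8 : sig j = sig k := by
              by_contra h9
              exact h6 ((h (sig j) (sig_lt j) h7).2 h9)
            rw [sig_inj j hj k hk h8]
            exact hk') ⟨k, hk, by
              refine ⟨?_, ?_⟩
              · intro h5
                have h6 := hc1.symm.trans h5
                have h7 := (col_eq p n halt 1 (sig k) (by omega) (by have := sig_lt k; omega)).1 h6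
                omega
              · intro h5
                exact ((h (sig k) (sig_lt k) hs2).1 h5) rfl⟩
          rw [hXe] at this
          exact this
        rcases hW.2 hc1 with hw | hw | hw | hw | hw | hw | hw
        · exact absurd hva (hw a (by omega) (hodd a (by omega) hva))
        · exact absurd (hw b (by omega) (hcls b (by omega) hcb)) hvb
        · left
          exact hL fun j hj hvj => Or.inl ((hw j hj (hodd j hj hvj)).1 hvj)
        · left
          exact hL fun j hj hvj => Or.inr (by
            have := (hw j hj (hodd j hj hvj)).1 hvj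
            omega)
        · left
          exact hL fun j hj hvj => by
            have := (hw j hj (hodd j hj hvj)).1 hvj
            omega
        · right
          exact hR 0 (by omega) (by omega) hw (by decide)
        · right
          exact hR 6 (by omega) (by omega) hw (by decide)
  · -- cycle
    exfalso
    obtain ⟨hinj, himg, hadj⟩ := hp
    have hm : ∀ k < n, p k ∈ X.erase v := by
      intro k hk
      rw [← himg]
      exact mem_image.2 ⟨k, mem_range.2 hk, rfl⟩
    have hex : ∀ x ∈ X.erase v, ∃ i < n, p i = x := by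
      intro x hx
      rw [← himg] at hx
      obtain ⟨i, hi, rfl⟩ := mem_image.1 hx
      exact ⟨i, mem_range.1 hi, rfl⟩
    have halt : ∀ i, i + 1 < n → c (p i) ≠ c (p (i + 1)) := fun i hi =>
      hb _ _ ((hadj i (by omega) (i + 1) hi).2 (Or.inl rfl))
    have heven : n % 2 = 0 := by
      have h5 : H.Adj (p 0) (p (n - 1)) := (hadj 0 (by omega) (n - 1) (by omega)).2 (by omega)
      have h6 := hb _ _ h5
      by_contra h7
      exact h6 ((col_eq p n halt 0 (n - 1) (by omega) (by omega)).2 (by omega))
    have hn8 : 8 ≤ n := by omega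
    have hn0 : 0 < n := by omega
    obtain ⟨a, han, hva⟩ : ∃ a < n, H.Adj v (p a) := by
      obtain ⟨u, hu, hvu⟩ := F1
      obtain ⟨a, ha, rfl⟩ := hex u hu
      exact ⟨a, ha, hvu⟩
    obtain ⟨b, hbn, hcb, hvb⟩ : ∃ b < n, c v ≠ c (p b) ∧ ¬ H.Adj v (p b) := by
      obtain ⟨u, hu, hvu⟩ := F2
      obtain ⟨b, hb', rfl⟩ := hex u hu
      exact ⟨b, hb', hvu⟩
    have hca : c v ≠ c (p a) := hb _ _ hva
    have hmod : ∀ i, i < n → ∀ k < 7, (i + k < n ∧ (i + k) % n = i + k) ∨
        (n ≤ i + k ∧ (i + k) % n = i + k - n) := by
      intro i hi k hk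
      rcases lt_or_ge (i + k) n with h | h
      · exact Or.inl ⟨h, Nat.mod_eq_of_lt h⟩
      · right
        refine ⟨h, ?_⟩
        rw [Nat.mod_eq_sub_mod h, Nat.mod_eq_of_lt (by omega)]
    have W := fun (i : ℕ) (hi : i < n) => win h2 h3 hb hs htw hv (fun k => p ((i + k) % n))
      (by
        intro k hk l hl
        rw [hadj _ (Nat.mod_lt _ hn0) _ (Nat.mod_lt _ hn0)]
        rcases hmod i hi k hk with ⟨q1, q2⟩ | ⟨q1, q2⟩ <;>
          rcases hmod i hi l hl with ⟨q3, q4⟩ | ⟨q3, q4⟩ <;> rw [q2, q4] <;> omega)
      (fun k hk => hm _ (Nat.mod_lt _ hn0))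
    have hpar2 : ∀ i, (i % n) % 2 = i % 2 := by
      intro i
      exact Nat.mod_mod_of_dvd i (Nat.dvd_of_mod_eq_zero heven)
    have colm : ∀ i j, (c (p (i % n)) = c (p (j % n)) ↔ i % 2 = j % 2) := by
      intro i j
      rw [col_eq p n halt _ _ (Nat.mod_lt _ hn0) (Nat.mod_lt _ hn0), hpar2, hpar2]
    -- one step
    have hstep : ∀ i, c v ≠ c (p ((i + 1) % n)) →
        (H.Adj v (p ((i + 1) % n)) ↔ H.Adj v (p ((i + 3) % n))) := by
      intro i hc
      have hc0 : c v = c (p ((i % n + 0) % n)) := by
        refine bool3 hc ?_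
        intro h
        have e : (i % n + 0) % n = i % n := by rw [Nat.add_zero, Nat.mod_mod]
        rw [e] at h
        have := (colm i (i + 1)).1 h
        omega
      have e1 : (i % n + 1) % n = (i + 1) % n := Nat.mod_add_mod i n 1
      have e3 : (i % n + 3) % n = (i + 3) % n := Nat.mod_add_mod i n 3
      rcases (W (i % n) (Nat.mod_lt _ hn0)).1 hc0 with hw | hw
      · have w1 := hw 1 (by omega) (by omega)
        have w3 := hw 3 (by omega) (by omega)
        simp only [e1] at w1
        simp only [e3] at w3
        exact ⟨fun h => absurd h w1, fun h => absurd h w3⟩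
      · have w1 := hw 1 (by omega) (by omega)
        have w3 := hw 3 (by omega) (by omega)
        simp only [e1] at w1
        simp only [e3] at w3
        exact ⟨fun _ => w3, fun _ => w1⟩
    have hall : ∀ k i, c v ≠ c (p ((i + 1) % n)) →
        (H.Adj v (p ((i + 1) % n)) ↔ H.Adj v (p ((i + 1 + 2 * k) % n))) := by
      intro k
      induction k with
      | zero => intro i _; rfl
      | succ k ih =>
        intro i hc
        rw [ih i hc]
        have hc2 : c v ≠ c (p ((i + 2 * k + 1) % n)) := by
          intro h
          apply hc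
          rw [h, colm]
          omega
        have h5 := hstep (i + 2 * k) hc2
        have e1 : i + 1 + 2 * k = i + 2 * k + 1 := by ring
        have e2 : i + 1 + 2 * (k + 1) = i + 2 * k + 3 := by ring
        rw [e1, e2]
        exact h5
    -- compare `a` and `b`
    have hab : a % 2 = b % 2 := by
      by_contra h
      have h5 : c (p a) ≠ c (p b) := fun h6 =>
        h ((col_eq p n halt a b han hbn).1 h6)
      exact hca (bool3 hcb h5)
    have ea : (a + n - 1 + 1) % n = a := by
      have : a + n - 1 + 1 = a + n := by omega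
      rw [this, Nat.add_mod_right, Nat.mod_eq_of_lt han]
    have hc5 : c v ≠ c (p ((a + n - 1 + 1) % n)) := by rw [ea]; exact hca
    -- `b + 2 n` is beyond
    obtain ⟨k, hk⟩ : ∃ k, a + n - 1 + 1 + 2 * k = b + 2 * n := ⟨(b + n - a) / 2, by omega⟩
    have h5 := hall k (a + n - 1) hc5
    rw [hk, ea] at h5
    have eb : (b + 2 * n) % n = b := by
      rw [Nat.add_mul_mod_self_right, Nat.mod_eq_of_lt hbn]
    rw [eb] at h5
    exact hvb (h5.1 hva)

end Pool.Agent.H333R2.St
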