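import Pool.Agent.H333R2.St.Defs

/-! Module L6: short paths and cycles are decomposable. -/

namespace Pool.Agent.H333R2.St

open Finset Classical
open Pool.Agent.H175R2 (Cn cliqueWidth)

theorem smallP_dis {V : Type} (H : SimpleGraph V) (c : V → Bool) (X : Finset V) (n : ℕ) (p : ℕ → V)
    (hinj : ∀ i < n, ∀ j < n, p i = p j → i = j) (himg : (range n).image p = X)
    (hpar : ∀ i < n, ∀ j < n, (i + j) % 2 = 0 → c (p i) = c (p j)) (S : Finset ℕ)
    (hS : S ⊆ range n) (hne : S.Nonempty) (hne' : (range n \ S).Nonempty)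
    (hadj : ∀ i ∈ S, ∀ j ∈ range n \ S, (i + j) % 2 = 0 ∨ H.Adj (p i) (p j)) :
    Dis (coB H c) X := by
  refine ⟨S.image p, ?_, hne.image p, ?_, ?_⟩
  · rw [← himg]
    exact Finset.image_subset_image hS
  · obtain ⟨j, hj⟩ := hne'
    rw [Finset.mem_sdiff] at hj
    refine ⟨p j, ?_⟩
    rw [Finset.mem_sdiff, ← himg]
    refine ⟨Finset.mem_image_of_mem p hj.1, ?_⟩
    intro h
    obtain ⟨i, hi, he⟩ := Finset.mem_image.mp h
    have := hinj i (Finset.mem_range.mp (hS hi)) j (Finset.mem_range.mp hj.1) he
    subst this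
    exact hj.2 hi
  · intro u hu v hv
    obtain ⟨i, hi, rfl⟩ := Finset.mem_image.mp hu
    rw [Finset.mem_sdiff, ← himg] at hv
    obtain ⟨j, hj, rfl⟩ := Finset.mem_image.mp hv.1
    have hjS : j ∉ S := fun h => hv.2 (Finset.mem_image_of_mem p h)
    rintro ⟨h1, h2⟩
    rcases hadj i hi j (Finset.mem_sdiff.mpr ⟨hj, hjS⟩) with h | h
    · exact h1 (hpar i (Finset.mem_range.mp (hS hi)) j (Finset.mem_range.mp hj) h)
    · exact h2 h

theorem smallP_par {V : Type} (c : V → Bool) (n : ℕ) (p : ℕ → V)
    (hstep : ∀ i, i + 1 < n → c (p i) ≠ c (p (i + 1))) :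
    ∀ i < n, ∀ j < n, (i + j) % 2 = 0 → c (p i) = c (p j) := by
  have h1 : ∀ i < n, c (p i) = (if i % 2 = 0 then c (p 0) else !c (p 0)) := by
    intro i
    induction i with
    | zero => intro _; simp
    | succ i ih =>
      intro hi
      have h2 := ih (by omega)
      have h3 := hstep i hi
      have h4 : c (p (i + 1)) = !c (p i) := by
        revert h3
        cases c (p i) <;> cases c (p (i + 1)) <;> simp
      rw [h4, h2]
      by_cases h5 : i % 2 = 0
      · have h6 : ¬ ((i + 1) % 2 = 0) := by omega
        rw [if_pos h5, if_neg h6]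
      · have h6 : (i + 1) % 2 = 0 := by omega
        rw [if_neg h5, if_pos h6, Bool.not_not]
  intro i hi j hj h
  rw [h1 i hi, h1 j hj]
  by_cases h5 : i % 2 = 0
  · have h6 : j % 2 = 0 := by omega
    rw [if_pos h5, if_pos h6]
  · have h6 : ¬ (j % 2 = 0) := by omega
    rw [if_neg h5, if_neg h6]

/-- short paths and cycles are decomposable -/
theorem smallP (h : Stmt_PR) : Stmt_SmallP := by
  intro V H c hc X hX hDg hDec
  by_contra hlt
  push Not at hlt
  apply hDec
  right; left
  by_cases h2 : X.card = 2
  · -- two vertices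
    obtain ⟨a, b, hab, rfl⟩ := Finset.card_eq_two.mp h2
    have hY : ({a, b} : Finset V) \ {a} = {b} := by
      ext x
      simp only [Finset.mem_sdiff, Finset.mem_insert, Finset.mem_singleton]
      constructor
      · rintro ⟨h1 | h1, h3⟩
        · exact absurd h1 h3
        · exact h1
      · rintro rfl
        exact ⟨Or.inr rfl, fun h => hab h.symm⟩
    refine ⟨{a}, by simp, Finset.singleton_nonempty a, ?_, ?_⟩
    · rw [hY]; exact Finset.singleton_nonempty b
    · rw [hY]
      intro u hu v hv
      rw [Finset.mem_singleton] at hu hv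
      subst hu
      subst hv
      rintro ⟨_, h4⟩
      obtain ⟨x, hx, y, hy, hxy⟩ := hDg.1.2 {u} (by simp) (Finset.singleton_nonempty u)
        (by rw [hY]; exact Finset.singleton_nonempty v)
      rw [hY] at hy
      rw [Finset.mem_singleton] at hx hy
      subst hx
      subst hy
      exact h4 hxy
  · have h3 : 3 ≤ X.card := by omega
    obtain ⟨p, hp⟩ := h V H X hDg h3
    generalize X.card = n at hp hlt h3
    rcases hp with ⟨hinj, himg, hadj⟩ | ⟨hinj, himg, hadj⟩
    · have hstep : ∀ i, i + 1 < n → c (p i) ≠ c (p (i + 1)) := fun i hi =>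
        hc _ _ ((hadj i (by omega) (i + 1) hi).mpr (Or.inl rfl))
      have hpar := smallP_par c n p hstep
      have hn : n = 3 ∨ n = 4 ∨ n = 5 ∨ n = 6 := by omega
      rcases hn with rfl | rfl | rfl | rfl
      · refine smallP_dis H c X 3 p hinj himg hpar {1} (by decide) (by decide) (by decide) ?_
        intro i hi j hj
        rw [hadj i (Finset.mem_range.mp ((show ({1} : Finset ℕ) ⊆ range 3 by decide) hi)) j
          (Finset.mem_range.mp (Finset.mem_sdiff.mp hj).1)]
        revert i j
        decide
      · refine smallP_dis H c X 4 p hinj himg hpar {1} (by decide) (by decide) (by decide) ?_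
        intro i hi j hj
        rw [hadj i (Finset.mem_range.mp ((show ({1} : Finset ℕ) ⊆ range 4 by decide) hi)) j
          (Finset.mem_range.mp (Finset.mem_sdiff.mp hj).1)]
        revert i j
        decide
      · refine smallP_dis H c X 5 p hinj himg hpar {2} (by decide) (by decide) (by decide) ?_
        intro i hi j hj
        rw [hadj i (Finset.mem_range.mp ((show ({2} : Finset ℕ) ⊆ range 5 by decide) hi)) j
          (Finset.mem_range.mp (Finset.mem_sdiff.mp hj).1)]
        revert i j
        decide
      · refine smallP_dis H c X 6 p hinj himg hpar {0, 2, 3, 5} (by decide) (by decide)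
          (by decide) ?_
        intro i hi j hj
        rw [hadj i (Finset.mem_range.mp ((show ({0, 2, 3, 5} : Finset ℕ) ⊆ range 6 by decide) hi)) j
          (Finset.mem_range.mp (Finset.mem_sdiff.mp hj).1)]
        revert i j
        decide
    · have hstep : ∀ i, i + 1 < n → c (p i) ≠ c (p (i + 1)) := fun i hi =>
        hc _ _ ((hadj i (by omega) (i + 1) hi).mpr (Or.inl rfl))
      have hpar := smallP_par c n p hstep
      have hn : n = 3 ∨ n = 4 ∨ n = 5 ∨ n = 6 := by omega
      rcases hn with rfl | rfl | rfl | rfl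
      · exfalso
        have h1 : H.Adj (p 0) (p 2) :=
          (hadj 0 (by omega) 2 (by omega)).mpr (Or.inr (Or.inr (Or.inl ⟨rfl, rfl⟩)))
        exact hc _ _ h1 (hpar 0 (by omega) 2 (by omega) rfl)
      · refine smallP_dis H c X 4 p hinj himg hpar {0} (by decide) (by decide) (by decide) ?_
        intro i hi j hj
        rw [hadj i (Finset.mem_range.mp ((show ({0} : Finset ℕ) ⊆ range 4 by decide) hi)) j
          (Finset.mem_range.mp (Finset.mem_sdiff.mp hj).1)]
        revert i j
        decide
      · exfalso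
        have h1 : H.Adj (p 0) (p 4) :=
          (hadj 0 (by omega) 4 (by omega)).mpr (Or.inr (Or.inr (Or.inl ⟨rfl, rfl⟩)))
        exact hc _ _ h1 (hpar 0 (by omega) 4 (by omega) rfl)
      · refine smallP_dis H c X 6 p hinj himg hpar {0, 3} (by decide) (by decide)
          (by decide) ?_
        intro i hi j hj
        rw [hadj i (Finset.mem_range.mp ((show ({0, 3} : Finset ℕ) ⊆ range 6 by decide) hi)) j
          (Finset.mem_range.mp (Finset.mem_sdiff.mp hj).1)]
        revert i j
        decide

end Pool.Agent.H333R2.St
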