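import Pool.Agent.H333R2.St.Defs

/-! Task A2 (helper509): trees of induced graphs, insertion of twins. -/

namespace Pool.Agent.H333R2.St

open Finset Classical

/-- image of a tree -/
theorem t2_map {V W : Type} (f : W ↪ V) {P : Finset W → Prop} {P' : Finset V → Prop}
    (h : ∀ A, P A → P' (A.map f)) {A : Finset W} (hA : BT P A) : BT P' (A.map f) := by
  induction hA with
  | leaf x =>
    rw [Finset.map_singleton]
    exact BT.leaf _
  | @node A B hd hA hB hP ihA ihB =>
    have h1 := h _ hP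
    rw [Finset.map_union] at h1 ⊢
    exact BT.node ((Finset.disjoint_map f).2 hd) ihA ihB h1

theorem t2_trc {V W : Type} (f : W ↪ V) (G : SimpleGraph V) (H : SimpleGraph W)
    (hGH : ∀ a b, H.Adj a b ↔ G.Adj (f a) (f b)) (Z : Finset W) (x : W) :
    trc G (Z.map f) (f x) = (trc H Z x).map f := by
  unfold trc
  ext y
  rw [Finset.mem_filter, Finset.mem_map, Finset.mem_map]
  constructor
  · rintro ⟨⟨a, ha, rfl⟩, h⟩
    exact ⟨a, Finset.mem_filter.2 ⟨ha, (hGH x a).2 h⟩, rfl⟩
  · rintro ⟨a, ha, rfl⟩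
    rw [Finset.mem_filter] at ha
    exact ⟨⟨a, ha.1, rfl⟩, (hGH x a).1 ha.2⟩

theorem t2_tr {V W : Type} (f : W ↪ V) (G : SimpleGraph V) (H : SimpleGraph W)
    (hGH : ∀ a b, H.Adj a b ↔ G.Adj (f a) (f b)) (A Z : Finset W) :
    tr G (A.map f) (Z.map f) ≤ tr H A Z := by
  unfold tr
  have h : (A.map f).image (trc G (Z.map f)) = (A.image (trc H Z)).image (fun T => T.map f) := by
    ext S
    rw [Finset.mem_image, Finset.mem_image]
    constructor
    · rintro ⟨y, hy, rfl⟩
      obtain ⟨x, hx, rfl⟩ := Finset.mem_map.1 hy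
      exact ⟨_, Finset.mem_image_of_mem _ hx, (t2_trc f G H hGH Z x).symm⟩
    · rintro ⟨T, hT, rfl⟩
      obtain ⟨x, hx, rfl⟩ := Finset.mem_image.1 hT
      exact ⟨f x, Finset.mem_map_of_mem f hx, t2_trc f G H hGH Z x⟩
  rw [h]
  exact Finset.card_image_le

theorem t2_induce {V W : Type} [Fintype W] (f : W ↪ V) (G : SimpleGraph V) (H : SimpleGraph W)
    (hGH : ∀ a b, H.Adj a b ↔ G.Adj (f a) (f b)) (K : ℕ) (h : Bd H K univ) :
    Bd G K (univ.map f) := by
  unfold Bd at h ⊢
  refine t2_map f ?_ h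
  intro A hA
  rw [← Finset.map_sdiff]
  exact (t2_tr f G H hGH A (univ \ A)).trans hA

theorem induce : Stmt_Induce := by
  intro V _ G K R h
  have h1 := t2_induce (Function.Embedding.subtype (fun x => x ∈ (R : Set V))) G
    (G.induce (R : Set V)) (fun a b => Iff.rfl) K h
  have h2 : univ.map (Function.Embedding.subtype (fun x => x ∈ (R : Set V))) = R := by
    ext x
    rw [Finset.mem_map]
    constructor
    · rintro ⟨a, -, rfl⟩
      exact Finset.mem_coe.1 a.2
    · intro hx
      exact ⟨⟨x, Finset.mem_coe.2 hx⟩, Finset.mem_univ _, rfl⟩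
  rw [h2] at h1
  exact h1

/-- the case where the node set contains `u` -/
theorem t2_in {V : Type} (G : SimpleGraph V) (K : ℕ) (R C : Finset V) (u u' : V)
    (hu' : u' ∉ R) (hw : ∀ w ∈ R, G.Adj u w ↔ G.Adj u' w) (hC : C ⊆ R) (huC : u ∈ C)
    (h : tr G C (R \ C) ≤ K) : tr G (insert u' C) (insert u' R \ insert u' C) ≤ K := by
  have e1 : insert u' R \ insert u' C = R \ C := by
    ext x
    rw [Finset.mem_sdiff, Finset.mem_sdiff, Finset.mem_insert, Finset.mem_insert]
    constructor
    · rintro ⟨h1 | h1, h2⟩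
      · exact absurd (Or.inl h1) h2
      · exact ⟨h1, fun h3 => h2 (Or.inr h3)⟩
    · rintro ⟨h1, h2⟩
      refine ⟨Or.inr h1, ?_⟩
      rintro (h3 | h3)
      · rw [h3] at h1
        exact hu' h1
      · exact h2 h3
  have e2 : trc G (R \ C) u' = trc G (R \ C) u := by
    unfold trc
    refine Finset.filter_congr (fun y hy => ?_)
    exact (hw y (Finset.mem_sdiff.1 hy).1).symm
  unfold tr at h ⊢
  rw [e1, Finset.image_insert, e2, Finset.insert_eq_of_mem (Finset.mem_image_of_mem _ huC)]
  exact h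

/-- the case where the node set does not contain `u` -/
theorem t2_out {V : Type} (G : SimpleGraph V) (K : ℕ) (R C : Finset V) (u u' : V) (hu : u ∈ R)
    (hu' : u' ∉ R) (hw : ∀ w ∈ R, G.Adj u w ↔ G.Adj u' w) (hC : C ⊆ R) (huC : u ∉ C)
    (h : tr G C (R \ C) ≤ K) : tr G C (insert u' R \ C) ≤ K := by
  unfold tr at h ⊢
  have e1 : C.image (trc G (insert u' R \ C)) =
      (C.image (trc G (R \ C))).image (fun T => if u ∈ T then insert u' T else T) := by
    rw [Finset.image_image]
    refine Finset.image_congr ?_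
    intro x hx
    have hxC : x ∈ C := Finset.mem_coe.1 hx
    have hxR := hC hxC
    have huu : G.Adj x u' ↔ G.Adj x u := by
      rw [G.adj_comm x u', G.adj_comm x u]
      exact (hw x hxR).symm
    have hmem : u ∈ trc G (R \ C) x ↔ G.Adj x u := by
      unfold trc
      rw [Finset.mem_filter, Finset.mem_sdiff]
      exact ⟨fun h => h.2, fun h => ⟨⟨hu, huC⟩, h⟩⟩
    show trc G (insert u' R \ C) x =
      if u ∈ trc G (R \ C) x then insert u' (trc G (R \ C) x) else trc G (R \ C) x
    have hu'C : u' ∉ C := fun h => hu' (hC h)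
    split_ifs with h1
    · rw [hmem, ← huu] at h1
      unfold trc
      ext y
      rw [Finset.mem_filter, Finset.mem_insert, Finset.mem_filter, Finset.mem_sdiff,
        Finset.mem_sdiff, Finset.mem_insert]
      constructor
      · rintro ⟨⟨h2 | h2, h3⟩, h4⟩
        · exact Or.inl h2
        · exact Or.inr ⟨⟨h2, h3⟩, h4⟩
      · rintro (h2 | ⟨⟨h2, h3⟩, h4⟩)
        · rw [h2]
          exact ⟨⟨Or.inl rfl, hu'C⟩, h1⟩
        · exact ⟨⟨Or.inr h2, h3⟩, h4⟩
    · rw [hmem, ← huu] at h1
      unfold trc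
      ext y
      rw [Finset.mem_filter, Finset.mem_filter, Finset.mem_sdiff, Finset.mem_sdiff,
        Finset.mem_insert]
      constructor
      · rintro ⟨⟨h2 | h2, h3⟩, h4⟩
        · rw [h2] at h4
          exact absurd h4 h1
        · exact ⟨⟨h2, h3⟩, h4⟩
      · rintro ⟨⟨h2, h3⟩, h4⟩
        exact ⟨⟨Or.inr h2, h3⟩, h4⟩
  rw [e1]
  exact Finset.card_image_le.trans h

theorem t2_add {V : Type} (G : SimpleGraph V) (K : ℕ) (R : Finset V) (u u' : V) (hu : u ∈ R)
    (hu' : u' ∉ R) (hw : ∀ w ∈ R, G.Adj u w ↔ G.Adj u' w) (hK : 2 ≤ K) {A : Finset V}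
    (hA : BT (fun A => tr G A (R \ A) ≤ K) A) (hAR : A ⊆ R) :
    (u ∈ A → BT (fun A => tr G A (insert u' R \ A) ≤ K) (insert u' A)) ∧
      (u ∉ A → BT (fun A => tr G A (insert u' R \ A) ≤ K) A) := by
  have huu' : u ≠ u' := fun h => hu' (h ▸ hu)
  induction hA with
  | leaf x =>
    constructor
    · intro h
      rw [Finset.mem_singleton] at h
      subst h
      rw [Finset.insert_eq]
      refine BT.node ?_ (BT.leaf _) (BT.leaf _) ?_
      · rw [Finset.disjoint_singleton]
        exact huu'.symm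
      · unfold tr
        refine (Finset.card_image_le.trans ?_).trans hK
        refine (Finset.card_union_le _ _).trans ?_
        rw [Finset.card_singleton, Finset.card_singleton]
    · intro _
      exact BT.leaf _
  | @node A B hd hA hB hP ihA ihB =>
    have hAR' : A ⊆ R := Finset.subset_union_left.trans hAR
    have hBR' : B ⊆ R := Finset.subset_union_right.trans hAR
    obtain ⟨a1, a2⟩ := ihA hAR'
    obtain ⟨b1, b2⟩ := ihB hBR'
    have hu'A : u' ∉ A := fun h => hu' (hAR' h)
    have hu'B : u' ∉ B := fun h => hu' (hBR' h)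
    constructor
    · intro h
      have hP' := t2_in G K R (A ∪ B) u u' hu' hw hAR h hP
      rcases Finset.mem_union.1 h with h1 | h1
      · have huB : u ∉ B := fun h2 => Finset.disjoint_left.1 hd h1 h2
        rw [← Finset.insert_union] at hP' ⊢
        refine BT.node ?_ (a1 h1) (b2 huB) hP'
        rw [Finset.disjoint_insert_left]
        exact ⟨hu'B, hd⟩
      · have huA : u ∉ A := fun h2 => Finset.disjoint_left.1 hd h2 h1
        rw [← Finset.union_insert] at hP' ⊢
        refine BT.node ?_ (a2 huA) (b1 h1) hP'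
        rw [Finset.disjoint_insert_right]
        exact ⟨hu'A, hd⟩
    · intro h
      rw [Finset.mem_union, not_or] at h
      refine BT.node hd (a2 h.1) (b2 h.2) ?_
      exact t2_out G K R (A ∪ B) u u' hu hu' hw hAR
        (fun h2 => (Finset.mem_union.1 h2).elim h.1 h.2) hP

theorem addTwin : Stmt_AddTwin := by
  intro V G K R u u' hu hu' hw _ hK h
  exact (t2_add G K R u u' hu hu' hw hK h (Finset.Subset.refl R)).1 hu

end Pool.Agent.H333R2.St
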