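import Pool.Agent.H333R2.St.Trees1
import Pool.Agent.H333R2.St.Trees2
import Pool.Agent.H333R2.St.Red
import Pool.Agent.H333R2.St.CoB
import Pool.Agent.H333R2.St.SK
import Pool.Agent.H333R2.St.DIS
import Pool.Agent.H333R2.St.END
import Pool.Agent.H333R2.St.PR
import Pool.Agent.H333R2.St.SmallP
import Pool.Agent.H333R2.St.P7
import Pool.Agent.H333R2.St.STEP
import Pool.Agent.H333R2.St.PC
import Pool.Agent.H333R2.St.LZ
import Pool.Agent.H333R2.St.ADT
import Pool.Agent.H333R2.St.ENG
import Pool.Agent.H333R2.St.LIN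
import Pool.Agent.H333R2.St.Rot
import Pool.Agent.H333R2.St.K2
import Pool.Agent.H333R2.St.Pn
import Pool.Agent.H333R2.St.K4
import Pool.Agent.H333R2.St.C5F
import Pool.Agent.H333R2.St.CM
import Pool.Agent.H333R2.St.Main
import Pool.Agent.H333R2.St.A11
import Pool.Agent.H333R2.St.C2C
import Pool.Agent.H333R2.St.K2I
import Pool.Agent.H333R2.St.K3I
import Pool.Agent.H333R2.St.C1I

/-! `(K₃, S_{1,2,3})`-free graphs: everything together. -/

namespace Pool.Agent.H333R2.St

theorem lz_all : Stmt_LZ := by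
  have hstep := step coB_all cls7 tw7 pr
  have hpc : Stmt_PC := pc coB_all (sk coB_all) (end_ coB_all dis) (smallP pr) hstep tw7 pr
  exact lz coB_all hpc

theorem main_all : Stmt_Main := by
  have hE : Stmt_ENG := eng glue adt
  have h2 : Stmt_K2 := k2 hE bondy lz_all uInd
  have h3 : Stmt_K3 := k3 hE bondy lz_all
  have hAn : Stmt_An := an rot a11
  have hPn : Stmt_Pn := pn rot a11
  have h4 : Stmt_K4 := k4 rot hAn hPn n11 knSymm (lin glue adt) lz_all bondy
  have hC1 : Stmt_C1 := c1 hE bondy lz_all uInd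
  have hCM : Stmt_CM := cm hC1 c2c uInd glue induce
  exact main (red induce addTwin) lz_all c5f h2 h3 h4 hCM (ins rot) anchCard rot

end Pool.Agent.H333R2.St
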