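import Pool.Agent.H333R2.St.FC4

/-! Certificates for the anchor `𝔸_11` (generated). -/

set_option maxRecDepth 100000

namespace Pool.Agent.H333R2.St.FC.DA11

open Ct

def adj : List ℕ := [1170, 293, 586, 1172, 297, 594, 1188, 329, 658, 1316, 585]

def tys : List ℕ := [0, 1170, 293, 586, 1172, 297, 594, 1188, 329, 658, 1316, 585, 1168, 289, 578, 1156, 265, 530, 1060, 73, 146, 292, 584]

def c1 : Ct := .b 352 (.b 354 (.b 357 (.b 360 (.b 355 (.b 358 (.b 356 (.b 361 (.b 362 (.b 359 (.b 353 (.c 0) (.s 3456406881)) (.s 2460327040)) (.s 8729765958)) (.s 137733314)) (.b 353 (.b 362 (.s 6781182308) (.b 361 (.b 359 (.s 9732198624) (.c 12)) (.t 11593))) (.b 361 (.b 359 (.s 3456406881) (.b 362 (.c 20) (.c 1))) (.b 362 (.b 359 (.c 17) (.c 9)) (.t 11593))))) (.b 359 (.b 362 (.b 353 (.s 8628840806) (.b 361 (.s 3456406881) (.b 356 (.c 14) (.c 6)))) (.t 11590)) (.t 11494))) (.b 356 (.b 359 (.b 362 (.b 361 (.s 5672803683) (.b 358 (.s 142805353)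 (.b 353 (.c 22) (.c 3)))) (.t 11587)) (.t 11491)) (.t 11395))) (.b 353 (.b 356 (.b 359 (.b 361 (.b 358 (.s 2354421764) (.s 4296382754)) (.t 11560)) (.t 11527)) (.t 11524)) (.t 11521))) (.b 353 (.b 356 (.b 358 (.b 361 (.b 359 (.s 7520462181) (.s 9732201600)) (.t 11557)) (.t 11461)) (.t 11428)) (.t 11425))) (.b 353 (.b 355 (.b 358 (.b 361 (.b 357 (.b 359 (.s 238200162) (.b 360 (.b 362 (.s 5410983271) (.b 356 (.c 15) (.c 4))) (.t 11527))) (.b 356 (.b 360 (.b 362 (.s 3557135617) (.b 359 (.c 18) (.c 7))) (.b 359 (.b 362 (.c 21) (.c 10)) (.t 11527))) (.t 11428))) (.t 11554)) (.t 11458)) (.t 11362)) (.t 11329))) (.b 353 (.b 356 (.b 359 (.b 362 (.b 354 (.b 357 (.b 355 (.b 361 (.s 9832602976) (.s 7621420069)) (.b 360 (.b 358 (.s 2359562592) (.b 361 (.c 19) (.c 11))) (.b 361 (.b 358 (.c 16) (.c 8)) (.t 11560)))) (.b 358 (.b 361 (.b 360 (.s 2359562592) (.b 355 (.c 13) (.c 5))) (.t 11557)) (.t 11461))) (.b 355 (.b 358 (.b 361 (.b 357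 (.s 9832602976) (.b 360 (.s 4564785506) (.c 2))) (.t 11554)) (.t 11458)) (.t 11362))) (.t 11584)) (.t 11488)) (.t 11392)) (.t 11296))

theorem h1 : ver1 11 adj false tys c1 = true := by decide +kernel

def cU : List Ct := [.s 6513078276, .s 7621423141, .s 139833414, .s 5402636391, .s 6510981248, .s 3456479393, .s 4296388802, .s 9732206720, .s 3557142689, .s 4296388802, .s 5404733667, .s 6513078276, .s 6510981248, .s 3456479393, .s 4296388802, .s 6510981248, .s 3456479393, .s 4296388802, .s 9732206720, .s 3557142689, .s 4296388802, .s 5404733667]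

theorem hU : ∀ i < 22, ver4b 11 adj false 0 (tys.getD (i + 1) 0) false (cU.getD i (.t 0)) = true := by decide +kernel

def bo (b : ℕ) : Bool := b == 0

def MbB (b b' : Bool) (d : ℕ) : Bool :=
  (b && b' && (d == 1 || d == 10)) || (b && !b' && (d == 9 || d == 10)) ||
  (!b && b' && (d == 1 || d == 2)) || (!b && !b' && (d == 2 || d == 9))

def cP_0 : List Ct := [.t 12641, .t 0, .t 12641, .t 12644, .s 7889560965, .t 12641, .t 12647, .s 3624179041, .t 12641, .t 12650, .t 0, .t 12644, .s 6513099108, .t 12641, .t 12647, .s 3624080737, .t 12641, .t 12650, .s 3624179041, .t 12641, .t 0, .t 0]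

theorem hP_0 : ∀ k < 22, MbB true (bo (k / 11)) ((k % 11 + 11 - 0) % 11) = true ∨
    ver4b 11 adj false (msk 11 true 0) (msk 11 (bo (k / 11)) (k % 11)) (((k % 11 + 11 - 0) % 11) % 3 == 1)
      (cP_0.getD k (.t 0)) = true := by decide +kernel

def cP_1 : List Ct := [.t 0, .t 12640, .t 0, .t 12642, .t 12640, .s 10067484000, .t 12642, .t 12640, .s 4699003234, .t 12642, .t 12640, .t 0, .t 12640, .s 6846255456, .t 12642, .t 12640, .s 10067484000, .t 12642, .t 12640, .s 4699003234, .t 12642, .t 0]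

theorem hP_1 : ∀ k < 22, MbB true (bo (k / 11)) ((k % 11 + 11 - 1) % 11) = true ∨
    ver4b 11 adj false (msk 11 true 1) (msk 11 (bo (k / 11)) (k % 11)) (((k % 11 + 11 - 1) % 11) % 3 == 1)
      (cP_1.getD k (.t 0)) = true := by decide +kernel

def cP_2 : List Ct := [.t 12641, .t 0, .t 12641, .t 0, .t 12643, .t 12641, .s 10034224256, .t 12643, .t 12641, .s 5773466979, .t 12643, .t 0, .t 0, .t 12641, .s 10034224256, .t 12643, .t 12641, .s 11142308193, .t 12643, .t 12641, .s 5773466979, .t 12643]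

theorem hP_2 : ∀ k < 22, MbB true (bo (k / 11)) ((k % 11 + 11 - 2) % 11) = true ∨
    ver4b 11 adj false (msk 11 true 2) (msk 11 (bo (k / 11)) (k % 11)) (((k % 11 + 11 - 2) % 11) % 3 == 1)
      (cP_2.getD k (.t 0)) = true := by decide +kernel

def cP_3 : List Ct := [.t 12644, .t 12642, .t 0, .t 12642, .t 0, .t 12644, .t 12642, .s 9832865152, .t 12644, .t 12642, .s 6848291172, .t 12644, .t 0, .t 0, .t 12642, .s 9832865152, .t 12644, .t 12642, .s 9832865152, .t 12644, .t 12642, .s 6848282980]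

theorem hP_3 : ∀ k < 22, MbB true (bo (k / 11)) ((k % 11 + 11 - 3) % 11) = true ∨
    ver4b 11 adj false (msk 11 true 3) (msk 11 (bo (k / 11)) (k % 11)) (((k % 11 + 11 - 3) % 11) % 3 == 1)
      (cP_3.getD k (.t 0)) = true := by decide +kernel

def cP_4 : List Ct := [.s 7923115365, .t 12640, .t 12643, .t 0, .t 12640, .t 0, .t 12645, .t 12640, .s 2359693664, .t 12645, .t 12640, .s 6511006048, .t 12640, .t 0, .t 0, .t 12640, .s 10067582304, .t 12645, .t 12640, .s 2359693664, .t 12645, .t 12643]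

theorem hP_4 : ∀ k < 22, MbB true (bo (k / 11)) ((k % 11 + 11 - 4) % 11) = true ∨
    ver4b 11 adj false (msk 11 true 4) (msk 11 (bo (k / 11)) (k % 11)) (((k % 11 + 11 - 4) % 11) % 3 == 1)
      (cP_4.getD k (.t 0)) = true := by decide +kernel

def cP_5 : List Ct := [.t 12641, .s 10033929600, .t 12641, .t 12644, .t 0, .t 12641, .t 0, .t 12646, .t 12641, .s 2560987360, .t 12646, .t 12644, .s 10033929600, .t 12641, .t 0, .t 0, .t 12641, .s 2560987360, .t 12646, .t 12641, .s 3456505185, .t 12646]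

theorem hP_5 : ∀ k < 22, MbB true (bo (k / 11)) ((k % 11 + 11 - 5) % 11) = true ∨
    ver4b 11 adj false (msk 11 true 5) (msk 11 (bo (k / 11)) (k % 11)) (((k % 11 + 11 - 5) % 11) % 3 == 1)
      (cP_5.getD k (.t 0)) = true := by decide +kernel

def cP_6 : List Ct := [.t 12647, .t 12642, .s 10067745920, .t 12642, .t 12645, .t 0, .t 12642, .t 0, .t 12647, .t 12642, .s 2527334784, .t 12647, .t 12645, .s 10067745920, .t 12642, .t 0, .t 0, .t 12642, .s 2527334784, .t 12647, .t 12642, .s 4296415586]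

theorem hP_6 : ∀ k < 22, MbB true (bo (k / 11)) ((k % 11 + 11 - 6) % 11) = true ∨
    ver4b 11 adj false (msk 11 true 6) (msk 11 (bo (k / 11)) (k % 11)) (((k % 11 + 11 - 6) % 11) % 3 == 1)
      (cP_6.getD k (.t 0)) = true := by decide +kernel

def cP_7 : List Ct := [.s 3590624641, .t 12640, .t 12643, .s 9832897888, .t 12640, .t 12646, .t 0, .t 12640, .t 0, .t 12648, .t 12640, .s 9732231520, .t 12640, .t 12646, .s 9832897888, .t 12640, .t 0, .t 0, .t 12640, .s 2460356960, .t 12648, .t 12643]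

theorem hP_7 : ∀ k < 22, MbB true (bo (k / 11)) ((k % 11 + 11 - 7) % 11) = true ∨
    ver4b 11 adj false (msk 11 true 7) (msk 11 (bo (k / 11)) (k % 11)) (((k % 11 + 11 - 7) % 11) % 3 == 1)
      (cP_7.getD k (.t 0)) = true := by decide +kernel

def cP_8 : List Ct := [.t 12641, .s 4665448834, .t 12641, .t 12644, .s 2359660928, .t 12641, .t 12647, .t 0, .t 12641, .t 0, .t 12649, .t 12644, .s 2359660928, .t 12641, .t 12647, .s 2359660928, .t 12641, .t 0, .t 0, .t 12641, .s 3557168481, .t 12649]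

theorem hP_8 : ∀ k < 22, MbB true (bo (k / 11)) ((k % 11 + 11 - 8) % 11) = true ∨
    ver4b 11 adj false (msk 11 true 8) (msk 11 (bo (k / 11)) (k % 11)) (((k % 11 + 11 - 8) % 11) % 3 == 1)
      (cP_8.getD k (.t 0)) = true := by decide +kernel

def cP_9 : List Ct := [.t 12650, .t 12642, .s 5739912579, .t 12642, .t 12645, .s 2527465696, .t 12642, .t 12648, .t 0, .t 12642, .t 0, .t 12650, .t 12645, .s 3456472449, .t 12642, .t 12648, .s 2527465696, .t 12642, .t 0, .t 0, .t 12642, .s 4296415586]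

theorem hP_9 : ∀ k < 22, MbB true (bo (k / 11)) ((k % 11 + 11 - 9) % 11) = true ∨
    ver4b 11 adj false (msk 11 true 9) (msk 11 (bo (k / 11)) (k % 11)) (((k % 11 + 11 - 9) % 11) % 3 == 1)
      (cP_9.getD k (.t 0)) = true := by decide +kernel

def cP_10 : List Ct := [.t 0, .t 12640, .t 12643, .s 6814736772, .t 12640, .t 12646, .s 2560889184, .t 12640, .t 12649, .t 0, .t 12640, .s 5404761443, .t 12640, .t 12646, .s 2557645152, .t 12640, .t 12649, .s 2560889184, .t 12640, .t 0, .t 0, .t 12643]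

theorem hP_10 : ∀ k < 22, MbB true (bo (k / 11)) ((k % 11 + 11 - 10) % 11) = true ∨
    ver4b 11 adj false (msk 11 true 10) (msk 11 (bo (k / 11)) (k % 11)) (((k % 11 + 11 - 10) % 11) % 3 == 1)
      (cP_10.getD k (.t 0)) = true := by decide +kernel

def cP_11 : List Ct := [.t 12644, .t 0, .t 0, .t 12644, .s 6510973312, .t 12644, .t 12647, .s 9732198784, .t 12644, .t 12650, .s 5404728707, .t 12644, .s 6510973312, .t 0, .t 12647, .s 6510973312, .t 12644, .t 12650, .s 9732198784, .t 12644, .t 0, .s 5404728707]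

theorem hP_11 : ∀ k < 22, MbB false (bo (k / 11)) ((k % 11 + 11 - 0) % 11) = true ∨
    ver4b 11 adj false (msk 11 false 0) (msk 11 (bo (k / 11)) (k % 11)) (((k % 11 + 11 - 0) % 11) % 3 == 1)
      (cP_11.getD k (.t 0)) = true := by decide +kernel

def cP_12 : List Ct := [.s 6513066372, .t 12640, .t 0, .t 0, .t 12640, .s 10067484000, .t 12645, .t 12640, .s 2359693664, .t 12645, .t 12640, .s 6511006048, .t 12640, .s 6846255456, .t 0, .t 12640, .s 10067484000, .t 12645, .t 12640, .s 2359693664, .t 12645, .t 0]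

theorem hP_12 : ∀ k < 22, MbB false (bo (k / 11)) ((k % 11 + 11 - 1) % 11) = true ∨
    ver4b 11 adj false (msk 11 false 1) (msk 11 (bo (k / 11)) (k % 11)) (((k % 11 + 11 - 1) % 11) % 3 == 1)
      (cP_12.getD k (.t 0)) = true := by decide +kernel

def cP_13 : List Ct := [.t 12641, .s 6812701056, .t 12641, .t 0, .t 0, .t 12641, .s 10034224256, .t 12646, .t 12641, .s 3456505185, .t 12646, .t 0, .s 6812701056, .t 12641, .s 10034224256, .t 0, .t 12641, .s 3456505185, .t 12646, .t 12641, .s 3456505185, .t 12646]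

theorem hP_13 : ∀ k < 22, MbB false (bo (k / 11)) ((k % 11 + 11 - 2) % 11) = true ∨
    ver4b 11 adj false (msk 11 false 2) (msk 11 (bo (k / 11)) (k % 11)) (((k % 11 + 11 - 2) % 11) % 3 == 1)
      (cP_13.getD k (.t 0)) = true := by decide +kernel

def cP_14 : List Ct := [.t 12647, .t 12642, .s 10067745920, .t 12642, .t 0, .t 0, .t 12642, .s 9832865152, .t 12647, .t 12642, .s 2524090752, .t 12647, .t 0, .s 10067745920, .t 12642, .s 9832865152, .t 0, .t 12642, .s 9832865152, .t 12647, .t 12642, .s 4296415586]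

theorem hP_14 : ∀ k < 22, MbB false (bo (k / 11)) ((k % 11 + 11 - 3) % 11) = true ∨
    ver4b 11 adj false (msk 11 false 3) (msk 11 (bo (k / 11)) (k % 11)) (((k % 11 + 11 - 3) % 11) % 3 == 1)
      (cP_14.getD k (.t 0)) = true := by decide +kernel

def cP_15 : List Ct := [.s 3590526337, .t 12640, .t 12643, .s 9832897888, .t 12640, .t 0, .t 0, .t 12640, .s 2359693664, .t 12648, .t 12640, .s 6511006048, .t 12640, .t 0, .s 9832897888, .t 12640, .s 10067582304, .t 0, .t 12640, .s 2359693664, .t 12648, .t 12643]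

theorem hP_15 : ∀ k < 22, MbB false (bo (k / 11)) ((k % 11 + 11 - 4) % 11) = true ∨
    ver4b 11 adj false (msk 11 false 4) (msk 11 (bo (k / 11)) (k % 11)) (((k % 11 + 11 - 4) % 11) % 3 == 1)
      (cP_15.getD k (.t 0)) = true := by decide +kernel

def cP_16 : List Ct := [.t 12641, .s 10033929600, .t 12641, .t 12644, .s 10034027904, .t 12641, .t 0, .t 0, .t 12641, .s 2560987360, .t 12649, .t 12644, .s 10033929600, .t 12641, .t 0, .s 10034027904, .t 12641, .s 2560987360, .t 0, .t 12641, .s 3456505185, .t 12649]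

theorem hP_16 : ∀ k < 22, MbB false (bo (k / 11)) ((k % 11 + 11 - 5) % 11) = true ∨
    ver4b 11 adj false (msk 11 false 5) (msk 11 (bo (k / 11)) (k % 11)) (((k % 11 + 11 - 5) % 11) % 3 == 1)
      (cP_16.getD k (.t 0)) = true := by decide +kernel

def cP_17 : List Ct := [.t 12650, .t 12642, .s 11108753793, .t 12642, .t 12645, .s 2527465696, .t 12642, .t 0, .t 0, .t 12642, .s 2527334784, .t 12650, .t 12645, .s 3456472449, .t 12642, .t 0, .s 2527465696, .t 12642, .s 2527334784, .t 0, .t 12642, .s 4296415586]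

theorem hP_17 : ∀ k < 22, MbB false (bo (k / 11)) ((k % 11 + 11 - 6) % 11) = true ∨
    ver4b 11 adj false (msk 11 false 6) (msk 11 (bo (k / 11)) (k % 11)) (((k % 11 + 11 - 6) % 11) % 3 == 1)
      (cP_17.getD k (.t 0)) = true := by decide +kernel

def cP_18 : List Ct := [.s 3590624641, .t 12640, .t 12643, .s 9832897888, .t 12640, .t 12646, .s 2560889184, .t 12640, .t 0, .t 0, .t 12640, .s 9732231520, .t 12640, .t 12646, .s 9832897888, .t 12640, .t 0, .s 2560889184, .t 12640, .s 2460356960, .t 0, .t 12643]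

theorem hP_18 : ∀ k < 22, MbB false (bo (k / 11)) ((k % 11 + 11 - 7) % 11) = true ∨
    ver4b 11 adj false (msk 11 false 7) (msk 11 (bo (k / 11)) (k % 11)) (((k % 11 + 11 - 7) % 11) % 3 == 1)
      (cP_18.getD k (.t 0)) = true := by decide +kernel

def cP_19 : List Ct := [.t 12641, .s 4665448834, .t 12641, .t 12644, .s 2359660928, .t 12641, .t 12647, .s 2460324224, .t 12641, .t 0, .t 0, .t 12644, .s 2359660928, .t 12641, .t 12647, .s 2359660928, .t 12641, .t 0, .s 2460324224, .t 12641, .s 3557168481, .t 0]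

theorem hP_19 : ∀ k < 22, MbB false (bo (k / 11)) ((k % 11 + 11 - 8) % 11) = true ∨
    ver4b 11 adj false (msk 11 false 8) (msk 11 (bo (k / 11)) (k % 11)) (((k % 11 + 11 - 8) % 11) % 3 == 1)
      (cP_19.getD k (.t 0)) = true := by decide +kernel

def cP_20 : List Ct := [.t 0, .t 12642, .s 5739912579, .t 12642, .t 12645, .s 3456472449, .t 12642, .t 12648, .s 3557135745, .t 12642, .t 0, .t 0, .t 12645, .s 3456472449, .t 12642, .t 12648, .s 3456472449, .t 12642, .t 0, .s 3557135745, .t 12642, .s 4296415586]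

theorem hP_20 : ∀ k < 22, MbB false (bo (k / 11)) ((k % 11 + 11 - 9) % 11) = true ∨
    ver4b 11 adj false (msk 11 false 9) (msk 11 (bo (k / 11)) (k % 11)) (((k % 11 + 11 - 9) % 11) % 3 == 1)
      (cP_20.getD k (.t 0)) = true := by decide +kernel

def cP_21 : List Ct := [.t 0, .t 0, .t 12643, .s 6814728580, .t 12643, .t 12646, .s 4296382850, .t 12643, .t 12649, .s 4296382850, .t 12643, .s 5404761443, .t 0, .t 12646, .s 4296382850, .t 12643, .t 12649, .s 4296382850, .t 12643, .t 0, .s 4296382850, .t 12643]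

theorem hP_21 : ∀ k < 22, MbB false (bo (k / 11)) ((k % 11 + 11 - 10) % 11) = true ∨
    ver4b 11 adj false (msk 11 false 10) (msk 11 (bo (k / 11)) (k % 11)) (((k % 11 + 11 - 10) % 11) % 3 == 1)
      (cP_21.getD k (.t 0)) = true := by decide +kernel

def rules : List (ℕ × ℕ × ℕ) := [(1156, 297, 594), (265, 594, 1188), (530, 1188, 329)]

theorem hrules : rules = [4, 5, 6].map (fun m => (msk 11 false (m - 1), msk 11 true m, msk 11 true (m + 1))) := by decide +kernel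

def c3_111 : Ct := .b 459 (.b 523 (.s 10034290176) (.b 555 (.s 10034290208) (.b 524 (.b 460 (.s 10067844608) (.b 492 (.s 10067877376) (.b 461 (.b 525 (.s 10101399040) (.b 557 (.s 10101399072) (.c 16))) (.b 493 (.b 525 (.s 10101431808) (.b 557 (.s 10101431840) (.c 16))) (.c 8))))) (.b 556 (.b 460 (.s 10067844640) (.b 492 (.s 10067877408) (.b 525 (.b 461 (.s 10101399040) (.b 493 (.s 10101431808) (.c 8))) (.b 557 (.c 21) (.c 16))))) (.c 12))))) (.b 491 (.b 523 (.s 10034322944) (.b 555 (.s 10034322976) (.b 460 (.b 524 (.s 10067844608) (.b 556 (.s 10067844640) (.c 12))) (.b 492 (.c 1) (.b 461 (.b 525 (.s 10101399040) (.b 557 (.s 10101399072) (.c 16))) (.b 493 (.c 5) (.c 8))))))) (.b 460 (.b 524 (.s 10067844608) (.b 556 (.s 10067844640) (.b 461 (.b 525 (.s 10101399040) (.b 557 (.s 10101399072) (.c 20))) (.b 493 (.b 525 (.s 10101431808) (.b 557 (.s 10101431840) (.c 20))) (.c 4))))) (.b 492 (.b 524 (.s 10067877376) (.b 556 (.s 10067877408)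 (.b 461 (.b 525 (.s 10101399040) (.b 557 (.s 10101399072) (.c 20))) (.b 493 (.c 9) (.c 4))))) (.c 0))))

theorem h3_111 : ver3b 11 adj rules (msk 11 true 5) (msk 11 true 6) (msk 11 true 4) c3_111 = true := by decide +kernel

def c3_110 : Ct := .b 526 (.b 527 (.b 558 (.b 559 (.b 459 (.b 523 (.s 10034290176) (.b 555 (.s 10034290208) (.b 524 (.b 460 (.s 10067844608) (.b 492 (.s 10067877376) (.b 461 (.b 525 (.s 10101399040) (.b 557 (.s 10101399072) (.c 16))) (.b 493 (.b 525 (.s 10101431808) (.b 557 (.s 10101431840) (.c 16))) (.c 8))))) (.b 556 (.b 460 (.s 10067844640) (.b 492 (.s 10067877408) (.b 525 (.b 461 (.s 10101399040) (.b 493 (.s 10101431808) (.c 8))) (.b 557 (.c 21) (.c 16))))) (.c 12))))) (.b 491 (.b 523 (.s 10034322944) (.b 555 (.s 10034322976) (.b 460 (.b 524 (.s 10067844608) (.b 556 (.s 10067844640) (.c 12))) (.b 492 (.c 1) (.b 461 (.b 525 (.s 10101399040) (.b 557 (.s 10101399072) (.c 16))) (.b 493 (.c 5) (.c 8)))))))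 (.b 460 (.b 524 (.s 10067844608) (.b 556 (.s 10067844640) (.b 461 (.b 525 (.s 10101399040) (.b 557 (.s 10101399072) (.c 20))) (.b 493 (.b 525 (.s 10101431808) (.b 557 (.s 10101431840) (.c 20))) (.c 4))))) (.b 492 (.b 524 (.s 10067877376) (.b 556 (.s 10067877408) (.b 461 (.b 525 (.s 10101399040) (.b 557 (.s 10101399072) (.c 20))) (.b 493 (.c 9) (.c 4))))) (.c 0))))) (.b 555 (.b 556 (.b 557 (.b 459 (.s 10034290208) (.b 460 (.s 10067844640) (.b 461 (.s 10101399072) (.b 491 (.b 523 (.s 10034322944) (.b 492 (.c 1) (.b 493 (.c 5) (.c 8)))) (.b 492 (.b 524 (.s 10067877376) (.b 493 (.c 9) (.c 4))) (.c 0)))))) (.c 35)) (.c 33)) (.c 31))) (.b 555 (.b 556 (.b 557 (.b 523 (.b 459 (.s 10034290176) (.b 491 (.s 10034322944) (.b 524 (.c 15) (.b 525 (.c 19) (.c 21))))) (.b 524 (.b 460 (.s 10067844608) (.b 492 (.s 10067877376) (.b 525 (.c 23) (.c 17)))) (.c 13))) (.c 34)) (.c 32)) (.c 30))) (.b 523 (.b 524 (.b 525 (.b 459 (.s 10034290176)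 (.b 460 (.s 10067844608) (.b 461 (.s 10101399040) (.b 555 (.b 556 (.c 15) (.b 558 (.b 559 (.b 491 (.s 10034322976) (.b 492 (.b 493 (.c 9) (.c 4)) (.c 0))) (.c 33)) (.c 32))) (.b 558 (.b 559 (.b 556 (.b 492 (.s 10067877408) (.b 491 (.b 493 (.c 5) (.c 8)) (.c 0))) (.c 14)) (.c 31)) (.c 30)))))) (.c 29)) (.c 27)) (.c 25))) (.b 523 (.b 524 (.b 525 (.b 555 (.b 556 (.c 15) (.b 558 (.b 559 (.b 459 (.s 10034290208) (.b 491 (.s 10034322976) (.b 557 (.c 19) (.c 22)))) (.c 33)) (.c 32))) (.b 558 (.b 559 (.b 556 (.b 460 (.s 10067844640) (.b 492 (.s 10067877408) (.b 557 (.c 23) (.c 18)))) (.c 14)) (.c 31)) (.c 30))) (.c 28)) (.c 26)) (.c 24))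

theorem h3_110 : ver3b 11 adj rules (msk 11 true 5) (msk 11 true 6) (msk 11 false 4) c3_110 = true := by decide +kernel

def c3_101 : Ct := .b 526 (.b 527 (.b 558 (.b 559 (.b 459 (.b 523 (.s 10034290176) (.b 555 (.s 10034290208) (.b 524 (.b 460 (.s 10067844608) (.b 492 (.s 10067877376) (.b 461 (.b 525 (.s 10101399040) (.b 557 (.s 10101399072) (.c 16))) (.b 493 (.b 525 (.s 10101431808) (.b 557 (.s 10101431840) (.c 16))) (.c 8))))) (.b 556 (.b 460 (.s 10067844640) (.b 492 (.s 10067877408) (.b 525 (.b 461 (.s 10101399040) (.b 493 (.s 10101431808) (.c 8))) (.b 557 (.c 21) (.c 16))))) (.c 12))))) (.b 491 (.b 523 (.s 10034322944) (.b 555 (.s 10034322976) (.b 460 (.b 524 (.s 10067844608) (.b 556 (.s 10067844640) (.c 12))) (.b 492 (.c 1) (.b 461 (.b 525 (.s 10101399040) (.b 557 (.s 10101399072) (.c 16))) (.b 493 (.c 5) (.c 8))))))) (.b 460 (.b 524 (.s 10067844608) (.b 556 (.s 10067844640) (.b 461 (.b 525 (.s 10101399040) (.b 557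 (.s 10101399072) (.c 20))) (.b 493 (.b 525 (.s 10101431808) (.b 557 (.s 10101431840) (.c 20))) (.c 4))))) (.b 492 (.b 524 (.s 10067877376) (.b 556 (.s 10067877408) (.b 461 (.b 525 (.s 10101399040) (.b 557 (.s 10101399072) (.c 20))) (.b 493 (.c 9) (.c 4))))) (.c 0))))) (.b 491 (.b 492 (.b 493 (.b 523 (.s 10034322944) (.b 524 (.s 10067877376) (.b 525 (.s 10101431808) (.b 459 (.b 555 (.s 10034290208) (.b 460 (.c 3) (.b 461 (.c 7) (.c 9)))) (.b 460 (.b 556 (.s 10067844640) (.b 461 (.c 11) (.c 5))) (.c 1)))))) (.c 35)) (.c 34)) (.c 33))) (.b 459 (.b 460 (.b 461 (.b 523 (.s 10034290176) (.b 524 (.s 10067844608) (.b 525 (.s 10101399040) (.b 491 (.b 492 (.c 3) (.b 559 (.b 555 (.s 10034322976) (.b 493 (.c 7) (.c 10))) (.c 34))) (.b 559 (.b 492 (.b 556 (.s 10067877408) (.b 493 (.c 11) (.c 6))) (.c 2)) (.c 33)))))) (.c 29)) (.c 28)) (.c 27))) (.b 491 (.b 492 (.b 493 (.b 459 (.b 523 (.s 10034290176) (.b 460 (.c 3) (.b 558 (.b 555 (.s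 10034290208) (.b 461 (.c 7) (.c 9))) (.c 28)))) (.b 558 (.b 460 (.b 524 (.s 10067844608) (.b 556 (.s 10067844640) (.b 461 (.c 11) (.c 5)))) (.c 1)) (.c 27))) (.c 32)) (.c 31)) (.c 30))) (.b 459 (.b 460 (.b 461 (.b 491 (.b 492 (.c 3) (.b 527 (.b 559 (.b 523 (.s 10034322944) (.b 555 (.s 10034322976) (.b 493 (.c 7) (.c 10)))) (.c 34)) (.c 31))) (.b 527 (.b 559 (.b 492 (.b 524 (.s 10067877376) (.b 556 (.s 10067877408) (.b 493 (.c 11) (.c 6)))) (.c 2)) (.c 33)) (.c 30))) (.c 26)) (.c 25)) (.c 24))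

theorem h3_101 : ver3b 11 adj rules (msk 11 true 5) (msk 11 false 3) (msk 11 true 4) c3_101 = true := by decide +kernel

def c3_100 : Ct := .b 526 (.s 9832963584) (.b 558 (.s 9832963616) (.b 527 (.s 9832996352) (.b 559 (.s 9832996384) (.b 459 (.b 491 (.b 460 (.b 492 (.c 3) (.b 524 (.b 556 (.b 461 (.b 493 (.c 7) (.c 10)) (.b 525 (.b 557 (.c 23) (.t 17869)) (.t 16845))) (.t 17900)) (.t 16876))) (.b 524 (.b 556 (.b 461 (.b 493 (.c 7) (.b 525 (.b 557 (.c 23) (.t 17901)) (.t 16877))) (.b 525 (.b 557 (.c 23) (.t 17869)) (.t 16845))) (.t 17868)) (.t 16844))) (.b 523 (.b 555 (.b 460 (.b 492 (.b 461 (.b 493 (.c 11) (.c 6)) (.b 525 (.b 557 (.c 19) (.t 17869)) (.t 16845))) (.c 2)) (.b 524 (.b 556 (.c 15) (.t 17868)) (.t 16844))) (.t 17899)) (.t 16875))) (.b 523 (.b 555 (.b 524 (.b 556 (.c 15) (.b 460 (.b 492 (.b 525 (.b 557 (.c 19) (.c 22)) (.b 461 (.b 493 (.c 11) (.t 16877)) (.t 16845))) (.t 17900)) (.t 17868))) (.b 460 (.b 492 (.b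 461 (.b 493 (.c 11) (.b 525 (.b 557 (.c 19) (.t 17901)) (.t 16877))) (.b 525 (.b 557 (.c 19) (.t 17869)) (.t 16845))) (.t 16876)) (.t 16844))) (.t 17867)) (.t 16843))))))

theorem h3_100 : ver3b 11 adj rules (msk 11 true 5) (msk 11 false 3) (msk 11 false 4) c3_100 = true := by decide +kernel

def c3_011 : Ct := .b 459 (.b 491 (.b 460 (.b 492 (.c 3) (.b 524 (.b 556 (.b 526 (.s 10067844608) (.b 558 (.s 10067844640) (.b 493 (.b 461 (.c 7) (.b 525 (.b 557 (.c 23) (.c 33)) (.c 32))) (.b 525 (.b 557 (.c 23) (.c 35)) (.c 34))))) (.c 31)) (.c 30))) (.b 524 (.b 556 (.b 461 (.b 493 (.c 7) (.b 525 (.b 557 (.c 23) (.c 35)) (.c 34))) (.b 525 (.b 557 (.c 23) (.c 33)) (.c 32))) (.c 29)) (.c 28))) (.b 523 (.b 555 (.b 526 (.s 10034290176) (.b 558 (.s 10034290208) (.b 492 (.b 493 (.b 460 (.b 461 (.c 11) (.b 525 (.b 557 (.c 19) (.c 33)) (.c 32))) (.b 524 (.b 556 (.c 15) (.c 29)) (.c 28))) (.b 525 (.b 557 (.c 19) (.c 35)) (.c 34))) (.b 524 (.b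 556 (.c 15) (.c 31)) (.c 30))))) (.c 27)) (.c 26))) (.b 523 (.b 555 (.b 524 (.b 556 (.c 15) (.b 460 (.b 492 (.b 526 (.s 10067844608) (.b 527 (.s 10067877376) (.b 557 (.b 525 (.c 19) (.b 461 (.b 493 (.c 11) (.c 34)) (.c 32))) (.b 461 (.b 493 (.c 11) (.c 35)) (.c 33))))) (.c 31)) (.c 29))) (.b 460 (.b 492 (.b 461 (.b 493 (.c 11) (.b 525 (.b 557 (.c 19) (.c 35)) (.c 34))) (.b 525 (.b 557 (.c 19) (.c 33)) (.c 32))) (.c 30)) (.c 28))) (.c 25)) (.c 24))

theorem h3_011 : ver3b 11 adj rules (msk 11 false 5) (msk 11 true 6) (msk 11 true 7) c3_011 = true := by decide +kernel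

def c3_010 : Ct := .b 526 (.s 2627998208) (.b 558 (.s 2627998240) (.b 527 (.s 2661552640) (.b 559 (.s 2661552672) (.b 459 (.b 491 (.b 460 (.b 492 (.c 3) (.b 524 (.b 556 (.b 461 (.b 493 (.c 7) (.c 10)) (.b 525 (.b 557 (.c 23) (.t 17869)) (.t 16845))) (.t 17900)) (.t 16876))) (.b 524 (.b 556 (.b 461 (.b 493 (.c 7) (.b 525 (.b 557 (.c 23) (.t 17901)) (.t 16877))) (.b 525 (.b 557 (.c 23) (.t 17869)) (.t 16845))) (.t 17868)) (.t 16844))) (.b 523 (.b 555 (.b 460 (.b 492 (.b 461 (.b 493 (.c 11) (.c 6)) (.b 525 (.b 557 (.c 19) (.t 17869)) (.t 16845))) (.c 2)) (.b 524 (.b 556 (.c 15) (.t 17868)) (.t 16844))) (.t 17899)) (.t 16875))) (.b 523 (.b 555 (.b 524 (.b 556 (.c 15) (.b 460 (.b 492 (.b 525 (.b 557 (.c 19) (.c 22)) (.b 461 (.b 493 (.c 11) (.t 16877)) (.t 16845))) (.t 17900)) (.t 17868))) (.b 460 (.b 492 (.b 461 (.b 493 (.c 11) (.b 525 (.b 557 (.c 19) (.t 17901)) (.t 16877))) (.b 525 (.b 557 (.c 19) (.t 17869)) (.t 16845))) (.t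 16876)) (.t 16844))) (.t 17867)) (.t 16843))))))

theorem h3_010 : ver3b 11 adj rules (msk 11 false 5) (msk 11 true 6) (msk 11 false 7) c3_010 = true := by decide +kernel

def c3_001 : Ct := .b 526 (.s 9832963584) (.b 558 (.s 9832963616) (.b 527 (.s 9832996352) (.b 559 (.s 9832996384) (.b 459 (.b 491 (.b 460 (.b 492 (.c 3) (.b 524 (.b 556 (.b 461 (.b 493 (.c 7) (.c 10)) (.b 525 (.b 557 (.c 23) (.t 17869)) (.t 16845))) (.t 17900)) (.t 16876))) (.b 524 (.b 556 (.b 461 (.b 493 (.c 7) (.b 525 (.b 557 (.c 23) (.t 17901)) (.t 16877))) (.b 525 (.b 557 (.c 23) (.t 17869)) (.t 16845))) (.t 17868)) (.t 16844))) (.b 523 (.b 555 (.b 460 (.b 492 (.b 461 (.b 493 (.c 11) (.c 6)) (.b 525 (.b 557 (.c 19) (.t 17869)) (.t 16845))) (.c 2)) (.b 524 (.b 556 (.c 15) (.t 17868)) (.t 16844))) (.t 17899)) (.t 16875))) (.b 523 (.b 555 (.b 524 (.b 556 (.c 15) (.b 460 (.b 492 (.b 525 (.b 557 (.c 19) (.c 22)) (.b 461 (.b 493 (.c 11) (.t 16877)) (.t 16845)))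 (.t 17900)) (.t 17868))) (.b 460 (.b 492 (.b 461 (.b 493 (.c 11) (.b 525 (.b 557 (.c 19) (.t 17901)) (.t 16877))) (.b 525 (.b 557 (.c 19) (.t 17869)) (.t 16845))) (.t 16876)) (.t 16844))) (.t 17867)) (.t 16843))))))

theorem h3_001 : ver3b 11 adj rules (msk 11 false 5) (msk 11 false 3) (msk 11 true 7) c3_001 = true := by decide +kernel

def c3_000 : Ct := .b 526 (.s 9832963584) (.b 558 (.s 9832963616) (.b 527 (.s 9832996352) (.b 559 (.s 9832996384) (.b 459 (.b 491 (.b 460 (.b 492 (.c 3) (.b 524 (.b 556 (.b 461 (.b 493 (.c 7) (.c 10)) (.b 525 (.b 557 (.c 23) (.t 17869)) (.t 16845))) (.t 17900)) (.t 16876))) (.b 524 (.b 556 (.b 461 (.b 493 (.c 7) (.b 525 (.b 557 (.c 23) (.t 17901)) (.t 16877))) (.b 525 (.b 557 (.c 23) (.t 17869)) (.t 16845))) (.t 17868)) (.t 16844))) (.b 523 (.b 555 (.b 460 (.b 492 (.b 461 (.b 493 (.c 11) (.c 6)) (.b 525 (.b 557 (.c 19) (.t 17869)) (.t 16845))) (.c 2)) (.b 524 (.b 556 (.c 15) (.t 17868)) (.t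 16844))) (.t 17899)) (.t 16875))) (.b 523 (.b 555 (.b 524 (.b 556 (.c 15) (.b 460 (.b 492 (.b 525 (.b 557 (.c 19) (.c 22)) (.b 461 (.b 493 (.c 11) (.t 16877)) (.t 16845))) (.t 17900)) (.t 17868))) (.b 460 (.b 492 (.b 461 (.b 493 (.c 11) (.b 525 (.b 557 (.c 19) (.t 17901)) (.t 16877))) (.b 525 (.b 557 (.c 19) (.t 17869)) (.t 16845))) (.t 16876)) (.t 16844))) (.t 17867)) (.t 16843))))))

theorem h3_000 : ver3b 11 adj rules (msk 11 false 5) (msk 11 false 3) (msk 11 false 7) c3_000 = true := by decide +kernel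

theorem hadj : ∀ j < 11, ∀ i < j, Nat.testBit (adj.getD i 0) j = decide ((j - i) % 3 = 1) := by decide +kernel

theorem htys : ∀ T ∈ tys, T = 0 ∨ ∃ b : Bool, ∃ m < 11, T = msk 11 b m := by decide +kernel

theorem htys0 : ∀ b : Bool, ∀ m < 11, ∃ i < 22, tys.getD (i + 1) 0 = msk 11 b m := by decide +kernel

end Pool.Agent.H333R2.St.FC.DA11
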