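import Pool.Agent.H333R2.St.FC3

/-! Certificates (generated). Types: 0=U, 1=v0, 2=v1, 3=v0v2, 4=v1v4, 5=v2v4, 6=v0t0, 7=v2t0, 8=v0v2t0, 9=v0v3t0, 10=v1x0, 11=v1v3x0, 12=v4x0, 13=v1v4x0, 14=t0x0, 15=v0v2u0, 16=v3u0, 17=v0v3u0, 18=v1v3u0, 19=v1v4u0 -/

set_option maxRecDepth 100000

namespace Pool.Agent.H333R2.St.FC.DC1

open Ct

def D : AD where
  n := 8
  adj := [82, 37, 74, 20, 41, 146, 133, 96]
  a3 := true
  tys := [0, 1, 2, 5, 18, 20, 33, 36, 37, 41, 66, 74, 80, 82, 96, 133, 136, 137, 138, 146]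
  rules := [(0, 82, 37)]
  nk := 3
  kt := [[0, 0, 0, 0, 0, 0, 0, 0, 1, 0, 0, 0, 0, 2, 0, 0, 0, 0, 0, 0], [0, 0, 0, 0, 0, 0, 0, 0, 0, 0, 0, 0, 0, 2, 0, 0, 0, 0, 0, 0], [0, 0, 0, 0, 0, 0, 0, 0, 1, 0, 0, 0, 0, 0, 0, 0, 0, 0, 0, 0], [0, 0, 0, 0, 0, 0, 0, 0, 0, 0, 0, 0, 0, 0, 0, 0, 0, 0, 0, 0], [0, 0, 0, 0, 0, 0, 0, 0, 0, 0, 0, 0, 0, 0, 0, 0, 0, 0, 0, 0], [0, 0, 0, 0, 0, 0, 0, 0, 0, 0, 0, 0, 0, 0, 0, 0, 0, 0, 0, 0], [0, 0, 0, 0, 0, 0, 0, 0, 0, 0, 0, 0, 0, 0, 0, 0, 0, 0, 0, 0], [0, 0, 0, 0, 0, 0, 0, 0, 0, 0, 0, 0, 3, 3, 0, 0, 0, 0, 0, 0], [1, 0, 1, 0, 0, 0, 0, 0, 0, 0, 0, 0, 3, 3, 0, 0, 0, 0, 0, 0], [0, 0, 0, 0, 0, 0, 0, 0, 0, 0, 0, 0, 0, 0, 0, 0, 0, 0, 0, 0], [0, 0, 0, 0, 0, 0, 0, 0, 0, 0, 0, 0, 0, 0, 0, 0, 0, 0, 0, 0], [0, 0, 0, 0, 0, 0, 0, 0, 0, 0, 0, 0, 0, 0, 0, 0, 0, 0, 0, 0], [0, 0, 0, 0, 0, 0, 0, 3, 3, 0, 0, 0, 0, 0, 0, 0, 0, 0, 0, 0], [2, 2, 0, 0, 0, 0, 0, 3, 3, 0, 0, 0, 0, 0, 0,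 0, 0, 0, 0, 0], [0, 0, 0, 0, 0, 0, 0, 0, 0, 0, 0, 0, 0, 0, 0, 0, 0, 0, 0, 0], [0, 0, 0, 0, 0, 0, 0, 0, 0, 0, 0, 0, 0, 0, 0, 0, 0, 0, 0, 0], [0, 0, 0, 0, 0, 0, 0, 0, 0, 0, 0, 0, 0, 0, 0, 0, 0, 0, 0, 0], [0, 0, 0, 0, 0, 0, 0, 0, 0, 0, 0, 0, 0, 0, 0, 0, 0, 0, 0, 0], [0, 0, 0, 0, 0, 0, 0, 0, 0, 0, 0, 0, 0, 0, 0, 0, 0, 0, 0, 0], [0, 0, 0, 0, 0, 0, 0, 0, 0, 0, 0, 0, 0, 0, 0, 0, 0, 0, 0, 0]]

theorem okK : D.okK = true := by decide +kernel

def c1 : Ct := .b 256 (.b 258 (.b 261 (.b 259 (.b 263 (.b 257 (.b 260 (.b 262 (.c 0) (.s 8798703653)) (.b 262 (.s 8727533602) (.c 12))) (.b 260 (.b 262 (.c 2) (.c 10)) (.b 262 (.c 4) (.c 13)))) (.b 262 (.b 257 (.s 8830158849) (.b 260 (.s 8830127108) (.c 19))) (.t 8422))) (.b 260 (.b 263 (.b 257 (.s 8692929537) (.b 262 (.s 8692866054) (.c 11))) (.b 262 (.b 257 (.c 16) (.c 18)) (.t 8422))) (.t 8323))) (.b 257 (.b 260 (.b 263 (.b 259 (.b 262 (.s 8765147142)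 (.c 14)) (.b 262 (.s 8695027744) (.a 214917254272))) (.t 8421)) (.t 8356)) (.t 8353))) (.b 257 (.b 259 (.b 262 (.b 260 (.b 263 (.b 261 (.s 8660423684) (.c 7)) (.s 8831209504)) (.b 261 (.b 263 (.c 5) (.a 213843517568)) (.t 8356))) (.t 8386)) (.t 8290)) (.t 8257))) (.b 257 (.b 260 (.b 262 (.b 259 (.b 263 (.b 258 (.b 261 (.c 1) (.c 6)) (.b 261 (.c 3) (.c 8))) (.b 261 (.b 258 (.s 8831241250) (.c 15)) (.t 8421))) (.b 258 (.b 261 (.b 263 (.s 8694996005) (.c 17)) (.b 263 (.c 9) (.t 8421))) (.t 8290))) (.t 8384)) (.t 8320)) (.t 8224))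

theorem h1 : ver1 D.n D.adj D.a3 D.tys c1 = true := by decide +kernel

def c2_0 : List (ℕ × ℕ × Ct) :=
  [(0, 1, .s 3289654592),
   (0, 2, .s 8893075648),
   (0, 3, .s 7685285184),
   (0, 4, .s 7717791041),
   (0, 5, .s 8896354336),
   (0, 6, .s 3289654592),
   (0, 7, .s 4296287554),
   (0, 9, .s 8895305762),
   (0, 10, .s 3355714881),
   (0, 11, .s 7688430659),
   (0, 12, .s 8898380898),
   (0, 14, .s 8898318368),
   (0, 15, .s 4464059586),
   (0, 16, .s 8895235266),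
   (0, 17, .s 8895235266),
   (0, 18, .s 203695427),
   (0, 19, .s 2349081764),
   (1, 1, .t 9472),
   (1, 2, .s 4397999425),
   (1, 3, .t 9472),
   (1, 4, .s 7719888193),
   (1, 5, .s 7685284962),
   (1, 6, .t 9472),
   (1, 7, .s 8596400226),
   (1, 8, .t 9472),
   (1, 9, .t 9472),
   (1, 10, .s 4397999425),
   (1, 11, .s 7688430659),
   (1, 12, .s 9932212385),
   (1, 14, .s 8898350114),
   (1, 15, .t 9472),
   (1, 16, .s 3531769024),
   (1, 17, .t 9472),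
   (1, 18, .s 8594368579),
   (1, 19, .s 6512977060),
   (2, 2, .t 9473),
   (2, 3, .s 7688430912),
   (2, 4, .t 9473),
   (2, 5, .s 5610153058),
   (2, 6, .s 2252612928),
   (2, 7, .s 9933263040),
   (2, 9, .s 7719888003),
   (2, 10, .t 9473),
   (2, 11, .t 9473),
   (2, 12, .s 8628938852),
   (2, 13, .t 9473),
   (2, 14, .s 8897235972),
   (2, 15, .s 5506344130),
   (2, 16, .s 10842539200),
   (2, 17, .s 8625825923),
   (2, 18, .t 9473),
   (2, 19, .t 9473),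
   (3, 3, .t 9472),
   (3, 4, .s 6682846529),
   (3, 5, .t 9474),
   (3, 6, .t 9472),
   (3, 7, .t 9474),
   (3, 8, .t 9472),
   (3, 9, .t 9472),
   (3, 10, .s 3360957761),
   (3, 11, .s 7688423747),
   (3, 12, .s 7685316706),
   (3, 13, .s 2416153924),
   (3, 14, .s 7693502472),
   (3, 15, .t 9472),
   (3, 16, .s 3531769024),
   (3, 17, .t 9472),
   (3, 18, .s 8596334759),
   (3, 19, .s 5613127688),
   (4, 4, .t 9473),
   (4, 5, .t 9476),
   (4, 6, .s 3294897472),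
   (4, 7, .s 4564687170),
   (4, 8, .s 4564687170),
   (4, 9, .s 7719883075),
   (4, 10, .t 9473),
   (4, 11, .t 9473),
   (4, 12, .t 9476),
   (4, 13, .t 9473),
   (4, 14, .s 7727058984),
   (4, 15, .s 6686871592),
   (4, 16, .s 3531800737),
   (4, 17, .s 8628840647),
   (4, 18, .t 9473),
   (4, 19, .t 9473),
   (5, 5, .t 9474),
   (5, 6, .s 3296957449),
   (5, 7, .t 9474),
   (5, 8, .t 9474),
   (5, 9, .s 8660423690),
   (5, 10, .s 3364067369),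
   (5, 11, .s 8727533610),
   (5, 12, .t 9476),
   (5, 13, .t 9476),
   (5, 14, .a 215991001216),
   (5, 15, .t 9474),
   (5, 16, .s 10978856992),
   (5, 17, .s 10978730018),
   (5, 18, .s 10977615876),
   (5, 19, .t 9476),
   (6, 6, .t 9472),
   (6, 7, .t 9477),
   (6, 8, .t 9472),
   (6, 9, .t 9472),
   (6, 10, .s 4397999425),
   (6, 11, .s 2257818632),
   (6, 12, .s 8759089250),
   (6, 13, .s 5637245254),
   (6, 14, .t 9477),
   (6, 15, .t 9472),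
   (6, 16, .s 7826637952),
   (6, 17, .t 9472),
   (6, 18, .s 8594368579),
   (6, 19, .s 6512973124),
   (7, 7, .t 9474),
   (7, 8, .t 9474),
   (7, 9, .t 9477),
   (7, 10, .s 3355714881),
   (7, 11, .s 8765155334),
   (7, 14, .t 9477),
   (7, 15, .t 9474),
   (7, 16, .s 7854884098),
   (7, 17, .s 8658331776),
   (7, 18, .s 6446916931),
   (7, 19, .s 8660428804),
   (8, 8, .t 9472),
   (8, 9, .t 9472),
   (8, 10, .s 6779146501),
   (8, 11, .s 10840413192),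
   (8, 14, .t 9477),
   (8, 15, .t 9472),
   (8, 16, .s 10847715496),
   (8, 17, .t 9472),
   (8, 18, .s 10847715496)]

theorem hc2_0 : D.all2 c2_0 = true := by decide +kernel

def c2_1 : List (ℕ × ℕ × Ct) :=
  [(8, 19, .s 10977642504),
   (9, 9, .t 9472),
   (9, 10, .s 4404254761),
   (9, 11, .t 9475),
   (9, 12, .s 10946191397),
   (9, 13, .s 8695027754),
   (9, 14, .t 9477),
   (9, 15, .t 9472),
   (9, 16, .t 9475),
   (9, 17, .t 9472),
   (9, 18, .t 9475),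
   (9, 19, .s 10977610760),
   (10, 10, .t 9473),
   (10, 11, .t 9473),
   (10, 12, .t 9478),
   (10, 13, .t 9473),
   (10, 14, .t 9478),
   (10, 15, .s 5506341186),
   (10, 16, .s 7826702401),
   (10, 17, .s 8625825923),
   (10, 18, .t 9473),
   (10, 19, .t 9473),
   (11, 11, .t 9473),
   (11, 12, .t 9478),
   (11, 13, .t 9473),
   (11, 14, .t 9478),
   (11, 15, .s 10978724904),
   (11, 16, .t 9475),
   (11, 17, .t 9475),
   (11, 18, .t 9473),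
   (11, 19, .t 9473),
   (12, 12, .t 9476),
   (12, 13, .t 9476),
   (12, 14, .t 9478),
   (12, 15, .s 8727537698),
   (12, 16, .s 35923267),
   (12, 17, .s 5404632387),
   (12, 18, .s 8724392001),
   (12, 19, .t 9476),
   (13, 13, .t 9473),
   (13, 14, .t 9478),
   (13, 15, .s 10978693160),
   (13, 16, .s 10847683784),
   (13, 17, .s 10847683784),
   (13, 18, .t 9473),
   (13, 19, .t 9473),
   (14, 14, .t 9477),
   (14, 15, .s 8765147146),
   (14, 16, .s 10842544160),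
   (14, 17, .s 10842480677),
   (14, 18, .s 10840350726),
   (14, 19, .s 8798703658),
   (15, 15, .t 9472),
   (15, 16, .t 9479),
   (15, 17, .t 9472),
   (15, 18, .t 9479),
   (15, 19, .t 9479),
   (16, 16, .t 9475),
   (16, 17, .t 9475),
   (16, 18, .t 9475),
   (16, 19, .t 9479),
   (17, 17, .t 9472),
   (17, 18, .t 9475),
   (17, 19, .t 9479),
   (18, 18, .t 9473),
   (18, 19, .t 9473),
   (19, 19, .t 9473)]

theorem hc2_1 : D.all2 c2_1 = true := by decide +kernel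

def c2 : List (ℕ × ℕ × Ct) := c2_0 ++ c2_1

theorem hc2 : D.all2 c2 = true := by
  unfold c2 AD.all2
  simp only [List.all_append, Bool.and_eq_true]
  exact ⟨hc2_0, hc2_1⟩

def c3_0 : List (ℕ × ℕ × ℕ × Ct) :=
  [(0, 8, 13, .b 360 (.b 392 (.b 361 (.b 393 (.c 3) (.b 425 (.b 457 (.b 428 (.s 10071782500) (.b 460 (.s 10071783524) (.b 362 (.b 394 (.c 7) (.c 10)) (.b 426 (.b 458 (.c 23) (.c 34)) (.c 32))))) (.c 31)) (.c 29))) (.b 425 (.b 457 (.b 427 (.s 10038228068) (.b 459 (.s 10038229092) (.b 394 (.b 362 (.c 7) (.b 426 (.b 458 (.c 23) (.c 34)) (.c 32))) (.b 426 (.b 458 (.c 23) (.c 35)) (.c 33))))) (.c 30)) (.c 28))) (.b 424 (.b 456 (.b 428 (.s 8998040676) (.b 460 (.s 8998041700) (.b 361 (.b 393 (.b 362 (.b 394 (.c 11) (.c 6)) (.b 426 (.b 458 (.c 19) (.c 34)) (.c 32))) (.c 2)) (.b 425 (.b 457 (.c 15) (.c 30)) (.c 28))))) (.c 27)) (.c 25))) (.b 424 (.b 456 (.b 427 (.s 8964486244) (.b 459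 (.s 8964487268) (.b 393 (.b 394 (.b 361 (.b 362 (.c 11) (.b 426 (.b 458 (.c 19) (.c 34)) (.c 32))) (.b 425 (.b 457 (.c 15) (.c 30)) (.c 28))) (.b 426 (.b 458 (.c 19) (.c 35)) (.c 33))) (.b 425 (.b 457 (.c 15) (.c 31)) (.c 29))))) (.c 26)) (.c 24))),
   (8, 0, 12, .b 427 (.b 428 (.b 459 (.b 460 (.b 360 (.b 392 (.b 361 (.b 393 (.c 3) (.b 425 (.s 14096409634) (.b 457 (.s 15170151458) (.b 362 (.b 394 (.c 7) (.c 10)) (.b 426 (.s 14096377890) (.b 458 (.s 15170119714) (.c 20))))))) (.b 425 (.s 14096376866) (.b 457 (.s 15170118690) (.b 362 (.b 394 (.c 7) (.b 426 (.s 14096410658) (.b 458 (.s 15170152482) (.c 20)))) (.b 426 (.s 14096377890) (.b 458 (.s 15170119714) (.c 20))))))) (.b 424 (.s 14096408610) (.b 456 (.s 15170150434) (.b 361 (.b 393 (.b 362 (.b 394 (.c 11) (.c 6)) (.b 426 (.s 14096377890) (.b 458 (.s 15170119714) (.c 16)))) (.c 2)) (.b 425 (.s 14096376866) (.b 457 (.s 15170118690)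 (.c 12))))))) (.b 424 (.s 14096375842) (.b 456 (.s 15170117666) (.b 425 (.b 361 (.b 393 (.b 362 (.b 394 (.c 11) (.b 426 (.s 14096410658) (.b 458 (.s 15170152482) (.c 16)))) (.b 426 (.s 14096377890) (.b 458 (.s 15170119714) (.c 16)))) (.s 14096409634)) (.s 14096376866)) (.b 457 (.b 361 (.b 393 (.b 426 (.b 362 (.b 394 (.c 11) (.s 14096410658)) (.s 14096377890)) (.b 458 (.c 21) (.c 16))) (.s 15170151458)) (.s 15170118690)) (.c 12)))))) (.s 13361120354)) (.s 12287378530)) (.s 13327565922)) (.s 12253824098)),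
   (8, 0, 13, .b 427 (.b 428 (.b 459 (.b 460 (.b 360 (.b 392 (.b 361 (.b 393 (.c 3) (.b 425 (.s 13192344676) (.b 457 (.s 13192345700) (.b 362 (.b 394 (.c 7) (.c 10)) (.b 426 (.s 12152157284) (.b 458 (.s 12152158308) (.c 20))))))) (.b 425 (.s 12118602852) (.b 457 (.s 12118603876) (.b 362 (.b 394 (.c 7) (.b 426 (.s 13225899108) (.b 458 (.s 13225900132) (.c 20)))) (.b 426 (.s 12152157284) (.b 458 (.s 12152158308) (.c 20))))))) (.b 424 (.s 13158790244) (.b 456 (.s 13158791268) (.b 361 (.b 393 (.b 362 (.b 394 (.c 11) (.c 6)) (.b 426 (.s 12152157284) (.b 458 (.s 12152158308) (.c 16)))) (.c 2)) (.b 425 (.s 12118602852) (.b 457 (.s 12118603876) (.c 12))))))) (.b 424 (.s 12085048420) (.b 456 (.s 12085049444) (.b 425 (.b 361 (.b 393 (.b 362 (.b 394 (.c 11) (.b 426 (.s 13225899108) (.b 458 (.s 13225900132) (.c 16)))) (.b 426 (.s 12152157284) (.b 458 (.s 12152158308) (.c 16)))) (.s 13192344676))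 (.s 12118602852)) (.b 457 (.b 361 (.b 393 (.b 426 (.b 362 (.b 394 (.c 11) (.s 13225899108)) (.s 12152157284)) (.b 458 (.c 21) (.c 16))) (.s 13192345700)) (.s 12118603876)) (.c 12)))))) (.b 392 (.b 393 (.b 394 (.b 456 (.s 13361127522) (.b 457 (.s 13361128546) (.b 458 (.s 13361129570) (.b 360 (.b 361 (.c 3) (.b 425 (.s 12118602852) (.b 362 (.c 7) (.c 9)))) (.b 424 (.s 12085048420) (.b 361 (.b 362 (.c 11) (.c 5)) (.c 1))))))) (.c 35)) (.c 34)) (.c 33))) (.b 360 (.b 361 (.b 362 (.b 456 (.s 12287385698) (.b 457 (.s 12287386722) (.b 458 (.s 12287387746) (.b 392 (.b 393 (.c 3) (.b 460 (.b 425 (.s 13192344676) (.b 394 (.c 7) (.c 10))) (.c 34))) (.b 460 (.b 424 (.s 13158790244) (.b 393 (.b 394 (.c 11) (.c 6)) (.c 2))) (.c 33)))))) (.c 29)) (.c 28)) (.c 27))) (.b 392 (.b 393 (.b 394 (.b 424 (.s 13327573090) (.b 425 (.s 13327574114) (.b 426 (.s 13327575138) (.b 360 (.b 361 (.c 3) (.b 459 (.b 457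 (.s 12118603876) (.b 362 (.c 7) (.c 9))) (.c 28))) (.b 459 (.b 456 (.s 12085049444) (.b 361 (.b 362 (.c 11) (.c 5)) (.c 1))) (.c 27)))))) (.c 32)) (.c 31)) (.c 30))) (.b 360 (.b 361 (.b 362 (.b 424 (.s 12253831266) (.b 425 (.s 12253832290) (.b 426 (.s 12253833314) (.b 392 (.b 393 (.c 3) (.b 428 (.b 460 (.b 457 (.s 13192345700) (.b 394 (.c 7) (.c 10))) (.c 34)) (.c 31))) (.b 428 (.b 460 (.b 456 (.s 13158791268) (.b 393 (.b 394 (.c 11) (.c 6)) (.c 2))) (.c 33)) (.c 30)))))) (.c 26)) (.c 25)) (.c 24))),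
   (8, 2, 12, .b 427 (.s 11850167396) (.b 459 (.s 11850168420) (.b 428 (.s 12923909220) (.b 460 (.s 12923910244) (.b 360 (.b 424 (.s 12253831266) (.b 392 (.b 456 (.s 12287385698) (.b 361 (.b 425 (.s 12253832290) (.b 393 (.c 3) (.t 13705))) (.b 425 (.b 457 (.b 393 (.s 13327574114) (.b 362 (.b 426 (.s 12253833314) (.b 394 (.c 7) (.t 13706))) (.b 426 (.b 458 (.c 23) (.t 14698)) (.t 13674)))) (.t 14697)) (.t 13673)))) (.t 13704))) (.b 424 (.b 456 (.b 392 (.s 13327573090) (.b 361 (.b 425 (.s 12253832290) (.b 393 (.b 457 (.s 12287386722) (.b 362 (.b 426 (.s 12253833314) (.b 394 (.c 11) (.t 13706))) (.b 426 (.b 458 (.c 19) (.t 14698)) (.t 13674)))) (.t 13705))) (.b 425 (.b 457 (.c 15) (.t 14697)) (.t 13673)))) (.t 14696)) (.t 13672))))))),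
   (8, 2, 13, .b 360 (.b 392 (.b 361 (.b 393 (.c 3) (.b 425 (.s 13192344676) (.b 457 (.s 13192345700) (.b 362 (.b 394 (.c 7) (.c 10)) (.b 426 (.s 12152157284) (.b 458 (.s 12152158308) (.c 20))))))) (.b 425 (.s 12118602852) (.b 457 (.s 12118603876) (.b 362 (.b 394 (.c 7) (.b 426 (.s 13225899108) (.b 458 (.s 13225900132) (.c 20)))) (.b 426 (.s 12152157284) (.b 458 (.s 12152158308) (.c 20))))))) (.b 424 (.s 13158790244) (.b 456 (.s 13158791268) (.b 361 (.b 393 (.b 362 (.b 394 (.c 11) (.c 6)) (.b 426 (.s 12152157284) (.b 458 (.s 12152158308) (.c 16)))) (.c 2)) (.b 425 (.s 12118602852) (.b 457 (.s 12118603876) (.c 12))))))) (.b 424 (.s 12085048420) (.b 456 (.s 12085049444) (.b 425 (.b 361 (.b 393 (.b 362 (.b 394 (.c 11) (.b 426 (.s 13225899108) (.b 458 (.s 13225900132) (.c 16)))) (.b 426 (.s 12152157284) (.b 458 (.s 12152158308) (.c 16)))) (.s 13192344676)) (.s 12118602852)) (.b 457 (.b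 361 (.b 393 (.b 426 (.b 362 (.b 394 (.c 11) (.s 13225899108)) (.s 12152157284)) (.b 458 (.c 21) (.c 16))) (.s 13192345700)) (.s 12118603876)) (.c 12)))))),
   (13, 0, 7, .b 427 (.b 428 (.b 459 (.b 460 (.b 360 (.b 392 (.b 361 (.b 393 (.c 3) (.b 425 (.s 13193360482) (.b 457 (.s 13193361506) (.b 362 (.b 394 (.c 7) (.c 10)) (.b 426 (.s 12153173090) (.b 458 (.s 12153174114) (.c 20))))))) (.b 425 (.s 12119618658) (.b 457 (.s 12119619682) (.b 362 (.b 394 (.c 7) (.b 426 (.s 13226914914) (.b 458 (.s 13226915938) (.c 20)))) (.b 426 (.s 12153173090) (.b 458 (.s 12153174114) (.c 20))))))) (.b 424 (.s 13159806050) (.b 456 (.s 13159807074) (.b 361 (.b 393 (.b 362 (.b 394 (.c 11) (.c 6)) (.b 426 (.s 12153173090) (.b 458 (.s 12153174114) (.c 16)))) (.c 2)) (.b 425 (.s 12119618658) (.b 457 (.s 12119619682) (.c 12))))))) (.b 424 (.s 12086064226) (.b 456 (.s 12086065250) (.b 425 (.b 361 (.b 393 (.b 362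 (.b 394 (.c 11) (.b 426 (.s 13226914914) (.b 458 (.s 13226915938) (.c 16)))) (.b 426 (.s 12153173090) (.b 458 (.s 12153174114) (.c 16)))) (.s 13193360482)) (.s 12119618658)) (.b 457 (.b 361 (.b 393 (.b 426 (.b 362 (.b 394 (.c 11) (.s 13226914914)) (.s 12153173090)) (.b 458 (.c 21) (.c 16))) (.s 13193361506)) (.s 12119619682)) (.c 12)))))) (.s 13360103524)) (.s 12286361700)) (.s 13326549092)) (.s 12252807268)),
   (13, 0, 8, .b 427 (.b 428 (.b 459 (.b 460 (.b 360 (.b 392 (.b 361 (.b 393 (.c 3) (.b 425 (.s 13193360482) (.b 457 (.s 13193361506) (.b 362 (.b 394 (.c 7) (.c 10)) (.b 426 (.s 12153173090) (.b 458 (.s 12153174114) (.c 20))))))) (.b 425 (.s 12119618658) (.b 457 (.s 12119619682) (.b 362 (.b 394 (.c 7) (.b 426 (.s 13226914914) (.b 458 (.s 13226915938) (.c 20)))) (.b 426 (.s 12153173090) (.b 458 (.s 12153174114) (.c 20))))))) (.b 424 (.s 13159806050) (.b 456 (.s 13159807074) (.b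 361 (.b 393 (.b 362 (.b 394 (.c 11) (.c 6)) (.b 426 (.s 12153173090) (.b 458 (.s 12153174114) (.c 16)))) (.c 2)) (.b 425 (.s 12119618658) (.b 457 (.s 12119619682) (.c 12))))))) (.b 424 (.s 12086064226) (.b 456 (.s 12086065250) (.b 425 (.b 361 (.b 393 (.b 362 (.b 394 (.c 11) (.b 426 (.s 13226914914) (.b 458 (.s 13226915938) (.c 16)))) (.b 426 (.s 12153173090) (.b 458 (.s 12153174114) (.c 16)))) (.s 13193360482)) (.s 12119618658)) (.b 457 (.b 361 (.b 393 (.b 426 (.b 362 (.b 394 (.c 11) (.s 13226914914)) (.s 12153173090)) (.b 458 (.c 21) (.c 16))) (.s 13193361506)) (.s 12119619682)) (.c 12)))))) (.b 392 (.b 393 (.b 394 (.b 456 (.s 13360111716) (.b 457 (.s 13360112740) (.b 458 (.s 13360113764) (.b 360 (.b 361 (.c 3) (.b 425 (.s 12119618658) (.b 362 (.c 7) (.c 9)))) (.b 424 (.s 12086064226) (.b 361 (.b 362 (.c 11) (.c 5)) (.c 1))))))) (.c 35)) (.c 33)) (.c 31))) (.b 360 (.b 361 (.b 362 (.b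 456 (.s 12286369892) (.b 457 (.s 12286370916) (.b 458 (.s 12286371940) (.b 392 (.b 393 (.c 3) (.b 460 (.b 425 (.s 13193360482) (.b 394 (.c 7) (.c 10))) (.c 33))) (.b 460 (.b 424 (.s 13159806050) (.b 393 (.b 394 (.c 11) (.c 6)) (.c 2))) (.c 31)))))) (.c 29)) (.c 27)) (.c 25))) (.b 392 (.b 393 (.b 394 (.b 424 (.s 13326557284) (.b 425 (.s 13326558308) (.b 426 (.s 13326559332) (.b 360 (.b 361 (.c 3) (.b 459 (.b 457 (.s 12119619682) (.b 362 (.c 7) (.c 9))) (.c 27))) (.b 459 (.b 456 (.s 12086065250) (.b 361 (.b 362 (.c 11) (.c 5)) (.c 1))) (.c 25)))))) (.c 34)) (.c 32)) (.c 30))) (.b 360 (.b 361 (.b 362 (.b 424 (.s 12252815460) (.b 425 (.s 12252816484) (.b 426 (.s 12252817508) (.b 392 (.b 393 (.c 3) (.b 428 (.b 460 (.b 457 (.s 13193361506) (.b 394 (.c 7) (.c 10))) (.c 33)) (.c 32))) (.b 428 (.b 460 (.b 456 (.s 13159807074) (.b 393 (.b 394 (.c 11) (.c 6)) (.c 2))) (.c 31)) (.c 30)))))) (.c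 28)) (.c 26)) (.c 24)))]

theorem hc3_0 : D.all3 c3_0 = true := by decide +kernel

def c3_1 : List (ℕ × ℕ × ℕ × Ct) :=
  [(13, 1, 7, .b 427 (.s 11817628770) (.b 459 (.s 11817629794) (.b 428 (.s 12891370594) (.b 460 (.s 12891371618) (.b 360 (.b 424 (.s 12252815460) (.b 392 (.b 456 (.s 12286369892) (.b 361 (.b 425 (.s 12252816484) (.b 393 (.c 3) (.t 13705))) (.b 425 (.b 457 (.b 393 (.s 13326558308) (.b 362 (.b 426 (.s 12252817508) (.b 394 (.c 7) (.t 13706))) (.b 426 (.b 458 (.c 23) (.t 14698)) (.t 13674)))) (.t 14697)) (.t 13673)))) (.t 13704))) (.b 424 (.b 456 (.b 392 (.s 13326557284) (.b 361 (.b 425 (.s 12252816484) (.b 393 (.b 457 (.s 12286370916) (.b 362 (.b 426 (.s 12252817508) (.b 394 (.c 11) (.t 13706))) (.b 426 (.b 458 (.c 19) (.t 14698)) (.t 13674)))) (.t 13705))) (.b 425 (.b 457 (.c 15) (.t 14697)) (.t 13673)))) (.t 14696)) (.t 13672))))))),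
   (13, 1, 8, .b 360 (.b 392 (.b 361 (.b 393 (.c 3) (.b 425 (.s 13193360482) (.b 457 (.s 13193361506) (.b 362 (.b 394 (.c 7) (.c 10)) (.b 426 (.s 12153173090) (.b 458 (.s 12153174114) (.c 20))))))) (.b 425 (.s 12119618658) (.b 457 (.s 12119619682) (.b 362 (.b 394 (.c 7) (.b 426 (.s 13226914914) (.b 458 (.s 13226915938) (.c 20)))) (.b 426 (.s 12153173090) (.b 458 (.s 12153174114) (.c 20))))))) (.b 424 (.s 13159806050) (.b 456 (.s 13159807074) (.b 361 (.b 393 (.b 362 (.b 394 (.c 11) (.c 6)) (.b 426 (.s 12153173090) (.b 458 (.s 12153174114) (.c 16)))) (.c 2)) (.b 425 (.s 12119618658) (.b 457 (.s 12119619682) (.c 12))))))) (.b 424 (.s 12086064226) (.b 456 (.s 12086065250) (.b 425 (.b 361 (.b 393 (.b 362 (.b 394 (.c 11) (.b 426 (.s 13226914914) (.b 458 (.s 13226915938) (.c 16)))) (.b 426 (.s 12153173090) (.b 458 (.s 12153174114) (.c 16)))) (.s 13193360482)) (.s 12119618658)) (.b 457 (.b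 361 (.b 393 (.b 426 (.b 362 (.b 394 (.c 11) (.s 13226914914)) (.s 12153173090)) (.b 458 (.c 21) (.c 16))) (.s 13193361506)) (.s 12119619682)) (.c 12))))))]

theorem hc3_1 : D.all3 c3_1 = true := by decide +kernel

def c3 : List (ℕ × ℕ × ℕ × Ct) := c3_0 ++ c3_1

theorem hc3 : D.all3 c3 = true := by
  unfold c3 AD.all3
  simp only [List.all_append, Bool.and_eq_true]
  exact ⟨hc3_0, hc3_1⟩

def c4_0 : List (ℕ × ℕ × Ct) :=
  [(0, 2, .s 8893075648),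
   (0, 1, .s 8892024993)]

theorem hc4_0 : D.all4 c4_0 = true := by decide +kernel

def c4 : List (ℕ × ℕ × Ct) := c4_0

theorem hc4 : D.all4 c4 = true := hc4_0

def c5 : List (List ℕ × Ct) := []

theorem hc5 : D.all5 c5 = true := rfl

theorem cov2 : D.cover2 (c2.map fun x => (x.1, x.2.1)) = true := by decide +kernel

theorem cov3 : D.cover3 (c3.map fun x => (x.1, x.2.1, x.2.2.1)) = true := by decide +kernel

/-- sides of the kinds -/
def sides : List (List ℕ × List ℕ) := [([0, 2], [8]), ([0, 1], [13]), ([7, 8], [12, 13])]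

/-- kinds with independent sides -/
def good : List ℕ := [0, 1, 2]

theorem hsides : ∀ k < D.nk, D.kindOK (k + 1) (sides.getD k ([], [])).1 (sides.getD k ([], [])).2 = true := by
  decide +kernel

theorem hgood : ∀ k ∈ good, D.indOK (c4.map fun x => (x.1, x.2.1)) (sides.getD k ([], [])).1 = true ∧
    D.indOK (c4.map fun x => (x.1, x.2.1)) (sides.getD k ([], [])).2 = true := by
  decide +kernel

theorem hpat : ∀ k < D.nk, k ∉ good → cover5 (c5.map fun x => x.1) (sides.getD k ([], [])).1 (sides.getD k ([], [])).2 = true := by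
  decide +kernel

end Pool.Agent.H333R2.St.FC.DC1
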