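import Pool.Agent.H333R2.St.FC4

/-! Certificates for the anchor `(c)_2` (generated). -/

set_option maxRecDepth 100000

namespace Pool.Agent.H333R2.St.FC.DC2

open Ct

def adj : List ℕ := [594, 293, 586, 20, 297, 658, 389, 96, 1106, 1061, 768]

def tys : List ℕ := [0, 1, 2, 20, 96, 292, 293, 297, 389, 586, 592, 594, 658, 768, 1061, 1106]

def c1 : Ct := .b 354 (.b 357 (.b 360 (.b 355 (.b 359 (.b 362 (.b 356 (.b 358 (.b 361 (.b 352 (.b 353 (.c 0) (.c 2)) (.b 353 (.c 1) (.t 11296))) (.s 12118597732)) (.b 352 (.b 361 (.s 12021175396) (.s 3364138214)) (.t 11456))) (.b 352 (.b 358 (.b 353 (.s 11948759074) (.b 361 (.s 4665350434) (.s 7726214244))) (.b 361 (.s 11044858980) (.b 353 (.c 10) (.c 11)))) (.t 11392))) (.b 361 (.b 353 (.s 12155193505) (.b 352 (.b 358 (.s 11107801186) (.b 356 (.s 12021175396) (.c 15))) (.t 11296))) (.t 11593))) (.b 358 (.b 353 (.s 12051384577) (.b 352 (.b 356 (.s 12051352580) (.b 362 (.b 361 (.s 4665451714) (.c 12)) (.s 2349149348))) (.t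 11296))) (.t 11494))) (.b 356 (.b 359 (.b 353 (.s 11914155265) (.b 352 (.b 362 (.b 361 (.s 3591709925) (.b 358 (.s 11914091526) (.c 9))) (.s 7688498243)) (.t 11296))) (.b 358 (.b 362 (.s 11010288707) (.b 361 (.b 353 (.s 7888700706) (.b 352 (.s 7888732420) (.t 11296))) (.t 11593))) (.t 11494))) (.t 11395))) (.b 353 (.b 356 (.b 358 (.b 362 (.b 355 (.b 359 (.b 361 (.s 12086060130) (.b 352 (.c 13) (.t 11552))) (.s 12052466722)) (.b 359 (.s 11916221477) (.b 361 (.s 7888774178) (.a 286996433985)))) (.t 11592)) (.t 11526)) (.t 11524)) (.t 11521))) (.b 353 (.b 356 (.b 359 (.b 361 (.b 362 (.b 360 (.b 355 (.b 358 (.s 11988637794) (.b 352 (.c 4) (.t 11456))) (.s 11007012069)) (.b 358 (.b 355 (.s 3298045157) (.b 352 (.s 11916253216) (.c 7))) (.t 11526))) (.b 360 (.b 355 (.s 12156275746) (.b 358 (.s 11109898274) (.a 183819701313))) (.t 11592))) (.t 11557)) (.t 11493)) (.t 11428)) (.t 11425))) (.b 353 (.b 355 (.b 358 (.b 361 (.b 356 (.b 359 (.b 362 (.b 357 (.b 360 (.s 11881649412)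 (.s 7693675618)) (.b 360 (.s 11012320354) (.b 352 (.c 5) (.c 6)))) (.b 360 (.b 352 (.s 12156244000) (.b 357 (.s 4464127170) (.c 14))) (.t 11592))) (.b 357 (.b 352 (.s 12052434976) (.b 362 (.b 360 (.s 4564692258) (.c 8)) (.s 4464127170))) (.t 11493))) (.b 352 (.b 357 (.b 360 (.b 359 (.b 362 (.c 3) (.s 11110946848)) (.a 213843520640)) (.t 11524)) (.t 11428)) (.t 11392))) (.t 11554)) (.t 11458)) (.t 11362)) (.t 11329))

theorem h1 : ver1 11 adj true tys c1 = true := by decide +kernel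

def t_5 : List Ct := [.s 13263706210, .s 13263706210, .t 12641, .t 12644, .s 13094923364, .s 7895003234, .s 7895003234, .s 7886451016, .t 12647, .t 12641, .t 12644, .t 12641, .t 12641, .t 12649, .s 4665454786, .t 12641]

theorem ht_5 : ∀ i < 16, ver4b 11 adj true (adj.getD 5 0) (tys.getD i 0) (Nat.testBit (tys.getD i 0) 5)
    (t_5.getD i (.t 0)) = true := by decide +kernel

def t_6 : List Ct := [.s 4464192706, .t 12640, .s 5506477250, .t 12642, .s 13062384738, .t 12642, .t 12640, .t 12640, .t 12640, .s 3625168200, .s 13022506018, .s 7893987428, .t 12647, .t 12648, .t 12640, .s 4698909986]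

theorem ht_6 : ∀ i < 16, ver4b 11 adj true (adj.getD 6 0) (tys.getD i 0) (Nat.testBit (tys.getD i 0) 6)
    (t_6.getD i (.t 0)) = true := by decide +kernel

def t_7 : List Ct := [.s 13260394528, .s 12213913857, .s 12214964512, .s 12218344480, .t 12645, .t 12645, .t 12645, .t 12645, .s 11988643938, .t 12646, .t 12646, .t 12646, .s 12021182564, .s 13260394528, .t 12645, .t 12646]

theorem ht_7 : ∀ i < 16, ver4b 11 adj true (adj.getD 7 0) (tys.getD i 0) (Nat.testBit (tys.getD i 0) 7)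
    (t_7.getD i (.t 0)) = true := by decide +kernel

def t_8 : List Ct := [.s 13260465250, .s 13260465250, .t 12641, .t 12644, .t 12646, .s 11112984674, .s 11112984674, .s 6812709157, .s 4665356578, .t 12641, .t 12644, .t 12641, .t 12641, .s 13192342628, .t 12650, .t 12641]

theorem ht_8 : ∀ i < 16, ver4b 11 adj true (adj.getD 8 0) (tys.getD i 0) (Nat.testBit (tys.getD i 0) 8)
    (t_8.getD i (.t 0)) = true := by decide +kernel

def t_9 : List Ct := [.s 4564856098, .t 12640, .s 8727702818, .t 12642, .t 12645, .t 12642, .t 12640, .t 12640, .t 12640, .s 3625266405, .s 13022604322, .s 11111968868, .s 4699008194, .s 13159804002, .t 12640, .t 12650]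

theorem ht_9 : ∀ i < 16, ver4b 11 adj true (adj.getD 9 0) (tys.getD i 0) (Nat.testBit (tys.getD i 0) 9)
    (t_9.getD i (.t 0)) = true := by decide +kernel

def t_10 : List Ct := [.s 13263540256, .s 12213913761, .s 12214964416, .s 12218243104, .s 12220207136, .t 12648, .t 12648, .t 12648, .t 12648, .t 12649, .t 12649, .t 12649, .t 12649, .t 12648, .s 12086063202, .s 12118601828]

theorem ht_10 : ∀ i < 16, ver4b 11 adj true (adj.getD 10 0) (tys.getD i 0) (Nat.testBit (tys.getD i 0) 10)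
    (t_10.getD i (.t 0)) = true := by decide +kernel

theorem hdef : ∀ T ∈ tys, (∃ v, 5 ≤ v ∧ v < 11 ∧ T = adj.getD v 0) ∨
    (Nat.testBit T 5 = Nat.testBit T 8 ∧ Nat.testBit T 6 = Nat.testBit T 9 ∧ Nat.testBit T 7 = false ∧
      Nat.testBit T 10 = false) := by
  have : ∀ T ∈ tys, (∃ v < 11, 5 ≤ v ∧ T = adj.getD v 0) ∨
      (Nat.testBit T 5 = Nat.testBit T 8 ∧ Nat.testBit T 6 = Nat.testBit T 9 ∧ Nat.testBit T 7 = false ∧
        Nat.testBit T 10 = false) := by decide +kernel
  intro T hT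
  rcases this T hT with ⟨v, h1, h2, h3⟩ | h
  · exact Or.inl ⟨v, h2, h1, h3⟩
  · exact Or.inr h

theorem hlen : tys.length = 16 := rfl

end Pool.Agent.H333R2.St.FC.DC2
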