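import Pool.Agent.H175R2.Cw

/-! Clique-width of `(K₃, S_{1,2,3})`-free graphs: definitions and the statements of all modules.
Every module proves one `Stmt_…` (possibly from other `Stmt_…` taken as hypotheses). -/

namespace Pool.Agent.H333R2.St

open Finset Classical
open Pool.Agent.H175R2 (Cn cliqueWidth)

/-! ## The class -/

/-- triangle-free -/
def TF {V : Type} (G : SimpleGraph V) : Prop := ∀ a b c, G.Adj a b → G.Adj b c → ¬ G.Adj a c

/-- induced `S_{1,2,3}`: centre `x`, leaf `a`, path `b1 b2`, path `c1 c2 c3` -/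
def S7 {V : Type} (G : SimpleGraph V) (x a b1 b2 c1 c2 c3 : V) : Prop :=
  (G.Adj x a ∧ G.Adj x b1 ∧ G.Adj x c1 ∧ G.Adj b1 b2 ∧ G.Adj c1 c2 ∧ G.Adj c2 c3) ∧
  (¬ G.Adj x b2 ∧ ¬ G.Adj x c2 ∧ ¬ G.Adj x c3 ∧ ¬ G.Adj a b1 ∧ ¬ G.Adj a b2 ∧ ¬ G.Adj a c1 ∧
   ¬ G.Adj a c2 ∧ ¬ G.Adj a c3 ∧ ¬ G.Adj b1 c1 ∧ ¬ G.Adj b1 c2 ∧ ¬ G.Adj b1 c3 ∧
   ¬ G.Adj b2 c1 ∧ ¬ G.Adj b2 c2 ∧ ¬ G.Adj b2 c3 ∧ ¬ G.Adj c1 c3)

/-- `S_{1,2,3}`-free (the seven vertices of an `S7` are automatically distinct) -/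
def SF {V : Type} (G : SimpleGraph V) : Prop := ∀ x a b1 b2 c1 c2 c3, ¬ S7 G x a b1 b2 c1 c2 c3

/-- no two vertices have the same neighbourhood -/
def TwinFree {V : Type} (G : SimpleGraph V) : Prop := ∀ u v, u ≠ v → ∃ w, ¬ (G.Adj u w ↔ G.Adj v w)

/-! ## Decomposition trees -/

/-- trace of `x` on `Z` -/
noncomputable def trc {V : Type} (G : SimpleGraph V) (Z : Finset V) (x : V) : Finset V :=
  Z.filter (fun y => G.Adj x y)

/-- number of different traces (also the empty one counts) of the vertices of `A` on `Z` -/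
noncomputable def tr {V : Type} (G : SimpleGraph V) (A Z : Finset V) : ℕ := (A.image (trc G Z)).card

/-- binary trees all of whose inner node sets satisfy `P` -/
inductive BT {V : Type} (P : Finset V → Prop) : Finset V → Prop
  | leaf (x : V) : BT P {x}
  | node {A B : Finset V} (hd : Disjoint A B) (hA : BT P A) (hB : BT P B) (h : P (A ∪ B)) :
      BT P (A ∪ B)

/-- tree of width `K` for `G[R]` -/
def Bd {V : Type} (G : SimpleGraph V) (K : ℕ) (R : Finset V) : Prop :=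
  BT (fun A => tr G A (R \ A) ≤ K) R

/-! ## Module A: basics of trees -/

def Stmt_BdCw : Prop := ∀ (V : Type) [Fintype V] (G : SimpleGraph V) (K : ℕ),
  Bd G K univ → cliqueWidth G ≤ 3 * (K + 1)

/-- gluing a sequence of sets -/
def Stmt_Glue : Prop := ∀ (V : Type) (Q : Finset V → Prop) (L : ℕ) (W : ℕ → Finset V),
  (∀ s < L, ∀ t < L, s ≠ t → Disjoint (W s) (W t)) → (∀ s < L, W s = ∅ ∨ BT Q (W s)) →
  (∀ t ≤ L, Q ((range t).biUnion W)) → ((range L).biUnion W).Nonempty →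
  BT Q ((range L).biUnion W)

/-- a tree for the induced graph is a tree for the finset -/
def Stmt_Induce : Prop := ∀ (V : Type) [Fintype V] (G : SimpleGraph V) (K : ℕ) (R : Finset V),
  Bd (G.induce (R : Set V)) K univ → Bd G K R

/-- a twin can be inserted -/
def Stmt_AddTwin : Prop := ∀ (V : Type) (G : SimpleGraph V) (K : ℕ) (R : Finset V) (u u' : V),
  u ∈ R → u' ∉ R → (∀ w ∈ R, G.Adj u w ↔ G.Adj u' w) → ¬ G.Adj u u' → 2 ≤ K → Bd G K R →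
  Bd G K (insert u' R)

/-- reduction to connected twin-free graphs -/
def Stmt_Red : Prop :=
  (∃ K, ∀ (V : Type) [Fintype V] (G : SimpleGraph V), TF G → SF G → Cn G univ → TwinFree G →
    Bd G K univ) →
  ∃ K, ∀ (V : Type) [Fintype V] [Nonempty V] (G : SimpleGraph V), TF G → SF G → Bd G K univ

/-! ## Module LZ: bipartite graphs (Lozin's theorem) -/

/-- `c` is a proper 2-colouring -/
def Bip {V : Type} (H : SimpleGraph V) (c : V → Bool) : Prop := ∀ u v, H.Adj u v → c u ≠ c v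

/-- bipartite complement -/
def coB {V : Type} (H : SimpleGraph V) (c : V → Bool) : SimpleGraph V where
  Adj u v := c u ≠ c v ∧ ¬ H.Adj u v
  symm := ⟨fun _ _ h => ⟨h.1.symm, fun h' => h.2 h'.symm⟩⟩
  loopless := ⟨fun _ h => h.1 rfl⟩

/-- `H[X]` is disconnected -/
def Dis {V : Type} (H : SimpleGraph V) (X : Finset V) : Prop :=
  ∃ Y ⊆ X, Y.Nonempty ∧ (X \ Y).Nonempty ∧ ∀ u ∈ Y, ∀ v ∈ X \ Y, ¬ H.Adj u v

/-- skew cut: the `b`-coloured part of `Y` is complete to the rest of the other colour, the other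
part of `Y` is anticomplete to the rest of colour `b` -/
def Skew {V : Type} (H : SimpleGraph V) (c : V → Bool) (X : Finset V) : Prop :=
  ∃ b : Bool, ∃ Y ⊆ X, Y.Nonempty ∧ (X \ Y).Nonempty ∧
    (∀ u ∈ Y, ∀ v ∈ X \ Y, c u = b → c v ≠ b → H.Adj u v) ∧
    (∀ u ∈ Y, ∀ v ∈ X \ Y, c u ≠ b → c v = b → ¬ H.Adj u v)

/-- decomposable -/
def Dec {V : Type} (H : SimpleGraph V) (c : V → Bool) (X : Finset V) : Prop :=
  Dis H X ∨ Dis (coB H c) X ∨ Skew H c X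

/-- twins of `H[X]` (of the same colour) -/
def Tw {V : Type} (H : SimpleGraph V) (c : V → Bool) (X : Finset V) (u v : V) : Prop :=
  c u = c v ∧ ∀ w ∈ X, c w ≠ c u → (H.Adj u w ↔ H.Adj v w)

def TwF {V : Type} (H : SimpleGraph V) (c : V → Bool) (X : Finset V) : Prop :=
  ∀ u ∈ X, ∀ v ∈ X, Tw H c X u v → u = v

/-- `H[X]` is connected and has maximum degree at most two -/
def Dg {V : Type} (H : SimpleGraph V) (X : Finset V) : Prop :=
  Cn H X ∧ ∀ x ∈ X, (X.filter (fun y => H.Adj x y)).card ≤ 2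

/-- symmetry under bipartite complement -/
def Stmt_coB : Prop := ∀ (V : Type) (H : SimpleGraph V) (c : V → Bool), Bip H c → SF H →
  Bip (coB H c) c ∧ SF (coB H c) ∧ (∀ X, Dec (coB H c) c X ↔ Dec H c X) ∧
  (∀ X u v, Tw (coB H c) c X u v ↔ Tw H c X u v) ∧ coB (coB H c) c = H

def Stmt_SK : Prop := ∀ (V : Type) (H : SimpleGraph V) (c : V → Bool), Bip H c → SF H →
  ∀ (X : Finset V) (v : V), v ∈ X → ¬ Dis H (X.erase v) → ¬ Dis (coB H c) (X.erase v) →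
    Skew H c (X.erase v) → Dec H c X

def Stmt_DIS : Prop := ∀ (V : Type) (H : SimpleGraph V) (c : V → Bool), Bip H c → SF H →
  ∀ (X : Finset V), TwF H c X → ¬ Dec H c X → ∀ v ∈ X, Dis H (X.erase v) →
    Dg H X ∨ ∃ y ∈ X, H.Adj y v ∧ ∀ w ∈ X, H.Adj y w → w = v

def Stmt_END : Prop := ∀ (V : Type) (H : SimpleGraph V) (c : V → Bool), Bip H c → SF H →
  ∀ (X : Finset V), 2 ≤ X.card → TwF H c X → ¬ Dec H c X →
    (∀ v ∈ X, Dis H (X.erase v) ∨ Dis (coB H c) (X.erase v)) → Dg H X ∨ Dg (coB H c) X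

/-- `p 0, …, p (n-1)` is an enumeration of `X` as an induced path -/
def PRep {V : Type} (H : SimpleGraph V) (X : Finset V) (n : ℕ) (p : ℕ → V) : Prop :=
  (∀ i < n, ∀ j < n, p i = p j → i = j) ∧ (range n).image p = X ∧
  ∀ i < n, ∀ j < n, (H.Adj (p i) (p j) ↔ (i + 1 = j ∨ j + 1 = i))

/-- `p 0, …, p (n-1)` is an enumeration of `X` as an induced cycle -/
def CRep {V : Type} (H : SimpleGraph V) (X : Finset V) (n : ℕ) (p : ℕ → V) : Prop :=
  (∀ i < n, ∀ j < n, p i = p j → i = j) ∧ (range n).image p = X ∧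
  ∀ i < n, ∀ j < n, (H.Adj (p i) (p j) ↔ (i + 1 = j ∨ j + 1 = i ∨ (i = 0 ∧ j + 1 = n) ∨
    (j = 0 ∧ i + 1 = n)))

def Stmt_PR : Prop := ∀ (V : Type) (H : SimpleGraph V) (X : Finset V), Dg H X → 3 ≤ X.card →
  ∃ p : ℕ → V, PRep H X X.card p ∨ CRep H X X.card p

def Stmt_SmallP : Prop := ∀ (V : Type) (H : SimpleGraph V) (c : V → Bool), Bip H c →
  ∀ (X : Finset V), 2 ≤ X.card → Dg H X → ¬ Dec H c X → 7 ≤ X.card

/-- attachments to an induced `P₇` -/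
def Stmt_Cls7 : Prop := ∀ (V : Type) (H : SimpleGraph V) (c : V → Bool), Bip H c → SF H →
  ∀ p : ℕ → V, (∀ i < 7, ∀ j < 7, (H.Adj (p i) (p j) ↔ (i + 1 = j ∨ j + 1 = i))) →
    -- vertices on the side of `p 1`
    (∀ v, c v = c (p 1) →
      ((∀ i < 7, i % 2 = 0 → ¬ H.Adj v (p i)) ∨ (∀ i < 7, i % 2 = 0 → H.Adj v (p i)) ∨
       (∃ k ∈ ({1, 3, 5} : Finset ℕ), ∀ i < 7, i % 2 = 0 → (H.Adj v (p i) ↔ H.Adj (p k) (p i))) ∨
       (∀ i < 7, i % 2 = 0 → (H.Adj v (p i) ↔ i = 0)) ∨ (∀ i < 7, i % 2 = 0 → (H.Adj v (p i) ↔ i = 6)) ∨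
       (∀ i < 7, i % 2 = 0 → (H.Adj v (p i) ↔ (i = 0 ∨ i = 6))) ∨
       (∀ i < 7, i % 2 = 0 → (H.Adj v (p i) ↔ i ≠ 4)) ∨ (∀ i < 7, i % 2 = 0 → (H.Adj v (p i) ↔ i ≠ 2)))) ∧
    -- vertices on the side of `p 0`
    (∀ v, c v = c (p 0) →
      ((∀ i < 7, i % 2 = 1 → ¬ H.Adj v (p i)) ∨ (∀ i < 7, i % 2 = 1 → H.Adj v (p i)) ∨
       (∃ k ∈ ({0, 2, 4, 6} : Finset ℕ), ∀ i < 7, i % 2 = 1 → (H.Adj v (p i) ↔ H.Adj (p k) (p i)))))

/-- a vertex with the same trace on an induced `P₇` as `p k` is a twin of `p k` -/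
def Stmt_Tw7 : Prop := ∀ (V : Type) (H : SimpleGraph V) (c : V → Bool), Bip H c → SF H →
  ∀ p : ℕ → V, (∀ i < 7, ∀ j < 7, (H.Adj (p i) (p j) ↔ (i + 1 = j ∨ j + 1 = i))) →
    ∀ k < 7, ∀ q, c q = c (p k) → (∀ i < 7, (H.Adj q (p i) ↔ H.Adj (p k) (p i))) →
      ∀ w, c w ≠ c q → (H.Adj q w ↔ H.Adj (p k) w)

def Stmt_STEP : Prop := ∀ (V : Type) (H : SimpleGraph V) (c : V → Bool), Bip H c → SF H →
  ∀ (X : Finset V), TwF H c X → ¬ Dec H c X → ∀ v ∈ X, Dg H (X.erase v) → 7 ≤ (X.erase v).card →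
    Dg H X ∨ Dg (coB H c) X

/-- `H[X]` is a blow-up (by twins) of a long path or cycle -/
def Bl {V : Type} (H : SimpleGraph V) (c : V → Bool) (X : Finset V) : Prop :=
  ∃ P ⊆ X, Dg H P ∧ 7 ≤ P.card ∧ ∀ x ∈ X, ∃ p ∈ P, Tw H c X x p

def Stmt_PC : Prop := ∀ (V : Type) (H : SimpleGraph V) (c : V → Bool), Bip H c → SF H →
  ∀ (X : Finset V), 2 ≤ X.card → ¬ Dec H c X → Bl H c X ∨ Bl (coB H c) c X

/-- Lozin's theorem: `S_{1,2,3}`-free bipartite graphs -/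
def Stmt_LZ : Prop := ∀ (V : Type) (H : SimpleGraph V) (c : V → Bool), Bip H c → SF H →
  ∀ (X : Finset V), X.Nonempty → Bd H 6 X

/-! ## Module E: decoupling -/

/-- `s` and `t` have the same neighbours in class `b` -/
def SameRow {V ι : Type} (G : SimpleGraph V) (τ : V → ι) (b : ι) (s t : V) : Prop :=
  ∀ y, τ y = b → (G.Adj s y ↔ G.Adj t y)

/-- no three vertices of class `a` with pairwise different rows on `b` and pairwise different rows
on `b'` -/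
def NoThree {V ι : Type} (G : SimpleGraph V) (τ : V → ι) (a b b' : ι) : Prop :=
  ∀ t1 t2 t3, τ t1 = a → τ t2 = a → τ t3 = a →
    ¬ SameRow G τ b t1 t2 → ¬ SameRow G τ b t1 t3 → ¬ SameRow G τ b t2 t3 →
    ¬ SameRow G τ b' t1 t2 → ¬ SameRow G τ b' t1 t3 → ¬ SameRow G τ b' t2 t3 → False

/-- the rows of `t1, t2, t3` on the two vertices `x1, x2` are pairwise different -/
def Sep {V : Type} (G : SimpleGraph V) (t1 t2 t3 x1 x2 : V) : Prop :=
  ¬ ((G.Adj t1 x1 ↔ G.Adj t2 x1) ∧ (G.Adj t1 x2 ↔ G.Adj t2 x2)) ∧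
  ¬ ((G.Adj t1 x1 ↔ G.Adj t3 x1) ∧ (G.Adj t1 x2 ↔ G.Adj t3 x2)) ∧
  ¬ ((G.Adj t2 x1 ↔ G.Adj t3 x1) ∧ (G.Adj t2 x2 ↔ G.Adj t3 x2))

/-- two columns suffice to separate three rows -/
def Stmt_Bondy : Prop := ∀ (V ι : Type) (G : SimpleGraph V) (τ : V → ι) (b : ι) (t1 t2 t3 : V),
  ¬ SameRow G τ b t1 t2 → ¬ SameRow G τ b t1 t3 → ¬ SameRow G τ b t2 t3 →
  ∃ x1 x2, τ x1 = b ∧ τ x2 = b ∧ Sep G t1 t2 t3 x1 x2

/-- every vertex of class `a` is complete or anticomplete to class `b` -/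
def SC {V ι : Type} (G : SimpleGraph V) (τ : V → ι) (a b : ι) : Prop :=
  ∀ x y y', τ x = a → τ y = b → τ y' = b → G.Adj x y → G.Adj x y'

/-- decoupling: labels `lam` (boundedly many) and clusters `cl` such that outside the clusters the
adjacency is determined by class, label and cluster -/
def Stmt_ADT : Prop := ∀ D : ℕ, ∃ M : ℕ, ∀ (V ι κ : Type) [Fintype V] (G : SimpleGraph V) (τ : V → ι)
  (knd : ι → ι → Option κ) (N : ι → Finset ι),
  (∀ a b, knd a b = knd b a) → (∀ a, (N a).card ≤ D) → (∀ a b, knd a b ≠ none → b ∈ N a) →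
  (∀ a b b', knd a b ≠ none → knd a b' ≠ none → knd a b ≠ knd a b' → NoThree G τ a b b') →
  ∃ (lam : V → Fin M) (cl : V → Option κ),
    (∀ v k, cl v = some k → ∃ b, knd (τ v) b = some k) ∧
    ∀ v w v' w', τ v = τ v' → τ w = τ w' → lam v = lam v' → lam w = lam w' →
      cl v = cl v' → cl w = cl w' → knd (τ v) (τ w) ≠ none →
      ¬ (cl v = knd (τ v) (τ w) ∧ cl w = knd (τ v) (τ w)) → (G.Adj v w ↔ G.Adj v' w')

/-- the part of `G` between the classes of kind `k` -/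
def Hk {V ι κ : Type} (G : SimpleGraph V) (τ : V → ι) (knd : ι → ι → Option κ)
    (hs : ∀ a b, knd a b = knd b a) (k : κ) : SimpleGraph V where
  Adj v w := G.Adj v w ∧ knd (τ v) (τ w) = some k
  symm := ⟨fun _ _ h => ⟨h.1.symm, by rw [hs]; exact h.2⟩⟩
  loopless := ⟨fun _ h => G.loopless.irrefl _ h.1⟩

/-- finite engine -/
def Stmt_ENG : Prop := ∀ (T nk K : ℕ), ∃ K' : ℕ, ∀ (V : Type) [Fintype V] [Nonempty V]
  (G : SimpleGraph V) (τ : V → Fin T) (knd : Fin T → Fin T → Option (Fin nk))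
  (hs : ∀ a b, knd a b = knd b a),
  (∀ a b, knd a b = none → SC G τ a b ∨ SC G τ b a) →
  (∀ a b b', knd a b ≠ none → knd a b' ≠ none → knd a b ≠ knd a b' → NoThree G τ a b b') →
  (∀ k, ∀ X : Finset V, X.Nonempty → Bd (Hk G τ knd hs k) K X) → Bd G K' univ

/-! ## Module K: anchors -/

/-- the anchor `𝔸_n`: adjacency iff the difference of the indices is `1` modulo 3 -/
def Anch {V : Type} (G : SimpleGraph V) (n : ℕ) (f : ℕ → V) : Prop :=
  ∀ i j, i < j → j < n → (G.Adj (f i) (f j) ↔ (j - i) % 3 = 1)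

/-- type `P_m` (`b = true`): neighbours as `f m`; type `Q_m` (`b = false`): neighbours as `f m` but
not `f (m+1)` (cyclically) -/
def Ty {V : Type} (G : SimpleGraph V) (n : ℕ) (f : ℕ → V) (b : Bool) (m : ℕ) (v : V) : Prop :=
  ∀ j < n, (G.Adj v (f j) ↔ G.Adj (f m) (f j) ∧ (b = false → j ≠ (m + 1) % n))

/-- type `U`: no neighbours in the anchor -/
def TyU {V : Type} (G : SimpleGraph V) (n : ℕ) (f : ℕ → V) (v : V) : Prop :=
  ∀ j < n, ¬ G.Adj v (f j)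

/-- the insertion rule -/
def InsR {V : Type} (G : SimpleGraph V) (n : ℕ) (f : ℕ → V) : Prop :=
  ∀ m < n, ∀ x y z, Ty G n f true m x → Ty G n f true ((m + 1) % n) y →
    Ty G n f false ((m + n - 1) % n) z → ¬ (G.Adj z x ∧ G.Adj z y)

/-- rotation of an anchor -/
def Stmt_Rot : Prop := ∀ (V : Type) (G : SimpleGraph V) (n : ℕ) (f : ℕ → V) (s : ℕ),
  n % 3 = 2 → Anch G n f → Anch G n (fun i => f ((i + s) % n))

/-- insertion -/
def Stmt_Ins : Prop := ∀ (V : Type) (G : SimpleGraph V) (n : ℕ) (f : ℕ → V), TF G → n % 3 = 2 →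
  5 ≤ n → Anch G n f → (¬ ∃ g, Anch G (n + 3) g) → InsR G n f

/-- anchors are injective -/
def Stmt_AnchCard : Prop := ∀ (V : Type) [Fintype V] (G : SimpleGraph V) (n : ℕ) (f : ℕ → V),
  n % 3 = 2 → 5 ≤ n → Anch G n f → n ≤ Fintype.card V

/-- `C₅` or bipartite or degree two -/
def Stmt_C5F : Prop := ∀ (V : Type) [Fintype V] (G : SimpleGraph V), TF G → SF G → Cn G univ →
  TwinFree G → (∃ f, Anch G 5 f) ∨ (∃ c, Bip G c) ∨ Dg G univ

/-! ### long anchors -/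

/-- the undetermined pairs of types; `d` is the difference of the positions -/
def Mb (n : ℕ) (b b' : Bool) (d : ℕ) : Prop :=
  (b = true ∧ b' = true ∧ (d = 1 ∨ d + 1 = n)) ∨ (b = true ∧ b' = false ∧ (d + 2 = n ∨ d + 1 = n)) ∨
  (b = false ∧ b' = true ∧ (d = 1 ∨ d = 2)) ∨ (b = false ∧ b' = false ∧ (d = 2 ∨ d + 2 = n))

/-- facts about the anchor `𝔸_11` (by computer certificates) -/
def Stmt_A11 : Prop := ∀ (V : Type) (G : SimpleGraph V), TF G → SF G → ∀ f : ℕ → V, Anch G 11 f →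
  (∀ v, TyU G 11 f v ∨ ∃ b : Bool, ∃ m < 11, Ty G 11 f b m v) ∧
  (∀ v w, TyU G 11 f v → G.Adj v w → TyU G 11 f w) ∧
  (∀ b b' : Bool, ∀ m < 11, ∀ m' < 11, ¬ Mb 11 b b' ((m' + 11 - m) % 11) → ∀ v w,
    Ty G 11 f b m v → Ty G 11 f b' m' w → (G.Adj v w ↔ ((m' + 11 - m) % 11) % 3 = 1))

/-- conflict lemmas for `𝔸_11` (by computer certificates): in the middle of the window -/
def Stmt_N11 : Prop := ∀ (V : Type) (G : SimpleGraph V), TF G → SF G → ∀ f : ℕ → V, Anch G 11 f →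
  (∀ m, 4 ≤ m → m ≤ 6 → ∀ x y z, Ty G 11 f true m x → Ty G 11 f true (m + 1) y →
    Ty G 11 f false (m - 1) z → ¬ (G.Adj z x ∧ G.Adj z y)) →
  ∀ t1 t2 t3 x1 x2 y1 y2, Sep G t1 t2 t3 x1 x2 → Sep G t1 t2 t3 y1 y2 →
    -- class `P_5`
    (∀ b b' : Bool, (∀ t ∈ ({t1, t2, t3} : Set V), Ty G 11 f true 5 t) →
      (∀ x ∈ ({x1, x2} : Set V), Ty G 11 f b (if b then 6 else 3) x) →
      (∀ y ∈ ({y1, y2} : Set V), Ty G 11 f b' 4 y) → False) ∧
    -- class `Q_5`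
    (∀ b b' : Bool, (∀ t ∈ ({t1, t2, t3} : Set V), Ty G 11 f false 5 t) →
      (∀ x ∈ ({x1, x2} : Set V), Ty G 11 f b (if b then 6 else 3) x) →
      (∀ y ∈ ({y1, y2} : Set V), Ty G 11 f b' 7 y) → False)

/-- classification of attachments to long anchors -/
def Stmt_An : Prop := ∀ (V : Type) (G : SimpleGraph V), TF G → SF G → ∀ (n : ℕ) (f : ℕ → V),
  n % 3 = 2 → 11 ≤ n → Anch G n f →
  (∀ v, TyU G n f v ∨ ∃ b : Bool, ∃ m < n, Ty G n f b m v) ∧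
  (∀ v w, TyU G n f v → G.Adj v w → TyU G n f w)

/-- determined pairs for long anchors -/
def Stmt_Pn : Prop := ∀ (V : Type) (G : SimpleGraph V), TF G → SF G → ∀ (n : ℕ) (f : ℕ → V),
  n % 3 = 2 → 11 ≤ n → Anch G n f →
  (∀ b b' : Bool, ∀ m < n, ∀ m' < n, ¬ Mb n b b' ((m' + n - m) % n) → ∀ v w,
    Ty G n f b m v → Ty G n f b' m' w → (G.Adj v w ↔ ((m' + n - m) % n) % 3 = 1))

/-- the right side of kind `j` (the left side consists of the types at position `j`) -/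
def Rk (n j : ℕ) (a : Bool × ℕ) : Prop :=
  (a.1 = true ∧ a.2 = (j + 1) % n) ∨ (a.1 = false ∧ (a.2 + 2) % n = j)

noncomputable def kn (n : ℕ) (a b : Bool × ℕ) : Option ℕ :=
  if n ≤ a.2 ∨ n ≤ b.2 then none else
  if Rk n a.2 b then some a.2 else if Rk n b.2 a then some b.2 else none

def Stmt_knSymm : Prop := ∀ n, 11 ≤ n → ∀ a b, kn n a b = kn n b a

/-- linear engine for long anchors -/
def Stmt_LIN : Prop := ∀ K : ℕ, ∃ K' : ℕ, ∀ (V : Type) [Fintype V] [Nonempty V] (G : SimpleGraph V)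
  (n : ℕ) (τ : V → Bool × ℕ) (hs : ∀ a b, kn n a b = kn n b a), 11 ≤ n → n % 3 = 2 →
  (∀ v, (τ v).2 < n) →
  (∀ v w, kn n (τ v) (τ w) = none → (G.Adj v w ↔ (((τ w).2 + n - (τ v).2) % n) % 3 = 1)) →
  (∀ a b b', kn n a b ≠ none → kn n a b' ≠ none → kn n a b ≠ kn n a b' → NoThree G τ a b b') →
  (∀ k, ∀ X : Finset V, X.Nonempty → Bd (Hk G τ (kn n) hs k) K X) → Bd G K' univ

/-- the case of an anchor `𝔸_n`, `n ≥ 11` -/
def Stmt_K4 : Prop := ∃ K : ℕ, ∀ (V : Type) [Fintype V] (G : SimpleGraph V) (n : ℕ) (f : ℕ → V),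
  TF G → SF G → Cn G univ → n % 3 = 2 → 11 ≤ n → Anch G n f → InsR G n f → Bd G K univ

/-- the case of the anchor `𝔸_8` -/
def Stmt_K3 : Prop := ∃ K : ℕ, ∀ (V : Type) [Fintype V] (G : SimpleGraph V) (f : ℕ → V),
  TF G → SF G → Cn G univ → Anch G 8 f → InsR G 8 f → Bd G K univ

/-- the case of the anchor `C₅` -/
def Stmt_K2 : Prop := ∃ K : ℕ, ∀ (V : Type) [Fintype V] (G : SimpleGraph V) (f : ℕ → V),
  TF G → SF G → Cn G univ → Anch G 5 f → InsR G 5 f →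
  (∀ m < 5, ∀ x y z, Ty G 5 f true m x → Ty G 5 f true ((m + 1) % 5) y → TyU G 5 f z →
    ¬ (G.Adj z x ∧ G.Adj z y)) → Bd G K univ

/-- the family `(c)_m` over the `C₅` `f 0, …, f 4` -/
def CFam {V : Type} (G : SimpleGraph V) (f : ℕ → V) (m : ℕ) (t x u : ℕ → V) : Prop :=
  Anch G 5 f ∧ (∀ i < m, Ty G 5 f true 0 (t i) ∧ Ty G 5 f true 1 (x i) ∧ TyU G 5 f (u i) ∧
    G.Adj (u i) (t i) ∧ G.Adj (u i) (x i)) ∧
  (∀ i < m, ∀ j < m, i ≠ j → G.Adj (t i) (x j) ∧ ¬ G.Adj (u i) (t j) ∧ ¬ G.Adj (u i) (x j))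

/-- the case of the anchor `(c)_1` (eight vertices) -/
def Stmt_C1 : Prop := ∃ K : ℕ, ∀ (V : Type) [Fintype V] (G : SimpleGraph V) (f t x u : ℕ → V),
  TF G → SF G → Cn G univ → (¬ ∃ g, Anch G 8 g) → CFam G f 1 t x u →
  -- no vertex of type U sees both a default `V₀` vertex and a default `V₁` vertex
  (∀ p q z, Ty G 5 f true 0 p → G.Adj p (x 0) → ¬ G.Adj p (u 0) → Ty G 5 f true 1 q →
    G.Adj q (t 0) → ¬ G.Adj q (u 0) → TyU G 5 f z → ¬ G.Adj z (t 0) → ¬ G.Adj z (x 0) →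
    ¬ (G.Adj z p ∧ G.Adj z q)) → Bd G K univ

/-- facts about the anchor `(c)_2` (by computer certificates): every vertex is default or a twin of
a vertex of the two triples -/
def Stmt_C2 : Prop := ∀ (V : Type) (G : SimpleGraph V) (f t x u : ℕ → V), TF G → SF G →
  (∀ a b, TyU G 5 f a → TyU G 5 f b → ¬ G.Adj a b) →
  (¬ ∃ g, Anch G 8 g) → CFam G f 2 t x u → ∀ z,
  ((G.Adj z (t 0) ↔ G.Adj z (t 1)) ∧ (G.Adj z (x 0) ↔ G.Adj z (x 1)) ∧ ¬ G.Adj z (u 0) ∧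
    ¬ G.Adj z (u 1)) ∨
  (∃ i < 2, (∀ w, G.Adj z w ↔ G.Adj (t i) w) ∨ (∀ w, G.Adj z w ↔ G.Adj (x i) w) ∨
    (∀ w, G.Adj z w ↔ G.Adj (u i) w))

/-- vertices without neighbours in an induced `C₅` of a connected graph are pairwise nonadjacent -/
def Stmt_UInd : Prop := ∀ (V : Type) [Fintype V] (G : SimpleGraph V) (f : ℕ → V), TF G → SF G →
  Cn G univ → Anch G 5 f → ∀ a b, TyU G 5 f a → TyU G 5 f b → ¬ G.Adj a b

/-- the case of the family `(c)_m` -/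
def Stmt_CM : Prop := ∃ K : ℕ, ∀ (V : Type) [Fintype V] (G : SimpleGraph V) (f t x u : ℕ → V),
  TF G → SF G → Cn G univ → TwinFree G → (¬ ∃ g, Anch G 8 g) → CFam G f 1 t x u → Bd G K univ

def Stmt_Main : Prop := ∃ K : ℕ, ∀ (V : Type) [Fintype V] [Nonempty V] (G : SimpleGraph V),
  TF G → SF G → Bd G K univ

end Pool.Agent.H333R2.St
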