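import Pool.Agent.H333R2.St.Defs

/-! Certificate checker for finite configurations in `(K₃, S_{1,2,3})`-free graphs. -/

namespace Pool.Agent.H333R2.St.FC

open Pool.Agent.H333R2.St

/-- literal `(i, j, b)`: `e i` and `e j` are adjacent iff `b` -/
abbrev Lit := ℕ × ℕ × Bool

/-- certificates: branch on a pair, triangle, `S_{1,2,3}`, anchor `𝔸_8`, clause; the indices are
packed in base 32 -/
inductive Ct
  | b (n : ℕ) (l r : Ct)
  | t (n : ℕ)
  | s (n : ℕ)
  | a (n : ℕ)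
  | c (n : ℕ)

/-- digit -/
def dg (n k : ℕ) : ℕ := (n / 32 ^ k) % 32

def ix (i j : ℕ) : ℕ := 32 * i + j

def tb (k i j : ℕ) : Bool := Nat.testBit k (ix i j)

def sb (k i j : ℕ) : ℕ := k ||| (2 ^ ix i j) ||| (2 ^ ix j i)

def run (cl : List (List Lit)) (a3 : Bool) : Ct → ℕ → ℕ → Bool
  | .b n l r, k1, k0 =>
      run cl a3 l k1 (sb k0 (dg n 0) (dg n 1)) && run cl a3 r (sb k1 (dg n 0) (dg n 1)) k0
  | .t n, k1, _ => tb k1 (dg n 0) (dg n 1) && tb k1 (dg n 1) (dg n 2) && tb k1 (dg n 0) (dg n 2)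
  | .s n, k1, k0 =>
      -- x a b1 b2 c1 c2 c3
      tb k1 (dg n 0) (dg n 1) && tb k1 (dg n 0) (dg n 2) && tb k1 (dg n 0) (dg n 4) &&
      tb k1 (dg n 2) (dg n 3) && tb k1 (dg n 4) (dg n 5) && tb k1 (dg n 5) (dg n 6) &&
      (tb k0 (dg n 0) (dg n 3) && tb k0 (dg n 0) (dg n 5) && tb k0 (dg n 0) (dg n 6) &&
       tb k0 (dg n 1) (dg n 2) && tb k0 (dg n 1) (dg n 3) && tb k0 (dg n 1) (dg n 4) &&
       tb k0 (dg n 1) (dg n 5) && tb k0 (dg n 1) (dg n 6) && tb k0 (dg n 2) (dg n 4) &&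
       tb k0 (dg n 2) (dg n 5) && tb k0 (dg n 2) (dg n 6) && tb k0 (dg n 3) (dg n 4) &&
       tb k0 (dg n 3) (dg n 5) && tb k0 (dg n 3) (dg n 6) && tb k0 (dg n 4) (dg n 6))
  | .a n, k1, k0 => a3 && (List.range 8).all (fun j => (List.range j).all (fun i =>
      if (j - i) % 3 = 1 then tb k1 (dg n i) (dg n j) else tb k0 (dg n i) (dg n j)))
  | .c n, k1, k0 => match cl[n]? with
      | none => false
      | some c => c.all (fun l => decide (l.1 < 32) && decide (l.2.1 < 32) &&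
          (if l.2.2 then tb k0 l.1 l.2.1 else tb k1 l.1 l.2.1))

variable {V : Type} {G : SimpleGraph V} {e : ℕ → V}

/-- the meaning of the two bit masks -/
def Inv (G : SimpleGraph V) (e : ℕ → V) (k1 k0 : ℕ) : Prop :=
  ∀ i < 32, ∀ j < 32, (tb k1 i j = true → G.Adj (e i) (e j)) ∧ (tb k0 i j = true → ¬ G.Adj (e i) (e j))

def LitT (G : SimpleGraph V) (e : ℕ → V) (l : Lit) : Prop := G.Adj (e l.1) (e l.2.1) ↔ l.2.2 = true

lemma dg_lt (n k : ℕ) : dg n k < 32 := Nat.mod_lt _ (by norm_num)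

lemma ix_inj {i j a b : ℕ} (hj : j < 32) (hb : b < 32) : ix i j = ix a b ↔ i = a ∧ j = b := by
  unfold ix; constructor
  · intro h; constructor <;> omega
  · rintro ⟨rfl, rfl⟩; rfl

lemma tb_sb {k a b i j : ℕ} (ha : a < 32) (hb : b < 32) (hj : j < 32) :
    tb (sb k a b) i j = true ↔ (tb k i j = true ∨ (i = a ∧ j = b) ∨ (i = b ∧ j = a)) := by
  unfold tb sb
  rw [Nat.testBit_or, Nat.testBit_or, Nat.testBit_two_pow, Nat.testBit_two_pow]
  simp only [Bool.or_eq_true, decide_eq_true_eq]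
  rw [show (ix a b = ix i j ↔ i = a ∧ j = b) from by rw [eq_comm, ix_inj hj hb],
    show (ix b a = ix i j ↔ i = b ∧ j = a) from by rw [eq_comm, ix_inj hj ha]]
  tauto

lemma Inv.set1 {k1 k0 a b : ℕ} (h : Inv G e k1 k0) (ha : a < 32) (hb : b < 32)
    (hab : G.Adj (e a) (e b)) : Inv G e (sb k1 a b) k0 := by
  intro i hi j hj
  refine ⟨fun ht => ?_, (h i hi j hj).2⟩
  rcases (tb_sb ha hb hj).1 ht with h1 | ⟨rfl, rfl⟩ | ⟨rfl, rfl⟩
  · exact (h i hi j hj).1 h1
  · exact hab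
  · exact hab.symm

lemma Inv.set0 {k1 k0 a b : ℕ} (h : Inv G e k1 k0) (ha : a < 32) (hb : b < 32)
    (hab : ¬ G.Adj (e a) (e b)) : Inv G e k1 (sb k0 a b) := by
  intro i hi j hj
  refine ⟨(h i hi j hj).1, fun ht => ?_⟩
  rcases (tb_sb ha hb hj).1 ht with h1 | ⟨rfl, rfl⟩ | ⟨rfl, rfl⟩
  · exact (h i hi j hj).2 h1
  · exact hab
  · exact fun h' => hab h'.symm

theorem run_sound (hT : TF G) (hS : SF G) (a3 : Bool) (hA : a3 = true → ¬ ∃ g, Anch G 8 g)
    (cl : List (List Lit)) (hcl : ∀ c ∈ cl, ∃ l ∈ c, LitT G e l) :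
    ∀ (ct : Ct) (k1 k0 : ℕ), Inv G e k1 k0 → run cl a3 ct k1 k0 = true → False := by
  intro ct
  induction ct with
  | b n l r ihl ihr =>
    intro k1 k0 hI h
    rw [run, Bool.and_eq_true] at h
    by_cases hab : G.Adj (e (dg n 0)) (e (dg n 1))
    · exact ihr _ _ (hI.set1 (dg_lt _ _) (dg_lt _ _) hab) h.2
    · exact ihl _ _ (hI.set0 (dg_lt _ _) (dg_lt _ _) hab) h.1
  | t n =>
    intro k1 k0 hI h
    simp only [run, Bool.and_eq_true] at h
    obtain ⟨⟨h1, h2⟩, h3⟩ := h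
    exact hT _ _ _ ((hI _ (dg_lt _ _) _ (dg_lt _ _)).1 h1) ((hI _ (dg_lt _ _) _ (dg_lt _ _)).1 h2)
      ((hI _ (dg_lt _ _) _ (dg_lt _ _)).1 h3)
  | s n =>
    intro k1 k0 hI h
    simp only [run, Bool.and_eq_true] at h
    have p1 : ∀ i j, tb k1 (dg n i) (dg n j) = true → G.Adj (e (dg n i)) (e (dg n j)) :=
      fun i j h => (hI _ (dg_lt _ _) _ (dg_lt _ _)).1 h
    have p0 : ∀ i j, tb k0 (dg n i) (dg n j) = true → ¬ G.Adj (e (dg n i)) (e (dg n j)) :=
      fun i j h => (hI _ (dg_lt _ _) _ (dg_lt _ _)).2 h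
    obtain ⟨⟨⟨⟨⟨⟨a1, a2⟩, a3⟩, a4⟩, a5⟩, a6⟩, b⟩ := h
    obtain ⟨⟨⟨⟨⟨⟨⟨⟨⟨⟨⟨⟨⟨⟨b1, b2⟩, b3⟩, b4⟩, b5⟩, b6⟩, b7⟩, b8⟩, b9⟩, b10⟩, b11⟩, b12⟩, b13⟩, b14⟩, b15⟩ := b
    exact hS (e (dg n 0)) (e (dg n 1)) (e (dg n 2)) (e (dg n 3)) (e (dg n 4)) (e (dg n 5)) (e (dg n 6))
      ⟨⟨p1 _ _ a1, p1 _ _ a2, p1 _ _ a3, p1 _ _ a4, p1 _ _ a5, p1 _ _ a6⟩,
       p0 _ _ b1, p0 _ _ b2, p0 _ _ b3, p0 _ _ b4, p0 _ _ b5, p0 _ _ b6, p0 _ _ b7, p0 _ _ b8,
       p0 _ _ b9, p0 _ _ b10, p0 _ _ b11, p0 _ _ b12, p0 _ _ b13, p0 _ _ b14, p0 _ _ b15⟩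
  | a n =>
    intro k1 k0 hI h
    simp only [run, Bool.and_eq_true, List.all_eq_true, List.mem_range] at h
    apply hA h.1
    refine ⟨fun i => e (dg n i), fun i j hij hj => ?_⟩
    have := h.2 j hj i hij
    split_ifs at this with h3
    · exact ⟨fun _ => h3, fun _ => (hI _ (dg_lt _ _) _ (dg_lt _ _)).1 this⟩
    · exact ⟨fun h' => absurd h' ((hI _ (dg_lt _ _) _ (dg_lt _ _)).2 this), fun h' => absurd h' h3⟩
  | c n =>
    intro k1 k0 hI h
    rw [run] at h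
    cases hc : cl[n]? with
    | none => rw [hc] at h; simp at h
    | some c =>
      rw [hc] at h
      simp only [List.all_eq_true, Bool.and_eq_true, decide_eq_true_eq] at h
      obtain ⟨l, hl, hlt⟩ := hcl c (List.mem_of_getElem? hc)
      obtain ⟨⟨h1, h2⟩, h3⟩ := h l hl
      unfold LitT at hlt
      split_ifs at h3 with h4
      · exact (hI _ h1 _ h2).2 h3 (hlt.2 h4)
      · exact h4 (hlt.1 ((hI _ h1 _ h2).1 h3))

/-- masks of a list of literals -/
def mk (l : List Lit) : ℕ × ℕ := l.foldl (fun k x =>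
  if x.1 < 32 ∧ x.2.1 < 32 then (if x.2.2 then (sb k.1 x.1 x.2.1, k.2) else (k.1, sb k.2 x.1 x.2.1))
  else k) (0, 0)

lemma inv_mk_aux (l : List Lit) (hl : ∀ x ∈ l, LitT G e x) : ∀ k : ℕ × ℕ, Inv G e k.1 k.2 →
    Inv G e (l.foldl (fun k x =>
      if x.1 < 32 ∧ x.2.1 < 32 then (if x.2.2 then (sb k.1 x.1 x.2.1, k.2) else (k.1, sb k.2 x.1 x.2.1))
      else k) k).1 (l.foldl (fun k x =>
      if x.1 < 32 ∧ x.2.1 < 32 then (if x.2.2 then (sb k.1 x.1 x.2.1, k.2) else (k.1, sb k.2 x.1 x.2.1))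
      else k) k).2 := by
  induction l with
  | nil => intro k hk; simpa using hk
  | cons x l ih =>
    intro k hk
    rw [List.foldl_cons]
    apply ih (fun y hy => hl y (List.mem_cons_of_mem _ hy))
    have hx := hl x List.mem_cons_self
    unfold LitT at hx
    split_ifs with h1 h2
    · exact hk.set1 h1.1 h1.2 (hx.2 h2)
    · exact hk.set0 h1.1 h1.2 (fun h => h2 (hx.1 h))
    · exact hk

lemma inv_mk (l : List Lit) (hl : ∀ x ∈ l, LitT G e x) : Inv G e (mk l).1 (mk l).2 := by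
  apply inv_mk_aux l hl
  intro i _ j _
  simp [tb]

/-- known literals of an anchor -/
def kAnch (n : ℕ) (adj : List ℕ) : List Lit :=
  (List.range n).flatMap fun j => (List.range j).map fun i => (i, j, Nat.testBit (adj.getD i 0) j)

/-- known literals of the vertex with index `k` of type `T` -/
def kTy (n : ℕ) (k T : ℕ) : List Lit := (List.range n).map fun j => (k, j, Nat.testBit T j)

/-- known literals of further vertices with given types -/
def kTys (n : ℕ) : ℕ → List ℕ → List Lit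
  | _, [] => []
  | k, T :: l => kTy n k T ++ kTys n (k + 1) l

/-- nonadjacent pairs (common neighbour in the anchor) -/
def kNon (n : ℕ) (ty : List ℕ) : List Lit :=
  (List.range ty.length).flatMap fun j => ((List.range j).filter
    (fun i => (ty.getD i 0 &&& ty.getD j 0) % 2 ^ n != 0)).map fun i => (n + i, n + j, false)

/-- `f 0, …, f (n-1)` is an embedding of the graph with adjacency masks `adj` -/
def EmbA (G : SimpleGraph V) (n : ℕ) (adj : List ℕ) (f : ℕ → V) : Prop :=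
  ∀ i j, i < j → j < n → (G.Adj (f i) (f j) ↔ Nat.testBit (adj.getD i 0) j = true)

/-- `v` has type `T` -/
def HTy (G : SimpleGraph V) (n : ℕ) (f : ℕ → V) (T : ℕ) (v : V) : Prop :=
  ∀ j < n, (G.Adj v (f j) ↔ Nat.testBit T j = true)

/-- the checker for a configuration: anchor, types of further vertices, further known literals,
clauses, certificate -/
def ver (n : ℕ) (adj : List ℕ) (a3 : Bool) (ty : List ℕ) (kn : List Lit) (cl : List (List Lit))
    (ct : Ct) : Bool :=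
  run cl a3 ct (mk (kAnch n adj ++ (kTys n n ty ++ (kNon n ty ++ kn)))).1
    (mk (kAnch n adj ++ (kTys n n ty ++ (kNon n ty ++ kn)))).2

lemma kTys_mem {n : ℕ} : ∀ (ty : List ℕ) (k : ℕ) (x : Lit), x ∈ kTys n k ty →
    ∃ i < ty.length, x ∈ kTy n (k + i) (ty.getD i 0) := by
  intro ty
  induction ty with
  | nil => intro k x hx; simp [kTys] at hx
  | cons T l ih =>
    intro k x hx
    rw [kTys, List.mem_append] at hx
    rcases hx with hx | hx
    · exact ⟨0, by simp, by simpa using hx⟩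
    · obtain ⟨i, hi, hx⟩ := ih (k + 1) x hx
      refine ⟨i + 1, by simpa using hi, ?_⟩
      rw [show k + (i + 1) = k + 1 + i by omega]
      simpa using hx

theorem ver_sound (hT : TF G) (hS : SF G) (a3 : Bool) (hA : a3 = true → ¬ ∃ g, Anch G 8 g)
    {n : ℕ} {adj : List ℕ} (he : EmbA G n adj e) {ty : List ℕ}
    (hty : ∀ i < ty.length, HTy G n e (ty.getD i 0) (e (n + i))) {kn : List Lit}
    (hkn : ∀ l ∈ kn, LitT G e l)
    {cl : List (List Lit)} (hcl : ∀ c ∈ cl, ∃ l ∈ c, LitT G e l) (ct : Ct)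
    (h : ver n adj a3 ty kn cl ct = true) : False := by
  refine run_sound hT hS a3 hA cl hcl ct _ _ (inv_mk _ ?_) h
  intro x hx
  rw [List.mem_append, List.mem_append, List.mem_append] at hx
  rcases hx with hx | hx | hx | hx
  · unfold kAnch at hx
    rw [List.mem_flatMap] at hx
    obtain ⟨j, hj, hx⟩ := hx
    rw [List.mem_map] at hx
    obtain ⟨i, hi, rfl⟩ := hx
    exact he i j (List.mem_range.1 hi) (List.mem_range.1 hj)
  · obtain ⟨i, hi, hx⟩ := kTys_mem ty n x hx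
    unfold kTy at hx
    rw [List.mem_map] at hx
    obtain ⟨j, hj, rfl⟩ := hx
    exact hty i hi j (List.mem_range.1 hj)
  · unfold kNon at hx
    rw [List.mem_flatMap] at hx
    obtain ⟨j, hj, hx⟩ := hx
    rw [List.mem_map] at hx
    obtain ⟨i, hi, rfl⟩ := hx
    rw [List.mem_filter] at hi
    obtain ⟨hi, hne⟩ := hi
    rw [List.mem_range] at hi hj
    simp only [bne_iff_ne, ne_eq] at hne
    obtain ⟨m, hm⟩ := Nat.exists_testBit_of_ne_zero hne
    rw [Nat.testBit_mod_two_pow, Nat.testBit_and] at hm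
    simp only [Bool.and_eq_true, decide_eq_true_eq] at hm
    have h1 := (hty i (hi.trans hj) m hm.1).2 hm.2.1
    have h2 := (hty j hj m hm.1).2 hm.2.2
    constructor
    · intro h; exact absurd h2.symm (fun h2' => hT _ _ _ h1.symm h h2')
    · intro h; simp at h
  · exact hkn x hx

end Pool.Agent.H333R2.St.FC
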