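import Pool.Agent.H333R2.St.FC

/-! Certificate checker: the families of checks. -/

namespace Pool.Agent.H333R2.St.FC

open Pool.Agent.H333R2.St

variable {V : Type} {G : SimpleGraph V}

/-- anchor followed by further vertices -/
def cfg (f : ℕ → V) (n : ℕ) (l : List V) : ℕ → V := fun i => if i < n then f i else l.getD (i - n) (f 0)

/-- vertices of type 0 are pairwise nonadjacent -/
def UI (G : SimpleGraph V) (n : ℕ) (f : ℕ → V) : Prop :=
  ∀ a b, HTy G n f 0 a → HTy G n f 0 b → ¬ G.Adj a b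

/-- forbidden: `z` of type `r.1` adjacent to `p` of type `r.2.1` and `q` of type `r.2.2` -/
def Rul (G : SimpleGraph V) (n : ℕ) (f : ℕ → V) (rules : List (ℕ × ℕ × ℕ)) : Prop :=
  ∀ r ∈ rules, ∀ z p q, HTy G n f r.1 z → HTy G n f r.2.1 p → HTy G n f r.2.2 q →
    ¬ (G.Adj z p ∧ G.Adj z q)

def uKn (n : ℕ) (ty : List ℕ) : List Lit :=
  (List.range ty.length).flatMap fun j => ((List.range j).filter
    (fun i => ty.getD i 0 == 0 && ty.getD j 0 == 0)).map fun i => (n + i, n + j, false)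

def ruleCl (n : ℕ) (rules : List (ℕ × ℕ × ℕ)) (ty : List ℕ) : List (List Lit) :=
  rules.flatMap fun r => ((List.range ty.length).filter (fun i => ty.getD i 0 == r.1)).flatMap fun i =>
    ((List.range ty.length).filter (fun i => ty.getD i 0 == r.2.1)).flatMap fun j =>
      ((List.range ty.length).filter (fun i => ty.getD i 0 == r.2.2)).map fun k =>
        [(n + i, n + j, false), (n + i, n + k, false)]

def verG (n : ℕ) (adj : List ℕ) (a3 : Bool) (rules : List (ℕ × ℕ × ℕ)) (ty : List ℕ) (kn : List Lit)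
    (cl : List (List Lit)) (ct : Ct) : Bool :=
  ver n adj a3 ty (uKn n ty ++ kn) (cl ++ ruleCl n rules ty) ct

lemma cfg_lt {f : ℕ → V} {n : ℕ} {l : List V} {i : ℕ} (h : i < n) : cfg f n l i = f i := by
  simp [cfg, h]

lemma cfg_add {f : ℕ → V} {n : ℕ} {l : List V} {i : ℕ} : cfg f n l (n + i) = l.getD i (f 0) := by
  simp [cfg]

lemma HTy_cfg {f : ℕ → V} {n : ℕ} {l : List V} {T : ℕ} {v : V} :
    HTy G n (cfg f n l) T v ↔ HTy G n f T v := by
  unfold HTy
  constructor <;> intro h j hj <;> have := h j hj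
  · rwa [cfg_lt hj] at this
  · rwa [cfg_lt hj]

lemma EmbA_cfg {f : ℕ → V} {n : ℕ} {adj : List ℕ} {l : List V} (h : EmbA G n adj f) :
    EmbA G n adj (cfg f n l) := by
  intro i j hij hj
  rw [cfg_lt (hij.trans hj), cfg_lt hj]
  exact h i j hij hj

theorem verG_sound (hT : TF G) (hS : SF G) {a3 : Bool} (hA : a3 = true → ¬ ∃ g, Anch G 8 g)
    {n : ℕ} {adj : List ℕ} {f : ℕ → V} (he : EmbA G n adj f) (hU : UI G n f)
    {rules : List (ℕ × ℕ × ℕ)} (hR : Rul G n f rules) (l : List V) {ty : List ℕ}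
    (hty : ∀ i < ty.length, HTy G n f (ty.getD i 0) (l.getD i (f 0))) {kn : List Lit}
    (hkn : ∀ x ∈ kn, LitT G (cfg f n l) x)
    {cl : List (List Lit)} (hcl : ∀ c ∈ cl, ∃ x ∈ c, LitT G (cfg f n l) x) {ct : Ct}
    (h : verG n adj a3 rules ty kn cl ct = true) : False := by
  have hty' : ∀ i < ty.length, HTy G n (cfg f n l) (ty.getD i 0) (cfg f n l (n + i)) := by
    intro i hi
    rw [HTy_cfg, cfg_add]; exact hty i hi
  refine ver_sound (e := cfg f n l) hT hS a3 hA (EmbA_cfg he) hty' ?_ ?_ ct h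
  · intro x hx
    rw [List.mem_append] at hx
    rcases hx with hx | hx
    · unfold uKn at hx
      rw [List.mem_flatMap] at hx
      obtain ⟨j, hj, hx⟩ := hx
      rw [List.mem_map] at hx
      obtain ⟨i, hi, rfl⟩ := hx
      rw [List.mem_filter, List.mem_range] at hi
      rw [List.mem_range] at hj
      simp only [Bool.and_eq_true, beq_iff_eq] at hi
      have h1 := hty i (hi.1.trans hj)
      have h2 := hty j hj
      rw [hi.2.1] at h1; rw [hi.2.2] at h2
      have h3 := hU _ _ h1 h2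
      constructor
      · intro h; rw [cfg_add, cfg_add] at h; exact absurd h h3
      · intro h; simp at h
    · exact hkn x hx
  · intro c hc
    rw [List.mem_append] at hc
    rcases hc with hc | hc
    · exact hcl c hc
    · unfold ruleCl at hc
      simp only [List.mem_flatMap, List.mem_map, List.mem_filter, List.mem_range, beq_iff_eq] at hc
      obtain ⟨r, hr, i, ⟨hi, hi'⟩, j, ⟨hj, hj'⟩, k, ⟨hk, hk'⟩, rfl⟩ := hc
      have h1 := hty i hi
      have h2 := hty j hj
      have h3 := hty k hk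
      rw [hi'] at h1; rw [hj'] at h2; rw [hk'] at h3
      have h4 := hR r hr _ _ _ h1 h2 h3
      by_cases h5 : G.Adj (l.getD i (f 0)) (l.getD j (f 0))
      · refine ⟨(n + i, n + k, false), by simp, ?_⟩
        constructor
        · intro h; rw [cfg_add, cfg_add] at h; exact absurd ⟨h5, h⟩ h4
        · intro h; simp at h
      · refine ⟨(n + i, n + j, false), by simp, ?_⟩
        constructor
        · intro h; rw [cfg_add, cfg_add] at h; exact absurd h h5
        · intro h; simp at h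

/-! ### classification -/

def ver1 (n : ℕ) (adj : List ℕ) (a3 : Bool) (tys : List ℕ) (ct : Ct) : Bool :=
  ver n adj a3 [] [] (tys.map fun T => (List.range n).map fun j => (n, j, !Nat.testBit T j)) ct

theorem ver1_sound (hT : TF G) (hS : SF G) {a3 : Bool} (hA : a3 = true → ¬ ∃ g, Anch G 8 g)
    {n : ℕ} {adj : List ℕ} {f : ℕ → V} (he : EmbA G n adj f) {tys : List ℕ} {ct : Ct}
    (h : ver1 n adj a3 tys ct = true) (z : V) : ∃ T ∈ tys, HTy G n f T z := by
  by_contra hcon
  push Not at hcon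
  refine ver_sound (e := cfg f n [z]) hT hS a3 hA (EmbA_cfg he) (ty := []) (kn := []) (by simp)
    (by simp) ?_ ct h
  intro c hc
  rw [List.mem_map] at hc
  obtain ⟨T, hT', rfl⟩ := hc
  have h1 := hcon T hT'
  unfold HTy at h1
  push Not at h1
  obtain ⟨j, hj, h2⟩ := h1
  refine ⟨(n, j, !Nat.testBit T j), List.mem_map.2 ⟨j, List.mem_range.2 hj, rfl⟩, ?_⟩
  unfold LitT
  have e1 : cfg f n [z] n = z := by simp [cfg]
  simp only [e1, cfg_lt hj]
  rcases h2 with ⟨h3, h4⟩ | ⟨h3, h4⟩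
  · simp [h3, h4]
  · simp [h3, h4]

/-! ### semi-constant pairs -/

def ver2 (n : ℕ) (adj : List ℕ) (a3 : Bool) (rules : List (ℕ × ℕ × ℕ)) (a b : ℕ) (ct : Ct) : Bool :=
  verG n adj a3 rules [a, b, b] [(n, n + 1, true), (n, n + 2, false)] [] ct

theorem ver2_sound (hT : TF G) (hS : SF G) {a3 : Bool} (hA : a3 = true → ¬ ∃ g, Anch G 8 g)
    {n : ℕ} {adj : List ℕ} {f : ℕ → V} (he : EmbA G n adj f) (hU : UI G n f)
    {rules : List (ℕ × ℕ × ℕ)} (hR : Rul G n f rules) {a b : ℕ} {ct : Ct}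
    (h : ver2 n adj a3 rules a b ct = true) {x y y' : V} (hx : HTy G n f a x) (hy : HTy G n f b y)
    (hy' : HTy G n f b y') (hxy : G.Adj x y) : G.Adj x y' := by
  by_contra hcon
  have e0 : cfg f n [x, y, y'] n = x := by simp [cfg]
  have e1 : cfg f n [x, y, y'] (n + 1) = y := by simp [cfg]
  have e2 : cfg f n [x, y, y'] (n + 2) = y' := by simp [cfg]
  refine verG_sound hT hS hA he hU hR [x, y, y'] (ty := [a, b, b]) ?_ ?_ (by simp) h
  · intro i hi
    simp only [List.length_cons, List.length_nil] at hi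
    interval_cases i
    · simpa using hx
    · simpa using hy
    · simpa using hy'
  · intro l hl
    simp only [List.mem_cons, List.not_mem_nil, or_false] at hl
    unfold LitT
    rcases hl with rfl | rfl
    · simp only [e0, e1]; simp [hxy]
    · simp only [e0, e2]; simp [hcon]

/-! ### constant pairs -/

def ver4 (n : ℕ) (adj : List ℕ) (a3 : Bool) (rules : List (ℕ × ℕ × ℕ)) (a b : ℕ) (v : Bool)
    (ct : Ct) : Bool :=
  verG n adj a3 rules [a, b] [(n, n + 1, !v)] [] ct

theorem ver4_sound (hT : TF G) (hS : SF G) {a3 : Bool} (hA : a3 = true → ¬ ∃ g, Anch G 8 g)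
    {n : ℕ} {adj : List ℕ} {f : ℕ → V} (he : EmbA G n adj f) (hU : UI G n f)
    {rules : List (ℕ × ℕ × ℕ)} (hR : Rul G n f rules) {a b : ℕ} {v : Bool} {ct : Ct}
    (h : ver4 n adj a3 rules a b v ct = true) {x y : V} (hx : HTy G n f a x) (hy : HTy G n f b y) :
    (G.Adj x y ↔ v = true) := by
  by_contra hcon
  have e0 : cfg f n [x, y] n = x := by simp [cfg]
  have e1 : cfg f n [x, y] (n + 1) = y := by simp [cfg]
  refine verG_sound hT hS hA he hU hR [x, y] (ty := [a, b]) ?_ ?_ (by simp) h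
  · intro i hi
    simp only [List.length_cons, List.length_nil] at hi
    interval_cases i
    · simpa using hx
    · simpa using hy
  · intro l hl
    simp only [List.mem_cons, List.not_mem_nil, or_false] at hl
    unfold LitT
    subst hl
    simp only [e0, e1]
    cases v
    · simp at hcon ⊢; exact hcon
    · simp at hcon ⊢; exact hcon

/-! ### conflicts -/

def sepCl (t x : ℕ) : List (List Lit) :=
  ([(0, 1), (0, 2), (1, 2)] : List (ℕ × ℕ)).flatMap fun p =>
    ([true, false] : List Bool).flatMap fun a => ([true, false] : List Bool).map fun b =>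
      [(t + p.1, x, !a), (t + p.2, x, !a), (t + p.1, x + 1, !b), (t + p.2, x + 1, !b)]

lemma sepCl_aux {e : ℕ → V} {t x p q : ℕ}
    (h : ¬ ((G.Adj (e (t + p)) (e x) ↔ G.Adj (e (t + q)) (e x)) ∧
      (G.Adj (e (t + p)) (e (x + 1)) ↔ G.Adj (e (t + q)) (e (x + 1))))) (a b : Bool) :
    ∃ l ∈ ([(t + p, x, !a), (t + q, x, !a), (t + p, x + 1, !b), (t + q, x + 1, !b)] : List Lit),
      LitT G e l := by
  by_contra hcon
  push Not at hcon
  have h1 := hcon (t + p, x, !a) (by simp)
  have h2 := hcon (t + q, x, !a) (by simp)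
  have h3 := hcon (t + p, x + 1, !b) (by simp)
  have h4 := hcon (t + q, x + 1, !b) (by simp)
  unfold LitT at h1 h2 h3 h4
  apply h
  cases a <;> cases b <;> simp at h1 h2 h3 h4 <;> tauto

lemma sepCl_sound {e : ℕ → V} {t x : ℕ} (h : Sep G (e t) (e (t + 1)) (e (t + 2)) (e x) (e (x + 1))) :
    ∀ c ∈ sepCl t x, ∃ l ∈ c, LitT G e l := by
  intro c hc
  unfold sepCl at hc
  simp only [List.mem_flatMap, List.mem_map] at hc
  obtain ⟨p, hp, a, _, b, _, rfl⟩ := hc
  simp only [List.mem_cons, List.not_mem_nil, or_false] at hp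
  obtain ⟨h1, h2, h3⟩ := h
  rcases hp with rfl | rfl | rfl
  · exact sepCl_aux h1 a b
  · exact sepCl_aux h2 a b
  · exact sepCl_aux h3 a b

def ver3 (n : ℕ) (adj : List ℕ) (a3 : Bool) (rules : List (ℕ × ℕ × ℕ)) (a b b' : ℕ) (ct : Ct) : Bool :=
  verG n adj a3 rules [a, a, a, b, b, b', b'] [] (sepCl n (n + 3) ++ sepCl n (n + 5)) ct

theorem ver3_sound (hT : TF G) (hS : SF G) {a3 : Bool} (hA : a3 = true → ¬ ∃ g, Anch G 8 g)
    {n : ℕ} {adj : List ℕ} {f : ℕ → V} (he : EmbA G n adj f) (hU : UI G n f)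
    {rules : List (ℕ × ℕ × ℕ)} (hR : Rul G n f rules) {a b b' : ℕ} {ct : Ct}
    (h : ver3 n adj a3 rules a b b' ct = true) {t1 t2 t3 x1 x2 y1 y2 : V}
    (h1 : HTy G n f a t1) (h2 : HTy G n f a t2) (h3 : HTy G n f a t3)
    (hx1 : HTy G n f b x1) (hx2 : HTy G n f b x2) (hy1 : HTy G n f b' y1) (hy2 : HTy G n f b' y2)
    (s1 : Sep G t1 t2 t3 x1 x2) (s2 : Sep G t1 t2 t3 y1 y2) : False := by
  have e0 : cfg f n [t1, t2, t3, x1, x2, y1, y2] n = t1 := by simp [cfg]
  have e1 : cfg f n [t1, t2, t3, x1, x2, y1, y2] (n + 1) = t2 := by simp [cfg]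
  have e2 : cfg f n [t1, t2, t3, x1, x2, y1, y2] (n + 2) = t3 := by simp [cfg]
  have e3 : cfg f n [t1, t2, t3, x1, x2, y1, y2] (n + 3) = x1 := by simp [cfg]
  have e4 : cfg f n [t1, t2, t3, x1, x2, y1, y2] (n + 4) = x2 := by simp [cfg]
  have e5 : cfg f n [t1, t2, t3, x1, x2, y1, y2] (n + 5) = y1 := by simp [cfg]
  have e6 : cfg f n [t1, t2, t3, x1, x2, y1, y2] (n + 6) = y2 := by simp [cfg]
  refine verG_sound hT hS hA he hU hR [t1, t2, t3, x1, x2, y1, y2] (ty := [a, a, a, b, b, b', b'])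
    ?_ (by simp) ?_ h
  · intro i hi
    simp only [List.length_cons, List.length_nil] at hi
    interval_cases i
    · simpa using h1
    · simpa using h2
    · simpa using h3
    · simpa using hx1
    · simpa using hx2
    · simpa using hy1
    · simpa using hy2
  · intro c hc
    rw [List.mem_append] at hc
    rcases hc with hc | hc
    · refine sepCl_sound ?_ c hc
      rw [e0, e1, e2, e3, show n + 3 + 1 = n + 4 by omega, e4]; exact s1
    · refine sepCl_sound ?_ c hc
      rw [e0, e1, e2, e5, show n + 5 + 1 = n + 6 by omega, e6]; exact s2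

/-! ### patterns between two sides: no `S_{1,2,3}` in the relation -/

/-- the cross pairs of the pattern; indices `n … n+6` = `x a b1 b2 c1 c2 c3` -/
def s7kn (n : ℕ) : List Lit :=
  [(n, n + 1, true), (n, n + 2, true), (n, n + 4, true), (n + 2, n + 3, true), (n + 4, n + 5, true),
   (n + 5, n + 6, true), (n, n + 6, false), (n + 3, n + 1, false), (n + 3, n + 4, false),
   (n + 3, n + 6, false), (n + 5, n + 1, false), (n + 5, n + 2, false)]

def ver5 (n : ℕ) (adj : List ℕ) (a3 : Bool) (rules : List (ℕ × ℕ × ℕ)) (ty : List ℕ) (ct : Ct) : Bool :=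
  ty.length == 7 && verG n adj a3 rules ty (s7kn n) [] ct

theorem ver5_sound (hT : TF G) (hS : SF G) {a3 : Bool} (hA : a3 = true → ¬ ∃ g, Anch G 8 g)
    {n : ℕ} {adj : List ℕ} {f : ℕ → V} (he : EmbA G n adj f) (hU : UI G n f)
    {rules : List (ℕ × ℕ × ℕ)} (hR : Rul G n f rules) {ty : List ℕ} {ct : Ct}
    (h : ver5 n adj a3 rules ty ct = true) {x a b1 b2 c1 c2 c3 : V}
    (hx : HTy G n f (ty.getD 0 0) x) (ha : HTy G n f (ty.getD 1 0) a)
    (hb1 : HTy G n f (ty.getD 2 0) b1) (hb2 : HTy G n f (ty.getD 3 0) b2)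
    (hc1 : HTy G n f (ty.getD 4 0) c1) (hc2 : HTy G n f (ty.getD 5 0) c2)
    (hc3 : HTy G n f (ty.getD 6 0) c3)
    (p1 : G.Adj x a) (p2 : G.Adj x b1) (p3 : G.Adj x c1) (p4 : G.Adj b1 b2) (p5 : G.Adj c1 c2)
    (p6 : G.Adj c2 c3) (q1 : ¬ G.Adj x c3) (q2 : ¬ G.Adj b2 a) (q3 : ¬ G.Adj b2 c1)
    (q4 : ¬ G.Adj b2 c3) (q5 : ¬ G.Adj c2 a) (q6 : ¬ G.Adj c2 b1) : False := by
  unfold ver5 at h
  rw [Bool.and_eq_true, beq_iff_eq] at h
  have e0 : cfg f n [x, a, b1, b2, c1, c2, c3] n = x := by simp [cfg]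
  have e1 : cfg f n [x, a, b1, b2, c1, c2, c3] (n + 1) = a := by simp [cfg]
  have e2 : cfg f n [x, a, b1, b2, c1, c2, c3] (n + 2) = b1 := by simp [cfg]
  have e3 : cfg f n [x, a, b1, b2, c1, c2, c3] (n + 3) = b2 := by simp [cfg]
  have e4 : cfg f n [x, a, b1, b2, c1, c2, c3] (n + 4) = c1 := by simp [cfg]
  have e5 : cfg f n [x, a, b1, b2, c1, c2, c3] (n + 5) = c2 := by simp [cfg]
  have e6 : cfg f n [x, a, b1, b2, c1, c2, c3] (n + 6) = c3 := by simp [cfg]
  refine verG_sound hT hS hA he hU hR [x, a, b1, b2, c1, c2, c3] (ty := ty) ?_ ?_ (by simp) h.2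
  · intro i hi
    rw [h.1] at hi
    interval_cases i
    · simpa using hx
    · simpa using ha
    · simpa using hb1
    · simpa using hb2
    · simpa using hc1
    · simpa using hc2
    · simpa using hc3
  · intro l hl
    unfold s7kn at hl
    simp only [List.mem_cons, List.not_mem_nil, or_false] at hl
    unfold LitT
    rcases hl with rfl | rfl | rfl | rfl | rfl | rfl | rfl | rfl | rfl | rfl | rfl | rfl <;>
      simp only [e0, e1, e2, e3, e4, e5, e6] <;> simp [*]

end Pool.Agent.H333R2.St.FC
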