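import Pool.Agent.H333R2.St.FC2

/-! From certificate tables to the finite engine. -/

namespace Pool.Agent.H333R2.St.FC

open Pool.Agent.H333R2.St

variable {V : Type} {G : SimpleGraph V}

/-- anchor data -/
structure AD where
  n : ℕ
  adj : List ℕ
  a3 : Bool
  tys : List ℕ
  rules : List (ℕ × ℕ × ℕ)
  nk : ℕ
  kt : List (List ℕ)

namespace AD

variable (D : AD)

def ty (i : ℕ) : ℕ := D.tys.getD i 0

/-- kind number plus one, `0` = no kind -/
def k (i j : ℕ) : ℕ := (D.kt.getD i []).getD j 0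

def kf (i j : Fin D.tys.length) : Option (Fin D.nk) :=
  if h : 0 < D.k i j ∧ D.k i j ≤ D.nk then some ⟨D.k i j - 1, by omega⟩ else none

/-- all kind numbers are in range, symmetric -/
def okK : Bool := (List.range D.tys.length).all fun i => (List.range D.tys.length).all fun j =>
  D.k i j == D.k j i && decide (D.k i j ≤ D.nk)

def all2 (c : List (ℕ × ℕ × Ct)) : Bool := c.all fun x =>
  ver2 D.n D.adj D.a3 D.rules (D.ty x.1) (D.ty x.2.1) x.2.2

def all3 (c : List (ℕ × ℕ × ℕ × Ct)) : Bool := c.all fun x =>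
  ver3 D.n D.adj D.a3 D.rules (D.ty x.1) (D.ty x.2.1) (D.ty x.2.2.1) x.2.2.2

/-- pairs with constant value `false` -/
def all4 (c : List (ℕ × ℕ × Ct)) : Bool := c.all fun x =>
  ver4 D.n D.adj D.a3 D.rules (D.ty x.1) (D.ty x.2.1) false x.2.2

def all5 (c : List (List ℕ × Ct)) : Bool := c.all fun x =>
  ver5 D.n D.adj D.a3 D.rules (x.1.map D.ty) x.2

def cover2 (keys : List (ℕ × ℕ)) : Bool :=
  (List.range D.tys.length).all fun i => (List.range D.tys.length).all fun j =>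
    D.k i j != 0 || (D.ty i == 0 && D.ty j == 0) || keys.contains (i, j) || keys.contains (j, i)

def cover3 (keys : List (ℕ × ℕ × ℕ)) : Bool :=
  (List.range D.tys.length).all fun i =>
    ((List.range D.tys.length).filter fun j => D.k i j != 0).all fun j =>
      ((List.range D.tys.length).filter fun j => D.k i j != 0).all fun l =>
        D.k i j == D.k i l || keys.contains (i, j, l) || keys.contains (i, l, j)

end AD

/-- hypotheses on the graph -/
structure Hyp (D : AD) (G : SimpleGraph V) (f : ℕ → V) : Prop where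
  tf : TF G
  sf : SF G
  ha : D.a3 = true → ¬ ∃ g, Anch G 8 g
  he : EmbA G D.n D.adj f
  hu : UI G D.n f
  hr : Rul G D.n f D.rules

lemma kf_none {D : AD} (hk : D.okK = true) {i j : Fin D.tys.length} (h : D.kf i j = none) :
    D.k i j = 0 := by
  unfold AD.okK at hk
  simp only [List.all_eq_true, List.mem_range, Bool.and_eq_true, decide_eq_true_eq, beq_iff_eq] at hk
  have := (hk i i.2 j j.2).2
  unfold AD.kf at h
  split_ifs at h with h1
  omega

lemma kf_ne_none {D : AD} {i j : Fin D.tys.length} (h : D.kf i j ≠ none) : D.k i j ≠ 0 := by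
  unfold AD.kf at h
  split_ifs at h with h1
  · omega
  · exact absurd rfl h

lemma kf_eq {D : AD} {i j : Fin D.tys.length} {k : Fin D.nk} : D.kf i j = some k ↔
    D.k i j = k.val + 1 := by
  unfold AD.kf
  split_ifs with h1
  · simp only [Option.some.injEq]
    rw [Fin.ext_iff]; simp only
    constructor
    · intro h; omega
    · intro h; omega
  · simp only [reduceCtorEq, false_iff]
    intro h
    exact h1 ⟨by omega, by have := k.2; omega⟩

lemma kf_ne {D : AD} (hk : D.okK = true) {i j l : Fin D.tys.length} (h : D.kf i j ≠ D.kf i l) :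
    D.k i j ≠ D.k i l := by
  intro h'
  apply h
  unfold AD.kf
  simp only [h']

lemma kf_symm {D : AD} (hk : D.okK = true) (i j : Fin D.tys.length) : D.kf i j = D.kf j i := by
  unfold AD.okK at hk
  simp only [List.all_eq_true, List.mem_range, Bool.and_eq_true, decide_eq_true_eq, beq_iff_eq] at hk
  have := (hk i i.2 j j.2).1
  unfold AD.kf
  simp only [this]

theorem inst (D : AD) (hk : D.okK = true) (c2 : List (ℕ × ℕ × Ct)) (h2 : D.all2 c2 = true)
    (hc2 : D.cover2 (c2.map fun x => (x.1, x.2.1)) = true)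
    (c3 : List (ℕ × ℕ × ℕ × Ct)) (h3 : D.all3 c3 = true)
    (hc3 : D.cover3 (c3.map fun x => (x.1, x.2.1, x.2.2.1)) = true)
    (hE : Stmt_ENG) (hB : Stmt_Bondy) : ∃ K : ℕ, ∀ (V : Type) [Fintype V] [Nonempty V]
      (G : SimpleGraph V) (f : ℕ → V), Hyp D G f → ∀ τ : V → Fin D.tys.length,
      (∀ v, HTy G D.n f (D.ty (τ v)) v) →
      (∀ k, ∀ X : Finset V, X.Nonempty → Bd (Hk G τ D.kf (kf_symm hk) k) 6 X) →
      Bd G K Finset.univ := by
  obtain ⟨K, hK⟩ := hE D.tys.length D.nk 6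
  refine ⟨K, fun V _ _ G f H τ hτ hH => ?_⟩
  refine hK V G τ D.kf (kf_symm hk) ?_ ?_ hH
  · intro a b hab
    have hk0 := kf_none hk hab
    unfold AD.cover2 at hc2
    simp only [List.all_eq_true, List.mem_range, Bool.or_eq_true, Bool.and_eq_true, beq_iff_eq,
      bne_iff_ne, List.contains_iff_mem] at hc2
    have key : ∀ i j : Fin D.tys.length, (i.val, j.val) ∈ c2.map (fun x => (x.1, x.2.1)) →
        SC G τ i j := by
      intro i j hij
      rw [List.mem_map] at hij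
      obtain ⟨x, hx, hxe⟩ := hij
      simp only [Prod.mk.injEq] at hxe
      unfold AD.all2 at h2
      rw [List.all_eq_true] at h2
      have hv := h2 x hx
      intro u y y' hu hy hy' huy
      rw [hxe.1, hxe.2] at hv
      have q1 := hτ u; have q2 := hτ y; have q3 := hτ y'
      rw [hu] at q1; rw [hy] at q2; rw [hy'] at q3
      exact ver2_sound H.tf H.sf H.ha H.he H.hu H.hr hv q1 q2 q3 huy
    rcases hc2 a a.2 b b.2 with ((h | h) | h) | h
    · exact absurd hk0 h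
    · left
      intro u y y' hu hy _ huy
      exfalso
      have q1 := hτ u; have q2 := hτ y
      rw [hu, h.1] at q1; rw [hy, h.2] at q2
      exact H.hu _ _ q1 q2 huy
    · left; exact key a b h
    · right; exact key b a h
  · intro a b b' hb hb' hne
    unfold AD.cover3 at hc3
    simp only [List.all_eq_true, List.mem_range, Bool.or_eq_true, beq_iff_eq, bne_iff_ne,
      List.contains_iff_mem, List.mem_filter] at hc3
    have key : ∀ i j l : Fin D.tys.length,
        (i.val, j.val, l.val) ∈ c3.map (fun x => (x.1, x.2.1, x.2.2.1)) → NoThree G τ i j l := by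
      intro i j l hij
      rw [List.mem_map] at hij
      obtain ⟨x, hx, hxe⟩ := hij
      simp only [Prod.mk.injEq] at hxe
      unfold AD.all3 at h3
      rw [List.all_eq_true] at h3
      have hv := h3 x hx
      rw [hxe.1, hxe.2.1, hxe.2.2] at hv
      intro t1 t2 t3 ht1 ht2 ht3 a1 a2 a3 b1 b2 b3
      obtain ⟨x1, x2, hx1, hx2, s1⟩ := hB V _ G τ j t1 t2 t3 a1 a2 a3
      obtain ⟨y1, y2, hy1, hy2, s2⟩ := hB V _ G τ l t1 t2 t3 b1 b2 b3
      have q1 := hτ t1; have q2 := hτ t2; have q3 := hτ t3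
      have q4 := hτ x1; have q5 := hτ x2; have q6 := hτ y1; have q7 := hτ y2
      rw [ht1] at q1; rw [ht2] at q2; rw [ht3] at q3
      rw [hx1] at q4; rw [hx2] at q5; rw [hy1] at q6; rw [hy2] at q7
      exact ver3_sound H.tf H.sf H.ha H.he H.hu H.hr hv q1 q2 q3 q4 q5 q6 q7 s1 s2
    rcases hc3 a a.2 b ⟨b.2, kf_ne_none hb⟩ b' ⟨b'.2, kf_ne_none hb'⟩ with (h | h) | h
    · exact absurd h (kf_ne hk hne)
    · exact key a b b' h
    · intro t1 t2 t3 ht1 ht2 ht3 a1 a2 a3 b1 b2 b3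
      exact key a b' b h t1 t2 t3 ht1 ht2 ht3 b1 b2 b3 a1 a2 a3

/-! ### the relation of a kind -/

namespace AD

variable (D : AD)

/-- kind `κ` (plus one) is the complete bipartite pattern between the disjoint lists `L` and `R` -/
def kindOK (κ : ℕ) (L R : List ℕ) : Bool :=
  ((List.range D.tys.length).all fun i => (List.range D.tys.length).all fun j =>
    D.k i j != κ || (L.contains i && R.contains j) || (R.contains i && L.contains j)) &&
  (L.all fun i => R.all fun j => D.k i j == κ && D.k j i == κ) &&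
  (L.all fun i => !(R.contains i))

/-- the classes of `L` are pairwise nonadjacent -/
def indOK (keys : List (ℕ × ℕ)) (L : List ℕ) : Bool :=
  L.all fun i => L.all fun j => (D.ty i &&& D.ty j) % 2 ^ D.n != 0 || (D.ty i == 0 && D.ty j == 0) ||
    keys.contains (i, j) || keys.contains (j, i)

end AD

lemma kind_split {D : AD} {κ : ℕ} {L R : List ℕ} (h : D.kindOK κ L R = true) :
    (∀ i < D.tys.length, ∀ j < D.tys.length, D.k i j = κ → (i ∈ L ∧ j ∈ R) ∨ (i ∈ R ∧ j ∈ L)) ∧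
    (∀ i ∈ L, ∀ j ∈ R, D.k i j = κ ∧ D.k j i = κ) ∧ (∀ i ∈ L, i ∉ R) := by
  unfold AD.kindOK at h
  simp only [Bool.and_eq_true, List.all_eq_true, List.mem_range, Bool.or_eq_true, bne_iff_ne,
    List.contains_iff_mem, beq_iff_eq] at h
  obtain ⟨⟨h1, h2⟩, h3⟩ := h
  refine ⟨fun i hi j hj hk => ?_, h2, fun i hi hR => ?_⟩
  · rcases h1 i hi j hj with (h | h) | h
    · exact absurd hk h
    · exact Or.inl h
    · exact Or.inr h
  · have := h3 i hi
    simp only [Bool.not_eq_true', ] at this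
    rw [List.contains_iff_mem.2 hR] at this
    exact absurd this (by simp)

lemma ind_of {D : AD} {f : ℕ → V} (H : Hyp D G f) {c4 : List (ℕ × ℕ × Ct)}
    (h4 : D.all4 c4 = true) {L : List ℕ} (h : D.indOK (c4.map fun x => (x.1, x.2.1)) L = true)
    {i j : ℕ} (hi : i ∈ L) (hj : j ∈ L) {u v : V} (hu : HTy G D.n f (D.ty i) u)
    (hv : HTy G D.n f (D.ty j) v) : ¬ G.Adj u v := by
  unfold AD.indOK at h
  simp only [List.all_eq_true, Bool.or_eq_true, Bool.and_eq_true, beq_iff_eq, bne_iff_ne,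
    List.contains_iff_mem] at h
  have key : ∀ i j : ℕ, (i, j) ∈ c4.map (fun x => (x.1, x.2.1)) → ∀ u v, HTy G D.n f (D.ty i) u →
      HTy G D.n f (D.ty j) v → ¬ G.Adj u v := by
    intro i j hij u v hu hv
    rw [List.mem_map] at hij
    obtain ⟨x, hx, hxe⟩ := hij
    simp only [Prod.mk.injEq] at hxe
    unfold AD.all4 at h4
    rw [List.all_eq_true] at h4
    have hver := h4 x hx
    rw [hxe.1, hxe.2] at hver
    have := ver4_sound H.tf H.sf H.ha H.he H.hu H.hr hver hu hv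
    simpa using this
  rcases h i hi j hj with ((h | h) | h) | h
  · obtain ⟨m, hm⟩ := Nat.exists_testBit_of_ne_zero h
    rw [Nat.testBit_mod_two_pow, Nat.testBit_and] at hm
    simp only [Bool.and_eq_true, decide_eq_true_eq] at hm
    have h1 := (hu m hm.1).2 hm.2.1
    have h2 := (hv m hm.1).2 hm.2.2
    exact fun h' => H.tf _ _ _ h1.symm h' h2.symm
  · rw [h.1] at hu; rw [h.2] at hv
    exact H.hu _ _ hu hv
  · exact key i j h u v hu hv
  · exact fun h' => key j i h v u hv hu h'.symm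

/-- the colouring of a kind -/
def kcol (D : AD) (L : List ℕ) (τ : V → Fin D.tys.length) : V → Bool := fun v => L.contains (τ v).val

lemma hk_bip {D : AD} (hk : D.okK = true) {τ : V → Fin D.tys.length} {k : Fin D.nk} {L R : List ℕ}
    (hK : D.kindOK (k.val + 1) L R = true) : Bip (Hk G τ D.kf (kf_symm hk) k) (kcol D L τ) := by
  obtain ⟨h1, h2, h3⟩ := kind_split hK
  intro u v huv
  have h4 := kf_eq.1 huv.2
  unfold kcol
  rcases h1 _ (τ u).2 _ (τ v).2 h4 with ⟨h5, h6⟩ | ⟨h5, h6⟩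
  · have h7 : ((τ v).val) ∉ L := fun h => h3 _ h h6
    rw [List.contains_iff_mem.2 h5]
    intro h8
    exact h7 (List.contains_iff_mem.1 h8.symm)
  · have h7 : ((τ u).val) ∉ L := fun h => h3 _ h h5
    rw [List.contains_iff_mem.2 h6]
    intro h8
    exact h7 (List.contains_iff_mem.1 h8)

/-- sides of the seven vertices of a pattern in the relation -/
lemma hk_sides {D : AD} (hk : D.okK = true) {τ : V → Fin D.tys.length} {k : Fin D.nk} {L R : List ℕ}
    (hK : D.kindOK (k.val + 1) L R = true) {x a b1 b2 c1 c2 c3 : V}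
    (h : S7 (Hk G τ D.kf (kf_symm hk) k) x a b1 b2 c1 c2 c3) :
    ((τ x).val ∈ L ∧ (τ b2).val ∈ L ∧ (τ c2).val ∈ L ∧ (τ a).val ∈ R ∧ (τ b1).val ∈ R ∧
      (τ c1).val ∈ R ∧ (τ c3).val ∈ R) ∨
    ((τ x).val ∈ R ∧ (τ b2).val ∈ R ∧ (τ c2).val ∈ R ∧ (τ a).val ∈ L ∧ (τ b1).val ∈ L ∧
      (τ c1).val ∈ L ∧ (τ c3).val ∈ L) := by
  obtain ⟨h1, h2, h3⟩ := kind_split hK
  obtain ⟨⟨p1, p2, p3, p4, p5, p6⟩, -⟩ := h
  have q1 := h1 _ (τ x).2 _ (τ a).2 (kf_eq.1 p1.2)
  have q2 := h1 _ (τ x).2 _ (τ b1).2 (kf_eq.1 p2.2)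
  have q3 := h1 _ (τ x).2 _ (τ c1).2 (kf_eq.1 p3.2)
  have q4 := h1 _ (τ b1).2 _ (τ b2).2 (kf_eq.1 p4.2)
  have q5 := h1 _ (τ c1).2 _ (τ c2).2 (kf_eq.1 p5.2)
  have q6 := h1 _ (τ c2).2 _ (τ c3).2 (kf_eq.1 p6.2)
  have d : ∀ i, i ∈ L → i ∈ R → False := fun i hi hi' => h3 i hi hi'
  rcases q1 with ⟨x1, a1⟩ | ⟨x1, a1⟩
  · left
    have b1R : (τ b1).val ∈ R := by
      rcases q2 with h | h
      · exact h.2
      · exact absurd h.1 (fun h' => d _ x1 h')
    have c1R : (τ c1).val ∈ R := by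
      rcases q3 with h | h
      · exact h.2
      · exact absurd h.1 (fun h' => d _ x1 h')
    have b2L : (τ b2).val ∈ L := by
      rcases q4 with h | h
      · exact absurd b1R (fun h' => d _ h.1 h')
      · exact h.2
    have c2L : (τ c2).val ∈ L := by
      rcases q5 with h | h
      · exact absurd c1R (fun h' => d _ h.1 h')
      · exact h.2
    have c3R : (τ c3).val ∈ R := by
      rcases q6 with h | h
      · exact h.2
      · exact absurd h.1 (fun h' => d _ c2L h')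
    exact ⟨x1, b2L, c2L, a1, b1R, c1R, c3R⟩
  · right
    have b1R : (τ b1).val ∈ L := by
      rcases q2 with h | h
      · exact absurd x1 (fun h' => d _ h.1 h')
      · exact h.2
    have c1R : (τ c1).val ∈ L := by
      rcases q3 with h | h
      · exact absurd x1 (fun h' => d _ h.1 h')
      · exact h.2
    have b2L : (τ b2).val ∈ R := by
      rcases q4 with h | h
      · exact h.2
      · exact absurd h.1 (fun h' => d _ b1R h')
    have c2L : (τ c2).val ∈ R := by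
      rcases q5 with h | h
      · exact h.2
      · exact absurd h.1 (fun h' => d _ c1R h')
    have c3R : (τ c3).val ∈ L := by
      rcases q6 with h | h
      · exact absurd c2L (fun h' => d _ h.1 h')
      · exact h.2
    exact ⟨x1, b2L, c2L, a1, b1R, c1R, c3R⟩

lemma hk_nadj {D : AD} (hk : D.okK = true) {τ : V → Fin D.tys.length} {k : Fin D.nk} {L R : List ℕ}
    (hK : D.kindOK (k.val + 1) L R = true) {u v : V}
    (h : ¬ (Hk G τ D.kf (kf_symm hk) k).Adj u v)
    (huv : ((τ u).val ∈ L ∧ (τ v).val ∈ R) ∨ ((τ u).val ∈ R ∧ (τ v).val ∈ L)) : ¬ G.Adj u v := by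
  obtain ⟨h1, h2, h3⟩ := kind_split hK
  intro h'
  apply h
  refine ⟨h', kf_eq.2 ?_⟩
  rcases huv with ⟨a, b⟩ | ⟨a, b⟩
  · exact (h2 _ a _ b).1
  · exact (h2 _ b _ a).2

/-- kinds with independent sides -/
theorem hk_sf_good {D : AD} (hk : D.okK = true) {f : ℕ → V} (H : Hyp D G f)
    {τ : V → Fin D.tys.length} (hτ : ∀ v, HTy G D.n f (D.ty (τ v)) v)
    {c4 : List (ℕ × ℕ × Ct)} (h4 : D.all4 c4 = true) {k : Fin D.nk} {L R : List ℕ}
    (hK : D.kindOK (k.val + 1) L R = true)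
    (hL : D.indOK (c4.map fun x => (x.1, x.2.1)) L = true)
    (hR : D.indOK (c4.map fun x => (x.1, x.2.1)) R = true) :
    SF (Hk G τ D.kf (kf_symm hk) k) := by
  intro x a b1 b2 c1 c2 c3 h
  have hs := hk_sides hk hK h
  have iL : ∀ u v, (τ u).val ∈ L → (τ v).val ∈ L → ¬ G.Adj u v := fun u v hu hv =>
    ind_of H h4 hL hu hv (hτ u) (hτ v)
  have iR : ∀ u v, (τ u).val ∈ R → (τ v).val ∈ R → ¬ G.Adj u v := fun u v hu hv =>
    ind_of H h4 hR hu hv (hτ u) (hτ v)
  have nc := @hk_nadj V G D hk τ k L R hK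
  obtain ⟨⟨p1, p2, p3, p4, p5, p6⟩, q1, q2, q3, q4, q5, q6, q7, q8, q9, q10, q11, q12, q13, q14, q15⟩ := h
  refine H.sf x a b1 b2 c1 c2 c3 ⟨⟨p1.1, p2.1, p3.1, p4.1, p5.1, p6.1⟩, ?_⟩
  rcases hs with ⟨x', b2', c2', a', b1', c1', c3'⟩ | ⟨x', b2', c2', a', b1', c1', c3'⟩
  · exact ⟨iL _ _ x' b2', iL _ _ x' c2', nc q3 (Or.inl ⟨x', c3'⟩), iR _ _ a' b1',
      nc q5 (Or.inr ⟨a', b2'⟩), iR _ _ a' c1', nc q7 (Or.inr ⟨a', c2'⟩), iR _ _ a' c3',
      iR _ _ b1' c1', nc q10 (Or.inr ⟨b1', c2'⟩), iR _ _ b1' c3', nc q12 (Or.inl ⟨b2', c1'⟩),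
      iL _ _ b2' c2', nc q14 (Or.inl ⟨b2', c3'⟩), iR _ _ c1' c3'⟩
  · exact ⟨iR _ _ x' b2', iR _ _ x' c2', nc q3 (Or.inr ⟨x', c3'⟩), iL _ _ a' b1',
      nc q5 (Or.inl ⟨a', b2'⟩), iL _ _ a' c1', nc q7 (Or.inl ⟨a', c2'⟩), iL _ _ a' c3',
      iL _ _ b1' c1', nc q10 (Or.inl ⟨b1', c2'⟩), iL _ _ b1' c3', nc q12 (Or.inr ⟨b2', c1'⟩),
      iR _ _ b2' c2', nc q14 (Or.inr ⟨b2', c3'⟩), iL _ _ c1' c3'⟩

/-- all type patterns have certificates -/
def cover5 (keys : List (List ℕ)) (L R : List ℕ) : Bool :=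
  (L.all fun x => L.all fun b2 => L.all fun c2 => R.all fun a => R.all fun b1 => R.all fun c1 =>
    R.all fun c3 => keys.contains [x, a, b1, b2, c1, c2, c3]) &&
  (R.all fun x => R.all fun b2 => R.all fun c2 => L.all fun a => L.all fun b1 => L.all fun c1 =>
    L.all fun c3 => keys.contains [x, a, b1, b2, c1, c2, c3])

theorem hk_sf_pat {D : AD} (hk : D.okK = true) {f : ℕ → V} (H : Hyp D G f)
    {τ : V → Fin D.tys.length} (hτ : ∀ v, HTy G D.n f (D.ty (τ v)) v)
    {c5 : List (List ℕ × Ct)} (h5 : D.all5 c5 = true) {k : Fin D.nk} {L R : List ℕ}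
    (hK : D.kindOK (k.val + 1) L R = true)
    (hc : cover5 (c5.map fun x => x.1) L R = true) :
    SF (Hk G τ D.kf (kf_symm hk) k) := by
  intro x a b1 b2 c1 c2 c3 h
  have hs := hk_sides hk hK h
  have nc := @hk_nadj V G D hk τ k L R hK
  obtain ⟨⟨p1, p2, p3, p4, p5, p6⟩, q1, q2, q3, q4, q5, q6, q7, q8, q9, q10, q11, q12, q13, q14, q15⟩ := h
  unfold cover5 at hc
  simp only [Bool.and_eq_true, List.all_eq_true, List.contains_iff_mem] at hc
  have key : [(τ x).val, (τ a).val, (τ b1).val, (τ b2).val, (τ c1).val, (τ c2).val, (τ c3).val] ∈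
      c5.map (fun x => x.1) → ¬ G.Adj x c3 → ¬ G.Adj b2 a → ¬ G.Adj b2 c1 → ¬ G.Adj b2 c3 →
      ¬ G.Adj c2 a → ¬ G.Adj c2 b1 → False := by
    intro hm r1 r2 r3 r4 r5 r6
    rw [List.mem_map] at hm
    obtain ⟨y, hy, hye⟩ := hm
    unfold AD.all5 at h5
    rw [List.all_eq_true] at h5
    have hv := h5 y hy
    rw [hye] at hv
    exact ver5_sound H.tf H.sf H.ha H.he H.hu H.hr hv (hτ x) (hτ a) (hτ b1) (hτ b2) (hτ c1) (hτ c2)
      (hτ c3) p1.1 p2.1 p3.1 p4.1 p5.1 p6.1 r1 r2 r3 r4 r5 r6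
  rcases hs with ⟨x', b2', c2', a', b1', c1', c3'⟩ | ⟨x', b2', c2', a', b1', c1', c3'⟩
  · refine key (hc.1 _ x' _ b2' _ c2' _ a' _ b1' _ c1' _ c3') (nc q3 (Or.inl ⟨x', c3'⟩)) ?_
      (nc q12 (Or.inl ⟨b2', c1'⟩)) (nc q14 (Or.inl ⟨b2', c3'⟩)) ?_ ?_
    · exact fun h => nc q5 (Or.inr ⟨a', b2'⟩) h.symm
    · exact fun h => nc q7 (Or.inr ⟨a', c2'⟩) h.symm
    · exact fun h => nc q10 (Or.inr ⟨b1', c2'⟩) h.symm
  · refine key (hc.2 _ x' _ b2' _ c2' _ a' _ b1' _ c1' _ c3') (nc q3 (Or.inr ⟨x', c3'⟩)) ?_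
      (nc q12 (Or.inr ⟨b2', c1'⟩)) (nc q14 (Or.inr ⟨b2', c3'⟩)) ?_ ?_
    · exact fun h => nc q5 (Or.inl ⟨a', b2'⟩) h.symm
    · exact fun h => nc q7 (Or.inl ⟨a', c2'⟩) h.symm
    · exact fun h => nc q10 (Or.inl ⟨b1', c2'⟩) h.symm

end Pool.Agent.H333R2.St.FC
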