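import Pool.Agent.H333R2.St.All
import Pool.Agent.Helper856.Cw.Width
import Pool.Agent.Helper856.Pair.Conv1
import Pool.Agent.Helper856.Pair.Olariu
import Pool.Agent.Helper856.Pair.Stmt

/-! Clique-width of `(K₃, S_{1,2,3})`-free and `(paw, S_{1,2,3})`-free graphs. -/

namespace Pool.Agent.H333R2.St

open Finset Classical
open Pool.Agent.H175R2 (Cn)
open Pool.Agent.Helper856.Lcw (gr)
open Pool.Agent.Helper856.Cw.Conv1 (ind_of)

/-- `S_{1,2,3}`: centre `0`, legs `0-1`, `0-2-3`, `0-4-5-6` -/
def S123 : SimpleGraph (Fin 7) := gr 7 [(0, 1), (0, 2), (2, 3), (0, 4), (4, 5), (5, 6)]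

theorem sf_of_free {V : Type} {G : SimpleGraph V} (hF : ¬ S123.IsIndContained G) : SF G := by
  intro x a b1 b2 c1 c2 c3 h
  obtain ⟨⟨e01, e02, e04, e23, e45, e56⟩, n03, n05, n06, n12, n13, n14, n15, n16, n24, n25, n26, n34, n35, n36, n46⟩ := h
  have d01 : x ≠ a := e01.ne
  have d02 : x ≠ b1 := e02.ne
  have d03 : x ≠ b2 := fun h => (fun h => n13 h.symm) (h ▸ e01)
  have d04 : x ≠ c1 := e04.ne
  have d05 : x ≠ c2 := fun h => (fun h => n15 h.symm) (h ▸ e01)
  have d06 : x ≠ c3 := fun h => (fun h => n16 h.symm) (h ▸ e01)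
  have d12 : a ≠ b1 := fun h => n13 (h ▸ e23)
  have d13 : a ≠ b2 := fun h => (fun h => n03 h.symm) (h ▸ e01.symm)
  have d14 : a ≠ c1 := fun h => n15 (h ▸ e45)
  have d15 : a ≠ c2 := fun h => (fun h => n05 h.symm) (h ▸ e01.symm)
  have d16 : a ≠ c3 := fun h => (fun h => n06 h.symm) (h ▸ e01.symm)
  have d23 : b1 ≠ b2 := e23.ne
  have d24 : b1 ≠ c1 := fun h => (fun h => n34 h.symm) (h ▸ e23)
  have d25 : b1 ≠ c2 := fun h => (fun h => n05 h.symm) (h ▸ e02.symm)
  have d26 : b1 ≠ c3 := fun h => (fun h => n06 h.symm) (h ▸ e02.symm)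
  have d34 : b2 ≠ c1 := fun h => (fun h => n03 h.symm) (h ▸ e04.symm)
  have d35 : b2 ≠ c2 := fun h => (fun h => n25 h.symm) (h ▸ e23.symm)
  have d36 : b2 ≠ c3 := fun h => (fun h => n26 h.symm) (h ▸ e23.symm)
  have d45 : c1 ≠ c2 := e45.ne
  have d46 : c1 ≠ c3 := fun h => (fun h => n06 h.symm) (h ▸ e04.symm)
  have d56 : c2 ≠ c3 := e56.ne
  apply hF
  apply ind_of G ![x, a, b1, b2, c1, c2, c3]
  intro i j hij
  fin_cases i <;> fin_cases j
  · exact absurd hij (by decide)
  · exact ⟨d01, fun _ => e01, fun _ => by decide⟩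
  · exact ⟨d02, fun _ => e02, fun _ => by decide⟩
  · exact ⟨d03, fun h => absurd h (by decide), fun h => absurd h n03⟩
  · exact ⟨d04, fun _ => e04, fun _ => by decide⟩
  · exact ⟨d05, fun h => absurd h (by decide), fun h => absurd h n05⟩
  · exact ⟨d06, fun h => absurd h (by decide), fun h => absurd h n06⟩
  · exact absurd hij (by decide)
  · exact absurd hij (by decide)
  · exact ⟨d12, fun h => absurd h (by decide), fun h => absurd h n12⟩
  · exact ⟨d13, fun h => absurd h (by decide), fun h => absurd h n13⟩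
  · exact ⟨d14, fun h => absurd h (by decide), fun h => absurd h n14⟩
  · exact ⟨d15, fun h => absurd h (by decide), fun h => absurd h n15⟩
  · exact ⟨d16, fun h => absurd h (by decide), fun h => absurd h n16⟩
  · exact absurd hij (by decide)
  · exact absurd hij (by decide)
  · exact absurd hij (by decide)
  · exact ⟨d23, fun _ => e23, fun _ => by decide⟩
  · exact ⟨d24, fun h => absurd h (by decide), fun h => absurd h n24⟩
  · exact ⟨d25, fun h => absurd h (by decide), fun h => absurd h n25⟩
  · exact ⟨d26, fun h => absurd h (by decide), fun h => absurd h n26⟩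
  · exact absurd hij (by decide)
  · exact absurd hij (by decide)
  · exact absurd hij (by decide)
  · exact absurd hij (by decide)
  · exact ⟨d34, fun h => absurd h (by decide), fun h => absurd h n34⟩
  · exact ⟨d35, fun h => absurd h (by decide), fun h => absurd h n35⟩
  · exact ⟨d36, fun h => absurd h (by decide), fun h => absurd h n36⟩
  · exact absurd hij (by decide)
  · exact absurd hij (by decide)
  · exact absurd hij (by decide)
  · exact absurd hij (by decide)
  · exact absurd hij (by decide)
  · exact ⟨d45, fun _ => e45, fun _ => by decide⟩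
  · exact ⟨d46, fun h => absurd h (by decide), fun h => absurd h n46⟩
  · exact absurd hij (by decide)
  · exact absurd hij (by decide)
  · exact absurd hij (by decide)
  · exact absurd hij (by decide)
  · exact absurd hij (by decide)
  · exact absurd hij (by decide)
  · exact ⟨d56, fun _ => e56, fun _ => by decide⟩
  · exact absurd hij (by decide)
  · exact absurd hij (by decide)
  · exact absurd hij (by decide)
  · exact absurd hij (by decide)
  · exact absurd hij (by decide)
  · exact absurd hij (by decide)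
  · exact absurd hij (by decide)

theorem cwBuilt_conv {k : ℕ} {V : Type} {G : SimpleGraph V} {l : V → Fin k}
    (h : Pool.Agent.H175R2.CwBuilt k V G l) : Pool.Agent.Helper856.Cw.CwBuilt k V G l := by
  induction h with
  | single i => exact .single i
  | union V W G H l m _ _ ih1 ih2 => exact .union V W G H l m ih1 ih2
  | join V G l i j hij _ ih => exact .join V G l i j hij ih
  | relabel V G l i j _ ih => exact .relabel V G l i j ih

theorem cwBuilt_conv' {k : ℕ} {V : Type} {G : SimpleGraph V} {l : V → Fin k}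
    (h : Pool.Agent.Helper856.Cw.CwBuilt k V G l) : Pool.Agent.H175R2.CwBuilt k V G l := by
  induction h with
  | single i => exact .single i
  | union V W G H l m _ _ ih1 ih2 => exact .union V W G H l m ih1 ih2
  | join V G l i j hij _ ih => exact .join V G l i j hij ih
  | relabel V G l i j _ ih => exact .relabel V G l i j ih

theorem cliqueWidth_conv {V : Type} (G : SimpleGraph V) :
    Pool.Agent.Helper856.Cw.cliqueWidth G = Pool.Agent.H175R2.cliqueWidth G := by
  unfold Pool.Agent.Helper856.Cw.cliqueWidth Pool.Agent.H175R2.cliqueWidth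
  congr 1
  ext k
  constructor
  · rintro ⟨W, G', l, h, e⟩; exact ⟨W, G', l, cwBuilt_conv' h, e⟩
  · rintro ⟨W, G', l, h, e⟩; exact ⟨W, G', l, cwBuilt_conv h, e⟩

theorem cliqueWidth_empty {V : Type} [IsEmpty V] (G : SimpleGraph V) :
    Pool.Agent.Helper856.Cw.cliqueWidth G = 0 := by
  have h1 : {k | Pool.Agent.Helper856.Cw.CwLE G k} = ∅ := by
    ext k
    simp only [Set.mem_setOf_eq, Set.mem_empty_iff_false, iff_false]
    rintro ⟨W, G', l, hb, ⟨e⟩⟩
    have hW : IsEmpty W := e.symm.toEquiv.isEmpty
    have key : ∀ (W : Type) (G' : SimpleGraph W) (l : W → Fin k),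
        Pool.Agent.Helper856.Cw.CwBuilt k W G' l → Nonempty W := by
      intro W G' l hb
      induction hb with
      | single i => exact ⟨()⟩
      | union V W G H l m _ _ ih1 _ => obtain ⟨v⟩ := ih1; exact ⟨Sum.inl v⟩
      | join V G l i j _ _ ih => exact ih
      | relabel V G l i j _ ih => exact ih
    obtain ⟨w⟩ := key W G' l hb
    exact hW.false w
  unfold Pool.Agent.Helper856.Cw.cliqueWidth
  rw [h1]; simp

theorem cw_of_bd {K : ℕ} {V : Type} [Fintype V] {G : SimpleGraph V} (h : Bd G K univ) :
    Pool.Agent.Helper856.Cw.cliqueWidth G ≤ 3 * (K + 1) := by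
  rw [cliqueWidth_conv]; exact bdCw V G K h

theorem tf_of_cliqueFree {V : Type} {G : SimpleGraph V} (h : G.CliqueFree 3) : TF G := by
  intro a b c h1 h2 h3
  exact h {a, b, c} (SimpleGraph.is3Clique_triple_iff.mpr ⟨h1, h3, h2⟩)

/-- `(K₃, S_{1,2,3})`-free graphs have bounded clique-width. -/
theorem cw_K3_S123 : ∃ c : ℕ, ∀ (V : Type) [Finite V] (G : SimpleGraph V),
    G.CliqueFree 3 → ¬ S123.IsIndContained G → Pool.Agent.Helper856.Cw.cliqueWidth G ≤ c := by
  obtain ⟨K, hK⟩ := main_all
  refine ⟨3 * (K + 1), fun V _ G h3 hF => ?_⟩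
  cases isEmpty_or_nonempty V with
  | inl hV => rw [cliqueWidth_empty]; exact Nat.zero_le _
  | inr hV =>
    have : Fintype V := Fintype.ofFinite V
    exact cw_of_bd (hK V G (tf_of_cliqueFree h3) (sf_of_free hF))

/-! ### paws -/

/-- splitting off a part with constant adjacency -/
theorem bd_split {V : Type} {G : SimpleGraph V} {K : ℕ} (hK1 : 1 ≤ K) {A B : Finset V}
    (hd : Disjoint A B) (p : Prop) (h : ∀ a ∈ A, ∀ b ∈ B, (G.Adj a b ↔ p)) (hA : Bd G K A)
    (hB : Bd G K B) : Bd G K (A ∪ B) := by
  have key : ∀ A B : Finset V, Disjoint A B → (∀ a ∈ A, ∀ b ∈ B, (G.Adj a b ↔ p)) → Bd G K A →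
      BT (fun C => tr G C ((A ∪ B) \ C) ≤ K) A := by
    intro A B hd h hA
    refine red_bt_mono hA fun C hC hle => le_trans ?_ hle
    unfold tr
    refine Finset.card_le_card_of_surjOn (fun s => if p then s ∪ B else s) ?_
    intro s hs
    simp only [Finset.coe_image, Set.mem_image, Finset.mem_coe] at hs ⊢
    obtain ⟨x, hx, rfl⟩ := hs
    refine ⟨_, ⟨x, hx, rfl⟩, ?_⟩
    have hxA := hC hx
    ext y
    by_cases hp : p
    · simp only [hp, if_true, trc, Finset.mem_union, Finset.mem_filter, Finset.mem_sdiff]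
      constructor
      · rintro (⟨⟨h1, h2⟩, h3⟩ | h1)
        · exact ⟨⟨Or.inl h1, h2⟩, h3⟩
        · exact ⟨⟨Or.inr h1, fun hy => (Finset.disjoint_left.1 hd) (hC hy) h1⟩, (h x hxA y h1).2 hp⟩
      · rintro ⟨⟨h1 | h1, h2⟩, h3⟩
        · exact Or.inl ⟨⟨h1, h2⟩, h3⟩
        · exact Or.inr h1
    · simp only [hp, if_false, trc, Finset.mem_union, Finset.mem_filter, Finset.mem_sdiff]
      constructor
      · rintro ⟨⟨h1, h2⟩, h3⟩
        exact ⟨⟨Or.inl h1, h2⟩, h3⟩
      · rintro ⟨⟨h1 | h1, h2⟩, h3⟩
        · exact ⟨⟨h1, h2⟩, h3⟩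
        · exact absurd ((h x hxA y h1).1 h3) hp
  unfold Bd
  refine BT.node hd (key A B hd h hA) ?_ ?_
  · have := key B A hd.symm (fun b hb a ha => by rw [G.adj_comm]; exact h a ha b hb) hB
    rwa [Finset.union_comm B A] at this
  · rw [Finset.sdiff_self]
    refine le_trans ?_ hK1
    unfold tr
    refine Finset.card_le_one.2 ?_
    intro s hs t ht
    rw [Finset.mem_image] at hs ht
    obtain ⟨x, _, rfl⟩ := hs
    obtain ⟨y, _, rfl⟩ := ht
    simp [trc]

theorem bd_mono {V : Type} {G : SimpleGraph V} {K K' : ℕ} (h : K ≤ K') {R : Finset V}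
    (hR : Bd G K R) : Bd G K' R := red_bt_mono hR fun _ _ h' => h'.trans h

/-- graphs in which nonadjacency is transitive -/
theorem bd_multipartite {V : Type} {G : SimpleGraph V} :
    ∀ n : ℕ, ∀ R : Finset V, R.card ≤ n → R.Nonempty →
      (∀ x ∈ R, ∀ y ∈ R, ∀ z ∈ R, ¬ G.Adj x y → ¬ G.Adj y z → ¬ G.Adj x z) → Bd G 1 R := by
  intro n
  induction n with
  | zero =>
    intro R hc hne
    rw [Nat.le_zero, card_eq_zero] at hc
    rw [hc] at hne; simp at hne
  | succ n ih =>
    intro R hc hne htr
    obtain ⟨x, hx⟩ := hne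
    by_cases h1 : R = {x}
    · rw [h1]; exact BT.leaf x
    -- the class of x
    by_cases h2 : ∃ y ∈ R, G.Adj x y
    · obtain ⟨y, hy, hxy⟩ := h2
      have e : R = R.filter (fun z => ¬ G.Adj x z) ∪ R.filter (fun z => G.Adj x z) := by
        ext z; simp only [Finset.mem_union, Finset.mem_filter]; tauto
      have c1 : (R.filter (fun z => ¬ G.Adj x z)).card ≤ n := by
        have : (R.filter (fun z => ¬ G.Adj x z)).card < R.card := Finset.card_lt_card (by
          refine ⟨Finset.filter_subset _ _, fun h => ?_⟩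
          exact (Finset.mem_filter.1 (h hy)).2 hxy)
        omega
      have c2 : (R.filter (fun z => G.Adj x z)).card ≤ n := by
        have : (R.filter (fun z => G.Adj x z)).card < R.card := Finset.card_lt_card (by
          refine ⟨Finset.filter_subset _ _, fun h => ?_⟩
          exact G.loopless.irrefl x (Finset.mem_filter.1 (h hx)).2)
        omega
      have b1 := ih _ c1 ⟨x, Finset.mem_filter.2 ⟨hx, G.loopless.irrefl x⟩⟩
        (fun a ha b hb c hc => htr a (Finset.mem_filter.1 ha).1 b (Finset.mem_filter.1 hb).1 c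
          (Finset.mem_filter.1 hc).1)
      have b2 := ih _ c2 ⟨y, Finset.mem_filter.2 ⟨hy, hxy⟩⟩
        (fun a ha b hb c hc => htr a (Finset.mem_filter.1 ha).1 b (Finset.mem_filter.1 hb).1 c
          (Finset.mem_filter.1 hc).1)
      rw [e]
      refine bd_split le_rfl ?_ True ?_ b1 b2
      · rw [Finset.disjoint_left]
        intro z hz hz'
        exact (Finset.mem_filter.1 hz).2 (Finset.mem_filter.1 hz').2
      · intro a ha b hb
        rw [Finset.mem_filter] at ha hb
        simp only [iff_true]
        by_contra hab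
        exact htr x hx a ha.1 b hb.1 ha.2 hab hb.2
    · push Not at h2
      have hr : (R.erase x).Nonempty := by
        obtain ⟨y, hy, hyx⟩ : ∃ y ∈ R, y ≠ x := by
          by_contra hcon
          push Not at hcon
          exact h1 (Finset.eq_singleton_iff_unique_mem.2 ⟨hx, hcon⟩)
        exact ⟨y, Finset.mem_erase.2 ⟨hyx, hy⟩⟩
      have e : R = {x} ∪ R.erase x := by rw [← Finset.insert_eq, Finset.insert_erase hx]
      have c1 : (R.erase x).card ≤ n := by rw [Finset.card_erase_of_mem hx]; omega
      have b2 := ih _ c1 hr (fun a ha b hb c hc => htr a (Finset.mem_of_mem_erase ha) b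
        (Finset.mem_of_mem_erase hb) c (Finset.mem_of_mem_erase hc))
      rw [e]
      refine bd_split le_rfl (by simp) False ?_ (BT.leaf x) b2
      intro a ha b hb
      rw [Finset.mem_singleton] at ha
      subst ha
      simpa using h2 b (Finset.mem_of_mem_erase hb)

theorem bd_paw : ∃ K : ℕ, ∀ (V : Type) [Fintype V] [Nonempty V] (G : SimpleGraph V),
    (∀ S : Finset V, Pool.Agent.Helper856.Cw.NoPaw G S) → SF G → Bd G K univ := by
  obtain ⟨K, hK⟩ := main_all
  refine ⟨max K 1, fun V _ _ G hP hS => ?_⟩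
  have h1K : 1 ≤ max K 1 := le_max_right _ _
  have key : ∀ n : ℕ, ∀ R : Finset V, R.card ≤ n → R.Nonempty → Bd G (max K 1) R := by
    intro n
    induction n with
    | zero =>
      intro R hc hne
      rw [Nat.le_zero, card_eq_zero] at hc
      rw [hc] at hne; simp at hne
    | succ n ih =>
      intro R hc hne
      by_cases hC : Pool.Agent.Helper856.Cw.Conn G R
      · by_cases ht : ∃ a ∈ R, ∃ b ∈ R, ∃ c ∈ R, G.Adj a b ∧ G.Adj a c ∧ G.Adj b c
        · obtain ⟨a, ha, b, hb, c, hcR, hab, hac, hbc⟩ := ht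
          have ho := Pool.Agent.Helper856.Cw.Olariu.olariu hC (hP R) ha hb hcR hab hac hbc
          refine bd_mono h1K (bd_multipartite R.card R le_rfl hne ?_)
          intro x hx y hy z hz hxy hyz hxz
          by_cases h1 : x = y
          · subst h1; exact hyz hxz
          by_cases h2 : y = z
          · subst h2; exact hxy hxz
          have := ho x hx y hy z hz (by rw [SimpleGraph.compl_adj]; exact ⟨h1, hxy⟩)
            (by rw [SimpleGraph.compl_adj]; exact ⟨h2, hyz⟩) hxz.ne
          rw [SimpleGraph.compl_adj] at this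
          exact this.2 hxz
        · push Not at ht
          haveI : Nonempty (R : Set V) := by obtain ⟨r, hr⟩ := hne; exact ⟨⟨r, hr⟩⟩
          have h1 : TF (G.induce (R : Set V)) := by
            rintro ⟨a, ha⟩ ⟨b, hb⟩ ⟨c, hcR⟩ hab hbc hac
            exact ht a ha b hb c hcR hab hac hbc
          have h2 : SF (G.induce (R : Set V)) := by
            intro x a b1 b2 c1 c2 c3 h
            exact hS x a b1 b2 c1 c2 c3 h
          exact bd_mono (le_max_left _ _) (induce V G K R (hK _ _ h1 h2))
      · unfold Pool.Agent.Helper856.Cw.Conn at hC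
        push Not at hC
        obtain ⟨X, hXR, hX, hXne, hno⟩ := hC
        have hX' : (R \ X).Nonempty := by
          rw [Finset.sdiff_nonempty]
          exact fun h => hXne (Finset.Subset.antisymm hXR h)
        have c1 : X.card ≤ n := by
          have : X.card < R.card := Finset.card_lt_card ⟨hXR, fun h => hXne (Finset.Subset.antisymm hXR h)⟩
          omega
        have c2 : (R \ X).card ≤ n := by
          have h1 := Finset.card_sdiff_add_card_eq_card hXR
          have h2 := hX.card_pos
          omega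
        have e : R = X ∪ (R \ X) := (Finset.union_sdiff_of_subset hXR).symm
        rw [e]
        refine bd_split h1K Finset.disjoint_sdiff False ?_ (ih X c1 hX) (ih _ c2 hX')
        intro a ha b hb
        simpa using hno a ha b hb
  exact key _ univ le_rfl univ_nonempty

/-- `(paw, S_{1,2,3})`-free graphs have bounded clique-width. -/
theorem cw_paw_S123 : ∃ c : ℕ, ∀ (V : Type) [Finite V] (G : SimpleGraph V),
    ¬ Pool.Agent.Helper856.PairStmt.Paw.IsIndContained G → ¬ S123.IsIndContained G →
      Pool.Agent.Helper856.Cw.cliqueWidth G ≤ c := by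
  obtain ⟨K, hK⟩ := bd_paw
  refine ⟨3 * (K + 1), fun V _ G h3 hF => ?_⟩
  cases isEmpty_or_nonempty V with
  | inl hV => rw [cliqueWidth_empty]; exact Nat.zero_le _
  | inr hV =>
    have : Fintype V := Fintype.ofFinite V
    exact cw_of_bd (hK V G (fun S => Pool.Agent.Helper856.Cw.Conv1.cv_Paw h3 S) (sf_of_free hF))

end Pool.Agent.H333R2.St
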