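import Pool.Agent.H333R2.St.Defs

/-! The linear engine for long anchors. -/

namespace Pool.Agent.H333R2.St

open Finset Classical

/-! ## Positions -/

lemma modc_lin {n x : ℕ} (h : x < 2 * n) : x % n = if x < n then x else x - n := by
  split_ifs with h1
  · exact Nat.mod_eq_of_lt h1
  · rw [Nat.mod_eq_sub_mod (by omega), Nat.mod_eq_of_lt (by omega)]

lemma Rk_pos_lin {n j : ℕ} {a : Bool × ℕ} (hn : 11 ≤ n) (hj : j < n) (ha : a.2 < n)
    (h : Rk n j a) :
    (a.2 = j + 1 ∨ a.2 + n = j + 1) ∨ (a.2 + 2 = j ∨ a.2 + 2 = j + n) := by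
  unfold Rk at h
  rw [modc_lin (x := j + 1) (by omega), modc_lin (x := a.2 + 2) (by omega)] at h
  split_ifs at h <;> omega

theorem knSymm : Stmt_knSymm := by
  intro n hn a b
  by_cases h : n ≤ a.2 ∨ n ≤ b.2
  · have h' : n ≤ b.2 ∨ n ≤ a.2 := h.symm
    simp only [kn, if_pos h, if_pos h']
  · have h' : ¬ (n ≤ b.2 ∨ n ≤ a.2) := fun h' => h h'.symm
    simp only [kn, if_neg h, if_neg h']
    rw [not_or] at h
    have ha : a.2 < n := by omega
    have hb : b.2 < n := by omega
    by_cases h1 : Rk n a.2 b
    · have h2 : ¬ Rk n b.2 a := by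
        intro h2
        have e1 := Rk_pos_lin hn ha hb h1
        have e2 := Rk_pos_lin hn hb ha h2
        omega
      rw [if_pos h1, if_neg h2, if_pos h1]
    · by_cases h2 : Rk n b.2 a
      · rw [if_neg h1, if_pos h2, if_pos h2]
      · rw [if_neg h1, if_neg h2, if_neg h2, if_neg h1]

lemma kn_some_lin {n k : ℕ} {a b : Bool × ℕ} (h : kn n a b = some k) :
    a.2 < n ∧ b.2 < n ∧ ((k = a.2 ∧ Rk n a.2 b) ∨ (k = b.2 ∧ Rk n b.2 a)) := by
  unfold kn at h
  split_ifs at h with h0 h1 h2
  · rw [not_or] at h0
    simp only [Option.some.injEq] at h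
    exact ⟨by omega, by omega, Or.inl ⟨h.symm, h1⟩⟩
  · rw [not_or] at h0
    simp only [Option.some.injEq] at h
    exact ⟨by omega, by omega, Or.inr ⟨h.symm, h2⟩⟩

/-- kinds occur only between close positions -/
lemma kn_close_lin {n : ℕ} (hn : 11 ≤ n) {a b : Bool × ℕ} (h : kn n a b ≠ none) :
    a.2 < n ∧ b.2 < n ∧ (b.2 = a.2 + 1 ∨ b.2 + n = a.2 + 1 ∨ b.2 + 2 = a.2 ∨ b.2 + 2 = a.2 + n ∨
      a.2 = b.2 + 1 ∨ a.2 + n = b.2 + 1 ∨ a.2 + 2 = b.2 ∨ a.2 + 2 = b.2 + n) := by
  obtain ⟨k, hk⟩ := Option.ne_none_iff_exists'.1 h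
  obtain ⟨ha, hb, h1 | h1⟩ := kn_some_lin hk
  · have := Rk_pos_lin hn ha hb h1.2
    exact ⟨ha, hb, by omega⟩
  · have := Rk_pos_lin hn hb ha h1.2
    exact ⟨ha, hb, by omega⟩

/-- the kind of a pair is close to both positions -/
lemma kn_idx_lin {n k : ℕ} (hn : 11 ≤ n) {a b : Bool × ℕ} (h : kn n a b = some k) :
    k < n ∧ (k = a.2 ∨ a.2 = k + 1 ∨ a.2 + n = k + 1 ∨ a.2 + 2 = k ∨ a.2 + 2 = k + n) := by
  obtain ⟨ha, hb, h1 | h1⟩ := kn_some_lin h
  · exact ⟨by omega, by omega⟩
  · obtain ⟨rfl, h1⟩ := h1
    have := Rk_pos_lin hn hb ha h1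
    exact ⟨by omega, by omega⟩

/-- the neighbouring types -/
noncomputable def Nb_lin (n : ℕ) (a : Bool × ℕ) : Finset (Bool × ℕ) :=
  univ ×ˢ {(a.2 + 1) % n, (a.2 + n - 2) % n, (a.2 + n - 1) % n, (a.2 + 2) % n}

lemma Nb_card_lin (n : ℕ) (a : Bool × ℕ) : (Nb_lin n a).card ≤ 8 := by
  unfold Nb_lin
  rw [card_product]
  have : ({(a.2 + 1) % n, (a.2 + n - 2) % n, (a.2 + n - 1) % n, (a.2 + 2) % n} : Finset ℕ).card
      ≤ 4 := card_le_four
  simp only [card_univ, Fintype.card_bool]
  omega

lemma mem_Nb_lin {n : ℕ} (hn : 11 ≤ n) {a b : Bool × ℕ} (h : kn n a b ≠ none) :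
    b ∈ Nb_lin n a := by
  obtain ⟨ha, hb, h⟩ := kn_close_lin hn h
  unfold Nb_lin
  simp only [mem_product, mem_univ, true_and, mem_insert, mem_singleton]
  rw [modc_lin (x := a.2 + 1) (by omega), modc_lin (x := a.2 + n - 2) (by omega),
    modc_lin (x := a.2 + n - 1) (by omega), modc_lin (x := a.2 + 2) (by omega)]
  split_ifs <;> omega

/-! ## Trees -/

lemma BT_mono_lin {V : Type} {P Q : Finset V → Prop} {R : Finset V} (h : BT P R) :
    (∀ A ⊆ R, P A → Q A) → BT Q R := by
  induction h with
  | leaf x => intro _; exact BT.leaf x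
  | node hd hA hB hP ihA ihB =>
    intro hQ
    refine BT.node hd (ihA fun A' hA' => hQ A' (hA'.trans subset_union_left))
      (ihB fun A' hA' => hQ A' (hA'.trans subset_union_right)) (hQ _ (Subset.refl _) hP)

lemma BT_all_lin {V : Type} {Q : Finset V → Prop} (R : Finset V) :
    R.Nonempty → (∀ A ⊆ R, Q A) → BT Q R := by
  induction R using Finset.induction_on with
  | empty => intro h; exact absurd h (by simp)
  | insert x R hx ih =>
    intro _ hQ
    rcases R.eq_empty_or_nonempty with rfl | hR
    · exact BT.leaf x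
    · rw [insert_eq]
      refine BT.node (by simpa using hx) (BT.leaf x)
        (ih hR fun A hA => hQ A (hA.trans (subset_insert _ _))) (hQ _ (by rw [insert_eq]))

/-- traces determined by a function with few values -/
lemma tr_le_lin {V α : Type} (G : SimpleGraph V) (A Z : Finset V) (f : V → α) (S : Finset α)
    (hf : ∀ x ∈ A, f x ∈ S) (h : ∀ x ∈ A, ∀ y ∈ A, f x = f y → ∀ w ∈ Z, (G.Adj x w ↔ G.Adj y w)) :
    tr G A Z ≤ S.card := by
  unfold tr
  have h1 : (A.image (trc G Z)).card ≤ (A.image f).card := by
    apply card_le_card_of_forall_subsingleton (fun (t : Finset V) (s : α) =>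
      ∃ x ∈ A, trc G Z x = t ∧ f x = s)
    · intro t ht
      obtain ⟨x, hx, rfl⟩ := mem_image.1 ht
      exact ⟨f x, mem_image_of_mem f hx, x, hx, rfl, rfl⟩
    · intro s _ t ht t' ht'
      obtain ⟨_, x, hx, rfl, hs⟩ := ht
      obtain ⟨_, y, hy, rfl, hs'⟩ := ht'
      ext w
      simp only [trc, mem_filter]
      constructor
      · rintro ⟨hw, ha⟩; exact ⟨hw, (h x hx y hy (hs.trans hs'.symm) w hw).1 ha⟩
      · rintro ⟨hw, ha⟩; exact ⟨hw, (h x hx y hy (hs.trans hs'.symm) w hw).2 ha⟩
  refine h1.trans (card_le_card ?_)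
  intro s hs
  obtain ⟨x, hx, rfl⟩ := mem_image.1 hs
  exact hf x hx

/-- splitting the set of vertices -/
lemma tr_union_lin {V : Type} (G : SimpleGraph V) (A B Z : Finset V) :
    tr G (A ∪ B) Z ≤ tr G A Z + tr G B Z := by
  unfold tr
  rw [image_union]
  exact card_union_le _ _

/-! ## The engine -/

/-- the possible values of `cl` for a vertex at position `p` -/
noncomputable def clv_lin (n p : ℕ) : Finset (Option ℕ) :=
  {none, some p, some ((p + n - 1) % n), some ((p + 2) % n)}

lemma clv_card_lin (n p : ℕ) : (clv_lin n p).card ≤ 4 := card_le_four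

/-- the piece of a vertex -/
noncomputable def pc_lin {V : Type} (τ : V → Bool × ℕ) (cl : V → Option ℕ) (v : V) : ℕ :=
  (cl v).elim (2 * (τ v).2 + 1) (fun k => 2 * k)

theorem lin (h1 : Stmt_Glue) (h2 : Stmt_ADT) : Stmt_LIN := by
  intro K
  obtain ⟨M, hM⟩ := h2 8
  refine ⟨3 + 104 * M + 6 * M * K + 2 * M, ?_⟩
  intro V _ _ G n τ hs hn hn3 hpos hnone hno3 hbd
  obtain ⟨lam, cl, hcl, hdet⟩ := hM V (Bool × ℕ) ℕ G τ (kn n) (Nb_lin n) hs (Nb_card_lin n)
    (fun a b h => mem_Nb_lin hn h) hno3
  -- adjacency outside the clusters is determined by the labels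
  have fact : ∀ v v' w, τ v = τ v' → lam v = lam v' → cl v = cl v' →
      ¬ (kn n (τ v) (τ w) ≠ none ∧ cl v = kn n (τ v) (τ w) ∧ cl w = kn n (τ v) (τ w)) →
      (G.Adj v w ↔ G.Adj v' w) := by
    intro v v' w hτ hl hc hk
    by_cases h0 : kn n (τ v) (τ w) = none
    · rw [hnone v w h0, hnone v' w (by rw [← hτ]; exact h0), hτ]
    · exact hdet v w v' w hτ rfl hl rfl hc rfl h0 (fun h => hk ⟨h0, h⟩)
  -- cluster names
  have hclk : ∀ v k, cl v = some k → k < n ∧ (k = (τ v).2 ∨ (τ v).2 = k + 1 ∨
      (τ v).2 + n = k + 1 ∨ (τ v).2 + 2 = k ∨ (τ v).2 + 2 = k + n) := by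
    intro v k hv
    obtain ⟨b, hb⟩ := hcl v k hv
    exact kn_idx_lin hn hb
  have hclv : ∀ v, cl v ∈ clv_lin n (τ v).2 := by
    intro v
    unfold clv_lin
    have hp := hpos v
    rw [modc_lin (x := (τ v).2 + n - 1) (by omega), modc_lin (x := (τ v).2 + 2) (by omega)]
    cases hc : cl v with
    | none => simp
    | some k =>
      obtain ⟨hk, h⟩ := hclk v k hc
      simp only [mem_insert, mem_singleton, reduceCtorEq, Option.some.injEq, false_or]
      split_ifs <;> omega
  set Q : Finset V → Prop := fun A => tr G A (univ \ A) ≤ 3 + 104 * M + 6 * M * K + 2 * M with hQ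
  set W : ℕ → Finset V := fun t => univ.filter (fun v => pc_lin τ cl v = t) with hW
  have hpc : ∀ v, pc_lin τ cl v < 2 * n := by
    intro v
    unfold pc_lin
    have hp := hpos v
    cases hc : cl v with
    | none => simp only [Option.elim]; omega
    | some k => have := (hclk v k hc).1; simp only [Option.elim]; omega
  have hWm : ∀ v s, v ∈ W s ↔ pc_lin τ cl v = s := by
    intro v s
    simp only [hW, mem_filter, mem_univ, true_and]
  have hpn : ∀ v, cl v = none → pc_lin τ cl v = 2 * (τ v).2 + 1 := by
    intro v h; simp only [pc_lin, h, Option.elim]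
  have hps : ∀ v k, cl v = some k → pc_lin τ cl v = 2 * k := by
    intro v k h; simp only [pc_lin, h, Option.elim]
  have hU : (range (2 * n)).biUnion W = univ := by
    ext v
    simp only [mem_biUnion, mem_range, hW, mem_filter, mem_univ, true_and, iff_true]
    exact ⟨_, hpc v, rfl⟩
  have key := h1 V Q (2 * n) W ?_ ?_ ?_ (by rw [hU]; exact univ_nonempty)
  · rw [hU] at key
    exact key
  · -- disjoint
    intro s _ t _ hst
    rw [disjoint_left]
    intro v hv hv'
    simp only [hW, mem_filter, mem_univ, true_and] at hv hv'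
    exact hst (hv.symm.trans hv')
  · -- trees of the pieces
    intro s hs2
    by_cases hne : W s = ∅
    · exact Or.inl hne
    have hne' : (W s).Nonempty := nonempty_iff_ne_empty.2 hne
    right
    rcases Nat.even_or_odd' s with ⟨k, rfl | rfl⟩
    · -- cluster `k`
      have hmem : ∀ v ∈ W (2 * k), cl v = some k := by
        intro v hv
        rw [hWm] at hv
        cases hc : cl v with
        | none => rw [hpn v hc] at hv; omega
        | some k' => rw [hps v k' hc] at hv; congr 1; omega
      refine BT_mono_lin (hbd k (W (2 * k)) hne') ?_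
      intro A hA hAK
      -- labels
      let f : V → (Bool × ℕ) × Fin M × Finset V := fun v =>
        (τ v, lam v, trc (Hk G τ (kn n) hs k) (W (2 * k) \ A) v)
      let PS : Finset ℕ := {k, (k + 1) % n, (k + n - 2) % n}
      have hPS : PS.card ≤ 3 := card_le_three
      let S : Finset ((Bool × ℕ) × Fin M × Finset V) := (univ ×ˢ PS) ×ˢ (univ ×ˢ
        (A.image (trc (Hk G τ (kn n) hs k) (W (2 * k) \ A))))
      have hS : S.card ≤ 6 * M * K := by
        simp only [S, card_product, card_univ, Fintype.card_bool, Fintype.card_fin]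
        have : (A.image (trc (Hk G τ (kn n) hs k) (W (2 * k) \ A))).card ≤ K := hAK
        calc 2 * PS.card * (M * (A.image (trc (Hk G τ (kn n) hs k) (W (2 * k) \ A))).card)
            ≤ 2 * 3 * (M * K) := by gcongr
          _ = 6 * M * K := by ring
      have hle : tr G A (univ \ A) ≤ S.card := by
        apply tr_le_lin G A (univ \ A) f S
        · intro v hv
          simp only [S, f, mem_product, mem_univ, true_and, mem_image]
          refine ⟨?_, v, hv, rfl⟩
          have h := hclk v k (hmem v (hA hv))
          have hp := hpos v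
          simp only [PS, mem_insert, mem_singleton]
          rw [modc_lin (x := k + 1) (by omega), modc_lin (x := k + n - 2) (by omega)]
          split_ifs <;> omega
        · intro x hx y hy hxy w hw
          simp only [f, Prod.mk.injEq] at hxy
          obtain ⟨hτ, hl, ht⟩ := hxy
          have hcx := hmem x (hA hx)
          have hcy := hmem y (hA hy)
          by_cases hk : kn n (τ x) (τ w) = some k ∧ cl w = some k
          · have hwW : w ∈ W (2 * k) \ A := by
              simp only [mem_sdiff, mem_univ, true_and] at hw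
              exact mem_sdiff.2 ⟨(hWm w _).2 (hps w k hk.2), hw⟩
            have h3 : w ∈ trc (Hk G τ (kn n) hs k) (W (2 * k) \ A) x ↔
                w ∈ trc (Hk G τ (kn n) hs k) (W (2 * k) \ A) y := by rw [ht]
            simp only [trc, mem_filter, hwW, true_and] at h3
            simp only [Hk] at h3
            have hky : kn n (τ y) (τ w) = some k := by rw [← hτ]; exact hk.1
            simpa [hk.1, hky] using h3
          · refine fact x y w hτ hl (hcx.trans hcy.symm) ?_
            rintro ⟨_, ha, hb⟩
            exact hk ⟨by rw [← ha, hcx], by rw [hb, ← ha, hcx]⟩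
      show tr G A (univ \ A) ≤ _
      omega
    · -- vertices without cluster at position `k`
      have hmem : ∀ v ∈ W (2 * k + 1), cl v = none ∧ (τ v).2 = k := by
        intro v hv
        rw [hWm] at hv
        cases hc : cl v with
        | none => rw [hpn v hc] at hv; exact ⟨rfl, by omega⟩
        | some k' => rw [hps v k' hc] at hv; omega
      refine BT_all_lin _ hne' ?_
      intro A hA
      let f : V → Bool × Fin M := fun v => ((τ v).1, lam v)
      have hle : tr G A (univ \ A) ≤ (univ : Finset (Bool × Fin M)).card := by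
        apply tr_le_lin G A (univ \ A) f univ
        · intro v _; simp
        · intro x hx y hy hxy w _
          simp only [f, Prod.mk.injEq] at hxy
          have hx' := hmem x (hA hx)
          have hy' := hmem y (hA hy)
          refine fact x y w (Prod.ext hxy.1 (hx'.2.trans hy'.2.symm)) hxy.2
            (hx'.1.trans hy'.1.symm) ?_
          rintro ⟨h0, ha, _⟩
          rw [hx'.1] at ha
          exact h0 ha.symm
      have hc : (univ : Finset (Bool × Fin M)).card = 2 * M := by
        simp [card_univ]
      show tr G A (univ \ A) ≤ _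
      omega
  · -- prefixes
    intro t ht
    set X := (range t).biUnion W with hX
    have hmemX : ∀ v, v ∈ X ↔ pc_lin τ cl v < t := by
      intro v
      simp only [hX, mem_biUnion, mem_range, hW, mem_filter, mem_univ, true_and]
      constructor
      · rintro ⟨a, ha, h⟩; omega
      · intro h; exact ⟨_, h, rfl⟩
    obtain ⟨m, hm⟩ : ∃ m, m = t / 2 := ⟨_, rfl⟩
    have hmn : m ≤ n := by omega
    -- positions inside
    have hin : ∀ v ∈ X, (τ v).2 ≤ m + 1 ∨ n ≤ (τ v).2 + 2 := by
      intro v hv
      rw [hmemX] at hv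
      unfold pc_lin at hv
      have hp := hpos v
      cases hc : cl v with
      | none => rw [hc] at hv; simp only [Option.elim] at hv; omega
      | some k =>
        rw [hc] at hv; simp only [Option.elim] at hv
        have h := hclk v k hc
        omega
    -- positions outside
    have hout : ∀ w, w ∉ X → (τ w).2 = 0 ∨ m ≤ (τ w).2 + 2 := by
      intro v hv
      rw [hmemX] at hv
      unfold pc_lin at hv
      have hp := hpos v
      cases hc : cl v with
      | none => rw [hc] at hv; simp only [Option.elim] at hv; omega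
      | some k =>
        rw [hc] at hv; simp only [Option.elim] at hv
        have h := hclk v k hc
        omega
    set F := X.filter (fun v => 5 ≤ (τ v).2 ∧ (τ v).2 + 5 ≤ m) with hF
    set N := X.filter (fun v => ¬ (5 ≤ (τ v).2 ∧ (τ v).2 + 5 ≤ m)) with hN
    have hXFN : X = F ∪ N := (filter_union_filter_not_eq _ X).symm
    have hZ : tr G X (univ \ X) ≤ tr G F (univ \ X) + tr G N (univ \ X) := by
      refine le_trans (le_of_eq ?_) (tr_union_lin G F N (univ \ X))
      rw [← hXFN]
    -- far vertices
    have hfar : tr G F (univ \ X) ≤ (univ : Finset (Fin 3)).card := by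
      apply tr_le_lin G F (univ \ X) (fun v => (⟨(τ v).2 % 3, Nat.mod_lt _ (by norm_num)⟩ : Fin 3))
      · intro _ _; simp
      · intro x hx y hy hxy w hw
        simp only [Fin.mk.injEq] at hxy
        simp only [hF, mem_filter] at hx hy
        simp only [mem_sdiff, mem_univ, true_and] at hw
        have hw' := hout w hw
        have hpw := hpos w
        have hkx : kn n (τ x) (τ w) = none := by
          by_contra hc
          have := kn_close_lin hn hc
          omega
        have hky : kn n (τ y) (τ w) = none := by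
          by_contra hc
          have := kn_close_lin hn hc
          omega
        rw [hnone x w hkx, hnone y w hky]
        have hpx := hpos x
        have hpy := hpos y
        rw [modc_lin (x := (τ w).2 + n - (τ x).2) (by omega),
          modc_lin (x := (τ w).2 + n - (τ y).2) (by omega)]
        have hcmp : ((τ w).2 < (τ x).2 ∧ (τ w).2 < (τ y).2) ∨
            ((τ x).2 ≤ (τ w).2 ∧ (τ y).2 ≤ (τ w).2) := by omega
        rcases hcmp with hcmp | hcmp
        · rw [if_pos (by omega), if_pos (by omega)]
          omega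
        · rw [if_neg (by omega), if_neg (by omega)]
          omega
    -- near vertices
    have hnear : tr G N (univ \ X) ≤ 104 * M := by
      let PS : Finset ℕ := range 5 ∪ Finset.Icc (m - 4) (m + 1) ∪ {n - 2, n - 1}
      have hPS : PS.card ≤ 13 := by
        refine (card_union_le _ _).trans ?_
        have e1 : (range 5 ∪ Finset.Icc (m - 4) (m + 1)).card ≤ 5 + 6 := by
          refine (card_union_le _ _).trans ?_
          simp only [card_range, Nat.card_Icc]
          omega
        have e2 : ({n - 2, n - 1} : Finset ℕ).card ≤ 2 := card_le_two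
        omega
      let S : Finset ((Bool × ℕ) × Fin M × Option ℕ) :=
        ((univ : Finset Bool) ×ˢ PS).biUnion (fun a =>
          ({a} : Finset (Bool × ℕ)) ×ˢ ((univ : Finset (Fin M)) ×ˢ clv_lin n a.2))
      have hS : S.card ≤ 104 * M := by
        refine card_biUnion_le.trans ?_
        calc ∑ a ∈ (univ : Finset Bool) ×ˢ PS,
              (({a} : Finset (Bool × ℕ)) ×ˢ ((univ : Finset (Fin M)) ×ˢ clv_lin n a.2)).card
            ≤ ∑ a ∈ (univ : Finset Bool) ×ˢ PS, M * 4 := by
              refine sum_le_sum fun a _ => ?_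
              simp only [card_product, card_singleton, card_univ, Fintype.card_fin, one_mul]
              exact Nat.mul_le_mul_left _ (clv_card_lin n a.2)
          _ = 2 * PS.card * (M * 4) := by
              rw [sum_const, card_product]
              simp
          _ ≤ 2 * 13 * (M * 4) := by gcongr
          _ = 104 * M := by ring
      refine le_trans ?_ hS
      apply tr_le_lin G N (univ \ X) (fun v => (τ v, lam v, cl v)) S
      · intro v hv
        simp only [hN, mem_filter] at hv
        have hi := hin v hv.1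
        have hp := hpos v
        simp only [S, mem_biUnion, mem_product, mem_singleton, mem_univ, true_and]
        refine ⟨τ v, ?_, rfl, hclv v⟩
        simp only [PS, mem_union, mem_range, Finset.mem_Icc, mem_insert, mem_singleton]
        omega
      · intro x hx y hy hxy w hw
        simp only [Prod.mk.injEq] at hxy
        obtain ⟨hτ, hl, hc⟩ := hxy
        refine fact x y w hτ hl hc ?_
        rintro ⟨h0, ha, hb⟩
        -- same cluster: impossible
        simp only [hN, mem_filter] at hx
        simp only [mem_sdiff, mem_univ, true_and] at hw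
        have e1 := (hmemX x).1 hx.1
        have e2 : ¬ pc_lin τ cl w < t := fun h => hw ((hmemX w).2 h)
        obtain ⟨k, hk⟩ := Option.ne_none_iff_exists'.1 h0
        rw [hk] at ha hb
        simp only [pc_lin, ha, hb, Option.elim] at e1 e2
        omega
    have h3 : (univ : Finset (Fin 3)).card = 3 := by simp
    show tr G X (univ \ X) ≤ _
    omega

end Pool.Agent.H333R2.St
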