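import Pool.Agent.H333R2.St.Defs

/-! Module A1 of project St (helper333): trees and clique-width, gluing. -/

namespace Pool.Agent.H333R2.St

open Finset Classical
open Pool.Agent.H175R2 (Cn cliqueWidth)

theorem dt_of_bt {V : Type} [Fintype V] {G : SimpleGraph V} {K : ℕ} {A : Finset V}
    (h : BT (fun A => tr G A (univ \ A) ≤ K) A) : Pool.Agent.H175R2.DT G K univ A := by
  induction h with
  | leaf x => exact Pool.Agent.H175R2.DT.leaf x
  | @node A B hd _ _ h iA iB =>
    refine Pool.Agent.H175R2.DT.node hd iA iB (le_trans ?_ h)
    unfold Pool.Agent.H175R2.nt tr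
    exact Finset.card_erase_le

theorem bdCw : Stmt_BdCw := by
  intro V _ G K h
  exact Pool.Agent.H175R2.cliqueWidth_le_of_dt (dt_of_bt h)

theorem glue : Stmt_Glue := by
  intro V Q L W
  induction L with
  | zero =>
    intro _ _ _ h
    simp at h
  | succ L ih =>
    intro hdis hbt hQ hne
    have hU : (range (L + 1)).biUnion W = (range L).biUnion W ∪ W L := by
      rw [Finset.range_add_one, Finset.biUnion_insert, Finset.union_comm]
    have ih' := ih (fun s hs t ht => hdis s (by omega) t (by omega))
      (fun s hs => hbt s (by omega)) (fun t ht => hQ t (by omega))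
    rcases hbt L (by omega) with h | h
    · rw [hU, h, Finset.union_empty] at hne ⊢
      exact ih' hne
    · by_cases hp : ((range L).biUnion W).Nonempty
      · have hdj : Disjoint ((range L).biUnion W) (W L) := by
          rw [Finset.disjoint_biUnion_left]
          intro s hs
          have hs' := Finset.mem_range.1 hs
          exact hdis s (by omega) L (by omega) (by omega)
        have hQ' := hQ (L + 1) le_rfl
        rw [hU] at hQ' ⊢
        exact BT.node hdj (ih' hp) h hQ'
      · rw [Finset.not_nonempty_iff_eq_empty] at hp
        rw [hU, hp, Finset.empty_union]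
        exact h

end Pool.Agent.H333R2.St
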